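import Pool.Agent.MonFPT.MainStep

/-!
# Following a solution through the slicings

A state without equations is a list of pieces; a solution is a list of decorated pieces.
-/

set_option autoImplicit false

namespace Pool.Agent.MonFPT

open Matrix

variable {d : ℕ}

/-- A piece: a dimension and a chart. -/
structure Piece (d : ℕ) where
  /-- the dimension -/
  e : ℕ
  /-- the chart -/
  c : Chart d e

/-- A piece with a multiset of points. -/
structure Deco (d : ℕ) where
  /-- the piece -/
  P : Piece d
  /-- the points of the solution in the piece -/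
  s : Multiset (Fin P.e → ℤ)

/-- the contribution to the target -/
def Deco.val (D : Deco d) : Fin d → ℤ := (D.s.map D.P.c.pt).sum

/-- the number of different points -/
def Deco.cnt (D : Deco d) : ℕ := D.s.toFinset.card

/-- the points are in `S` and there is at least one -/
structure Deco.OK (S : Set (Fin d → ℤ)) (D : Deco d) : Prop where
  ne : D.s ≠ 0
  mem : ∀ x ∈ D.s, D.P.c.pt x ∈ S

/-- The list of pieces carries a solution with at most `κ` different points. -/
def Follows (S : Set (Fin d → ℤ)) (a : Fin d → ℤ) (κ : ℕ) (L : List (Piece d)) : Prop :=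
  ∃ DL : List (Deco d), DL.map Deco.P = L ∧ (∀ D ∈ DL, D.OK S) ∧ (DL.map Deco.val).sum = a ∧
    (DL.map Deco.cnt).sum ≤ κ

lemma Deco.OK.one_le {S : Set (Fin d → ℤ)} {D : Deco d} (h : D.OK S) : 1 ≤ D.cnt := by
  unfold Deco.cnt
  rw [Nat.one_le_iff_ne_zero, Ne, Finset.card_eq_zero, Multiset.toFinset_eq_empty]
  exact h.ne

lemma length_le_sum_cnt {S : Set (Fin d → ℤ)} (DL : List (Deco d)) (h1 : ∀ D ∈ DL, D.OK S) :
    DL.length ≤ (DL.map Deco.cnt).sum := by
  induction DL with
  | nil => simp
  | cons D DL ih =>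
    rw [List.map_cons, List.sum_cons, List.length_cons]
    have h2 := ih fun D' hD' => h1 D' (List.mem_cons_of_mem _ hD')
    have h3 := (h1 D List.mem_cons_self).one_le
    omega

lemma Follows.length_le {S : Set (Fin d → ℤ)} {a : Fin d → ℤ} {κ : ℕ} {L : List (Piece d)}
    (h : Follows S a κ L) : L.length ≤ κ := by
  obtain ⟨DL, rfl, h1, _, h2⟩ := h
  rw [List.length_map]
  exact (length_le_sum_cnt DL h1).trans h2

lemma Follows.ne_nil {S : Set (Fin d → ℤ)} {a : Fin d → ℤ} {κ : ℕ} {L : List (Piece d)}
    (h : Follows S a κ L) (ha : a ≠ 0) : L ≠ [] := by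
  obtain ⟨DL, rfl, h1, h2, _⟩ := h
  intro hL
  rw [List.map_eq_nil_iff] at hL
  subst hL
  simp at h2
  exact ha h2.symm

/-- The identity piece. -/
def idPiece (d : ℕ) : Piece d := ⟨d, ⟨0, 1⟩⟩

lemma idPiece_pt (x : Fin d → ℤ) : (idPiece d).c.pt x = x := by
  change (0 : Fin d → ℤ) + (1 : Matrix (Fin d) (Fin d) ℤ) *ᵥ x = x
  rw [zero_add, one_mulVec]

lemma Follows.start {S : Set (Fin d → ℤ)} (hS : IsConv S) {a : Fin d → ℤ} (ha : a ≠ 0)
    (hmem : a ∈ AddSubmonoid.closure S) : Follows S a (2 ^ d) [idPiece d] := by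
  obtain ⟨s, hs1, hs2, hs3⟩ := exists_few S hS a hmem
  refine ⟨[⟨idPiece d, s⟩], rfl, ?_, ?_, ?_⟩
  · intro D hD
    rw [List.mem_singleton] at hD
    subst hD
    refine ⟨?_, fun x hx => ?_⟩
    · intro h0
      change s = 0 at h0
      rw [h0, Multiset.sum_zero] at hs2
      exact ha hs2.symm
    · have h1 : (idPiece d).c.pt x = x := idPiece_pt x
      change (idPiece d).c.pt x ∈ S
      rw [h1]; exact hs1 x hx
  · simp only [List.map_cons, List.map_nil, List.sum_cons, List.sum_nil, add_zero, Deco.val]
    have : s.map (idPiece d).c.pt = s := by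
      conv_rhs => rw [← Multiset.map_id s]
      exact Multiset.map_congr rfl fun x _ => idPiece_pt x
    rw [this, hs2]
  · rw [List.map_cons, List.map_nil, List.sum_cons, List.sum_nil, add_zero]
    change s.toFinset.card ≤ 2 ^ d
    exact hs3

/-- The slice of a piece of positive dimension. -/
def Piece.slice {e : ℕ} (c : Chart d (e + 1)) (W : Matrix (Fin (e + 1)) (Fin (e + 1)) ℤ) (g : ℤ) :
    Piece d := ⟨e, c.slice W g⟩

section slice

variable {e : ℕ} (c : Chart d (e + 1)) (U W : Matrix (Fin (e + 1)) (Fin (e + 1)) ℤ)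
  (s : Multiset (Fin (e + 1) → ℤ))

/-- The label of a point. -/
def lab (x : Fin (e + 1) → ℤ) : ℤ := (U *ᵥ x) 0

/-- The points in the slice `g`, in the coordinates of the slice. -/
def sl (g : ℤ) : Multiset (Fin e → ℤ) :=
  (s.filter fun x => lab U x = g).map fun x => Fin.tail (U *ᵥ x)

lemma sl_pt (hWU : W * U = 1) (g : ℤ) :
    (sl U s g).map (c.slice W g).pt = (s.filter fun x => lab U x = g).map c.pt := by
  unfold sl
  rw [Multiset.map_map]
  refine Multiset.map_congr rfl fun x hx => ?_
  rw [Multiset.mem_filter] at hx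
  rw [Function.comp_apply, c.pt_eq_slice hWU x]
  rw [show (U *ᵥ x) 0 = g from hx.2]

/-- The labels which occur. -/
def labs : Finset ℤ := (s.map (lab U)).toFinset

lemma sum_filter_lab {M : Type} [AddCommMonoid M] (f : (Fin (e + 1) → ℤ) → M) (T : Finset ℤ)
    (hT : ∀ x ∈ s, lab U x ∈ T) :
    ∑ g ∈ T, ((s.filter fun x => lab U x = g).map f).sum = (s.map f).sum := by
  induction s using Multiset.induction_on with
  | empty => simp
  | cons a s ih =>
    have h1 := ih fun x hx => hT x (Multiset.mem_cons_of_mem hx)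
    have h2 : ∀ g, (((a ::ₘ s).filter fun x => lab U x = g).map f).sum =
        (if lab U a = g then f a else 0) + ((s.filter fun x => lab U x = g).map f).sum := by
      intro g
      by_cases hg : lab U a = g
      · rw [Multiset.filter_cons_of_pos (p := fun x => lab U x = g) _ hg, if_pos hg,
          Multiset.map_cons, Multiset.sum_cons]
      · rw [Multiset.filter_cons_of_neg (p := fun x => lab U x = g) _ hg, if_neg hg, zero_add]
    rw [Finset.sum_congr rfl fun g _ => h2 g, Finset.sum_add_distrib, h1,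
      Finset.sum_ite_eq, if_pos (hT a (Multiset.mem_cons_self a s)), Multiset.map_cons,
      Multiset.sum_cons]

lemma card_filter_lab (T : Finset ℤ) :
    ∑ g ∈ T, (s.filter fun x => lab U x = g).toFinset.card ≤ s.toFinset.card := by
  have h1 : ∀ g, (s.filter fun x => lab U x = g).toFinset =
      s.toFinset.filter fun x => lab U x = g := fun g => Multiset.toFinset_filter _ _
  rw [Finset.sum_congr rfl fun g _ => by rw [h1 g]]
  rw [← Finset.card_biUnion]
  · exact Finset.card_le_card fun x hx => by
      rw [Finset.mem_biUnion] at hx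
      obtain ⟨g, _, hx⟩ := hx
      exact Finset.mem_of_mem_filter x hx
  · intro g _ g' _ hne
    rw [Function.onFun, Finset.disjoint_left]
    intro x hx hx'
    rw [Finset.mem_filter] at hx hx'
    exact hne (hx.2.symm.trans hx'.2)

/-- **Slicing.** If all points of the piece `c` in the solution have labels in the list `G` then
some sublist of `G` can be chosen such that the solution is carried by the other pieces and the
slices with these labels. -/
theorem slice_follows {S : Set (Fin d → ℤ)} {a : Fin d → ℤ} {κ : ℕ} (hWU : W * U = 1)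
    (L1 L2 : List (Deco d)) (G : List ℤ) (hG : G.Nodup)
    (hOK : ∀ D ∈ L1 ++ ⟨⟨e + 1, c⟩, s⟩ :: L2, D.OK S)
    (hsum : ((L1 ++ ⟨⟨e + 1, c⟩, s⟩ :: L2).map Deco.val).sum = a)
    (hcnt : ((L1 ++ ⟨⟨e + 1, c⟩, s⟩ :: L2).map Deco.cnt).sum ≤ κ)
    (hlab : ∀ x ∈ s, lab U x ∈ G) :
    ∃ G' : List ℤ, G'.Sublist G ∧
      Follows S a κ (L1.map Deco.P ++ L2.map Deco.P ++ G'.map (Piece.slice c W)) := by
  classical
  set G' : List ℤ := G.filter fun g => g ∈ labs U s with hG'
  refine ⟨G', List.filter_sublist, ?_⟩
  set N : List (Deco d) := G'.map fun g => ⟨Piece.slice c W g, sl U s g⟩ with hN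
  have hnd : G'.Nodup := hG.filter _
  have hT : G'.toFinset = labs U s := by
    ext g
    rw [List.mem_toFinset, hG', List.mem_filter, decide_eq_true_iff]
    refine ⟨fun h => h.2, fun h => ⟨?_, h⟩⟩
    unfold labs at h
    rw [Multiset.mem_toFinset, Multiset.mem_map] at h
    obtain ⟨x, hx, rfl⟩ := h
    exact hlab x hx
  have hsumT : ∀ (M : Type) [AddCommMonoid M] (f : ℤ → M),
      (G'.map f).sum = ∑ g ∈ labs U s, f g := by
    intro M _ f
    rw [← hT]
    exact (List.sum_toFinset f hnd).symm
  refine ⟨L1 ++ L2 ++ N, ?_, ?_, ?_, ?_⟩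
  · rw [List.map_append, List.map_append, hN, List.map_map]
    rfl
  · intro D hD
    rw [List.mem_append, List.mem_append] at hD
    rcases hD with (hD | hD) | hD
    · exact hOK D (List.mem_append_left _ hD)
    · exact hOK D (List.mem_append_right _ (List.mem_cons_of_mem _ hD))
    · rw [hN, List.mem_map] at hD
      obtain ⟨g, hg, rfl⟩ := hD
      have hg2 : g ∈ labs U s := by
        rw [← hT, List.mem_toFinset]; exact hg
      unfold labs at hg2
      rw [Multiset.mem_toFinset, Multiset.mem_map] at hg2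
      obtain ⟨x, hx, hxg⟩ := hg2
      have hD0 := hOK ⟨⟨e + 1, c⟩, s⟩ (by simp)
      constructor
      · intro h0
        have h1 : Fin.tail (U *ᵥ x) ∈ sl U s g :=
          Multiset.mem_map_of_mem _ (Multiset.mem_filter.2 ⟨hx, hxg⟩)
        change sl U s g = 0 at h0
        rw [h0] at h1
        exact absurd h1 (Multiset.notMem_zero _)
      · intro y hy
        change (c.slice W g).pt y ∈ S
        have h1 : (c.slice W g).pt y ∈ (sl U s g).map (c.slice W g).pt :=
          Multiset.mem_map_of_mem _ hy
        rw [sl_pt c U W s hWU g, Multiset.mem_map] at h1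
        obtain ⟨z, hz, hzy⟩ := h1
        rw [← hzy]
        exact hD0.mem z (Multiset.mem_of_mem_filter hz)
  · rw [← hsum]
    simp only [List.map_append, List.map_cons, List.sum_append, List.sum_cons]
    have h1 : (N.map Deco.val).sum = Deco.val ⟨⟨e + 1, c⟩, s⟩ := by
      rw [hN, List.map_map, hsumT]
      have h2 : ∀ g, (Deco.val ∘ fun g => (⟨Piece.slice c W g, sl U s g⟩ : Deco d)) g =
          ((s.filter fun x => lab U x = g).map c.pt).sum := by
        intro g
        change ((sl U s g).map (c.slice W g).pt).sum = _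
        rw [sl_pt c U W s hWU g]
      rw [Finset.sum_congr rfl fun g _ => h2 g]
      exact sum_filter_lab U s c.pt _ fun x hx => by
        unfold labs
        rw [Multiset.mem_toFinset]
        exact Multiset.mem_map_of_mem _ hx
    rw [h1]
    abel
  · refine le_trans ?_ hcnt
    simp only [List.map_append, List.map_cons, List.sum_append, List.sum_cons]
    have h1 : (N.map Deco.cnt).sum ≤ Deco.cnt ⟨⟨e + 1, c⟩, s⟩ := by
      rw [hN, List.map_map, hsumT]
      refine le_trans (Finset.sum_le_sum fun g _ => ?_) (card_filter_lab U s (labs U s))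
      change (sl U s g).toFinset.card ≤ _
      unfold sl
      rw [Multiset.toFinset_map]
      exact Finset.card_image_le
    omega

end slice

/-- The measure of a list of pieces. -/
def meas (κ : ℕ) (L : List (Piece d)) : ℕ := (L.map fun P => (κ + 1) ^ P.e).sum

/-- Slicing one piece into at most `κ` slices decreases the measure. -/
lemma meas_slice_lt (κ : ℕ) (L1 L2 N : List (Piece d)) {e : ℕ} (c : Chart d (e + 1))
    (hN : ∀ P ∈ N, P.e = e) (hlen : N.length ≤ κ) :
    meas κ (L1 ++ N ++ L2) < meas κ (L1 ++ ⟨e + 1, c⟩ :: L2) := by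
  unfold meas
  simp only [List.map_append, List.map_cons, List.sum_append, List.sum_cons]
  have h1 : (N.map fun P => (κ + 1) ^ P.e).sum = N.length * (κ + 1) ^ e := by
    clear hlen
    induction N with
    | nil => simp
    | cons P N ih =>
      rw [List.map_cons, List.sum_cons, List.length_cons,
        ih fun P' hP' => hN P' (List.mem_cons_of_mem _ hP'), hN P List.mem_cons_self]
      ring
  rw [h1]
  have h2 : N.length * (κ + 1) ^ e < (κ + 1) ^ (e + 1) := by
    rw [pow_succ, mul_comm ((κ + 1) ^ e)]
    exact Nat.mul_lt_mul_of_pos_right (by omega) (by positivity)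
  omega

/-- A zero-dimensional piece cannot be sliced; the measure of a list of at most `κ` pieces of
dimension at most `d` is bounded. -/
lemma meas_le (κ : ℕ) (L : List (Piece d)) (hL : L.length ≤ κ) (he : ∀ P ∈ L, P.e ≤ d) :
    meas κ L ≤ κ * (κ + 1) ^ d := by
  unfold meas
  refine le_trans ?_ (Nat.mul_le_mul_right _ hL)
  clear hL
  induction L with
  | nil => simp
  | cons P L ih =>
    rw [List.map_cons, List.sum_cons, List.length_cons]
    have h1 := ih fun P' hP' => he P' (List.mem_cons_of_mem _ hP')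
    have h2 : (κ + 1) ^ P.e ≤ (κ + 1) ^ d :=
      Nat.pow_le_pow_right (by omega) (he P List.mem_cons_self)
    rw [Nat.add_mul, one_mul]
    omega

/-- From a decorated list to a family indexed by the positions of the list of pieces. -/
lemma Follows.family {S : Set (Fin d → ℤ)} {a : Fin d → ℤ} {κ : ℕ} {L : List (Piece d)}
    (h : Follows S a κ L) :
    ∃ s : ∀ j : Fin L.length, Multiset (Fin (L.get j).e → ℤ),
      (∀ j, s j ≠ 0) ∧ (∀ j, ∀ x ∈ s j, (L.get j).c.pt x ∈ S) ∧
        ∑ j, ((s j).map (L.get j).c.pt).sum = a ∧ ∑ j, (s j).toFinset.card ≤ κ := by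
  obtain ⟨DL, rfl, h1, h2, h3⟩ := h
  have key : ∀ j : Fin (DL.map Deco.P).length, ∃ s : Multiset (Fin ((DL.map Deco.P).get j).e → ℤ),
      (⟨(DL.map Deco.P).get j, s⟩ : Deco d) =
        DL.get (Fin.cast (List.length_map _) j) := by
    intro j
    have h4 : (DL.map Deco.P).get j =
        (DL.get (Fin.cast (List.length_map _) j)).P := by
      simp
    rw [h4]
    exact ⟨_, rfl⟩
  choose s hs using key
  have hsum : ∀ (M : Type) [AddCommMonoid M] (f : Deco d → M),
      ∑ j, f ⟨(DL.map Deco.P).get j, s j⟩ = (DL.map f).sum := by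
    intro M _ f
    have h5 : (DL.map f).sum = ∑ i : Fin DL.length, f (DL.get i) := by
      rw [← List.sum_ofFn]
      congr 1
      conv_lhs => rw [← List.ofFn_get DL]
      rw [List.map_ofFn]
      rfl
    rw [h5]
    refine Fintype.sum_equiv (finCongr (List.length_map _)) _ _ fun j => ?_
    rw [hs j]
    rfl
  refine ⟨s, fun j => ?_, fun j x hx => ?_, ?_, ?_⟩
  · have h4 := h1 _ (List.get_mem DL (Fin.cast (List.length_map _) j))
    rw [← hs j] at h4
    exact h4.ne
  · have h4 := h1 _ (List.get_mem DL (Fin.cast (List.length_map _) j))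
    rw [← hs j] at h4
    exact h4.mem x hx
  · rw [← h2]
    exact hsum _ Deco.val
  · refine le_trans (le_of_eq ?_) h3
    exact hsum _ Deco.cnt

/-- From a family to a decorated list. -/
lemma follows_of_family {S : Set (Fin d → ℤ)} {a : Fin d → ℤ} {κ : ℕ} (L : List (Piece d))
    (s : ∀ j : Fin L.length, Multiset (Fin (L.get j).e → ℤ)) (h1 : ∀ j, s j ≠ 0)
    (h2 : ∀ j, ∀ x ∈ s j, (L.get j).c.pt x ∈ S)
    (h3 : ∑ j, ((s j).map (L.get j).c.pt).sum = a) (h4 : ∑ j, (s j).toFinset.card ≤ κ) :
    Follows S a κ L := by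
  refine ⟨List.ofFn fun j => ⟨L.get j, s j⟩, ?_, ?_, ?_, ?_⟩
  · rw [List.map_ofFn]
    exact List.ofFn_get L
  · intro D hD
    rw [List.mem_ofFn] at hD
    obtain ⟨j, rfl⟩ := hD
    exact ⟨h1 j, h2 j⟩
  · rw [List.map_ofFn, List.sum_ofFn, ← h3]
    rfl
  · rw [List.map_ofFn, List.sum_ofFn]
    exact h4

end Pool.Agent.MonFPT
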