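import Pool.Agent.MonFPT.LemmaI

/-!
# The two steps of the main algorithm, for a general modulus and general families of points
-/

set_option autoImplicit false

namespace Pool.Agent.MonFPT

open Matrix

section

variable {d D : ℕ} {S : Set (Fin d → ℤ)} {J : Type} [Fintype J] [DecidableEq J] {e : J → ℕ}
  {φ : ∀ j, Chart d (e j)} {ψ : ∀ j, Chart D (e j)} {t : Fin D → ℤ} {I : J → Type}
  [∀ j, Fintype (I j)]

/-- The points found in Step 1: usable points in all residue classes. -/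
structure FoundI (S : Set (Fin d → ℤ)) (e : J → ℕ) (φ : ∀ j, Chart d (e j))
    (ψ : ∀ j, Chart D (e j)) (t : Fin D → ℤ) (K τ : ℕ) (p : ∀ j, I j → Fin (e j) → ℤ) :
    Prop where
  mem : ∀ j s, p j s ∈ pset S e φ j
  usable : ∀ j s, IsUsable S e φ ψ t j (p j s)
  mod : ∀ j (s : Fin (e j) → Fin K), ∃ u : I j, ∀ i, ∃ m : ℤ, p j u i = τ * s i + τ * K * m

/-- The centre of a piece. -/
def centerI (p : ∀ j, I j → Fin (e j) → ℤ) (j : J) : (Fin (e j) → ℚ) × ℚ := (cenI (p j), 1)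

/-- The deep points of Step 2. -/
def DeepI (S : Set (Fin d → ℤ)) (e : J → ℕ) (φ : ∀ j, Chart d (e j))
    (ψ : ∀ j, Chart D (e j)) (t : Fin D → ℤ) (p : ∀ j, I j → Fin (e j) → ℤ) (θ : ℚ) :
    Set (∀ j, (Fin (e j) → ℚ) × ℚ) :=
  Deep (fun j => hcone (pset S e φ j)) (Ltot e ψ) (toQ t) θ (centerI p)

variable {K τ : ℕ} {p : ∀ j, I j → Fin (e j) → ℤ}

omit [DecidableEq J] in
lemma FoundI.nonempty (h : FoundI S e φ ψ t K τ p) (hK : 0 < K) (j : J) : Nonempty (I j) := by
  obtain ⟨u, _⟩ := h.mod j fun _ => ⟨0, hK⟩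
  exact ⟨u⟩

omit [DecidableEq J] [Fintype J] in
lemma centerI_eq (p : ∀ j, I j → Fin (e j) → ℤ) (j : J) (hI : 0 < Fintype.card (I j)) :
    centerI p j = ∑ s, ((Fintype.card (I j) : ℚ))⁻¹ •
      ((toQ (p j s), 1) : (Fin (e j) → ℚ) × ℚ) := by
  have hk : (Fintype.card (I j) : ℚ) ≠ 0 := by exact_mod_cast hI.ne'
  ext i
  · rw [Prod.fst_sum, Finset.sum_apply]
    simp only [centerI, cenI, Prod.smul_fst, Pi.smul_apply, Finset.sum_apply, Finset.mul_sum,
      smul_eq_mul]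
  · rw [Prod.snd_sum]
    simp only [centerI, Prod.smul_snd, smul_eq_mul, mul_one, Finset.sum_const, Finset.card_univ,
      nsmul_eq_mul]
    exact (mul_inv_cancel₀ hk).symm

lemma FoundI.center_mem (h : FoundI S e φ ψ t K τ p) (hK : 0 < K) (j : J) :
    centerI p j ∈ hcone (pset S e φ j) := by
  have := h.nonempty hK j
  rw [centerI_eq p j Fintype.card_pos]
  refine Submodule.sum_mem _ fun s _ => PointedCone.smul_mem _ (by positivity) ?_
  exact Submodule.subset_span ⟨_, h.mem j s, rfl⟩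

/-- There is a very deep point. -/
lemma FoundI.exists_deep [Nonempty J] (h : FoundI S e φ ψ t K τ p) (hK : 0 < K) (κ : ℕ)
    (hκ : Fintype.card J ≤ κ) :
    ∃ z, z ∈ DeepI S e φ ψ t p (2 * (1 / (2 * κ))) := by
  have hκ0 : (0 : ℚ) < κ := by
    have : 0 < Fintype.card J := Fintype.card_pos
    exact_mod_cast lt_of_lt_of_le this hκ
  have hz : ∀ j s, ∃ z ∈ Rel (fun j => hcone (pset S e φ j)) (Ltot e ψ) (toQ t),
      z j - (toQ (p j s), 1) ∈ hcone (pset S e φ j) := by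
    intro j s
    have h1 := h.usable j s
    rw [isUsable_iff, usable_iff] at h1
    · exact h1
    · exact Submodule.subset_span ⟨_, h.mem j s, rfl⟩
  choose z hz1 hz2 using hz
  have hI : ∀ j, 0 < Fintype.card (I j) := fun j => by
    have := h.nonempty hK j
    exact Fintype.card_pos
  obtain ⟨y, hy1, hy2⟩ := exists_center (fun j => hcone (pset S e φ j)) (Ltot e ψ) (toQ t) κ hκ
    (fun j (_ : I j) => ((Fintype.card (I j) : ℚ))⁻¹)
    (fun j _ => by positivity)
    (fun j => by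
      have hk : (Fintype.card (I j) : ℚ) ≠ 0 := by exact_mod_cast (hI j).ne'
      simp only [Finset.sum_const, Finset.card_univ, nsmul_eq_mul]
      exact mul_inv_cancel₀ hk)
    (fun j s => ((toQ (p j s), 1) : (Fin (e j) → ℚ) × ℚ))
    (fun j s => Submodule.subset_span ⟨_, h.mem j s, rfl⟩) z hz1 hz2
  refine ⟨y, fun j => ?_, hy1.2⟩
  have h3 := hy2 j
  rw [← centerI_eq p j (hI j)] at h3
  have h4 : (2 * (1 / (2 * κ)) : ℚ) = (κ : ℚ)⁻¹ := by field_simp
  rw [h4]
  exact h3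

/-- **YES.** An integral deep point is a solution. -/
theorem FoundI.yes (hS : IsConv S) (h : FoundI S e φ ψ t K τ p) (hK : 0 < K) (κ : ℕ) (hκ : 1 ≤ κ)
    (hKe : ∀ j, (e j + 1).factorial ∣ K)
    (hτ : ∀ j, 2 * κ * ((e j + 1) * (e j + 1) * Fintype.card (I j)) ≤ τ * K)
    (y : ∀ j, (Fin (e j) → ℤ) × ℤ)
    (hy : (fun j => cast2 (y j)) ∈ DeepI S e φ ψ t p (1 / (2 * κ))) (j : J) :
    y j ∈ hmon (pset S e φ j) := by
  have hκ0 : (1 : ℚ) ≤ κ := by exact_mod_cast hκ
  have hne := h.nonempty hK j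
  have hcard : 0 < Fintype.card (I j) := Fintype.card_pos
  have hτ0 : 0 < τ := by
    have h1 := hτ j
    by_contra hcon
    have h2 : τ = 0 := by omega
    rw [h2, zero_mul] at h1
    have h3 : 0 < 2 * κ * ((e j + 1) * (e j + 1) * Fintype.card (I j)) := by positivity
    omega
  refine lemmaI (pset S e φ j) (isConv_pset hS j) K hK (hKe j) τ hτ0 (1 / (2 * κ))
    (by positivity) ?_ (p j) (h.mem j) (h.mod j) ?_ (y j).1 (y j).2 ?_
  · rw [div_le_div_iff₀ (by positivity) (by norm_num)]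
    linarith
  · have h1 := hτ j
    have h2 : (2 * κ * ((e j + 1) * (e j + 1) * (Fintype.card (I j) : ℚ))) ≤ τ * K := by
      exact_mod_cast h1
    rw [mul_one_div, le_div_iff₀ (by positivity)]
    linarith
  · have h1 := hy.1 j
    have h2 : cast2 (y j) - (1 / (2 * κ) : ℚ) • centerI p j =
        (toQ (y j).1 - (1 / (2 * κ) : ℚ) • cenI (p j), ((y j).2 : ℚ) - 1 / (2 * κ)) := by
      ext i
      · simp [cast2, centerI]
      · simp [cast2, centerI]
    rw [h2] at h1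
    exact h1

/-- **Flat.** If the deep points are flat then all points of the relaxation are. -/
theorem FoundI.flat [Nonempty J] (h : FoundI S e φ ψ t K τ p) (hK : 0 < K) (κ : ℕ)
    (hκ : Fintype.card J ≤ κ) (U : (∀ j, (Fin (e j) → ℚ) × ℚ) →ₗ[ℚ] ℚ) (v G : ℚ)
    (hflat : ∀ y ∈ DeepI S e φ ψ t p (1 / (2 * κ)), |U y - v| ≤ G)
    (s : ∀ j, Multiset (Fin (e j) → ℤ)) (hs : IsSol S e φ ψ t s) :
    |U (fun j => cast2 (mval (s j))) - v| ≤ 3 * G := by
  obtain ⟨z, hz⟩ := h.exists_deep hK κ hκ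
  exact flat_of_Deep_flat _ _ _ _ (by positivity) _ (h.center_mem hK) hz U v G hflat _ hs.rel

/-- The deep part is not empty (so the search cannot report that it is empty). -/
theorem FoundI.deep_nonempty [Nonempty J] (h : FoundI S e φ ψ t K τ p) (hK : 0 < K) (κ : ℕ)
    (hκ : Fintype.card J ≤ κ) (s : ∀ j, Multiset (Fin (e j) → ℤ)) (hs : IsSol S e φ ψ t s) :
    (DeepI S e φ ψ t p (1 / (2 * κ))).Nonempty :=
  ⟨_, mid_mem_Deep _ _ _ _ _ hs.rel (h.exists_deep hK κ hκ).choose_spec⟩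

end

end Pool.Agent.MonFPT
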