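import Pool.Agent.MonFPT.LemmaA

/-!
# Decompositions with few distinct elements (Eisenbrand and Shmonin)
-/

set_option autoImplicit false

namespace Pool.Agent.MonFPT

/-- The sum of the squares of the coordinates. -/
def sq {d : ℕ} (z : Fin d → ℤ) : ℤ := ∑ i, z i ^ 2

lemma sq_nonneg' {d : ℕ} (z : Fin d → ℤ) : 0 ≤ sq z := Finset.sum_nonneg fun i _ => sq_nonneg _

/-- The potential of a multiset of vectors. -/
def pot {d : ℕ} (s : Multiset (Fin d → ℤ)) : ℕ := (s.map fun z => (sq z).toNat).sum

lemma mem_closure_iff_multiset {M : Type} [AddCommMonoid M] (S : Set M) (a : M) :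
    a ∈ AddSubmonoid.closure S ↔ ∃ s : Multiset M, (∀ z ∈ s, z ∈ S) ∧ s.sum = a := by
  constructor
  · intro h
    exact AddSubmonoid.exists_multiset_of_mem_closure h
  · rintro ⟨s, hs, rfl⟩
    exact AddSubmonoid.multiset_sum_mem _ _ fun z hz => AddSubmonoid.subset_closure (hs z hz)

/-- An element of the monoid generated by the integer points of a convex set in dimension `d` is a
sum of generators among which at most `2 ^ d` are distinct. -/
theorem exists_few {d : ℕ} (S : Set (Fin d → ℤ)) (hS : IsConv S) (a : Fin d → ℤ)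
    (ha : a ∈ AddSubmonoid.closure S) :
    ∃ s : Multiset (Fin d → ℤ), (∀ z ∈ s, z ∈ S) ∧ s.sum = a ∧ s.toFinset.card ≤ 2 ^ d := by
  classical
  rw [mem_closure_iff_multiset] at ha
  have hex : ∃ m : ℕ, ∃ s : Multiset (Fin d → ℤ), (∀ z ∈ s, z ∈ S) ∧ s.sum = a ∧ pot s = m := by
    obtain ⟨s, hs, h⟩ := ha
    exact ⟨pot s, s, hs, h, rfl⟩
  obtain ⟨s, hs, hsum, hpot⟩ := Nat.find_spec hex
  refine ⟨s, hs, hsum, ?_⟩
  by_contra hcard
  push Not at hcard
  -- two distinct elements congruent mod 2
  have hmaps : ∀ z ∈ s.toFinset, (fun i => (z i : ZMod 2)) ∈ (Finset.univ : Finset (Fin d → ZMod 2)) :=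
    fun _ _ => Finset.mem_univ _
  have hlt : (Finset.univ : Finset (Fin d → ZMod 2)).card < s.toFinset.card := by
    simpa using hcard
  obtain ⟨x, hx, y, hy, hxy, hcong⟩ :=
    Finset.exists_ne_map_eq_of_card_lt_of_maps_to hlt hmaps
  have hx' : x ∈ s := by simpa using hx
  have hy' : y ∈ s := by simpa using hy
  have hmid : ∀ i, ∃ m : ℤ, x i + y i = 2 * m := by
    intro i
    have h1 : ((x i : ZMod 2)) = (y i : ZMod 2) := congrFun hcong i
    have h2 : (x i) ≡ (y i) [ZMOD 2] := by
      exact_mod_cast (ZMod.intCast_eq_intCast_iff _ _ 2).mp h1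
    have h3 : (2 : ℤ) ∣ x i + y i := by
      have := h2
      unfold Int.ModEq at this
      omega
    exact h3
  choose m hm using hmid
  have hmS : m ∈ S := by
    refine hS _ ?_
    have hxh := subset_convexHull ℚ (toQ '' S) (Set.mem_image_of_mem toQ (hs x hx'))
    have hyh := subset_convexHull ℚ (toQ '' S) (Set.mem_image_of_mem toQ (hs y hy'))
    have := (convex_convexHull ℚ (toQ '' S)) hxh hyh (a := 1 / 2) (b := 1 / 2) (by norm_num)
      (by norm_num) (by norm_num)
    convert this using 1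
    ext i
    have h := hm i
    have hQ : (x i : ℚ) + y i = 2 * m i := by exact_mod_cast h
    simp only [toQ_apply, Pi.add_apply, Pi.smul_apply, smul_eq_mul]
    linarith
  -- decompose the multiset
  obtain ⟨t, ht⟩ := Multiset.exists_cons_of_mem hx'
  have hy2 : y ∈ t := by
    rw [ht] at hy'
    rcases Multiset.mem_cons.mp hy' with h | h
    · exact absurd h.symm hxy
    · exact h
  obtain ⟨u, hu⟩ := Multiset.exists_cons_of_mem hy2
  have hsu : s = x ::ₘ y ::ₘ u := by rw [ht, hu]
  have hnew : ∃ s' : Multiset (Fin d → ℤ), (∀ z ∈ s', z ∈ S) ∧ s'.sum = a ∧ pot s' < pot s := by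
    refine ⟨m ::ₘ m ::ₘ u, ?_, ?_, ?_⟩
    · intro z hz
      rw [Multiset.mem_cons, Multiset.mem_cons] at hz
      rcases hz with rfl | rfl | h
      · exact hmS
      · exact hmS
      · exact hs z (by rw [hsu]; simp [h])
    · rw [← hsum, hsu]
      simp only [Multiset.sum_cons, ← add_assoc]
      congr 1
      ext i
      simp only [Pi.add_apply]
      linarith [hm i]
    · rw [hsu]
      simp only [pot, Multiset.map_cons, Multiset.sum_cons]
      have key : 2 * sq m < sq x + sq y := by
        obtain ⟨i, hi⟩ := Function.ne_iff.mp hxy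
        have h1 : ∀ j, 2 * m j ^ 2 ≤ x j ^ 2 + y j ^ 2 := fun j => by
          have h4 : 4 * m j ^ 2 = (x j + y j) ^ 2 := by rw [hm j]; ring
          have h5 : 2 * (x j ^ 2 + y j ^ 2) - (x j + y j) ^ 2 = (x j - y j) ^ 2 := by ring
          have h6 := sq_nonneg (x j - y j)
          linarith
        have h2 : 2 * m i ^ 2 < x i ^ 2 + y i ^ 2 := by
          have h3 : 0 < (x i - y i) ^ 2 := by
            have : x i - y i ≠ 0 := sub_ne_zero.mpr hi
            positivity
          have h4 : 4 * m i ^ 2 = (x i + y i) ^ 2 := by rw [hm i]; ring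
          have h5 : 2 * (x i ^ 2 + y i ^ 2) - (x i + y i) ^ 2 = (x i - y i) ^ 2 := by ring
          linarith
        simp only [sq, Finset.mul_sum, ← Finset.sum_add_distrib]
        exact Finset.sum_lt_sum (fun j _ => h1 j) ⟨i, Finset.mem_univ _, h2⟩
      have h1 := sq_nonneg' m
      have h2 := sq_nonneg' x
      have h3 := sq_nonneg' y
      omega
  obtain ⟨s', hs', hsum', hlt'⟩ := hnew
  exact Nat.find_min hex (hpot ▸ hlt') ⟨s', hs', hsum', rfl⟩

end Pool.Agent.MonFPT
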