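import Pool.Agent.MonFPT.MainStep

/-!
# The oracles

All cuts are strict: at the integral point `x` the cut `h` satisfies `h y < h x` for all `y` in the
set `K`.
-/

set_option autoImplicit false

namespace Pool.Agent.MonFPT

open Matrix

/-- `h` is a (strict) cut for `K` at the integral point `x`. -/
def Cut {m : ℕ} (K : Set (Fin m → ℚ)) (h x : Fin m → ℤ) : Prop :=
  ∀ y ∈ K, dotQ h y < dotQ h (toQ x)

lemma dotQ_toQ {m : ℕ} (h x : Fin m → ℤ) : dotQ h (toQ x) = ((h ⬝ᵥ x : ℤ) : ℚ) := by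
  simp only [dotQ, dotProduct, toQ_apply]
  push_cast
  rfl

lemma dotQ_neg {m : ℕ} (h : Fin m → ℤ) (y : Fin m → ℚ) : dotQ (-h) y = -dotQ h y := by
  simp only [dotQ, Pi.neg_apply, Int.cast_neg, neg_mul, Finset.sum_neg_distrib]

lemma Chart.ptQ_toQ {n m : ℕ} (c : Chart n m) (z : Fin m → ℤ) : c.ptQ (toQ z) = toQ (c.pt z) :=
  c.ptQ_cast z

/-- A cut gives a cut in the source of a chart. -/
lemma cut_of_chart {n m : ℕ} (c : Chart n m) (K : Set (Fin m → ℚ)) (h : Fin n → ℤ)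
    (x : Fin m → ℤ) (H : ∀ y ∈ K, dotQ h (c.ptQ y) < ((h ⬝ᵥ c.pt x : ℤ) : ℚ)) :
    Cut K (c.pull h) x := by
  intro y hy
  have h1 := H y hy
  rw [← dotQ_toQ, ← c.ptQ_toQ, c.dotQ_ptQ, c.dotQ_ptQ h (toQ x)] at h1
  linarith

/-- The inverse image of a set with a cut. -/
lemma Cut.pull {n m : ℕ} (c : Chart n m) {K : Set (Fin n → ℚ)} {h : Fin n → ℤ} {x : Fin m → ℤ}
    (hc : Cut K h (c.pt x)) : Cut {y | c.ptQ y ∈ K} (c.pull h) x := by
  refine cut_of_chart c _ h x fun y hy => ?_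
  rw [← dotQ_toQ]
  exact hc _ hy

/-! ## (O1) Integer programming -/

/-- The integral points of the polyhedron. -/
def polyS {r d : ℕ} (A : Matrix (Fin r) (Fin d) ℤ) (b : Fin r → ℤ) : Set (Fin d → ℤ) :=
  {z | ∀ i, A i ⬝ᵥ z ≤ b i}

lemma isConv_polyS {r d : ℕ} (A : Matrix (Fin r) (Fin d) ℤ) (b : Fin r → ℤ) :
    IsConv (polyS A b) := by
  intro x hx i
  have hconv : Convex ℚ {z : Fin d → ℚ | dotQ (A i) z ≤ b i} := by
    intro u hu v hv s t hs ht hst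
    change dotQ (A i) (s • u + t • v) ≤ b i
    have h1 : dotQ (A i) (s • u + t • v) = s * dotQ (A i) u + t * dotQ (A i) v := by
      rw [← dotL_apply, ← dotL_apply, ← dotL_apply, map_add, map_smul, map_smul, smul_eq_mul,
        smul_eq_mul]
    rw [h1]
    have hu' : dotQ (A i) u ≤ b i := hu
    have hv' : dotQ (A i) v ≤ b i := hv
    calc s * dotQ (A i) u + t * dotQ (A i) v ≤ s * b i + t * b i :=
          add_le_add (mul_le_mul_of_nonneg_left hu' hs) (mul_le_mul_of_nonneg_left hv' ht)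
      _ = b i := by rw [← add_mul, hst, one_mul]
  have h2 : convexHull ℚ (toQ '' polyS A b) ⊆ {z : Fin d → ℚ | dotQ (A i) z ≤ b i} := by
    refine convexHull_min ?_ hconv
    rintro _ ⟨z, hz, rfl⟩
    change dotQ (A i) (toQ z) ≤ b i
    rw [dotQ_toQ]
    exact_mod_cast hz i
  have h3 := h2 hx
  change dotQ (A i) (toQ x) ≤ b i at h3
  rw [dotQ_toQ] at h3
  exact_mod_cast h3

/-- The integer program: a point of a piece with a negative value of the functional `w` on the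
column. -/
def ilpK {r d D m : ℕ} (A : Matrix (Fin r) (Fin d) ℤ) (b : Fin r → ℤ) (φ : Chart d m)
    (ψ : Chart D m) (w : Fin D → ℤ) : Set (Fin m → ℚ) :=
  {y | (∀ i, dotQ (A i) (φ.ptQ y) ≤ b i) ∧ dotQ w (ψ.ptQ y) ≤ -1}

lemma ilp_cut_row {r d D m : ℕ} (A : Matrix (Fin r) (Fin d) ℤ) (b : Fin r → ℤ) (φ : Chart d m)
    (ψ : Chart D m) (w : Fin D → ℤ) (x : Fin m → ℤ) (i : Fin r) (hx : b i < A i ⬝ᵥ φ.pt x) :
    Cut (ilpK A b φ ψ w) (φ.pull (A i)) x := by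
  refine cut_of_chart φ _ _ x fun y hy => (hy.1 i).trans_lt ?_
  exact_mod_cast hx

lemma ilp_cut_fun {r d D m : ℕ} (A : Matrix (Fin r) (Fin d) ℤ) (b : Fin r → ℤ) (φ : Chart d m)
    (ψ : Chart D m) (w : Fin D → ℤ) (x : Fin m → ℤ) (hx : -1 < w ⬝ᵥ ψ.pt x) :
    Cut (ilpK A b φ ψ w) (ψ.pull w) x := by
  refine cut_of_chart ψ _ _ x fun y hy => hy.2.trans_lt ?_
  have h1 : ((-1 : ℤ) : ℚ) < ((w ⬝ᵥ ψ.pt x : ℤ) : ℚ) := by exact_mod_cast hx
  simpa using h1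

lemma ilp_mem_iff {r d D m : ℕ} (A : Matrix (Fin r) (Fin d) ℤ) (b : Fin r → ℤ) (φ : Chart d m)
    (ψ : Chart D m) (w : Fin D → ℤ) (x : Fin m → ℤ) :
    toQ x ∈ ilpK A b φ ψ w ↔ φ.pt x ∈ polyS A b ∧ w ⬝ᵥ ψ.pt x ≤ -1 := by
  unfold ilpK polyS
  rw [Set.mem_ofPred_eq, Set.mem_ofPred_eq, φ.ptQ_toQ, ψ.ptQ_toQ, dotQ_toQ]
  simp only [dotQ_toQ]
  constructor
  · rintro ⟨h1, h2⟩
    refine ⟨fun i => by exact_mod_cast h1 i, ?_⟩
    have h3 : ((w ⬝ᵥ ψ.pt x : ℤ) : ℚ) ≤ ((-1 : ℤ) : ℚ) := by simpa using h2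
    exact_mod_cast h3
  · rintro ⟨h1, h2⟩
    refine ⟨fun i => by exact_mod_cast h1 i, ?_⟩
    have h3 : ((w ⬝ᵥ ψ.pt x : ℤ) : ℚ) ≤ ((-1 : ℤ) : ℚ) := by exact_mod_cast h2
    simpa using h3

/-- The integer program in terms of columns: it has no solution iff `w` is nonnegative on all
columns of the piece. -/
lemma ilp_infeasible_iff {r d D m : ℕ} (A : Matrix (Fin r) (Fin d) ℤ) (b : Fin r → ℤ)
    (φ : Chart d m) (ψ : Chart D m) (w : Fin D → ℤ) :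
    (∀ x : Fin m → ℤ, toQ x ∉ ilpK A b φ ψ w) ↔
      ∀ x : Fin m → ℤ, φ.pt x ∈ polyS A b → 0 ≤ w ⬝ᵥ ψ.pt x := by
  simp only [ilp_mem_iff]
  constructor
  · intro h x hx
    by_contra hcon
    exact h x ⟨hx, by omega⟩
  · rintro h x ⟨hx, hw⟩
    have := h x hx
    omega

/-! ## (O2) The cone -/

/-- The functionals which separate `t` from the cone generated by `C`. -/
def coneK {D : ℕ} (C : Set (Fin D → ℤ)) (t : Fin D → ℤ) (R : ℤ) : Set (Fin D → ℚ) :=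
  {y | (∀ i, |y i| ≤ R) ∧ (∀ c ∈ C, 0 ≤ dotQ c y) ∧ dotQ t y ≤ -1}

lemma dotQ_eq_dot {D : ℕ} (c : Fin D → ℤ) (y : Fin D → ℚ) : dotQ c y = toQ c ⬝ᵥ y := rfl

lemma cone_hull_nonneg {D : ℕ} {C : Set (Fin D → ℤ)} {y : Fin D → ℚ}
    (hy : ∀ c ∈ C, 0 ≤ dotQ c y) {z : Fin D → ℚ}
    (hz : z ∈ PointedCone.hull ℚ (toQ '' C)) : 0 ≤ z ⬝ᵥ y := by
  refine Submodule.span_induction ?_ ?_ ?_ ?_ hz
  · rintro _ ⟨c, hc, rfl⟩
    exact hy c hc
  · simp
  · intro a b _ _ ha hb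
    rw [add_dotProduct]
    exact add_nonneg ha hb
  · rintro ⟨r, hr⟩ a _ ha
    have : ((⟨r, hr⟩ : {c : ℚ // 0 ≤ c}) • a) ⬝ᵥ y = r * (a ⬝ᵥ y) := by
      rw [← smul_eq_mul, ← smul_dotProduct]; rfl
    rw [this]
    exact mul_nonneg hr ha

/-- If `t` is in the cone then there is nothing to find. -/
lemma coneK_empty {D : ℕ} {C : Set (Fin D → ℤ)} {t : Fin D → ℤ} (R : ℤ)
    (ht : toQ t ∈ PointedCone.hull ℚ (toQ '' C)) : coneK C t R = ∅ := by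
  rw [Set.eq_empty_iff_forall_notMem]
  rintro y ⟨_, h1, h2⟩
  have h3 := cone_hull_nonneg h1 ht
  rw [dotQ_eq_dot] at h2
  linarith

/-- If `t` is not in the cone then there is an integral functional of bounded size. -/
lemma coneK_point {D : ℕ} (C : Set (Fin D → ℤ)) (Δ : ℤ) (hΔ : 1 ≤ Δ)
    (hC : ∀ c ∈ C, ∀ i, |c i| ≤ Δ) (t : Fin D → ℤ) (ht : ∀ i, |t i| ≤ Δ)
    (hnot : toQ t ∉ PointedCone.hull ℚ (toQ '' C)) :
    ∃ w : Fin D → ℤ, toQ w ∈ coneK C t ((D.factorial : ℤ) * Δ ^ D) := by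
  obtain ⟨w, h1, h2, h3⟩ := bounded_farkas C Δ hΔ hC t ht hnot
  refine ⟨w, fun i => ?_, fun c hc => ?_, ?_⟩
  · rw [toQ_apply, ← Int.cast_abs]
    exact_mod_cast h1 i
  · rw [dotQ_toQ, dotProduct_comm]
    exact_mod_cast h2 c hc
  · rw [dotQ_toQ, dotProduct_comm]
    have h4 : w ⬝ᵥ t ≤ -1 := by omega
    have h5 : ((w ⬝ᵥ t : ℤ) : ℚ) ≤ ((-1 : ℤ) : ℚ) := by exact_mod_cast h4
    simpa using h5

lemma cone_cut_target {D : ℕ} (C : Set (Fin D → ℤ)) (t : Fin D → ℤ) (R : ℤ) (x : Fin D → ℤ)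
    (hx : -1 < t ⬝ᵥ x) : Cut (coneK C t R) t x := by
  rintro y ⟨_, _, h2⟩
  rw [dotQ_toQ]
  refine h2.trans_lt ?_
  have h1 : ((-1 : ℤ) : ℚ) < ((t ⬝ᵥ x : ℤ) : ℚ) := by exact_mod_cast hx
  simpa using h1

lemma cone_cut_col {D : ℕ} (C : Set (Fin D → ℤ)) (t : Fin D → ℤ) (R : ℤ) (x : Fin D → ℤ)
    (c : Fin D → ℤ) (hc : c ∈ C) (hx : c ⬝ᵥ x < 0) : Cut (coneK C t R) (-c) x := by
  rintro y ⟨_, h1, _⟩
  rw [dotQ_neg, dotQ_neg, dotQ_toQ]
  have h2 := h1 c hc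
  have h3 : ((c ⬝ᵥ x : ℤ) : ℚ) < 0 := by exact_mod_cast hx
  linarith

/-- An accepted point separates. -/
lemma cone_separates {D : ℕ} {C : Set (Fin D → ℤ)} {t x : Fin D → ℤ}
    (hC : ∀ c ∈ C, 0 ≤ x ⬝ᵥ c) (ht : x ⬝ᵥ t < 0) :
    toQ t ∉ PointedCone.hull ℚ (toQ '' C) := by
  intro hcon
  have h1 : ∀ c ∈ C, 0 ≤ dotQ c (toQ x) := by
    intro c hc
    rw [dotQ_toQ, dotProduct_comm]
    exact_mod_cast hC c hc
  have h2 := cone_hull_nonneg h1 hcon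
  rw [← dotQ_eq_dot, dotQ_toQ, dotProduct_comm] at h2
  have h3 : 0 ≤ x ⬝ᵥ t := by exact_mod_cast h2
  omega

/-! ## (O3) Step 1 -/

section stepOne

variable {d D : ℕ} {S : Set (Fin d → ℤ)} {J : Type} {e : J → ℕ}
  {φ : ∀ j, Chart d (e j)} {ψ : ∀ j, Chart D (e j)} {t : Fin D → ℤ} {q : ℕ}

/-- The point in the residue class `τ s` with the coordinates `x'`. -/
def stepPt {n : ℕ} (τ k : ℕ) (s : Fin n → Fin k) (x' : Fin n → ℤ) : Fin n → ℤ :=
  fun i => (τ : ℤ) * ((s i : ℕ) : ℤ) + τ * k * x' i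

/-- The usable points in the coordinates of the residue class. -/
def stepK (S : Set (Fin d → ℤ)) (e : J → ℕ) (φ : ∀ j, Chart d (e j)) (ψ : ∀ j, Chart D (e j))
    (t : Fin D → ℤ) (j : J) (τ : ℕ) (s : Fin (e j) → Fin q) :
    Set (Fin (e j) → ℚ) :=
  {y | ∃ x ∈ pset S e φ j, IsUsable S e φ ψ t j x ∧
    ∀ i, (x i : ℚ) = (τ : ℚ) * ((s i : ℕ) : ℚ) + τ * q * y i}

/-- Every usable point is seen. -/
lemma exists_stepK {j : J} {τ : ℕ} (hτ : 0 < τ) (hq : 0 < q) (s : Fin (e j) → Fin q)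
    {x : Fin (e j) → ℤ} (hx : x ∈ pset S e φ j) (hu : IsUsable S e φ ψ t j x) :
    ∃ y ∈ stepK S e φ ψ t j τ s,
      ∀ i, (x i : ℚ) = (τ : ℚ) * ((s i : ℕ) : ℚ) + τ * q * y i := by
  have hτ' : (τ : ℚ) ≠ 0 := by exact_mod_cast hτ.ne'
  have hk : (q : ℚ) ≠ 0 := by exact_mod_cast hq.ne'
  have h1 : ∀ i, (x i : ℚ) = (τ : ℚ) * ((s i : ℕ) : ℚ) + τ * q *
      (((x i : ℚ) - τ * ((s i : ℕ) : ℚ)) / (τ * q)) := by
    intro i
    rw [mul_div_cancel₀ _ (mul_ne_zero hτ' hk)]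
    ring
  exact ⟨_, ⟨x, hx, hu, h1⟩, h1⟩

lemma stepK_empty {j : J} {τ : ℕ} (hτ : 0 < τ) (hq : 0 < q) (s : Fin (e j) → Fin q)
    (hK : stepK S e φ ψ t j τ s = ∅) {x : Fin (e j) → ℤ} (hx : x ∈ pset S e φ j) :
    ¬ IsUsable S e φ ψ t j x := by
  intro hu
  obtain ⟨y, hy, _⟩ := exists_stepK hτ hq s hx hu
  rw [hK] at hy
  exact hy

/-- The size of the coordinates. -/
lemma stepK_le {j : J} {τ : ℕ} (hτ : 0 < τ) (hq : 0 < q) (s : Fin (e j) → Fin q) {R : ℤ}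
    (hR : ∀ x ∈ pset S e φ j, ∀ i, |x i| ≤ R) {y : Fin (e j) → ℚ}
    (hy : y ∈ stepK S e φ ψ t j τ s) (i : Fin (e j)) : |y i| ≤ ((R + 1 : ℤ) : ℚ) := by
  obtain ⟨x, hx, _, hxy⟩ := hy
  have hτ' : (1 : ℚ) ≤ τ := by exact_mod_cast hτ
  have hk : (1 : ℚ) ≤ q := by exact_mod_cast hq
  have h1 := hxy i
  have h2 : |(x i : ℚ)| ≤ R := by
    have := hR x hx i
    rw [← Int.cast_abs]
    exact_mod_cast this
  have hs0 : (0 : ℚ) ≤ ((s i : ℕ) : ℚ) := Nat.cast_nonneg _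
  have hs1 : ((s i : ℕ) : ℚ) ≤ q := by exact_mod_cast (s i).2.le
  have hR0 : (0 : ℚ) ≤ R := (abs_nonneg _).trans h2
  have hτk : (1 : ℚ) ≤ τ * q := by nlinarith
  have h3 : (τ * q : ℚ) * y i = x i - τ * ((s i : ℕ) : ℚ) := by linarith
  have h4 : |(τ * q : ℚ) * y i| ≤ R + τ * q := by
    rw [h3]
    refine (abs_sub _ _).trans (add_le_add h2 ?_)
    rw [abs_of_nonneg (by positivity)]
    exact mul_le_mul_of_nonneg_left hs1 (by linarith)
  rw [abs_mul, abs_of_pos (by linarith)] at h4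
  push_cast
  by_contra hcon
  push Not at hcon
  have h5 : (τ * q : ℚ) * (R + 1) < τ * q * |y i| :=
    mul_lt_mul_of_pos_left hcon (by linarith)
  nlinarith

/-- The functional on the point of the residue class. -/
private lemma dot_stepPt {n : ℕ} (τ k : ℕ) (s : Fin n → Fin k) (u x' : Fin n → ℤ) :
    u ⬝ᵥ stepPt τ k s x' =
      (τ : ℤ) * (u ⬝ᵥ fun i => ((s i : ℕ) : ℤ)) + τ * k * (u ⬝ᵥ x') := by
  simp only [dotProduct, stepPt, mul_add, Finset.sum_add_distrib, Finset.mul_sum]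
  congr 1
  · exact Finset.sum_congr rfl fun i _ => by ring
  · exact Finset.sum_congr rfl fun i _ => by ring

private lemma dotQ_step {n : ℕ} (τ k : ℕ) (s : Fin n → Fin k) (u x : Fin n → ℤ) (y : Fin n → ℚ)
    (hxy : ∀ i, (x i : ℚ) = (τ : ℚ) * ((s i : ℕ) : ℚ) + τ * k * y i) :
    ((u ⬝ᵥ x : ℤ) : ℚ) =
      (τ : ℚ) * ((u ⬝ᵥ fun i => ((s i : ℕ) : ℤ) : ℤ) : ℚ) + τ * k * dotQ u y := by
  simp only [dotProduct, dotQ]
  push_cast
  rw [Finset.mul_sum, Finset.mul_sum, ← Finset.sum_add_distrib]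
  refine Finset.sum_congr rfl fun i _ => ?_
  rw [hxy i]
  ring

/-- The general cut of Step 1. -/
private lemma step_cut {j : J} {τ : ℕ} (hτ : 0 < τ) (hq : 0 < q) (s : Fin (e j) → Fin q)
    (x' h : Fin (e j) → ℤ)
    (H : ∀ x ∈ pset S e φ j, IsUsable S e φ ψ t j x →
      h ⬝ᵥ x < h ⬝ᵥ stepPt τ q s x') : Cut (stepK S e φ ψ t j τ s) h x' := by
  rintro y ⟨x, hx, hu, hxy⟩
  have h1 : ((h ⬝ᵥ x : ℤ) : ℚ) < ((h ⬝ᵥ stepPt τ q s x' : ℤ) : ℚ) := by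
    exact_mod_cast H x hx hu
  have hτk : (0 : ℚ) < τ * q := by
    have := hq
    positivity
  rw [dot_stepPt, dotQ_step τ q s h x y hxy] at h1
  rw [dotQ_toQ]
  push_cast at h1
  have h2 : (τ * q : ℚ) * dotQ h y < τ * q * ((h ⬝ᵥ x' : ℤ) : ℚ) := by linarith
  exact lt_of_mul_lt_mul_left h2 hτk.le

/-- A row of the polyhedron is violated. -/
theorem step_cut_row {j : J} {τ : ℕ} (hτ : 0 < τ) (hq : 0 < q) (s : Fin (e j) → Fin q)
    (x' : Fin (e j) → ℤ) (a : Fin d → ℤ) (β : ℤ) (ha : ∀ z ∈ S, a ⬝ᵥ z ≤ β)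
    (hx : β < a ⬝ᵥ (φ j).pt (stepPt τ q s x')) :
    Cut (stepK S e φ ψ t j τ s) ((φ j).pull a) x' := by
  refine step_cut hτ hq s x' _ fun x hxS _ => ?_
  have h1 : a ⬝ᵥ (φ j).pt x ≤ β := ha _ hxS
  rw [Chart.dot_pt] at h1 hx
  omega

/-- The point is not usable. -/
theorem step_cut_usable {j : J} {τ : ℕ} (hτ : 0 < τ) (hq : 0 < q) (s : Fin (e j) → Fin q)
    (x' : Fin (e j) → ℤ) (w : Fin D → ℤ) (hw : ∀ c ∈ colset S e φ ψ, 0 ≤ w ⬝ᵥ c)
    (hx : w ⬝ᵥ (t - (ψ j).pt (stepPt τ q s x')) < 0) :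
    Cut (stepK S e φ ψ t j τ s) ((ψ j).pull w) x' := by
  refine step_cut hτ hq s x' _ fun x _ hu => ?_
  have h1 := usable_cut' w hw j _ hx x hu
  rw [Chart.dot_pt, Chart.dot_pt] at h1
  omega

/-- **Flat in Step 1.** -/
theorem step_flat {j : J} {τ : ℕ} (hτ : 0 < τ) (hq : 0 < q) (s : Fin (e j) → Fin q)
    (u : Fin (e j) → ℤ) (v : ℤ) (G : ℕ)
    (hflat : ∀ y ∈ stepK S e φ ψ t j τ s, |dotQ u y - v| ≤ G) {x : Fin (e j) → ℤ}
    (hx : x ∈ pset S e φ j) (hu : IsUsable S e φ ψ t j x) :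
    u ⬝ᵥ x ∈ Finset.Icc
      ((τ : ℤ) * (u ⬝ᵥ fun i => ((s i : ℕ) : ℤ)) + τ * q * (v - G))
      ((τ : ℤ) * (u ⬝ᵥ fun i => ((s i : ℕ) : ℤ)) + τ * q * (v + G)) := by
  obtain ⟨y, hy, hxy⟩ := exists_stepK hτ hq s hx hu
  have h1 := abs_le.1 (hflat y hy)
  have hτk : (0 : ℚ) < τ * q := by
    have := hq
    positivity
  have h2 := dotQ_step τ q s u x y hxy
  have h3 : (τ * q : ℚ) * (v - G) ≤ τ * q * dotQ u y :=
    mul_le_mul_of_nonneg_left (by linarith [h1.1]) hτk.le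
  have h4 : (τ * q : ℚ) * dotQ u y ≤ τ * q * (v + G) :=
    mul_le_mul_of_nonneg_left (by linarith [h1.2]) hτk.le
  rw [Finset.mem_Icc]
  constructor
  · have h5 : (((τ : ℤ) * (u ⬝ᵥ fun i => ((s i : ℕ) : ℤ)) + τ * q * (v - G) : ℤ) : ℚ) ≤
        ((u ⬝ᵥ x : ℤ) : ℚ) := by
      rw [h2]
      push_cast
      linarith
    exact_mod_cast h5
  · have h5 : ((u ⬝ᵥ x : ℤ) : ℚ) ≤
        (((τ : ℤ) * (u ⬝ᵥ fun i => ((s i : ℕ) : ℤ)) + τ * q * (v + G) : ℤ) : ℚ) := by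
      rw [h2]
      push_cast
      linarith
    exact_mod_cast h5

end stepOne

/-! ## Homogenisation -/

/-- The chart `z ↦ (1, z)`. -/
def homChart (e : ℕ) : Chart (e + 1) e where
  base := Fin.cons 1 0
  cols := Matrix.of fun i l => if i = Fin.succ l then 1 else 0

lemma homChart_pt {e : ℕ} (z : Fin e → ℤ) :
    (homChart e).pt z = (Fin.cons 1 z : Fin (e + 1) → ℤ) := by
  funext i
  rw [Chart.pt_apply]
  refine Fin.cases ?_ (fun i => ?_) i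
  · have h1 : ∀ l : Fin e, (0 : Fin (e + 1)) ≠ Fin.succ l := fun l => (Fin.succ_ne_zero l).symm
    simp [homChart, h1]
  · simp [homChart, Fin.succ_inj]

/-- Linear maps respect cones. -/
private lemma hull_map {V W : Type} [AddCommGroup V] [Module ℚ V] [AddCommGroup W] [Module ℚ W]
    (f : V →ₗ[ℚ] W) {A : Set V} {B : Set W} (h : ∀ a ∈ A, f a ∈ B) {z : V}
    (hz : z ∈ PointedCone.hull ℚ A) : f z ∈ PointedCone.hull ℚ B := by
  refine Submodule.span_induction ?_ ?_ ?_ ?_ hz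
  · intro a ha
    exact Submodule.subset_span (h a ha)
  · rw [map_zero]
    exact Submodule.zero_mem _
  · intro a b _ _ ha hb
    rw [map_add]
    exact Submodule.add_mem _ ha hb
  · rintro ⟨r, hr⟩ a _ ha
    have h1 : f ((⟨r, hr⟩ : {c : ℚ // 0 ≤ c}) • a) = r • f a := by
      rw [← map_smul]; rfl
    rw [h1]
    exact PointedCone.smul_mem _ hr ha

/-- `(v, r) ↦ (r, v)`. -/
private def toCons (e : ℕ) : (Fin e → ℚ) × ℚ →ₗ[ℚ] (Fin (e + 1) → ℚ) where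
  toFun z := Fin.cons z.2 z.1
  map_add' a b := by
    funext i
    refine Fin.cases ?_ (fun i => ?_) i <;> simp
  map_smul' r a := by
    funext i
    refine Fin.cases ?_ (fun i => ?_) i <;> simp

private def fromCons (e : ℕ) : (Fin (e + 1) → ℚ) →ₗ[ℚ] (Fin e → ℚ) × ℚ where
  toFun y := (fun i => y i.succ, y 0)
  map_add' _ _ := rfl
  map_smul' _ _ := rfl

/-- The homogenised cone as a cone in `ℚ^(e + 1)`. -/
theorem mem_hcone_hom {e : ℕ} (P : Set (Fin e → ℤ)) (u : (Fin e → ℤ) × ℤ) :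
    cast2 u ∈ hcone P ↔ toQ (Fin.cons u.2 u.1 : Fin (e + 1) → ℤ) ∈
      PointedCone.hull ℚ (toQ '' ((homChart e).pt '' P)) := by
  have h0 : toCons e (cast2 u) = toQ (Fin.cons u.2 u.1 : Fin (e + 1) → ℤ) := by
    funext i
    refine Fin.cases ?_ (fun i => ?_) i <;> simp [toCons, cast2]
  have h1 : fromCons e (toQ (Fin.cons u.2 u.1 : Fin (e + 1) → ℤ)) = cast2 u := rfl
  constructor
  · intro h
    rw [← h0]
    refine hull_map _ ?_ h
    rintro _ ⟨z, hz, rfl⟩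
    refine ⟨_, ⟨z, hz, rfl⟩, ?_⟩
    rw [homChart_pt]
    funext i
    refine Fin.cases ?_ (fun i => ?_) i <;> simp [toCons]
  · intro h
    rw [← h1]
    refine hull_map _ ?_ h
    rintro _ ⟨_, ⟨z, hz, rfl⟩, rfl⟩
    refine ⟨z, hz, ?_⟩
    rw [homChart_pt]
    refine Prod.ext rfl ?_
    change (1 : ℚ) = ((1 : ℤ) : ℚ)
    rw [Int.cast_one]

/-! ## (O4) Step 2 -/

section blocks

variable {J : Type} [Fintype J] [DecidableEq J] {e : J → ℕ} {N : ℕ}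
  (E : Fin N ≃ Σ j, Fin (e j + 1))

/-- The blocks of an integral vector; the coordinate `0` of a block is the number of points. -/
def blkZ (x : Fin N → ℤ) (j : J) : (Fin (e j) → ℤ) × ℤ :=
  (fun i => x (E.symm ⟨j, i.succ⟩), x (E.symm ⟨j, 0⟩))

/-- The blocks of a rational vector. -/
def blkQ (y : Fin N → ℚ) (j : J) : (Fin (e j) → ℚ) × ℚ :=
  (fun i => y (E.symm ⟨j, i.succ⟩), y (E.symm ⟨j, 0⟩))

omit [Fintype J] [DecidableEq J] in
lemma blkQ_toQ (x : Fin N → ℤ) : blkQ E (toQ x) = fun j => cast2 (blkZ E x j) := rfl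

/-- The functional with given functionals on the blocks. -/
def blkFun (w : ∀ j, Fin (e j + 1) → ℤ) : Fin N → ℤ := fun a => w (E a).1 (E a).2

omit [DecidableEq J] in
lemma dotQ_blkFun (w : ∀ j, Fin (e j + 1) → ℤ) (y : Fin N → ℚ) :
    dotQ (blkFun E w) y =
      ∑ j, ((w j 0 : ℚ) * (blkQ E y j).2 + dotQ (fun i => w j i.succ) (blkQ E y j).1) := by
  have h1 : dotQ (blkFun E w) y = ∑ a : Σ j, Fin (e j + 1), (w a.1 a.2 : ℚ) * y (E.symm a) := by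
    unfold dotQ blkFun
    refine Fintype.sum_equiv E _ _ fun a => ?_
    rw [E.symm_apply_apply]
  rw [h1, Fintype.sum_sigma]
  refine Finset.sum_congr rfl fun j _ => ?_
  rw [Fin.sum_univ_succ]
  rfl

omit [DecidableEq J] in
lemma dot_blkFun (w : ∀ j, Fin (e j + 1) → ℤ) (x : Fin N → ℤ) :
    blkFun E w ⬝ᵥ x =
      ∑ j, (w j 0 * (blkZ E x j).2 + (fun i => w j i.succ) ⬝ᵥ (blkZ E x j).1) := by
  have h1 : blkFun E w ⬝ᵥ x = ∑ a : Σ j, Fin (e j + 1), w a.1 a.2 * x (E.symm a) := by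
    unfold dotProduct blkFun
    refine Fintype.sum_equiv E _ _ fun a => ?_
    rw [E.symm_apply_apply]
  rw [h1, Fintype.sum_sigma]
  refine Finset.sum_congr rfl fun j _ => ?_
  rw [Fin.sum_univ_succ]
  rfl

/-- A functional on one block. -/
def blkOne (j : J) (w : Fin (e j + 1) → ℤ) : Fin N → ℤ := blkFun E (Pi.single j w)

lemma dotQ_blkOne (j : J) (w : Fin (e j + 1) → ℤ) (y : Fin N → ℚ) :
    dotQ (blkOne E j w) y =
      (w 0 : ℚ) * (blkQ E y j).2 + dotQ (fun i => w i.succ) (blkQ E y j).1 := by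
  rw [blkOne, dotQ_blkFun, Finset.sum_eq_single j]
  · rw [Pi.single_eq_same]
  · intro i _ hi
    rw [Pi.single_eq_of_ne hi]
    simp [dotQ]
  · intro h
    exact absurd (Finset.mem_univ j) h

/-- The row `i` of the linear equations. -/
def rowL {D : ℕ} (ψ : ∀ j, Chart D (e j)) (i : Fin D) : Fin N → ℤ :=
  blkFun E fun j => Fin.cons ((ψ j).base i) fun l => (ψ j).cols i l

omit [DecidableEq J] in
lemma dotQ_rowL {D : ℕ} (ψ : ∀ j, Chart D (e j)) (i : Fin D) (y : Fin N → ℚ) :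
    dotQ (rowL E ψ i) y = Ltot e ψ (blkQ E y) i := by
  rw [rowL, dotQ_blkFun, Ltot_apply, Finset.sum_apply]
  refine Finset.sum_congr rfl fun j _ => ?_
  have h1 : (ψ j).lin (blkQ E y j) i =
      (blkQ E y j).2 * ((ψ j).base i : ℚ) +
        ∑ l, ((ψ j).cols i l : ℚ) * (blkQ E y j).1 l := rfl
  rw [h1]
  simp only [Fin.cons_zero, Fin.cons_succ, dotQ]
  ring

variable {d D : ℕ} {S : Set (Fin d → ℤ)}
  {φ : ∀ j, Chart d (e j)} {ψ : ∀ j, Chart D (e j)} {t : Fin D → ℤ}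
  {I : J → Type} [∀ j, Fintype (I j)]

/-- The deep points in the coordinates of the chart `c`. -/
def mainK (E : Fin N ≃ Σ j, Fin (e j + 1)) (S : Set (Fin d → ℤ)) (φ : ∀ j, Chart d (e j))
    (ψ : ∀ j, Chart D (e j)) (t : Fin D → ℤ)
    (p : ∀ j, I j → Fin (e j) → ℤ) (κ : ℕ) {m : ℕ} (c : Chart N m) :
    Set (Fin m → ℚ) :=
  {y | blkQ E (c.ptQ y) ∈ DeepS S e φ ψ t p (1 / (2 * κ))}

/-- The target of the cone problem for the piece `j` at the point `X`. -/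
def mainT (p : ∀ j, I j → Fin (e j) → ℤ) (κ : ℕ) (X : Fin N → ℤ)
    (j : J) : Fin (e j + 1) → ℤ :=
  Fin.cons (2 * κ * (Fintype.card (I j) : ℤ) * (blkZ E X j).2 - (Fintype.card (I j) : ℤ))
    fun i => 2 * κ * (Fintype.card (I j) : ℤ) * (blkZ E X j).1 i - ∑ s, p j s i

variable {p : ∀ j, I j → Fin (e j) → ℤ} {κ m : ℕ} (c : Chart N m)

omit [DecidableEq J] in
theorem main_cut_row_gt (x : Fin m → ℤ) (i : Fin D) (hx : t i < rowL E ψ i ⬝ᵥ c.pt x) :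
    Cut (mainK E S φ ψ t p κ c) (c.pull (rowL E ψ i)) x := by
  refine cut_of_chart c _ _ x fun y hy => ?_
  rw [dotQ_rowL, hy.2, toQ_apply]
  exact_mod_cast hx

omit [DecidableEq J] in
theorem main_cut_row_lt (x : Fin m → ℤ) (i : Fin D) (hx : rowL E ψ i ⬝ᵥ c.pt x < t i) :
    Cut (mainK E S φ ψ t p κ c) (c.pull (-rowL E ψ i)) x := by
  refine cut_of_chart c _ _ x fun y hy => ?_
  rw [dotQ_neg, dotQ_rowL, hy.2, toQ_apply, neg_dotProduct]
  push_cast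
  have h1 : ((rowL E ψ i ⬝ᵥ c.pt x : ℤ) : ℚ) < t i := by exact_mod_cast hx
  linarith

/-- The value of a functional on the cone of a piece. -/
private lemma hcone_nonneg {n : ℕ} {P : Set (Fin n → ℤ)} (w : Fin (n + 1) → ℤ)
    (hw : ∀ z ∈ P, 0 ≤ w 0 + (fun i => w i.succ) ⬝ᵥ z) {u : (Fin n → ℚ) × ℚ}
    (hu : u ∈ hcone P) : 0 ≤ (w 0 : ℚ) * u.2 + dotQ (fun i => w i.succ) u.1 := by
  refine Submodule.span_induction
    (p := fun u _ => 0 ≤ (w 0 : ℚ) * u.2 + dotQ (fun i => w i.succ) u.1) ?_ ?_ ?_ ?_ hu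
  · rintro _ ⟨z, hz, rfl⟩
    simp only [dotQ_toQ, mul_one]
    exact_mod_cast hw z hz
  · simp [dotQ]
  · intro a b _ _ ha hb
    have h1 : dotQ (fun i => w i.succ) (a + b).1 =
        dotQ (fun i => w i.succ) a.1 + dotQ (fun i => w i.succ) b.1 := by
      rw [← dotL_apply, ← dotL_apply, ← dotL_apply, Prod.fst_add, map_add]
    rw [h1, Prod.snd_add]
    linarith
  · rintro ⟨r, hr⟩ a _ ha
    have h1 : dotQ (fun i => w i.succ) ((⟨r, hr⟩ : {c : ℚ // 0 ≤ c}) • a).1 =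
        r * dotQ (fun i => w i.succ) a.1 := by
      rw [← dotL_apply, ← dotL_apply, ← smul_eq_mul, ← map_smul]
      rfl
    have h2 : ((⟨r, hr⟩ : {c : ℚ // 0 ≤ c}) • a).2 = r * a.2 := rfl
    rw [h1, h2]
    have h3 := mul_nonneg hr ha
    linarith

private lemma dotQ_sub_smul {n : ℕ} (h : Fin n → ℤ) (a b : Fin n → ℚ) (r : ℚ) :
    dotQ h (a - r • b) = dotQ h a - r * dotQ h b := by
  rw [← dotL_apply, ← dotL_apply, ← dotL_apply, map_sub, map_smul, smul_eq_mul]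

private lemma dotQ_bary {n : ℕ} {I : Type} [Fintype I] [Nonempty I] (h : Fin n → ℤ)
    (q : I → Fin n → ℤ) :
    (Fintype.card I : ℚ) * dotQ h (bary q) = ((h ⬝ᵥ fun i => ∑ s, q s i : ℤ) : ℚ) := by
  have hk : (Fintype.card I : ℚ) ≠ 0 := by
    have : 0 < Fintype.card I := Fintype.card_pos
    positivity
  have h1 : dotQ h (bary q) = (Fintype.card I : ℚ)⁻¹ * dotQ h (toQ fun i => ∑ s, q s i) := by
    have h2 : bary q = (Fintype.card I : ℚ)⁻¹ • toQ fun i => ∑ s, q s i := by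
      unfold bary
      congr 1
      funext i
      simp
    rw [h2, ← dotL_apply, ← dotL_apply, map_smul, smul_eq_mul]
  rw [h1, dotQ_toQ, ← mul_assoc, mul_inv_cancel₀ hk, one_mul]

/-- The cut by a functional which is nonnegative on the piece `j`. -/
theorem main_cut_cone [∀ j, Nonempty (I j)] (hκ : 1 ≤ κ) (x : Fin m → ℤ) (j : J) (w : Fin (e j + 1) → ℤ)
    (hw : ∀ z ∈ pset S e φ j, 0 ≤ w 0 + (fun i => w i.succ) ⬝ᵥ z)
    (hneg : w ⬝ᵥ mainT E p κ (c.pt x) j < 0) :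
    Cut (mainK E S φ ψ t p κ c) (c.pull (-blkOne E j w)) x := by
  refine cut_of_chart c _ _ x fun y hy => ?_
  have hκ' : (0 : ℚ) < κ := by exact_mod_cast hκ
  have hM : (0 : ℚ) < (Fintype.card (I j) : ℚ) := by
    have : 0 < Fintype.card (I j) := Fintype.card_pos
    positivity
  -- the value on the deep point
  have h1 := hcone_nonneg w hw (hy.1 j)
  have h2 : (blkQ E (c.ptQ y) j - (1 / (2 * κ) : ℚ) • center e p j).1 =
      (blkQ E (c.ptQ y) j).1 - (1 / (2 * κ) : ℚ) • bary (p j) := rfl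
  have h3 : (blkQ E (c.ptQ y) j - (1 / (2 * κ) : ℚ) • center e p j).2 =
      (blkQ E (c.ptQ y) j).2 - 1 / (2 * κ) := by
    simp [center]
  rw [h2, h3, dotQ_sub_smul] at h1
  -- the value at the integral point
  have h4 : ((w ⬝ᵥ mainT E p κ (c.pt x) j : ℤ) : ℚ) < 0 := by exact_mod_cast hneg
  have h5 : w ⬝ᵥ mainT E p κ (c.pt x) j =
      2 * κ * (Fintype.card (I j) : ℤ) *
        (w 0 * (blkZ E (c.pt x) j).2 + (fun i => w i.succ) ⬝ᵥ (blkZ E (c.pt x) j).1) -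
      ((Fintype.card (I j) : ℤ) * w 0 + (fun i => w i.succ) ⬝ᵥ fun i => ∑ s, p j s i) := by
    rw [dotProduct, Fin.sum_univ_succ]
    simp only [mainT, Fin.cons_zero, Fin.cons_succ, dotProduct, mul_sub, Finset.sum_sub_distrib,
      mul_add, Finset.mul_sum]
    have h6 : ∑ i, w i.succ * (2 * κ * (Fintype.card (I j) : ℤ) * (blkZ E (c.pt x) j).1 i) =
        ∑ i, 2 * κ * (Fintype.card (I j) : ℤ) * (w i.succ * (blkZ E (c.pt x) j).1 i) :=
      Finset.sum_congr rfl fun i _ => by ring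
    rw [h6]
    ring
  have h7 : ((blkOne E j w ⬝ᵥ c.pt x : ℤ) : ℚ) =
      (w 0 : ℚ) * ((blkZ E (c.pt x) j).2 : ℚ) +
        ((((fun i => w i.succ) ⬝ᵥ (blkZ E (c.pt x) j).1 : ℤ)) : ℚ) := by
    rw [← dotQ_toQ, dotQ_blkOne, blkQ_toQ]
    simp only [cast2, dotQ_toQ]
  rw [h5] at h4
  push_cast at h4
  have h8 := dotQ_bary (fun i => w i.succ) (p j)
  rw [dotQ_neg, dotQ_blkOne, neg_dotProduct]
  push_cast
  rw [h7]
  have h9 : (2 * κ * (Fintype.card (I j) : ℚ)) * ((w 0 : ℚ) * ((blkZ E (c.pt x) j).2 : ℚ) +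
      ((((fun i => w i.succ) ⬝ᵥ (blkZ E (c.pt x) j).1 : ℤ)) : ℚ)) <
      (Fintype.card (I j) : ℚ) * ((w 0 : ℚ) + dotQ (fun i => w i.succ) (bary (p j))) := by
    rw [mul_add ((Fintype.card (I j) : ℚ)), h8]
    linarith
  have h10 : (2 * κ : ℚ) * ((w 0 : ℚ) * ((blkZ E (c.pt x) j).2 : ℚ) +
      ((((fun i => w i.succ) ⬝ᵥ (blkZ E (c.pt x) j).1 : ℤ)) : ℚ)) <
      (w 0 : ℚ) + dotQ (fun i => w i.succ) (bary (p j)) := by
    refine lt_of_mul_lt_mul_left ?_ hM.le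
    calc (Fintype.card (I j) : ℚ) * ((2 * κ : ℚ) * ((w 0 : ℚ) * ((blkZ E (c.pt x) j).2 : ℚ) +
          ((((fun i => w i.succ) ⬝ᵥ (blkZ E (c.pt x) j).1 : ℤ)) : ℚ)))
        = (2 * κ * (Fintype.card (I j) : ℚ)) * ((w 0 : ℚ) * ((blkZ E (c.pt x) j).2 : ℚ) +
          ((((fun i => w i.succ) ⬝ᵥ (blkZ E (c.pt x) j).1 : ℤ)) : ℚ)) := by ring
      _ < _ := h9
  have h11 : (2 * κ : ℚ) * ((w 0 : ℚ) * (blkQ E (c.ptQ y) j).2 +
      dotQ (fun i => w i.succ) (blkQ E (c.ptQ y) j).1) ≥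
      (w 0 : ℚ) + dotQ (fun i => w i.succ) (bary (p j)) := by
    have h12 := mul_nonneg (by positivity : (0 : ℚ) ≤ 2 * κ) h1
    have h13 : (2 * κ : ℚ) * ((w 0 : ℚ) * ((blkQ E (c.ptQ y) j).2 - 1 / (2 * κ)) +
        (dotQ (fun i => w i.succ) (blkQ E (c.ptQ y) j).1 -
          1 / (2 * κ) * dotQ (fun i => w i.succ) (bary (p j)))) =
        (2 * κ : ℚ) * ((w 0 : ℚ) * (blkQ E (c.ptQ y) j).2 +
          dotQ (fun i => w i.succ) (blkQ E (c.ptQ y) j).1) -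
        ((w 0 : ℚ) + dotQ (fun i => w i.succ) (bary (p j))) := by
      field_simp
      ring
    rw [h13] at h12
    linarith
  have h14 : (w 0 : ℚ) * ((blkZ E (c.pt x) j).2 : ℚ) +
      ((((fun i => w i.succ) ⬝ᵥ (blkZ E (c.pt x) j).1 : ℤ)) : ℚ) <
      (w 0 : ℚ) * (blkQ E (c.ptQ y) j).2 + dotQ (fun i => w i.succ) (blkQ E (c.ptQ y) j).1 :=
    lt_of_mul_lt_mul_left (h10.trans_le h11) (by positivity)
  linarith

omit [DecidableEq J] in
/-- **Accepted points are deep.** -/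
theorem main_accept [∀ j, Nonempty (I j)] (hκ : 1 ≤ κ) (X : Fin N → ℤ) (hrow : ∀ i, rowL E ψ i ⬝ᵥ X = t i)
    (hcone : ∀ j, toQ (mainT E p κ X j) ∈
      PointedCone.hull ℚ (toQ '' ((homChart (e j)).pt '' pset S e φ j))) :
    (fun j => cast2 (blkZ E X j)) ∈ DeepS S e φ ψ t p (1 / (2 * κ)) := by
  have hκ' : (0 : ℚ) < κ := by exact_mod_cast hκ
  constructor
  · intro j
    have hM : (0 : ℚ) < (Fintype.card (I j) : ℚ) := by
      have : 0 < Fintype.card (I j) := Fintype.card_pos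
      positivity
    have h1 := hcone j
    have h2 := (mem_hcone_hom (pset S e φ j)
      (fun i => 2 * κ * (Fintype.card (I j) : ℤ) * (blkZ E X j).1 i - ∑ s, p j s i,
        2 * κ * (Fintype.card (I j) : ℤ) * (blkZ E X j).2 - (Fintype.card (I j) : ℤ))).2 h1
    have h3 : cast2 (blkZ E X j) - (1 / (2 * κ) : ℚ) • center e p j =
        (1 / (2 * κ * (Fintype.card (I j) : ℚ)) : ℚ) •
          cast2 (fun i => 2 * κ * (Fintype.card (I j) : ℤ) * (blkZ E X j).1 i - ∑ s, p j s i,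
            2 * κ * (Fintype.card (I j) : ℤ) * (blkZ E X j).2 - (Fintype.card (I j) : ℤ)) := by
      ext i
      · have h4 : bary (p j) i = ((Fintype.card (I j) : ℚ))⁻¹ * ∑ s, (p j s i : ℚ) := by
          unfold bary
          rw [Pi.smul_apply, Finset.sum_apply, smul_eq_mul]
          rfl
        simp only [cast2, center, Prod.fst_sub, Prod.smul_fst, Pi.sub_apply, Pi.smul_apply,
          toQ_apply, smul_eq_mul, h4]
        push_cast
        field_simp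
      · simp only [cast2, center, Prod.snd_sub, Prod.smul_snd, smul_eq_mul]
        push_cast
        field_simp
    rw [h3]
    exact PointedCone.smul_mem _ (by positivity) h2
  · funext i
    have h1 := dotQ_rowL E ψ i (toQ X)
    rw [dotQ_toQ, hrow i, blkQ_toQ] at h1
    rw [toQ_apply]
    exact h1.symm

/-- The cone problem for one piece: a separating functional in the form used by
`main_cut_cone`. -/
lemma nonneg_homChart_iff {n : ℕ} (P : Set (Fin n → ℤ)) (w : Fin (n + 1) → ℤ) :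
    (∀ a ∈ (homChart n).pt '' P, 0 ≤ w ⬝ᵥ a) ↔
      ∀ z ∈ P, 0 ≤ w 0 + (fun i => w i.succ) ⬝ᵥ z := by
  have h1 : ∀ z : Fin n → ℤ, w ⬝ᵥ (homChart n).pt z = w 0 + (fun i => w i.succ) ⬝ᵥ z := by
    intro z
    rw [homChart_pt, dotProduct, Fin.sum_univ_succ]
    simp [dotProduct]
  constructor
  · intro h z hz
    rw [← h1]
    exact h _ ⟨z, hz, rfl⟩
  · rintro h _ ⟨z, hz, rfl⟩
    rw [h1]
    exact h z hz

end blocks

end Pool.Agent.MonFPT
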