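import Pool.Agent.MonFPT.FlatPoint

/-!
# Charts: integral affine slices of the lattice of integral points
-/

set_option autoImplicit false

namespace Pool.Agent.MonFPT

open Matrix

/-- An integral affine map from `m` to `n` variables: `z ↦ base + cols z`. -/
structure Chart (n m : ℕ) where
  /-- the image of `0` -/
  base : Fin n → ℤ
  /-- the linear part -/
  cols : Matrix (Fin n) (Fin m) ℤ

namespace Chart

variable {n m : ℕ}

/-- The value at an integral point. -/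
def pt (c : Chart n m) (z : Fin m → ℤ) : Fin n → ℤ := c.base + c.cols *ᵥ z

/-- The value at a rational point. -/
def ptQ (c : Chart n m) (y : Fin m → ℚ) : Fin n → ℚ :=
  fun i => (c.base i : ℚ) + ∑ j, (c.cols i j : ℚ) * y j

/-- The functional `h` on the source. -/
def pull (c : Chart n m) (h : Fin n → ℤ) : Fin m → ℤ := h ᵥ* c.cols

lemma pt_apply (c : Chart n m) (z : Fin m → ℤ) (i : Fin n) :
    c.pt z i = c.base i + ∑ j, c.cols i j * z j := rfl

lemma ptQ_cast (c : Chart n m) (z : Fin m → ℤ) :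
    c.ptQ (fun j => (z j : ℚ)) = fun i => ((c.pt z i : ℤ) : ℚ) := by
  funext i
  rw [pt_apply, ptQ]
  push_cast
  rfl

lemma pull_apply (c : Chart n m) (h : Fin n → ℤ) (j : Fin m) :
    c.pull h j = ∑ i, h i * c.cols i j := rfl

/-- Pulling back a cut (rational points). -/
lemma dotQ_ptQ (c : Chart n m) (h : Fin n → ℤ) (y : Fin m → ℚ) :
    dotQ h (c.ptQ y) = dotQ h (fun i => (c.base i : ℚ)) + dotQ (c.pull h) y := by
  have h1 : dotQ (c.pull h) y = ∑ i, (h i : ℚ) * ∑ j, (c.cols i j : ℚ) * y j := by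
    unfold dotQ
    simp only [pull_apply, Int.cast_sum, Int.cast_mul, Finset.sum_mul, Finset.mul_sum]
    rw [Finset.sum_comm]
    exact Finset.sum_congr rfl fun i _ => Finset.sum_congr rfl fun j _ => by ring
  rw [h1]
  unfold dotQ ptQ
  rw [← Finset.sum_add_distrib]
  exact Finset.sum_congr rfl fun i _ => by ring

/-- Pulling back a cut (integral points). -/
lemma dot_pt (c : Chart n m) (h : Fin n → ℤ) (z : Fin m → ℤ) :
    h ⬝ᵥ c.pt z = h ⬝ᵥ c.base + c.pull h ⬝ᵥ z := by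
  rw [pt, dotProduct_add, dotProduct_mulVec]
  rfl

/-- The slice `(U z) 0 = g`, for `W` the inverse of `U`. -/
def slice (c : Chart n (m + 1)) (W : Matrix (Fin (m + 1)) (Fin (m + 1)) ℤ) (g : ℤ) :
    Chart n m where
  base := fun i => c.base i + g * (c.cols * W) i 0
  cols := (c.cols * W).submatrix id Fin.succ

/-- (1) for integral points. -/
theorem pt_slice (c : Chart n (m + 1)) (W : Matrix (Fin (m + 1)) (Fin (m + 1)) ℤ) (g : ℤ)
    (z : Fin m → ℤ) : (c.slice W g).pt z = c.pt (W *ᵥ (Fin.cons g z : Fin (m + 1) → ℤ)) := by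
  funext i
  have h1 : (c.cols *ᵥ (W *ᵥ (Fin.cons g z : Fin (m + 1) → ℤ))) i =
      ((c.cols * W) *ᵥ (Fin.cons g z : Fin (m + 1) → ℤ)) i := by rw [mulVec_mulVec]
  have h2 : ((c.cols * W) *ᵥ (Fin.cons g z : Fin (m + 1) → ℤ)) i =
      (c.cols * W) i 0 * g + ∑ j : Fin m, (c.cols * W) i j.succ * z j := by
    rw [mulVec, dotProduct, Fin.sum_univ_succ]
    simp
  have h3 : c.pt (W *ᵥ (Fin.cons g z : Fin (m + 1) → ℤ)) i =
      c.base i + (c.cols *ᵥ (W *ᵥ (Fin.cons g z : Fin (m + 1) → ℤ))) i := rfl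
  rw [h3, h1, h2, pt_apply]
  simp only [slice, submatrix_apply, id]
  ring

/-- (1) for rational points. -/
theorem ptQ_slice (c : Chart n (m + 1)) (W : Matrix (Fin (m + 1)) (Fin (m + 1)) ℤ) (g : ℤ)
    (y : Fin m → ℚ) :
    (c.slice W g).ptQ y = c.ptQ (castQ W *ᵥ (Fin.cons (g : ℚ) y : Fin (m + 1) → ℚ)) := by
  funext i
  have h1 : ∑ j, (c.cols i j : ℚ) * (castQ W *ᵥ (Fin.cons (g : ℚ) y : Fin (m + 1) → ℚ)) j =
      ((castQ (c.cols * W)) *ᵥ (Fin.cons (g : ℚ) y : Fin (m + 1) → ℚ)) i := by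
    rw [castQ_mul, ← mulVec_mulVec]
    rfl
  have h2 : ((castQ (c.cols * W)) *ᵥ (Fin.cons (g : ℚ) y : Fin (m + 1) → ℚ)) i =
      ((c.cols * W) i 0 : ℚ) * g + ∑ j : Fin m, ((c.cols * W) i j.succ : ℚ) * y j := by
    rw [mulVec, dotProduct, Fin.sum_univ_succ]
    simp [castQ]
  unfold ptQ
  rw [h1, h2]
  simp only [slice, submatrix_apply, id]
  push_cast
  ring

/-- (2) Every integral point lies in a slice. -/
theorem pt_eq_slice (c : Chart n (m + 1)) {U W : Matrix (Fin (m + 1)) (Fin (m + 1)) ℤ}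
    (h : W * U = 1) (z : Fin (m + 1) → ℤ) :
    c.pt z = (c.slice W ((U *ᵥ z) 0)).pt (Fin.tail (U *ᵥ z)) := by
  rw [pt_slice, Fin.cons_self_tail, mulVec_mulVec, h, one_mulVec]

/-- (2) for rational points. -/
theorem ptQ_eq_slice (c : Chart n (m + 1)) {U W : Matrix (Fin (m + 1)) (Fin (m + 1)) ℤ}
    (h : W * U = 1) (y : Fin (m + 1) → ℚ) (g : ℤ) (hg : dotQ (U 0) y = g) :
    c.ptQ y = (c.slice W g).ptQ (Fin.tail (castQ U *ᵥ y)) := by
  have h1 : (castQ U *ᵥ y) 0 = g := by rw [← hg]; rfl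
  rw [ptQ_slice, ← h1, Fin.cons_self_tail, mulVec_mulVec, ← castQ_mul, h]
  have h2 : castQ (1 : Matrix (Fin (m + 1)) (Fin (m + 1)) ℤ) = 1 := by
    ext i j
    simp [castQ, Matrix.one_apply]
  rw [h2, one_mulVec]

/-- (2) Uniqueness. -/
theorem slice_unique (c : Chart n (m + 1)) {U W : Matrix (Fin (m + 1)) (Fin (m + 1)) ℤ}
    (h : U * W = 1) (hc : Function.Injective c.pt) {g g' : ℤ} {z z' : Fin m → ℤ}
    (heq : (c.slice W g).pt z = (c.slice W g').pt z') : g = g' ∧ z = z' := by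
  rw [pt_slice, pt_slice] at heq
  have h1 := hc heq
  have h2 : (Fin.cons g z : Fin (m + 1) → ℤ) = Fin.cons g' z' := by
    have h3 := congrArg (fun x => U *ᵥ x) h1
    simp only [mulVec_mulVec, h, one_mulVec] at h3
    exact h3
  exact Fin.cons_injective2 h2

/-- (2) The slices for different values of `g` are disjoint. -/
theorem slice_disjoint (c : Chart n (m + 1)) {U W : Matrix (Fin (m + 1)) (Fin (m + 1)) ℤ}
    (h : U * W = 1) (hc : Function.Injective c.pt) {g g' : ℤ} (hg : g ≠ g') :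
    Disjoint (Set.range (c.slice W g).pt) (Set.range (c.slice W g').pt) := by
  rw [Set.disjoint_left]
  rintro _ ⟨z, rfl⟩ ⟨z', hz⟩
  exact hg (c.slice_unique h hc hz.symm).1

/-- The left inverse of the slice. -/
def sliceInv (U : Matrix (Fin (m + 1)) (Fin (m + 1)) ℤ) (Z : Matrix (Fin (m + 1)) (Fin n) ℤ) :
    Matrix (Fin m) (Fin n) ℤ := (U * Z).submatrix Fin.succ id

/-- (3) -/
theorem sliceInv_mul (c : Chart n (m + 1)) {U W : Matrix (Fin (m + 1)) (Fin (m + 1)) ℤ}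
    (h : U * W = 1) {Z : Matrix (Fin (m + 1)) (Fin n) ℤ} (hZ : Z * c.cols = 1) (g : ℤ) :
    sliceInv U Z * (c.slice W g).cols = 1 := by
  have h1 : (U * Z) * (c.cols * W) = 1 := by
    rw [Matrix.mul_assoc, ← Matrix.mul_assoc Z, hZ, Matrix.one_mul, h]
  have h2 : sliceInv U Z * (c.slice W g).cols =
      ((U * Z) * (c.cols * W)).submatrix Fin.succ Fin.succ := by
    ext i j
    simp only [sliceInv, slice, Matrix.mul_apply, submatrix_apply, id]
  rw [h2, h1]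
  ext i j
  simp only [submatrix_apply, Matrix.one_apply]
  by_cases hij : i = j
  · subst hij; simp
  · rw [if_neg hij, if_neg fun h => hij (Fin.succ_injective _ h)]

/-- (3) A chart with a left inverse is injective. -/
theorem pt_injective (c : Chart n m) {Z : Matrix (Fin m) (Fin n) ℤ} (hZ : Z * c.cols = 1) :
    Function.Injective c.pt := by
  intro z z' h
  have h1 : c.cols *ᵥ z = c.cols *ᵥ z' := add_left_cancel h
  have h2 := congrArg (fun x => Z *ᵥ x) h1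
  simp only [mulVec_mulVec, hZ, one_mulVec] at h2
  exact h2

/-- (3) The coordinates in terms of the value. -/
theorem eq_of_pt (c : Chart n m) {Z : Matrix (Fin m) (Fin n) ℤ} (hZ : Z * c.cols = 1)
    (z : Fin m → ℤ) : z = Z *ᵥ (c.pt z - c.base) := by
  rw [pt, add_sub_cancel_left, mulVec_mulVec, hZ, one_mulVec]

end Chart

/-- A bound for the entries of a product. -/
lemma abs_sum_mul_le {m : ℕ} (f g : Fin m → ℤ) {M N : ℤ} (hf : ∀ j, |f j| ≤ M)
    (hg : ∀ j, |g j| ≤ N) (hM : 0 ≤ M) : |∑ j, f j * g j| ≤ m * (M * N) := by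
  refine (Finset.abs_sum_le_sum_abs _ _).trans ?_
  calc ∑ j, |f j * g j| ≤ ∑ _j : Fin m, M * N := by
        refine Finset.sum_le_sum fun j _ => ?_
        rw [abs_mul]
        exact mul_le_mul (hf j) (hg j) (abs_nonneg _) hM
    _ = m * (M * N) := by
        rw [Finset.sum_const, Finset.card_univ, Fintype.card_fin, nsmul_eq_mul]

lemma abs_mul_apply_le {k m l : ℕ} (A : Matrix (Fin k) (Fin m) ℤ) (B : Matrix (Fin m) (Fin l) ℤ)
    {M N : ℤ} (hA : ∀ i j, |A i j| ≤ M) (hB : ∀ i j, |B i j| ≤ N) (hM : 0 ≤ M) (i : Fin k)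
    (j : Fin l) : |(A * B) i j| ≤ m * (M * N) :=
  abs_sum_mul_le _ _ (hA i) (fun k => hB k j) hM

lemma abs_mulVec_le {k m : ℕ} (A : Matrix (Fin k) (Fin m) ℤ) (z : Fin m → ℤ)
    {M R : ℤ} (hA : ∀ i j, |A i j| ≤ M) (hz : ∀ j, |z j| ≤ R) (hM : 0 ≤ M) (i : Fin k) :
    |(A *ᵥ z) i| ≤ m * (M * R) :=
  abs_sum_mul_le _ _ (hA i) hz hM

namespace Chart

variable {n m : ℕ}

/-- (3) The size of the coordinates. -/
theorem abs_le_of_pt (c : Chart n m) {Z : Matrix (Fin m) (Fin n) ℤ} (hZ : Z * c.cols = 1)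
    (z : Fin m → ℤ) {R M : ℤ} (hz : ∀ i, |c.pt z i| ≤ R) (hb : ∀ i, |c.base i| ≤ M)
    (hZM : ∀ j i, |Z j i| ≤ M) (hM : 0 ≤ M) (j : Fin m) : |z j| ≤ n * (M * (R + M)) := by
  have h1 : ∀ i, |(c.pt z - c.base) i| ≤ R + M := fun i =>
    (abs_sub _ _).trans (add_le_add (hz i) (hb i))
  have h2 : z j = (Z *ᵥ (c.pt z - c.base)) j := congrFun (c.eq_of_pt hZ z) j
  rw [h2]
  exact abs_mulVec_le Z _ hZM h1 hM j

/-- (4) The size of the columns of the slice. -/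
theorem slice_cols_le (c : Chart n (m + 1)) (W : Matrix (Fin (m + 1)) (Fin (m + 1)) ℤ) (g : ℤ)
    {M M' : ℤ} (hc : ∀ i j, |c.cols i j| ≤ M) (hW : ∀ i j, |W i j| ≤ M') (hM : 0 ≤ M)
    (i : Fin n) (j : Fin m) : |(c.slice W g).cols i j| ≤ (m + 1) * (M * M') := by
  have h := abs_mul_apply_le c.cols W hc hW hM i j.succ
  push_cast at h
  exact h

/-- (4) The size of the base point of the slice. -/
theorem slice_base_le (c : Chart n (m + 1)) (W : Matrix (Fin (m + 1)) (Fin (m + 1)) ℤ) (g : ℤ)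
    {M M' : ℤ} (hb : ∀ i, |c.base i| ≤ M) (hc : ∀ i j, |c.cols i j| ≤ M)
    (hW : ∀ i j, |W i j| ≤ M') (hM : 0 ≤ M) (i : Fin n) :
    |(c.slice W g).base i| ≤ M + |g| * ((m + 1) * (M * M')) := by
  have h := abs_mul_apply_le c.cols W hc hW hM i 0
  push_cast at h
  have h1 : (c.slice W g).base i = c.base i + g * (c.cols * W) i 0 := rfl
  rw [h1]
  refine (abs_add_le _ _).trans ?_
  rw [abs_mul]
  exact add_le_add (hb i) (mul_le_mul_of_nonneg_left h (abs_nonneg _))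

/-- (4) A common bound for the slice. -/
theorem slice_le (c : Chart n (m + 1)) (W : Matrix (Fin (m + 1)) (Fin (m + 1)) ℤ) (g : ℤ)
    {M M' : ℤ} (hb : ∀ i, |c.base i| ≤ M) (hc : ∀ i j, |c.cols i j| ≤ M)
    (hW : ∀ i j, |W i j| ≤ M') (hM : 0 ≤ M) (hM' : 1 ≤ M') :
    (∀ i, |(c.slice W g).base i| ≤ (1 + |g|) * ((m + 1) * (M * M'))) ∧
      ∀ i j, |(c.slice W g).cols i j| ≤ (1 + |g|) * ((m + 1) * (M * M')) := by
  have hm : (1 : ℤ) ≤ (m : ℤ) + 1 := by omega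
  have h1 : M ≤ M * M' := by nlinarith
  have h2 : 0 ≤ M * M' := hM.trans h1
  have h3 : M * M' ≤ (m + 1) * (M * M') := by nlinarith
  have hg : 0 ≤ |g| := abs_nonneg g
  refine ⟨fun i => (c.slice_base_le W g hb hc hW hM i).trans ?_,
    fun i j => (c.slice_cols_le W g hc hW hM i j).trans ?_⟩
  · nlinarith
  · nlinarith

/-- (4) The size of the left inverse. -/
theorem sliceInv_le {U : Matrix (Fin (m + 1)) (Fin (m + 1)) ℤ}
    {Z : Matrix (Fin (m + 1)) (Fin n) ℤ} {M M' : ℤ} (hU : ∀ i j, |U i j| ≤ M')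
    (hZ : ∀ i j, |Z i j| ≤ M) (hM' : 0 ≤ M') (i : Fin m) (j : Fin n) :
    |sliceInv U Z i j| ≤ (m + 1) * (M' * M) := by
  have h := abs_mul_apply_le U Z hU hZ hM' i.succ j
  push_cast at h
  exact h

/-- (4) The size of a cut which is pulled back. -/
theorem pull_le (c : Chart n m) (h : Fin n → ℤ) {M N : ℤ} (hh : ∀ i, |h i| ≤ N)
    (hc : ∀ i j, |c.cols i j| ≤ M) (hN : 0 ≤ N) (j : Fin m) : |c.pull h j| ≤ n * (N * M) :=
  abs_sum_mul_le _ _ hh (fun i => hc i j) hN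

/-- (5) The size of the coordinates in a slice. -/
theorem abs_tail_le {U : Matrix (Fin (m + 1)) (Fin (m + 1)) ℤ} {M R : ℤ}
    (hU : ∀ i j, |U i j| ≤ M) (hM : 0 ≤ M) {z : Fin (m + 1) → ℤ} (hz : ∀ j, |z j| ≤ R)
    (j : Fin m) : |(Fin.tail (U *ᵥ z) : Fin m → ℤ) j| ≤ (m + 1) * (M * R) := by
  have h := abs_mulVec_le U z hU hz hM j.succ
  push_cast at h
  exact h

/-- (5) **The branching step.** -/
theorem search_step (K : Set (Fin n → ℚ)) (c : Chart n (m + 1))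
    {U W : Matrix (Fin (m + 1)) (Fin (m + 1)) ℤ} (hWU : W * U = 1) (v : ℤ) (G : ℕ)
    (hflat : ∀ y : Fin (m + 1) → ℚ, c.ptQ y ∈ K → |dotQ (U 0) y - v| ≤ G)
    (z : Fin (m + 1) → ℤ) (hz : (fun i => ((c.pt z i : ℤ) : ℚ)) ∈ K) :
    (U *ᵥ z) 0 ∈ Finset.Icc (v - G) (v + G) ∧
      c.pt z = (c.slice W ((U *ᵥ z) 0)).pt (Fin.tail (U *ᵥ z)) := by
  refine ⟨?_, c.pt_eq_slice hWU z⟩
  have h1 := hflat (fun j => (z j : ℚ)) (by rw [ptQ_cast]; exact hz)
  have h2 : dotQ (U 0) (fun j => (z j : ℚ)) = (((U *ᵥ z) 0 : ℤ) : ℚ) := by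
    unfold dotQ
    rw [mulVec, dotProduct]
    push_cast
    rfl
  rw [h2] at h1
  have h3 : |(U *ᵥ z) 0 - v| ≤ (G : ℤ) := by exact_mod_cast h1
  rw [abs_le] at h3
  rw [Finset.mem_Icc]
  constructor <;> linarith

/-- (5) In the form used by the recursion. -/
theorem search_step' (K : Set (Fin n → ℚ)) (c : Chart n (m + 1))
    {U W : Matrix (Fin (m + 1)) (Fin (m + 1)) ℤ} (hWU : W * U = 1) (v : ℤ) (G : ℕ)
    (hflat : ∀ y : Fin (m + 1) → ℚ, c.ptQ y ∈ K → |dotQ (U 0) y - v| ≤ G)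
    (z : Fin (m + 1) → ℤ) (hz : (fun i => ((c.pt z i : ℤ) : ℚ)) ∈ K) {M R : ℤ}
    (hU : ∀ i j, |U i j| ≤ M) (hM : 0 ≤ M) (hzR : ∀ j, |z j| ≤ R) :
    ∃ g ∈ Finset.Icc (v - G) (v + G), ∃ z' : Fin m → ℤ, c.pt z = (c.slice W g).pt z' ∧
      ∀ j, |z' j| ≤ (m + 1) * (M * R) :=
  ⟨_, (search_step K c hWU v G hflat z hz).1, _, (search_step K c hWU v G hflat z hz).2,
    fun j => abs_tail_le hU hM hzR j⟩

end Chart

/-- Rounding the centre of a strip. -/
lemma strip_round {x r : ℚ} {G : ℚ} (h : |x - r| ≤ G) : |x - (round r : ℤ)| ≤ G + 1 := by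
  have h1 : |r - (round r : ℤ)| ≤ 1 / 2 := abs_sub_round r
  calc |x - (round r : ℤ)| = |(x - r) + (r - (round r : ℤ))| := by ring_nf
    _ ≤ |x - r| + |r - (round r : ℤ)| := abs_add_le _ _
    _ ≤ G + 1 := by linarith

/-- A strip with an integral centre from one with a centre `p / q`: `v = p / q` rounded down. -/
lemma strip_ediv {x : ℚ} {p q : ℤ} (hq : 0 < q) {G : ℚ} (h : |x - (p : ℚ) / q| ≤ G) :
    |x - ((p / q : ℤ) : ℚ)| ≤ G + 1 := by
  have hq' : (0 : ℚ) < q := by exact_mod_cast hq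
  have h1 : (p : ℚ) = q * ((p / q : ℤ) : ℚ) + ((p % q : ℤ) : ℚ) := by
    have := Int.mul_ediv_add_emod p q
    exact_mod_cast this.symm
  have h2 : 0 ≤ ((p % q : ℤ) : ℚ) := by exact_mod_cast Int.emod_nonneg p hq.ne'
  have h3 : ((p % q : ℤ) : ℚ) ≤ q := by exact_mod_cast (Int.emod_lt_of_pos p hq).le
  have h4 : |(p : ℚ) / q - ((p / q : ℤ) : ℚ)| ≤ 1 := by
    have h5 : (p : ℚ) / q - ((p / q : ℤ) : ℚ) = ((p % q : ℤ) : ℚ) / q := by
      rw [h1]
      field_simp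
      ring
    rw [h5, abs_of_nonneg (div_nonneg h2 hq'.le), div_le_one hq']
    exact h3
  calc |x - ((p / q : ℤ) : ℚ)| = |(x - (p : ℚ) / q) + ((p : ℚ) / q - ((p / q : ℤ) : ℚ))| := by
        ring_nf
    _ ≤ |x - (p : ℚ) / q| + |(p : ℚ) / q - ((p / q : ℤ) : ℚ)| := abs_add_le _ _
    _ ≤ G + 1 := by linarith

end Pool.Agent.MonFPT
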