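import Pool.Agent.MonFPT.FlatPoint

/-!
# The initial simplex and the number of steps of the flatness algorithm
-/

set_option autoImplicit false

namespace Pool.Agent.MonFPT

open Matrix

variable {n : ℕ}

/-- The initial simplex: it contains the box `[-R, R]^n`. -/
def initV (n : ℕ) (R : ℤ) : Fin (n + 1) → Fin n → ℤ :=
  fun i j => -R + if i = j.succ then 2 * n * R else 0

lemma init_contains (hn : 1 ≤ n) (R : ℤ) (hR : 0 < R) (y : Fin n → ℚ) (hy : ∀ j, |y j| ≤ R) :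
    InSimplex 1 (initV n R) y := by
  have hn1 : (1 : ℚ) ≤ n := by exact_mod_cast hn
  have hR' : (0 : ℚ) < R := by exact_mod_cast hR
  set lam : Fin n → ℚ := fun j => (y j + R) / (2 * n * R) with hlam
  have h0 : ∀ j, 0 ≤ lam j := fun j =>
    div_nonneg (by have := (abs_le.1 (hy j)).1; linarith) (by positivity)
  have h1 : ∀ j, lam j ≤ 1 / n := by
    intro j
    rw [hlam]
    simp only
    rw [div_le_div_iff₀ (by positivity) (by positivity)]
    have := (abs_le.1 (hy j)).2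
    nlinarith
  have h2 : ∑ j, lam j ≤ 1 := by
    calc ∑ j, lam j ≤ ∑ _j : Fin n, (1 / n : ℚ) := Finset.sum_le_sum fun j _ => h1 j
      _ = 1 := by
        rw [Finset.sum_const, Finset.card_univ, Fintype.card_fin, nsmul_eq_mul]
        field_simp
  refine ⟨Fin.cons (1 - ∑ j, lam j) lam, ?_, ?_, ?_⟩
  · intro i
    refine Fin.cases ?_ (fun i => ?_) i
    · rw [Fin.cons_zero]; linarith
    · rw [Fin.cons_succ]; exact h0 i
  · rw [Fin.sum_univ_succ]
    simp
  · intro j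
    rw [Fin.sum_univ_succ]
    simp only [Fin.cons_zero, Fin.cons_succ, initV]
    have h3 : ∀ i : Fin n, lam i * ((-R + if i.succ = j.succ then 2 * n * R else 0 : ℤ) : ℚ) =
        -R * lam i + if i = j then lam i * (2 * n * R) else 0 := by
      intro i
      by_cases hij : i = j
      · subst hij
        simp; ring
      · have : i.succ ≠ j.succ := fun h => hij (Fin.succ_injective _ h)
        simp [hij]; ring
    rw [Finset.sum_congr rfl fun i _ => h3 i, Finset.sum_add_distrib, ← Finset.mul_sum,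
      Finset.sum_ite_eq' Finset.univ j, if_pos (Finset.mem_univ _), if_neg (Fin.succ_ne_zero j).symm]
    have h4 : lam j * (2 * n * R) = y j + R := by
      rw [hlam]
      simp only
      field_simp
    rw [h4]
    push_cast
    ring

lemma init_det (R : ℤ) : (homog 1 (initV n R)).det = (2 * n * R) ^ n := by
  rw [det_homog, one_mul]
  have h1 : edges (initV n R) = diagonal fun _ => (2 * n * R : ℤ) := by
    ext i j
    simp only [edges, initV, Matrix.of_apply, diagonal_apply]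
    have h2 : (0 : Fin (n + 1)) ≠ i.succ := (Fin.succ_ne_zero i).symm
    rw [if_neg h2]
    by_cases hij : i = j
    · subst hij; simp
    · have : j.succ ≠ i.succ := fun h => hij (Fin.succ_injective _ h).symm
      simp [hij]
      intro h; exact absurd h.symm hij
  rw [h1, det_diagonal, Finset.prod_const, Finset.card_univ, Fintype.card_fin]

lemma init_le (hn : 1 ≤ n) (R : ℤ) (hR : 0 < R) (i : Fin (n + 1)) (j : Fin n) :
    |initV n R i j| ≤ 2 * n * R := by
  have hn1 : (1 : ℤ) ≤ n := by exact_mod_cast hn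
  unfold initV
  split_ifs
  · rw [abs_le]; constructor <;> nlinarith
  · rw [abs_le]; constructor <;> nlinarith

lemma updV_le (R0 : ℤ) (r : Fin (n + 1) → ℤ) (k : Fin (n + 1)) (V : Fin (n + 1) → Fin n → ℤ)
    (M : ℤ) (hM : ∀ i j, |V i j| ≤ M) (hR0 : 0 < R0) (hr : ∀ i, i ≠ k → 0 < r i ∧ r i ≤ 2 * R0)
    (i : Fin (n + 1)) (j : Fin n) : |updV R0 r k V i j| ≤ 5 * R0 * M := by
  unfold updV
  have h1 := hM k j
  have h2 := hM i j
  have hM0 : 0 ≤ M := (abs_nonneg _).trans h1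
  by_cases hi : i = k
  · subst hi
    rw [sub_self, mul_zero, add_zero, abs_mul, abs_of_pos hR0]
    nlinarith [abs_nonneg (V i j)]
  · obtain ⟨h3, h4⟩ := hr i hi
    refine (abs_add_le _ _).trans ?_
    rw [abs_mul, abs_mul, abs_of_pos hR0, abs_of_pos h3]
    have h5 : |V i j - V k j| ≤ 2 * M := (abs_sub _ _).trans (by linarith)
    have h6 : r i * |V i j - V k j| ≤ 2 * R0 * (2 * M) :=
      mul_le_mul h4 h5 (abs_nonneg _) (by positivity)
    nlinarith

/-- The invariant of the flatness algorithm after `t` steps. -/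
structure FlatInv (n : ℕ) (R : ℤ) (t : ℕ) (q : ℤ) (V : Fin (n + 1) → Fin n → ℤ) : Prop where
  q_eq : q = (256 * (n : ℤ) ^ 5) ^ t
  det : (|(homog q V).det| : ℚ) ≤
    (1 - 1 / (128 * (n : ℚ) ^ 4)) ^ t * (2 * n * R) ^ n * (q : ℚ) ^ (n + 1)
  le : ∀ i j, |V i j| ≤ (5 * (256 * (n : ℤ) ^ 5)) ^ t * (2 * n * R)

lemma FlatInv.init (hn : 1 ≤ n) (R : ℤ) (hR : 0 < R) : FlatInv n R 0 1 (initV n R) where
  q_eq := by simp
  det := by
    rw [init_det]
    have hR' : (0 : ℚ) < R := by exact_mod_cast hR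
    have : (0 : ℚ) ≤ (2 * n * R) ^ n := by positivity
    push_cast
    rw [abs_of_nonneg this]
    simp
  le := fun i j => by
    rw [pow_zero, one_mul]
    exact init_le hn R hR i j

lemma FlatInv.step (hn : 1 ≤ n) {R : ℤ} {t : ℕ} {q : ℤ} {V : Fin (n + 1) → Fin n → ℤ}
    (h : FlatInv n R t q V) (k : Fin (n + 1)) (r : Fin (n + 1) → ℤ)
    (hr : ∀ i, i ≠ k → 0 < r i ∧ r i ≤ 2 * (256 * (n : ℤ) ^ 5))
    (hvol : ∏ i ∈ Finset.univ.erase k, (r i : ℚ) ≤
      (256 * (n : ℚ) ^ 5) ^ n * (1 - 1 / (128 * (n : ℚ) ^ 4))) :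
    FlatInv n R (t + 1) (256 * (n : ℤ) ^ 5 * q) (updV (256 * (n : ℤ) ^ 5) r k V) := by
  have hn1 : (1 : ℚ) ≤ n := by exact_mod_cast hn
  have hn1' : (1 : ℤ) ≤ n := by exact_mod_cast hn
  have hR0 : (0 : ℤ) < 256 * (n : ℤ) ^ 5 := by positivity
  refine ⟨by rw [h.q_eq]; ring, ?_, ?_⟩
  · rw [det_homog_updV]
    have hp : (0 : ℚ) ≤ ∏ i ∈ Finset.univ.erase k, (r i : ℚ) :=
      Finset.prod_nonneg fun i hi => by
        have := (hr i (Finset.ne_of_mem_erase hi)).1
        exact_mod_cast this.le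
    have h1 := h.det
    simp only [Int.cast_mul, Int.cast_prod, Int.cast_pow, Int.cast_natCast, Int.cast_ofNat]
    rw [abs_mul, abs_mul,
      abs_of_pos (by positivity : (0 : ℚ) < 256 * (n : ℚ) ^ 5), abs_of_nonneg hp]
    calc 256 * (n : ℚ) ^ 5 * (∏ i ∈ Finset.univ.erase k, (r i : ℚ)) * |((homog q V).det : ℚ)|
        ≤ 256 * (n : ℚ) ^ 5 * ((256 * (n : ℚ) ^ 5) ^ n * (1 - 1 / (128 * (n : ℚ) ^ 4))) *
          ((1 - 1 / (128 * (n : ℚ) ^ 4)) ^ t * (2 * n * R) ^ n * (q : ℚ) ^ (n + 1)) := by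
          refine mul_le_mul (mul_le_mul_of_nonneg_left hvol (by positivity)) h1 (abs_nonneg _) ?_
          refine mul_nonneg (by positivity) (mul_nonneg (by positivity) ?_)
          have : 1 / (128 * (n : ℚ) ^ 4) ≤ 1 := by
            rw [div_le_one (by positivity)]
            have : (1 : ℚ) ≤ (n : ℚ) ^ 4 := one_le_pow₀ hn1
            linarith
          linarith
      _ = _ := by ring
  · intro i j
    refine (updV_le (256 * (n : ℤ) ^ 5) r k V _ h.le hR0 hr i j).trans (le_of_eq ?_)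
    ring

/-- The number of steps. -/
def flatSteps (n : ℕ) (R : ℤ) : ℕ := 128 * n ^ 4 * (Nat.log 2 ((2 * n * R.toNat) ^ n) + 1)

/-- After `flatSteps n R` steps the simplex must be flat. -/
lemma FlatInv.not_large (hn : 1 ≤ n) {R : ℤ} (hR : 0 < R) {t : ℕ} {q : ℤ}
    {V : Fin (n + 1) → Fin n → ℤ} (h : FlatInv n R t q V) (ht : flatSteps n R ≤ t)
    (hlarge : q ^ (n + 1) ≤ |(homog q V).det|) : False := by
  have hn1 : (1 : ℚ) ≤ n := by exact_mod_cast hn
  have hn1' : (1 : ℤ) ≤ n := by exact_mod_cast hn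
  have hq : (0 : ℚ) < q := by
    rw [h.q_eq]
    push_cast
    positivity
  have h1 : (q : ℚ) ^ (n + 1) ≤ |((homog q V).det : ℚ)| := by exact_mod_cast hlarge
  have h2 := h1.trans h.det
  have h3 : 1 ≤ (1 - 1 / (128 * (n : ℚ) ^ 4)) ^ t * (2 * n * R) ^ n := by
    have h4 : (0 : ℚ) < (q : ℚ) ^ (n + 1) := by positivity
    by_contra hcon
    push Not at hcon
    have h5 := mul_lt_mul_of_pos_right hcon h4
    linarith
  set X : ℕ := (2 * n * R.toNat) ^ n with hX
  set m : ℕ := 128 * n ^ 4 with hm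
  have hm1 : 1 ≤ m := by
    rw [hm]
    have : 1 ≤ n ^ 4 := Nat.one_le_pow _ _ hn
    omega
  have hmc : (128 * (n : ℚ) ^ 4) = (m : ℚ) := by rw [hm]; push_cast; ring
  have hXc : ((2 * n * R : ℚ)) ^ n = (X : ℚ) := by
    rw [hX]
    push_cast
    have : ((R.toNat : ℕ) : ℚ) = (R : ℚ) := by
      have h5 : ((R.toNat : ℕ) : ℤ) = R := Int.toNat_of_nonneg hR.le
      exact_mod_cast h5
    rw [this]
  rw [hmc, hXc] at h3
  have hb0 : 0 ≤ 1 - 1 / (m : ℚ) := by
    have hm1' : (1 : ℚ) ≤ m := by exact_mod_cast hm1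
    have : 1 / (m : ℚ) ≤ 1 := by rw [div_le_one (by linarith)]; exact hm1'
    linarith
  have hb1 : 1 - 1 / (m : ℚ) ≤ 1 := by
    have : 0 ≤ 1 / (m : ℚ) := by positivity
    linarith
  have h4 : (1 - 1 / (m : ℚ)) ^ t ≤ (1 / 2) ^ (Nat.log 2 X + 1) := by
    calc (1 - 1 / (m : ℚ)) ^ t ≤ (1 - 1 / (m : ℚ)) ^ (m * (Nat.log 2 X + 1)) :=
          pow_le_pow_of_le_one hb0 hb1 (by rw [hm, hX]; exact ht)
      _ = ((1 - 1 / (m : ℚ)) ^ m) ^ (Nat.log 2 X + 1) := by rw [pow_mul]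
      _ ≤ (1 / 2) ^ (Nat.log 2 X + 1) :=
          pow_le_pow_left₀ (pow_nonneg hb0 _) (one_sub_inv_pow_le m hm1) _
  have h5 : (X : ℚ) < 2 ^ (Nat.log 2 X + 1) := by
    exact_mod_cast Nat.lt_pow_succ_log_self (by norm_num) X
  have h6 : (1 - 1 / (m : ℚ)) ^ t * X < 1 := by
    have h7 : (0 : ℚ) < 2 ^ (Nat.log 2 X + 1) := by positivity
    calc (1 - 1 / (m : ℚ)) ^ t * X ≤ (1 / 2) ^ (Nat.log 2 X + 1) * X :=
          mul_le_mul_of_nonneg_right h4 (Nat.cast_nonneg _)
      _ < (1 / 2) ^ (Nat.log 2 X + 1) * 2 ^ (Nat.log 2 X + 1) :=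
          mul_lt_mul_of_pos_left h5 (by positivity)
      _ = 1 := by rw [← mul_pow]; norm_num
  linarith

end Pool.Agent.MonFPT
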