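import Pool.Agent.MonFPT.GBound

/-!
# The lattice reduction of an integer matrix: correctness, termination and size bounds

`s.1` are the rows of the unimodular matrix `U`, `s.2` the columns of its inverse. The algorithm is
`(st (FE E) n)^[T] (ra (FE E) n (e0 n, e0 n))`. Inside `ra` the intermediate states are
`rp m j (ra m s)`.
-/

set_option autoImplicit false

namespace Pool.Agent.MonFPT

open Matrix

variable {n : ℕ}

/-- The states of the algorithm. -/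
abbrev LS (n : ℕ) : Type := (ℕ → Fin n → ℤ) × (ℕ → Fin n → ℤ)

/-- The invariant of all intermediate states. -/
structure PInv (E : Matrix (Fin n) (Fin n) ℤ) (M : ℕ) (s : LS n) : Prop where
  pos : ∀ j < n, 0 < bt (BE E) (im (iq n) s.1) j
  btM : ∀ j < n, bt (BE E) (im (iq n) s.1) j ≤ M
  len : ∀ i < n, BE E (im (iq n) s.1 i) (im (iq n) s.1 i) ≤ n * M
  dual : colM n s.2 * rowM n s.1 = 1

/-- The bound for the entries of `U`. -/
def XB (n M : ℕ) : ℕ :=
  n.factorial * M ^ n * ((7 * (M ^ 2 ^ n) ^ 2 * (n * M)) ^ n * (n * M))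

lemma pinv_e0 {E : Matrix (Fin n) (Fin n) ℤ} (hE : E.det ≠ 0) {M : ℕ}
    (hM : ∀ i, (E * Eᵀ) i i ≤ M) : PInv E M (e0 n, e0 n) := by
  have hB := posDef_BE hE
  have h1 : ∀ i (hi : i < n), BE E (im (iq n) (e0 n) i) (im (iq n) (e0 n) i) ≤ M := by
    intro i hi
    change BE E (iq n (e0 n i)) (iq n (e0 n i)) ≤ M
    rw [← FE_cast]
    have h2 : FE E (e0 n i) (e0 n i) = (E * Eᵀ) ⟨i, hi⟩ ⟨i, hi⟩ := by
      have h3 : e0 n i = Pi.single (⟨i, hi⟩ : Fin n) 1 := by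
        funext j
        rw [Pi.single_apply]
        unfold e0
        simp only [Fin.ext_iff]
      rw [FE, h3, single_one_vecMul, Matrix.mul_apply]
      rfl
    rw [h2]
    exact_mod_cast hM ⟨i, hi⟩
  refine ⟨fun j hj => bt_e0_pos hE hj, fun j hj => (bt_le hB _ j).trans (h1 j hj),
    fun i hi => (h1 i hi).trans ?_, ?_⟩
  · have h2 : (1 : ℚ) ≤ n := by
      have : 1 ≤ n := by omega
      exact_mod_cast this
    exact le_mul_of_one_le_left (Nat.cast_nonneg _) h2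
  · rw [colM_e0, rowM_e0, one_mul]

lemma pinv_ra {E : Matrix (Fin n) (Fin n) ℤ} (hE : E.det ≠ 0) {M : ℕ} {s : LS n}
    (h : PInv E M s) {m : ℕ} (hm : m ≤ n) : PInv E M (ra (FE E) m s) := by
  have hB := posDef_BE hE
  have hpos : ∀ j < n, 0 < bt (BE E) (im (iq n) (ra (FE E) m s).1) j := by
    intro j hj
    rw [bt_tri hB (tri_ra (FE E) (iq n) m s)]
    exact h.pos j hj
  have hbt : ∀ j < n, bt (BE E) (im (iq n) (ra (FE E) m s).1) j ≤ M := by
    intro j hj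
    rw [bt_tri hB (tri_ra (FE E) (iq n) m s)]
    exact h.btM j hj
  refine ⟨hpos, hbt, fun i hi => ?_, ?_⟩
  · rcases Nat.lt_or_ge i m with h1 | h1
    · exact len_one hB hpos M hbt i hi
        (redTo_ra (FE E) (iq n) hB (FE_cast E) s h.pos m hm i h1)
    · have h2 : im (iq n) (ra (FE E) m s).1 i = im (iq n) s.1 i := by
        unfold im
        rw [ra_ge (FE E) m s i h1]
      rw [h2]
      exact h.len i hi
  · rw [← dl_outer, dl_ra (FE E) (outer n) n m s hm, dl_outer]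
    exact h.dual

lemma pinv_sw {E : Matrix (Fin n) (Fin n) ℤ} (hE : E.det ≠ 0) {M : ℕ} {s : LS n}
    (h : PInv E M s) {k : ℕ} (hk : fv (FE E) n s.1 = some k) : PInv E M (sw s.1 k, sw s.2 k) := by
  have hB := posDef_BE hE
  obtain ⟨h1, h2⟩ := lov_of_some (FE E) (iq n) hB (FE_cast E) h.pos hk
  have h3 : bt (BE E) (sw (im (iq n) s.1) k) k ≤ bt (BE E) (im (iq n) s.1) k := by
    have := h.pos k (by omega)
    linarith
  refine ⟨fun j hj => ?_, fun j hj => ?_, fun i hi => ?_, ?_⟩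
  · change 0 < bt (BE E) (im (iq n) (sw s.1 k)) j
    rw [im_sw]
    exact bt_sw_pos hB _ h1 h.pos j hj
  · change bt (BE E) (im (iq n) (sw s.1 k)) j ≤ M
    rw [im_sw]
    exact bt_sw_le hB _ h1 h.pos h3 M h.btM j hj
  · change BE E (im (iq n) (sw s.1 k) i) (im (iq n) (sw s.1 k) i) ≤ n * M
    rw [im_sw]
    unfold sw
    split_ifs with h4 h5
    · exact h.len _ (by omega)
    · exact h.len _ (by omega)
    · exact h.len _ hi
  · rw [← dl_outer, dl_sw (outer n) n s h1, dl_outer]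
    exact h.dual

lemma pinv_st {E : Matrix (Fin n) (Fin n) ℤ} (hE : E.det ≠ 0) {M : ℕ} {s : LS n}
    (h : PInv E M s) : PInv E M (st (FE E) n s) := by
  unfold st
  cases hk : fv (FE E) n s.1 with
  | none => exact h
  | some k => exact pinv_ra hE (pinv_sw hE h hk) le_rfl

lemma pinv_iter {E : Matrix (Fin n) (Fin n) ℤ} (hE : E.det ≠ 0) {M : ℕ} {s : LS n}
    (h : PInv E M s) (t : ℕ) : PInv E M ((st (FE E) n)^[t] s) := by
  induction t with
  | zero => exact h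
  | succ t ih =>
    rw [Function.iterate_succ_apply']
    exact pinv_st hE ih

/-- The bounds for the intermediate states of the size reduction. -/
theorem entries_rp {E : Matrix (Fin n) (Fin n) ℤ} (hE : E.det ≠ 0) {M : ℕ} (hM1 : 1 ≤ M)
    (hM : ∀ i, (E * Eᵀ) i i ≤ M) {s : LS n} (h : PInv E M s) {m : ℕ} (hm : m < n) {j : ℕ}
    (hj : j ≤ m) :
    (∀ i l : Fin n, |(rp (FE E) m j s).1 i l| ≤ XB n M) ∧
      ∀ i l : Fin n, |(rp (FE E) m j s).2 i l| ≤ n.factorial * XB n M ^ n := by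
  have hB := posDef_BE hE
  have hM1' : (1 : ℚ) ≤ M := by exact_mod_cast hM1
  have hn1 : (1 : ℚ) ≤ n := by
    have : 1 ≤ n := by omega
    exact_mod_cast this
  have hnM : (1 : ℚ) ≤ n * M := one_le_mul_of_one_le_of_one_le hn1 hM1'
  have hscl := scl_le h.pos M hM1' h.btM
  have hK : (1 : ℚ) ≤ 7 * ((M : ℚ) ^ 2 ^ n) ^ 2 * (n * M) := by
    have h1 : (1 : ℚ) ≤ ((M : ℚ) ^ 2 ^ n) ^ 2 := one_le_pow₀ (one_le_pow₀ hM1')
    have h2 : (1 : ℚ) ≤ ((M : ℚ) ^ 2 ^ n) ^ 2 * (n * M) := one_le_mul_of_one_le_of_one_le h1 hnM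
    linarith
  have key : ∀ i < n, BE E (im (iq n) (rp (FE E) m j s).1 i) (im (iq n) (rp (FE E) m j s).1 i) ≤
      (7 * ((M : ℚ) ^ 2 ^ n) ^ 2 * (n * M)) ^ n * (n * M) := by
    intro i hi
    by_cases him : i = m
    · subst him
      refine (len_rp (FE E) (iq n) hB (FE_cast E) s h.pos hi _ (n * M) hscl
        (fun l hl => h.len l (by omega)) hnM j hj).trans ?_
      exact mul_le_mul (pow_le_pow_right₀ hK (by omega)) (h.len i hi) (hB.nonneg _) (by positivity)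
    · have h1 : im (iq n) (rp (FE E) m j s).1 i = im (iq n) s.1 i := by
        unfold im
        rw [rp_ne (FE E) m s him j]
      rw [h1]
      refine (h.len i hi).trans ?_
      exact le_mul_of_one_le_left (by linarith) (one_le_pow₀ hK)
  have hU : ∀ i l : Fin n, |(rp (FE E) m j s).1 i l| ≤ XB n M := by
    intro i l
    have h1 := entry_le hE hM1' (fun i => by exact_mod_cast hM i)
      (im (iq n) (rp (FE E) m j s).1 i) l
    have h2 : (((rp (FE E) m j s).1 i l : ℤ) : ℚ) ^ 2 ≤ (XB n M : ℕ) := by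
      refine h1.trans ?_
      unfold XB
      push_cast
      exact mul_le_mul_of_nonneg_left (key i i.2) (by positivity)
    have h3 : ((rp (FE E) m j s).1 i l) ^ 2 ≤ (XB n M : ℤ) := by exact_mod_cast h2
    refine le_trans ?_ h3
    rw [← sq_abs]
    exact Int.le_self_sq _
  refine ⟨hU, fun i l => ?_⟩
  have hd : colM n (rp (FE E) m j s).2 * rowM n (rp (FE E) m j s).1 = 1 := by
    rw [← dl_outer, dl_rp (FE E) (outer n) n m hm s j hj, dl_outer]
    exact h.dual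
  have hX1 : (1 : ℤ) ≤ XB n M := by
    have : 0 < XB n M := by
      unfold XB
      have : 0 < n := by omega
      positivity
    exact_mod_cast this
  exact inv_entry_le hd hX1 hU l i

/-- The bounds for the states of the algorithm. -/
theorem entries_pinv {E : Matrix (Fin n) (Fin n) ℤ} (hE : E.det ≠ 0) {M : ℕ} (hM1 : 1 ≤ M)
    (hM : ∀ i, (E * Eᵀ) i i ≤ M) {s : LS n} (h : PInv E M s) :
    (∀ i l : Fin n, |s.1 i l| ≤ XB n M) ∧ ∀ i l : Fin n, |s.2 i l| ≤ n.factorial * XB n M ^ n := by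
  rcases Nat.eq_zero_or_pos n with h0 | h0
  · subst h0
    exact ⟨fun i => i.elim0, fun i => i.elim0⟩
  · exact entries_rp hE hM1 hM h h0 (Nat.zero_le 0)

lemma steps_ok (n L : ℕ) (hL : 1 ≤ L) (M : ℚ) (hM0 : 0 ≤ M) (hM : M ≤ 2 ^ L) :
    (3 : ℚ) ^ (3 * (2 ^ n * L)) * M ^ 2 ^ n < 4 ^ (3 * (2 ^ n * L)) := by
  have h1 : M ^ 2 ^ n ≤ 2 ^ (2 ^ n * L) := by
    calc M ^ 2 ^ n ≤ (2 ^ L) ^ 2 ^ n := pow_le_pow_left₀ hM0 hM _
      _ = 2 ^ (2 ^ n * L) := by rw [← pow_mul, mul_comm]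
  have h2 : 2 ^ n * L ≠ 0 := by positivity
  calc (3 : ℚ) ^ (3 * (2 ^ n * L)) * M ^ 2 ^ n
      ≤ 3 ^ (3 * (2 ^ n * L)) * 2 ^ (2 ^ n * L) := mul_le_mul_of_nonneg_left h1 (by positivity)
    _ = 54 ^ (2 ^ n * L) := by rw [pow_mul (3 : ℚ) 3, ← mul_pow]; norm_num
    _ < 64 ^ (2 ^ n * L) := pow_lt_pow_left₀ (by norm_num) (by norm_num) h2
    _ = 4 ^ (3 * (2 ^ n * L)) := by rw [pow_mul (4 : ℚ) 3]; norm_num

/-- **Lattice reduction.** -/
theorem lll {E : Matrix (Fin n) (Fin n) ℤ} (hE : E.det ≠ 0) {M : ℕ} (hM1 : 1 ≤ M)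
    (hM : ∀ i, (E * Eᵀ) i i ≤ M) {L : ℕ} (hL : 1 ≤ L) (hML : M ≤ 2 ^ L) (T : ℕ)
    (hT : 3 * (2 ^ n * L) ≤ T) :
    colM n ((st (FE E) n)^[T] (ra (FE E) n (e0 n, e0 n))).2 *
        rowM n ((st (FE E) n)^[T] (ra (FE E) n (e0 n, e0 n))).1 = 1 ∧
      ∃ (mu : Matrix (Fin n) (Fin n) ℚ) (D : Fin n → ℚ),
        IsRed (castQ (rowM n ((st (FE E) n)^[T] (ra (FE E) n (e0 n, e0 n))).1 * E) *
          (castQ (rowM n ((st (FE E) n)^[T] (ra (FE E) n (e0 n, e0 n))).1 * E))ᵀ) mu D := by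
  have hB := posDef_BE hE
  have h0 := pinv_e0 hE hM
  have hM1' : (1 : ℚ) ≤ M := by exact_mod_cast hM1
  have h1 := linv_ra (FE E) (iq n) hB (FE_cast E) (e0 n, e0 n) h0.pos h0.btM
  have h2 := linv_iter (FE E) (iq n) hB (FE_cast E) _ h1 T
  have h3 : fv (FE E) n ((st (FE E) n)^[T] (ra (FE E) n (e0 n, e0 n))).1 = none := by
    apply terminates (FE E) (iq n) hB (FE_cast E) _ h1
    rw [scl_tri hB (tri_ra (FE E) (iq n) n _)]
    have h4 := scl_le h0.pos M hM1' h0.btM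
    have h5 := steps_ok n L hL M (by linarith) (by exact_mod_cast hML)
    obtain ⟨d, rfl⟩ := Nat.exists_eq_add_of_le hT
    rw [pow_add, pow_add]
    calc (3 : ℚ) ^ (3 * (2 ^ n * L)) * 3 ^ d * scl (BE E) (im (iq n) (e0 n)) n
        ≤ 3 ^ (3 * (2 ^ n * L)) * 3 ^ d * (M : ℚ) ^ 2 ^ n :=
          mul_le_mul_of_nonneg_left h4 (by positivity)
      _ = 3 ^ (3 * (2 ^ n * L)) * (M : ℚ) ^ 2 ^ n * 3 ^ d := by ring
      _ < 4 ^ (3 * (2 ^ n * L)) * 3 ^ d := mul_lt_mul_of_pos_right h5 (by positivity)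
      _ ≤ 4 ^ (3 * (2 ^ n * L)) * 4 ^ d :=
          mul_le_mul_of_nonneg_left (pow_le_pow_left₀ (by norm_num) (by norm_num) _) (by positivity)
  refine ⟨?_, _, _, isRed_of_inv hE h2 fun k hk =>
    lov_of_none (FE E) (iq n) hB (FE_cast E) _ h2 h3 hk⟩
  rw [← dl_outer, dl_iter (FE E) (outer n) n T, dl_outer]
  exact h0.dual

end Pool.Agent.MonFPT
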