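import Pool.Agent.MonFPT.Farkas2

/-!
# The relaxation of a decomposition with prescribed pieces

`V j` are the coordinate spaces of the pieces, `K j` the cone of the piece `j`, `L` the linear map
which gives the target vector. `T` is the relaxation `{y : y j ∈ K j, L y = t}`.
-/

set_option autoImplicit false

namespace Pool.Agent.MonFPT

section

variable {J W : Type} [Fintype J] {V : J → Type} [∀ j, AddCommGroup (V j)] [∀ j, Module ℚ (V j)]
  [AddCommGroup W] [Module ℚ W]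

/-- The relaxation. -/
def Rel (K : ∀ j, PointedCone ℚ (V j)) (L : (∀ j, V j) →ₗ[ℚ] W) (t : W) : Set (∀ j, V j) :=
  {y | (∀ j, y j ∈ K j) ∧ L y = t}

/-- The points of the relaxation which use `c j` with weight `θ` in each piece `j`. -/
def Deep (K : ∀ j, PointedCone ℚ (V j)) (L : (∀ j, V j) →ₗ[ℚ] W) (t : W) (θ : ℚ) (c : ∀ j, V j) :
    Set (∀ j, V j) :=
  {y | (∀ j, y j - θ • c j ∈ K j) ∧ L y = t}

lemma Deep_subset_Rel (K : ∀ j, PointedCone ℚ (V j)) (L : (∀ j, V j) →ₗ[ℚ] W) (t : W) (θ : ℚ)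
    (hθ : 0 ≤ θ) (c : ∀ j, V j) (hc : ∀ j, c j ∈ K j) : Deep K L t θ c ⊆ Rel K L t := by
  rintro y ⟨h1, h2⟩
  refine ⟨fun j => ?_, h2⟩
  have := Submodule.add_mem _ (h1 j) (PointedCone.smul_mem (K j) hθ (hc j))
  simpa using this

/-- Averages of points of the relaxation. -/
lemma Rel_average (K : ∀ j, PointedCone ℚ (V j)) (L : (∀ j, V j) →ₗ[ℚ] W) (t : W) {I : Type}
    [Fintype I] (w : I → ℚ) (hw : ∀ i, 0 ≤ w i) (hw1 : ∑ i, w i = 1) (z : I → ∀ j, V j)
    (hz : ∀ i, z i ∈ Rel K L t) : ∑ i, w i • z i ∈ Rel K L t := by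
  constructor
  · intro j
    rw [Finset.sum_apply]
    exact Submodule.sum_mem _ fun i _ => PointedCone.smul_mem _ (hw i) ((hz i).1 j)
  · rw [map_sum]
    simp only [map_smul, (hz _).2]
    rw [← Finset.sum_smul, hw1, one_smul]

/-- The deep point. Each point `p j s` is used by some point `z j s` of the relaxation; then a
common average uses the barycentre `c j = ∑ s, μ j s • p j s` with weight `1 / κ` in every
piece `j`, if there are at most `κ` pieces. -/
lemma exists_center (K : ∀ j, PointedCone ℚ (V j)) (L : (∀ j, V j) →ₗ[ℚ] W) (t : W)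
    [Nonempty J] (κ : ℕ) (hκ : Fintype.card J ≤ κ) {I : J → Type} [∀ j, Fintype (I j)]
    (μ : ∀ j, I j → ℚ) (hμ : ∀ j s, 0 ≤ μ j s) (hμ1 : ∀ j, ∑ s, μ j s = 1)
    (p : ∀ j, I j → V j) (hp : ∀ j s, p j s ∈ K j)
    (z : ∀ j, I j → ∀ i, V i) (hz : ∀ j s, z j s ∈ Rel K L t)
    (hzp : ∀ j s, z j s j - p j s ∈ K j) :
    ∃ y ∈ Rel K L t, ∀ j, y j - (κ : ℚ)⁻¹ • ∑ s, μ j s • p j s ∈ K j := by
  classical
  have hcard : 0 < Fintype.card J := Fintype.card_pos
  have hcardQ : (0 : ℚ) < Fintype.card J := by exact_mod_cast hcard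
  have hκQ : (Fintype.card J : ℚ) ≤ κ := by exact_mod_cast hκ
  have hκpos : (0 : ℚ) < κ := lt_of_lt_of_le hcardQ hκQ
  set N : ℚ := (Fintype.card J : ℚ)⁻¹ with hN
  have hNpos : 0 < N := inv_pos.mpr hcardQ
  let z' : J → ∀ i, V i := fun j => ∑ s, μ j s • z j s
  have hz' : ∀ j, z' j ∈ Rel K L t := fun j => Rel_average K L t _ (hμ j) (hμ1 j) _ (hz j)
  have hz'p : ∀ j, z' j j - ∑ s, μ j s • p j s ∈ K j := by
    intro j
    have : z' j j - ∑ s, μ j s • p j s = ∑ s, μ j s • (z j s j - p j s) := by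
      simp only [z', Finset.sum_apply, Pi.smul_apply, smul_sub, Finset.sum_sub_distrib]
    rw [this]
    exact Submodule.sum_mem _ fun s _ => PointedCone.smul_mem _ (hμ j s) (hzp j s)
  refine ⟨∑ j, N • z' j, ?_, ?_⟩
  · refine Rel_average K L t (fun _ => N) (fun _ => hNpos.le) ?_ z' hz'
    simp only [Finset.sum_const, Finset.card_univ, nsmul_eq_mul]
    exact mul_inv_cancel₀ hcardQ.ne'
  · intro j
    have hb : ∑ s, μ j s • p j s ∈ K j :=
      Submodule.sum_mem _ fun s _ => PointedCone.smul_mem _ (hμ j s) (hp j s)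
    have hle : (κ : ℚ)⁻¹ ≤ N := by
      rw [hN]; exact inv_anti₀ hcardQ hκQ
    have h1 : (∑ i, N • z' i) j - (κ : ℚ)⁻¹ • ∑ s, μ j s • p j s =
        N • (z' j j - ∑ s, μ j s • p j s) + (N - (κ : ℚ)⁻¹) • ∑ s, μ j s • p j s +
          ∑ i ∈ Finset.univ.erase j, N • z' i j := by
      rw [Finset.sum_apply, ← Finset.add_sum_erase _ _ (Finset.mem_univ j)]
      simp only [Pi.smul_apply, smul_sub, sub_smul]
      abel
    rw [h1]
    refine Submodule.add_mem _ (Submodule.add_mem _ ?_ ?_) ?_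
    · exact PointedCone.smul_mem _ hNpos.le (hz'p j)
    · exact PointedCone.smul_mem _ (by linarith) hb
    · exact Submodule.sum_mem _ fun i _ => PointedCone.smul_mem _ hNpos.le ((hz' i).1 j)

/-- The midpoint of a point of the relaxation and a deep point is deep (with half the weight). -/
lemma mid_mem_Deep (K : ∀ j, PointedCone ℚ (V j)) (L : (∀ j, V j) →ₗ[ℚ] W) (t : W) (θ : ℚ)
    (c : ∀ j, V j) {y z : ∀ j, V j} (hy : y ∈ Rel K L t) (hz : z ∈ Deep K L t (2 * θ) c) :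
    (1 / 2 : ℚ) • (y + z) ∈ Deep K L t θ c := by
  constructor
  · intro j
    have : ((1 / 2 : ℚ) • (y + z)) j - θ • c j =
        (1 / 2 : ℚ) • y j + (1 / 2 : ℚ) • (z j - (2 * θ) • c j) := by
      simp only [Pi.smul_apply, Pi.add_apply, smul_add, smul_sub, smul_smul]
      rw [show (1 / 2 : ℚ) * (2 * θ) = θ by ring]
      abel
    rw [this]
    exact Submodule.add_mem _ (PointedCone.smul_mem _ (by norm_num) (hy.1 j))
      (PointedCone.smul_mem _ (by norm_num) (hz.1 j))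
  · rw [map_smul, map_add, hy.2, hz.2, ← two_smul ℚ t, smul_smul]
    norm_num

/-- If the deep part of the relaxation is flat then so is the relaxation. -/
lemma flat_of_Deep_flat (K : ∀ j, PointedCone ℚ (V j)) (L : (∀ j, V j) →ₗ[ℚ] W) (t : W) (θ : ℚ)
    (hθ : 0 ≤ θ) (c : ∀ j, V j) (hc : ∀ j, c j ∈ K j) {z : ∀ j, V j}
    (hz : z ∈ Deep K L t (2 * θ) c) (U : (∀ j, V j) →ₗ[ℚ] ℚ) (v G : ℚ)
    (hflat : ∀ y ∈ Deep K L t θ c, |U y - v| ≤ G) : ∀ y ∈ Rel K L t, |U y - v| ≤ 3 * G := by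
  intro y hy
  have hzR := Deep_subset_Rel K L t (2 * θ) (by linarith) c hc hz
  have h1 := hflat _ (mid_mem_Deep K L t θ c hy hz)
  have h2 := hflat _ (mid_mem_Deep K L t θ c hzR hz)
  rw [map_smul, map_add, smul_eq_mul] at h1 h2
  rw [abs_le] at h1 h2 ⊢
  constructor <;> linarith [h1.1, h1.2, h2.1, h2.2]

end

end Pool.Agent.MonFPT
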