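import Pool.Agent.MonFPT.LemmaA

/-!
# Farkas' lemma over the rationals, with a bound on the separating vector
-/

set_option autoImplicit false

namespace Pool.Agent.MonFPT

open Matrix

/-- Farkas' lemma over the rationals. -/
theorem farkas {V : Type} [AddCommGroup V] [Module ℚ V] (C : Finset V) (t : V) :
    t ∈ PointedCone.hull ℚ (C : Set V) ∨
      ∃ w : V →ₗ[ℚ] ℚ, (∀ c ∈ C, 0 ≤ w c) ∧ w t < 0 := by
  classical
  suffices h : ∀ n : ℕ, ∀ (C : Finset V), C.card ≤ n → ∀ t : V,
      t ∈ PointedCone.hull ℚ (C : Set V) ∨ ∃ w : V →ₗ[ℚ] ℚ, (∀ c ∈ C, 0 ≤ w c) ∧ w t < 0 from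
    h _ C le_rfl t
  intro n
  induction n with
  | zero =>
    intro C hC t
    have hC0 : C = ∅ := Finset.card_eq_zero.mp (Nat.le_zero.mp hC)
    subst hC0
    by_cases ht : t = 0
    · left; subst ht; exact Submodule.zero_mem _
    · right
      have h1 : ¬ ∀ φ : Module.Dual ℚ V, φ t = 0 := fun h =>
        ht ((Module.forall_dual_apply_eq_zero_iff ℚ t).mp h)
      push Not at h1
      obtain ⟨φ, hφ⟩ := h1
      rcases lt_or_gt_of_ne hφ with h2 | h2
      · exact ⟨φ, by simp, h2⟩
      · exact ⟨-φ, by simp, by simpa using h2⟩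
  | succ n ih =>
    intro C hC t
    rcases C.eq_empty_or_nonempty with rfl | ⟨c, hc⟩
    · exact ih ∅ (by simp) t
    have hC1 : (C.erase c).card ≤ n := by
      rw [Finset.card_erase_of_mem hc]; omega
    rcases ih (C.erase c) hC1 t with h | ⟨w0, hw0, hw0t⟩
    · left
      exact Submodule.span_mono (by exact_mod_cast Finset.erase_subset c C) h
    by_cases hwc : 0 ≤ w0 c
    · right
      refine ⟨w0, fun d hd => ?_, hw0t⟩
      by_cases hdc : d = c
      · rw [hdc]; exact hwc
      · exact hw0 d (Finset.mem_erase.mpr ⟨hdc, hd⟩)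
    push Not at hwc
    -- projection along c
    let π : V →ₗ[ℚ] V := (-(w0 c)) • LinearMap.id + w0.smulRight c
    have hπ : ∀ v, π v = (-(w0 c)) • v + w0 v • c := fun v => rfl
    have hπc : π c = 0 := by rw [hπ]; rw [← add_smul]; simp
    have hC2 : ((C.erase c).image π).card ≤ n := Finset.card_image_le.trans hC1
    rcases ih ((C.erase c).image π) hC2 (π t) with h | ⟨w', hw', hw't⟩
    · left
      -- every element of the cone over the image is `π v` with `v` in the cone over `C.erase c`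
      have key : ∀ z ∈ PointedCone.hull ℚ (((C.erase c).image π : Finset V) : Set V),
          ∃ v ∈ PointedCone.hull ℚ ((C.erase c : Finset V) : Set V), z = π v ∧ 0 ≤ w0 v := by
        intro z hz
        refine Submodule.span_induction ?_ ?_ ?_ ?_ hz
        · intro x hx
          simp only [Finset.coe_image, Set.mem_image] at hx
          obtain ⟨d, hd, rfl⟩ := hx
          exact ⟨d, Submodule.subset_span hd, rfl, hw0 d hd⟩
        · exact ⟨0, Submodule.zero_mem _, by simp, by simp⟩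
        · rintro _ _ _ _ ⟨v1, hv1, rfl, h1⟩ ⟨v2, hv2, rfl, h2⟩
          exact ⟨v1 + v2, Submodule.add_mem _ hv1 hv2, by simp, by simpa using add_nonneg h1 h2⟩
        · rintro ⟨r, hr⟩ _ _ ⟨v, hv, rfl, h⟩
          refine ⟨r • v, PointedCone.smul_mem _ hr hv, ?_, ?_⟩
          · rw [map_smul]; rfl
          · rw [map_smul]; exact mul_nonneg hr h
      obtain ⟨v, hv, hvt, hwv⟩ := key _ h
      have hsub : PointedCone.hull ℚ ((C.erase c : Finset V) : Set V) ≤
          PointedCone.hull ℚ (C : Set V) :=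
        Submodule.span_mono (by exact_mod_cast Finset.erase_subset c C)
      have hpos : 0 < -(w0 c) := by linarith
      have heq : (-(w0 c)) • t = (-(w0 c)) • v + (w0 v - w0 t) • c := by
        rw [hπ, hπ] at hvt
        rw [sub_smul]
        have := hvt
        rw [← sub_eq_zero] at this ⊢
        rw [← this]; abel
      have hmem : (-(w0 c)) • t ∈ PointedCone.hull ℚ (C : Set V) := by
        rw [heq]
        exact Submodule.add_mem _ (PointedCone.smul_mem _ hpos.le (hsub hv))
          (PointedCone.smul_mem _ (by linarith) (Submodule.subset_span hc))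
      exact (PointedCone.smul_mem_iff _ hpos).mp hmem
    · right
      refine ⟨w'.comp π, fun d hd => ?_, by simpa using hw't⟩
      by_cases hdc : d = c
      · rw [hdc]; simp [hπc]
      · exact hw' _ (Finset.mem_image_of_mem π (Finset.mem_erase.mpr ⟨hdc, hd⟩))

/-- A separating functional with as many tight generators as possible: the generators lie in the
span of the tight ones and the target. -/
theorem farkas_tight {V : Type} [AddCommGroup V] [Module ℚ V] (C : Finset V) (t : V)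
    (ht : t ∉ PointedCone.hull ℚ (C : Set V)) :
    ∃ w : V →ₗ[ℚ] ℚ, (∀ c ∈ C, 0 ≤ w c) ∧ w t = -1 ∧
      ∀ c ∈ C, c ∈ Submodule.span ℚ (insert t {d | d ∈ C ∧ w d = 0}) := by
  classical
  have h0 : ∃ w : V →ₗ[ℚ] ℚ, (∀ c ∈ C, 0 ≤ w c) ∧ w t = -1 := by
    obtain ⟨w, hw, hwt⟩ := (farkas C t).resolve_left ht
    refine ⟨(-(w t))⁻¹ • w, fun c hc => ?_, ?_⟩
    · simp only [LinearMap.smul_apply, smul_eq_mul]
      exact mul_nonneg (inv_nonneg.mpr (by linarith)) (hw c hc)
    · simp only [LinearMap.smul_apply, smul_eq_mul, inv_neg, neg_mul]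
      rw [inv_mul_cancel₀ hwt.ne]
  -- maximise the number of tight generators
  let P : ℕ → Prop := fun m => ∃ w : V →ₗ[ℚ] ℚ, (∀ c ∈ C, 0 ≤ w c) ∧ w t = -1 ∧
    (C.filter fun c => w c = 0).card = m
  have hP : ∃ m, P m := by
    obtain ⟨w, hw, hwt⟩ := h0
    exact ⟨_, w, hw, hwt, rfl⟩
  have hbd : ∀ m, P m → m ≤ C.card := by
    rintro m ⟨w, -, -, rfl⟩
    exact Finset.card_filter_le _ _
  obtain ⟨m, ⟨w, hw, hwt, hcard⟩, hmax⟩ : ∃ m, P m ∧ ∀ m', P m' → m' ≤ m := by
    obtain ⟨m0, hm0⟩ := hP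
    have := Nat.findGreatest_spec (P := P) (hbd m0 hm0) hm0
    exact ⟨_, this, fun m' hm' => Nat.le_findGreatest (hbd m' hm') hm'⟩
  refine ⟨w, hw, hwt, ?_⟩
  by_contra hcon
  push Not at hcon
  obtain ⟨c1, hc1, hc1s⟩ := hcon
  set W : Submodule ℚ V := Submodule.span ℚ (insert t {d | d ∈ C ∧ w d = 0}) with hW
  obtain ⟨v, hv1, hvW⟩ := Submodule.exists_dual_map_eq_bot_of_notMem hc1s inferInstance
  have hvW' : ∀ x ∈ W, v x = 0 := by
    intro x hx
    have h1 : v x ∈ W.map v := Submodule.mem_map_of_mem hx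
    rw [hvW] at h1
    exact (Submodule.mem_bot ℚ).mp h1
  -- orient v
  obtain ⟨u, hu1, huW⟩ : ∃ u : V →ₗ[ℚ] ℚ, u c1 < 0 ∧ ∀ x ∈ W, u x = 0 := by
    rcases lt_or_gt_of_ne hv1 with h | h
    · exact ⟨v, h, hvW'⟩
    · exact ⟨-v, by simpa using h, fun x hx => by simp [hvW' x hx]⟩
  have hut : u t = 0 := huW t (Submodule.subset_span (Set.mem_insert _ _))
  have htight : ∀ d ∈ C, w d = 0 → u d = 0 := fun d hd hd0 =>
    huW d (Submodule.subset_span (Set.mem_insert_of_mem _ ⟨hd, hd0⟩))
  let N := C.filter fun c => u c < 0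
  have hN : N.Nonempty := ⟨c1, Finset.mem_filter.mpr ⟨hc1, hu1⟩⟩
  obtain ⟨c2, hc2, hmin⟩ := N.exists_min_image (fun c => w c / (-(u c))) hN
  have hc2C : c2 ∈ C := (Finset.mem_filter.mp hc2).1
  have hc2u : u c2 < 0 := (Finset.mem_filter.mp hc2).2
  set lam : ℚ := w c2 / (-(u c2)) with hlam
  have hlam0 : 0 ≤ lam := div_nonneg (hw c2 hc2C) (by linarith)
  let w2 : V →ₗ[ℚ] ℚ := w + lam • u
  have hw2 : ∀ x, w2 x = w x + lam * u x := fun x => by simp [w2]
  have hw2C : ∀ c ∈ C, 0 ≤ w2 c := by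
    intro c hc
    rw [hw2]
    by_cases huc : u c < 0
    · have h1 := hmin c (Finset.mem_filter.mpr ⟨hc, huc⟩)
      have h2 : lam * (-(u c)) ≤ w c := by
        rw [hlam]
        calc w c2 / (-(u c2)) * (-(u c)) ≤ w c / (-(u c)) * (-(u c)) :=
              mul_le_mul_of_nonneg_right h1 (by linarith)
          _ = w c := div_mul_cancel₀ _ (by linarith)
      linarith
    · push Not at huc
      have := hw c hc
      positivity
  have hw2t : w2 t = -1 := by rw [hw2, hut, mul_zero, add_zero, hwt]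
  have hw2c2 : w2 c2 = 0 := by
    have hne : u c2 ≠ 0 := hc2u.ne
    rw [hw2, hlam, div_neg, neg_mul, div_mul_cancel₀ _ hne]
    ring
  have hw2tight : ∀ d ∈ C, w d = 0 → w2 d = 0 := fun d hd h => by
    rw [hw2, h, htight d hd h]; simp
  have hwc2 : w c2 ≠ 0 := fun h => hc2u.ne (htight c2 hc2C h)
  have hlt : (C.filter fun c => w c = 0).card < (C.filter fun c => w2 c = 0).card := by
    apply Finset.card_lt_card
    refine ⟨fun d hd => ?_, fun hsub => ?_⟩
    · rw [Finset.mem_filter] at hd ⊢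
      exact ⟨hd.1, hw2tight d hd.1 hd.2⟩
    · have := hsub (Finset.mem_filter.mpr ⟨hc2C, hw2c2⟩)
      exact hwc2 (Finset.mem_filter.mp this).2
  have := hmax _ ⟨w2, hw2C, hw2t, rfl⟩
  omega

end Pool.Agent.MonFPT
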