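import Pool.Agent.MonFPT.Farkas

/-!
# Farkas' lemma with an integral separating vector of bounded size
-/

set_option autoImplicit false

namespace Pool.Agent.MonFPT

open Matrix

lemma toQ_dot {n : ℕ} (w c : Fin n → ℤ) : ((w ⬝ᵥ c : ℤ) : ℚ) = ∑ i, (w i : ℚ) * toQ c i := by
  simp [dotProduct]

/-- If the integer vector `t` is not in the rational cone generated by a set `C` of integer
vectors, then some integer vector of bounded size separates them. -/
theorem bounded_farkas {n : ℕ} (C : Set (Fin n → ℤ)) (Δ : ℤ) (hΔ : 1 ≤ Δ)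
    (hC : ∀ c ∈ C, ∀ i, |c i| ≤ Δ) (t : Fin n → ℤ) (ht : ∀ i, |t i| ≤ Δ)
    (hnot : toQ t ∉ PointedCone.hull ℚ (toQ '' C)) :
    ∃ w : Fin n → ℤ, (∀ i, |w i| ≤ (n.factorial : ℤ) * Δ ^ n) ∧ (∀ c ∈ C, 0 ≤ w ⬝ᵥ c) ∧
      w ⬝ᵥ t < 0 := by
  classical
  have hfin : C.Finite := by
    refine (Set.finite_Icc (fun _ => -Δ : Fin n → ℤ) (fun _ => Δ)).subset fun c hc => ?_
    exact ⟨fun i => (abs_le.mp (hC c hc i)).1, fun i => (abs_le.mp (hC c hc i)).2⟩
  have hfinQ : (toQ '' C).Finite := hfin.image _
  obtain ⟨w, hw, hwt, hwtight⟩ := farkas_tight hfinQ.toFinset (toQ t)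
    (by simpa using hnot)
  set D : Set (Fin n → ℚ) := {d | d ∈ hfinQ.toFinset ∧ w d = 0} with hD
  -- a basis of the span of the tight vectors
  obtain ⟨s1, hs1D, hs1span, hs1⟩ : ∃ b ⊆ D, Submodule.span ℚ b = Submodule.span ℚ D ∧
      LinearIndepOn ℚ id b := exists_linearIndependent ℚ D
  have hwspan : ∀ x ∈ Submodule.span ℚ s1, w x = 0 := by
    intro x hx
    rw [hs1span] at hx
    have : Submodule.span ℚ D ≤ LinearMap.ker w :=
      Submodule.span_le.mpr fun d hd => by simpa using hd.2
    exact this hx
  have htspan : toQ t ∉ Submodule.span ℚ s1 := fun h => by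
    have := hwspan _ h
    rw [hwt] at this
    norm_num at this
  have hs2 : LinearIndepOn ℚ id (insert (toQ t) s1) := by
    rw [linearIndepOn_id_insert (fun h => htspan (Submodule.subset_span h))]
    exact ⟨hs1, htspan⟩
  let E : Set (Fin n → ℚ) := Set.range fun i => toQ (Pi.single i (1 : ℤ))
  obtain ⟨b, hbsub, hsb, hbspan, hb⟩ := exists_linearIndepOn_id_extension hs2
    (Set.subset_union_left (t := E))
  have htop : ⊤ ≤ Submodule.span ℚ b := by
    have hE : Submodule.span ℚ E = ⊤ := by
      have h1 : E = Set.range (Pi.basisFun ℚ (Fin n)) := by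
        ext x
        simp only [E, Set.mem_range]
        constructor
        · rintro ⟨i, rfl⟩
          refine ⟨i, ?_⟩
          ext j
          simp [Pi.single_apply]
        · rintro ⟨i, rfl⟩
          refine ⟨i, ?_⟩
          ext j
          simp [Pi.single_apply]
      rw [h1]; exact (Pi.basisFun ℚ (Fin n)).span_eq
    rw [← hE]
    exact Submodule.span_le.mpr fun x hx => hbspan (Or.inr hx)
  -- integral preimages
  have hpre : ∀ x ∈ b, ∃ r : Fin n → ℤ, toQ r = x ∧ (∀ i, |r i| ≤ Δ) := by
    intro x hx
    rcases hbsub hx with (rfl | h) | ⟨i, rfl⟩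
    · exact ⟨t, rfl, ht⟩
    · have := (hs1D h).1
      rw [Set.Finite.mem_toFinset] at this
      obtain ⟨c, hc, rfl⟩ := this
      exact ⟨c, rfl, hC c hc⟩
    · refine ⟨Pi.single i 1, rfl, fun j => ?_⟩
      by_cases h : j = i
      · subst h; simpa using hΔ
      · simp [Pi.single_eq_of_ne h]; omega
  have hli : LinearIndependent ℚ ((↑) : b → (Fin n → ℚ)) := hb
  let B : Module.Basis b ℚ (Fin n → ℚ) := Module.Basis.mk hli (by simpa using htop)
  have : Finite b := Module.Finite.finite_basis B
  have := Fintype.ofFinite b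
  have hcard : Fintype.card b = n := by
    have := Module.finrank_eq_card_basis B
    simpa using this.symm
  let eqv : Fin n ≃ b := (Fintype.equivFinOfCardEq hcard).symm
  choose pre hpre1 hpre2 using hpre
  let M : Matrix (Fin n) (Fin n) ℤ := fun i => pre (eqv i) (eqv i).2
  have hMrow : ∀ i, toQ (M i) = (eqv i : Fin n → ℚ) := fun i => hpre1 _ _
  have hMb : ∀ i j, |M i j| ≤ Δ := fun i j => hpre2 _ _ _
  have hdet : M.det ≠ 0 := by
    have hliM : LinearIndependent ℚ (fun i => (M.map (Int.cast : ℤ → ℚ)) i) := by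
      have h1 := hli.comp eqv eqv.injective
      convert h1 using 1
      ext i j
      have := congrFun (hMrow i) j
      simpa using this
    have h2 : IsUnit (M.map (Int.cast : ℤ → ℚ)) := linearIndependent_rows_iff_isUnit.mp hliM
    rw [isUnit_iff_isUnit_det, isUnit_iff_ne_zero] at h2
    intro h0
    apply h2
    have := (Int.castRingHom ℚ).map_det M
    rw [h0] at this
    simpa using this.symm
  have htb : toQ t ∈ b := hsb (Set.mem_insert _ _)
  set i0 : Fin n := eqv.symm ⟨toQ t, htb⟩ with hi0
  have hi0row : toQ (M i0) = toQ t := by rw [hMrow, hi0]; simp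
  have htoQinj : ∀ x y : Fin n → ℤ, toQ x = toQ y → x = y := fun x y h => by
    ext i; have := congrFun h i; simpa using this
  have hMi0 : M i0 = t := htoQinj _ _ hi0row
  set w' : Fin n → ℤ := fun i => -(M.det.sign) * M.adjugate i i0 with hw'
  have hrow : ∀ j, w' ⬝ᵥ M j = if j = i0 then -|M.det| else 0 := by
    intro j
    have h1 := congrFun (congrFun (M.mul_adjugate) j) i0
    rw [Matrix.mul_apply] at h1
    have h2 : w' ⬝ᵥ M j = -(M.det.sign) * ∑ i, M j i * M.adjugate i i0 := by
      rw [dotProduct, Finset.mul_sum]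
      refine Finset.sum_congr rfl fun i _ => ?_
      rw [hw']; ring
    rw [h2, h1]
    by_cases hj : j = i0
    · subst hj
      simp only [Matrix.smul_apply, Matrix.one_apply_eq, smul_eq_mul, mul_one, if_true]
      rw [neg_mul, Int.sign_mul_self_eq_abs]
    · simp [Matrix.smul_apply, Matrix.one_apply_ne hj, hj]
  have hdetpos : 0 < |M.det| := abs_pos.mpr hdet
  have hw't : w' ⬝ᵥ t = -|M.det| := by
    have := hrow i0
    rw [hMi0] at this
    simpa using this
  refine ⟨w', ?_, ?_, by rw [hw't]; omega⟩
  · intro i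
    have h1 : |w' i| ≤ |M.adjugate i i0| := by
      rw [hw', abs_mul, abs_neg]
      have : |M.det.sign| = 1 := by
        rcases lt_or_gt_of_ne hdet with h | h
        · rw [Int.sign_eq_neg_one_of_neg h]; simp
        · rw [Int.sign_eq_one_of_pos h]; simp
      rw [this, one_mul]
    refine h1.trans ?_
    rw [Matrix.adjugate_apply]
    have h2 := Matrix.det_le (A := M.updateRow i0 (Pi.single i 1)) (abv := AbsoluteValue.abs)
      (x := Δ) (fun a c => by
        by_cases ha : a = i0
        · subst ha
          rw [Matrix.updateRow_self]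
          by_cases hc : c = i
          · subst hc; simpa using hΔ
          · simp [Pi.single_eq_of_ne hc]; omega
        · rw [Matrix.updateRow_ne ha]
          exact hMb a c)
    simpa using h2
  · intro c hc
    -- the functional of `w'` is `|det| • w` on the span
    let W' : (Fin n → ℚ) →ₗ[ℚ] ℚ := ∑ i, (w' i : ℚ) • LinearMap.proj i
    have hW' : ∀ x : Fin n → ℤ, W' (toQ x) = ((w' ⬝ᵥ x : ℤ) : ℚ) := by
      intro x
      rw [toQ_dot]
      simp [W']
    have heq : ∀ x ∈ Submodule.span ℚ (insert (toQ t) s1), W' x = (|M.det| : ℤ) * w x := by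
      intro x hx
      refine Submodule.span_induction ?_ ?_ ?_ ?_ hx
      · rintro y (rfl | hy)
        · rw [hW', hw't, hwt]; push_cast; ring
        · have hyb : y ∈ b := hsb (Set.mem_insert_of_mem _ hy)
          have hj : (eqv (eqv.symm ⟨y, hyb⟩) : Fin n → ℚ) = y := by simp
          have h1 := hMrow (eqv.symm ⟨y, hyb⟩)
          rw [hj] at h1
          rw [← h1, hW', hrow]
          have hne : eqv.symm ⟨y, hyb⟩ ≠ i0 := by
            intro h
            rw [hi0] at h
            have h3 := eqv.symm.injective h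
            have h4 : y = toQ t := congrArg Subtype.val h3
            exact htspan (h4 ▸ Submodule.subset_span hy)
          rw [if_neg hne, h1, hwspan y (Submodule.subset_span hy)]
          simp
      · simp
      · intro x y _ _ h1 h2
        rw [map_add, map_add, h1, h2]; ring
      · intro a x _ h1
        rw [map_smul, map_smul, h1]; simp only [smul_eq_mul]; ring
    have hcQ : toQ c ∈ hfinQ.toFinset := by
      rw [Set.Finite.mem_toFinset]; exact ⟨c, hc, rfl⟩
    have hcspan : toQ c ∈ Submodule.span ℚ (insert (toQ t) s1) := by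
      have h1 := hwtight (toQ c) hcQ
      have h2 : Submodule.span ℚ (insert (toQ t) D) ≤ Submodule.span ℚ (insert (toQ t) s1) := by
        refine Submodule.span_le.mpr ?_
        rintro x (rfl | hx)
        · exact Submodule.subset_span (Set.mem_insert _ _)
        · have : x ∈ Submodule.span ℚ s1 := hs1span ▸ Submodule.subset_span hx
          exact Submodule.span_mono (Set.subset_insert _ _) this
      exact h2 h1
    have h1 := heq _ hcspan
    rw [hW'] at h1
    have h2 : (0 : ℚ) ≤ ((w' ⬝ᵥ c : ℤ) : ℚ) := by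
      rw [h1]
      exact mul_nonneg (by exact_mod_cast abs_nonneg _) (hw _ hcQ)
    exact_mod_cast h2

end Pool.Agent.MonFPT
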