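import Pool.Agent.MonFPT.FlatStep

/-!
# The query point and the flat direction
-/

set_option autoImplicit false

namespace Pool.Agent.MonFPT

open Matrix

variable {n : ℕ}

/-- The flatness constant. -/
def flatG (n : ℕ) : ℕ := 12 * n ^ 3 * (n + 1) * 3 ^ n

/-- `mat` as a rational matrix. -/
def castQ {m k : ℕ} (A : Matrix (Fin m) (Fin k) ℤ) : Matrix (Fin m) (Fin k) ℚ :=
  A.map (Int.cast : ℤ → ℚ)

lemma castQ_mul {m k l : ℕ} (A : Matrix (Fin m) (Fin k) ℤ) (B : Matrix (Fin k) (Fin l) ℤ) :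
    castQ (A * B) = castQ A * castQ B := by
  ext i j
  simp [castQ, Matrix.mul_apply]

lemma castQ_det (A : Matrix (Fin n) (Fin n) ℤ) : (castQ A).det = (A.det : ℚ) := by
  unfold castQ
  have := (Int.castRingHom ℚ).map_det A
  simp only [eq_intCast] at this
  rw [this]
  rfl

/-- The reduced basis: the rows of `U * edges V`. -/
def rbasis (U : Matrix (Fin n) (Fin n) ℤ) (V : Fin (n + 1) → Fin n → ℤ) :
    Matrix (Fin n) (Fin n) ℚ := castQ (U * edges V)

lemma det_edges_ne {U W : Matrix (Fin n) (Fin n) ℤ} {V : Fin (n + 1) → Fin n → ℤ}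
    {mu : Matrix (Fin n) (Fin n) ℚ} {D : Fin n → ℚ} (hUW : U * W = 1)
    (h : IsRed (rbasis U V * (rbasis U V)ᵀ) mu D) :
    ((edges V).det : ℚ) ^ 2 = ∏ i, D i ∧ (edges V).det ≠ 0 := by
  have h1 : (rbasis U V * (rbasis U V)ᵀ).det = ∏ i, D i := h.det_eq
  have hU : U.det * W.det = 1 := by rw [← det_mul, hUW, det_one]
  have hU2 : U.det ^ 2 = 1 := by
    rcases Int.isUnit_iff.1 (IsUnit.of_mul_eq_one _ hU) with h | h <;> rw [h] <;> norm_num
  have h2 : (rbasis U V).det = (U.det : ℚ) * ((edges V).det : ℚ) := by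
    rw [rbasis, castQ_det, det_mul]; push_cast; rfl
  rw [det_mul, det_transpose, h2] at h1
  have h3 : ((U.det : ℚ)) ^ 2 = 1 := by exact_mod_cast hU2
  have h4 : ((edges V).det : ℚ) ^ 2 = ∏ i, D i := by
    rw [← h1]
    calc ((edges V).det : ℚ) ^ 2 = (U.det : ℚ) ^ 2 * ((edges V).det : ℚ) ^ 2 := by
          rw [h3, one_mul]
      _ = _ := by ring
  refine ⟨h4, fun h0 => ?_⟩
  have h5 : 0 < ∏ i, D i := Finset.prod_pos fun i _ => h.pos i
  rw [← h4, h0] at h5
  simp at h5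

/-- The first diagonal entry is the square of the length of the first row. -/
lemma IsRed.first {Q mu : Matrix (Fin n) (Fin n) ℚ} {D : Fin n → ℚ} (h : IsRed Q mu D)
    (h0 : 0 < n) : Q ⟨0, h0⟩ ⟨0, h0⟩ = D ⟨0, h0⟩ := by
  rw [h.eq, Matrix.mul_apply, Finset.sum_eq_single_of_mem (⟨0, h0⟩ : Fin n) (Finset.mem_univ _)]
  · rw [Matrix.mul_diagonal, transpose_apply, h.size.one]; ring
  · intro j _ hj
    have h1 : (⟨0, h0⟩ : Fin n) < j := by
      rw [Fin.lt_def]
      rcases Nat.eq_zero_or_pos (j : ℕ) with h | h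
      · exact absurd (Fin.ext h) hj
      · exact h
    rw [transpose_apply, h.size.zero _ _ h1, mul_zero]

/-- **The flat direction.** -/
theorem flat_dir (h0 : 0 < n) (q : ℤ) (hq : 0 < q) (U : Matrix (Fin n) (Fin n) ℤ)
    (V : Fin (n + 1) → Fin n → ℤ) {mu : Matrix (Fin n) (Fin n) ℚ} {D : Fin n → ℚ}
    (h : IsRed (rbasis U V * (rbasis U V)ᵀ) mu D) (G : ℚ) (hG : 0 ≤ G)
    (hD : D ⟨0, h0⟩ < (G * q) ^ 2) (y : Fin n → ℚ) (hy : InSimplex q V y) :
    |dotQ (U ⟨0, h0⟩) y - dotQ (U ⟨0, h0⟩) (fun j => (V 0 j : ℚ)) / q| ≤ G := by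
  obtain ⟨β, hβ0, hβ1, hβ⟩ := hy
  have hq' : (0 : ℚ) < q := by exact_mod_cast hq
  set u := U ⟨0, h0⟩ with hu
  set B := rbasis U V with hB
  have h1 : ∀ i, |B ⟨0, h0⟩ i| ≤ G * q := by
    intro i
    have h2 : B ⟨0, h0⟩ i ^ 2 ≤ D ⟨0, h0⟩ := by
      rw [← h.first h0, Matrix.mul_apply]
      have h3 : B ⟨0, h0⟩ i ^ 2 = B ⟨0, h0⟩ i * Bᵀ i ⟨0, h0⟩ := by
        rw [transpose_apply]; ring
      rw [h3]
      exact Finset.single_le_sum (f := fun i => B ⟨0, h0⟩ i * Bᵀ i ⟨0, h0⟩)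
        (fun j _ => by rw [transpose_apply]; exact mul_self_nonneg _) (Finset.mem_univ i)
    exact abs_le_of_sq_le_sq' (h2.trans hD.le) (by positivity) |> abs_le.2
  have h2 : ∀ i, B ⟨0, h0⟩ i = dotQ u (fun j => (V i.succ j : ℚ)) - dotQ u fun j => (V 0 j : ℚ) := by
    intro i
    rw [hB, rbasis, castQ, Matrix.map_apply, Matrix.mul_apply]
    unfold dotQ
    rw [← Finset.sum_sub_distrib]
    push_cast
    refine Finset.sum_congr rfl fun j _ => ?_
    simp only [edges, Matrix.of_apply]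
    push_cast
    ring
  have h3 : (q : ℚ) * dotQ u y = ∑ i, β i * dotQ u (fun j => (V i j : ℚ)) := by
    unfold dotQ
    rw [Finset.mul_sum]
    have h2 : ∀ j, (q : ℚ) * ((u j : ℚ) * y j) = ∑ i, β i * ((u j : ℚ) * V i j) := by
      intro j
      calc (q : ℚ) * ((u j : ℚ) * y j) = u j * (q * y j) := by ring
        _ = ∑ i, β i * ((u j : ℚ) * V i j) := by
          rw [hβ j, Finset.mul_sum]
          exact Finset.sum_congr rfl fun i _ => by ring
    rw [Finset.sum_congr rfl fun j _ => h2 j, Finset.sum_comm]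
    exact Finset.sum_congr rfl fun i _ => by rw [Finset.mul_sum]
  have h4 : (q : ℚ) * (dotQ u y - dotQ u (fun j => (V 0 j : ℚ)) / q) =
      ∑ i : Fin n, β i.succ * B ⟨0, h0⟩ i := by
    have h5 : (q : ℚ) * (dotQ u y - dotQ u (fun j => (V 0 j : ℚ)) / q) =
        q * dotQ u y - dotQ u (fun j => (V 0 j : ℚ)) := by field_simp
    rw [h5, h3]
    have h6 : dotQ u (fun j => (V 0 j : ℚ)) = ∑ i, β i * dotQ u (fun j => (V 0 j : ℚ)) := by
      rw [← Finset.sum_mul, hβ1, one_mul]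
    rw [h6, ← Finset.sum_sub_distrib, Fin.sum_univ_succ, sub_self, zero_add]
    refine Finset.sum_congr rfl fun i _ => ?_
    rw [h2 i]; ring
  have h5 : |(q : ℚ) * (dotQ u y - dotQ u (fun j => (V 0 j : ℚ)) / q)| ≤ G * q := by
    rw [h4]
    calc |∑ i : Fin n, β i.succ * B ⟨0, h0⟩ i| ≤ ∑ i : Fin n, |β i.succ * B ⟨0, h0⟩ i| :=
          Finset.abs_sum_le_sum_abs _ _
      _ ≤ ∑ i : Fin n, β i.succ * (G * q) := by
          refine Finset.sum_le_sum fun i _ => ?_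
          rw [abs_mul, abs_of_nonneg (hβ0 _)]
          exact mul_le_mul_of_nonneg_left (h1 i) (hβ0 _)
      _ = (∑ i : Fin n, β i.succ) * (G * q) := by rw [Finset.sum_mul]
      _ ≤ 1 * (G * q) := by
          refine mul_le_mul_of_nonneg_right ?_ (by positivity)
          rw [Fin.sum_univ_succ] at hβ1
          linarith [hβ0 0]
      _ = G * q := one_mul _
  rw [abs_mul, abs_of_pos hq'] at h5
  by_contra hcon
  push Not at hcon
  nlinarith

/-- **The query point** has barycentric coordinates close to `1/(n+1)`. -/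
theorem flat_point (hn : 1 ≤ n) (q : ℤ) (hq : 0 < q) (U W : Matrix (Fin n) (Fin n) ℤ)
    (hUW : U * W = 1) (V : Fin (n + 1) → Fin n → ℤ) {mu : Matrix (Fin n) (Fin n) ℚ}
    {D : Fin n → ℚ} (h : IsRed (rbasis U V * (rbasis U V)ᵀ) mu D)
    (hD : ((flatG n : ℚ) * q) ^ 2 ≤ D ⟨0, hn⟩)
    (z x : Fin n → ℤ) (hz : ∀ i, 2 * |(n + 1) * q * z i - ∑ j, U i j * ∑ k, V k j| ≤ (n + 1) * q)
    (hx : x = W *ᵥ z) :
    ∃ β : Fin (n + 1) → ℚ, ∑ i, β i = 1 ∧ (∀ j, ∑ i, β i * V i j = q * x j) ∧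
      ∀ i, |(n + 1) * β i - 1| ≤ 1 / (12 * (n : ℚ) ^ 2) := by
  have hq' : (0 : ℚ) < q := by exact_mod_cast hq
  have hn1 : (1 : ℚ) ≤ n := by exact_mod_cast hn
  have hn' : (0 : ℚ) < n := by linarith
  obtain ⟨_, hE⟩ := det_edges_ne hUW h
  have hEQ : IsUnit (castQ (edges V)).det := by
    rw [castQ_det, isUnit_iff_ne_zero]
    exact_mod_cast hE
  -- the centre (times `q`)
  set c : Fin n → ℚ := fun j => (∑ k, (V k j : ℚ)) / (n + 1) with hc
  obtain ⟨xi, hxi⟩ : ∃ xi : Fin n → ℚ, castQ (edges V) *ᵥ xi = fun j => (q : ℚ) * x j - c j :=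
    ⟨(castQ (edges V))⁻¹ *ᵥ (fun j => (q : ℚ) * x j - c j), by
      rw [mulVec_mulVec, mul_nonsing_inv _ hEQ, one_mulVec]⟩
  -- the bound for `xi`
  have hBxi : rbasis U V *ᵥ (fun j => xi j / q) =
      fun i => (z i : ℚ) - (∑ j, (U i j : ℚ) * c j) / q := by
    have h1 : (fun j => xi j / q) = (q : ℚ)⁻¹ • xi := by
      funext j; simp [div_eq_inv_mul]
    rw [h1, mulVec_smul, rbasis, castQ_mul, ← mulVec_mulVec, hxi]
    funext i
    have h2 : (castQ U *ᵥ fun j => (q : ℚ) * x j - c j) i =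
        q * z i - ∑ j, (U i j : ℚ) * c j := by
      have h3 : (castQ U *ᵥ fun j => (q : ℚ) * x j - c j) i =
          q * (∑ j, (U i j : ℚ) * x j) - ∑ j, (U i j : ℚ) * c j := by
        rw [Matrix.mulVec, dotProduct, Finset.mul_sum, ← Finset.sum_sub_distrib]
        refine Finset.sum_congr rfl fun j _ => ?_
        simp only [castQ, Matrix.map_apply]
        ring
      have h4 : ∑ j, (U i j : ℚ) * x j = z i := by
        have h5 : (U *ᵥ x) i = z i := by
          rw [hx, mulVec_mulVec, hUW, one_mulVec]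
        rw [← h5, Matrix.mulVec, dotProduct]
        push_cast; rfl
      rw [h3, h4]
    rw [Pi.smul_apply, h2, smul_eq_mul]
    field_simp
  have hr : ∀ i, |(z i : ℚ) - (∑ j, (U i j : ℚ) * c j) / q| ≤ 1 / 2 := by
    intro i
    have h1 : (2 * |(n + 1) * q * z i - ∑ j, U i j * ∑ k, V k j| : ℚ) ≤ (n + 1) * q := by
      have := hz i
      exact_mod_cast this
    have h2 : ((z i : ℚ) - (∑ j, (U i j : ℚ) * c j) / q) * ((n + 1) * q) =
        (n + 1) * q * z i - ∑ j, (U i j : ℚ) * ∑ k, (V k j : ℚ) := by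
      have h3 : ∑ j, (U i j : ℚ) * c j = (∑ j, (U i j : ℚ) * ∑ k, (V k j : ℚ)) / (n + 1) := by
        rw [Finset.sum_div]
        refine Finset.sum_congr rfl fun j _ => ?_
        rw [hc]; ring
      rw [h3]
      field_simp
    have hpos : (0 : ℚ) < (n + 1) * q := by positivity
    have h3 : |(z i : ℚ) - (∑ j, (U i j : ℚ) * c j) / q| * ((n + 1) * q) ≤
        1 / 2 * ((n + 1) * q) := by
      rw [← abs_of_pos hpos, ← abs_mul, h2, abs_of_pos hpos]
      push_cast at h1 ⊢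
      linarith
    exact le_of_mul_le_mul_right h3 hpos
  have hδ : (0 : ℚ) < ((flatG n : ℚ) * q) ^ 2 := by
    have : (0 : ℚ) < flatG n := by
      unfold flatG; positivity
    positivity
  have hbound := rounding_bound h (fun j => xi j / q) _ hBxi hr (((flatG n : ℚ) * q) ^ 2) hδ
    fun i => hD.trans (h.le_pow hn i)
  have hxi2 : ∀ i, |xi i| ≤ 1 / (12 * (n : ℚ) ^ 3 * (n + 1)) := by
    intro i
    have h1 : (xi i / q) ^ 2 ≤ (9 / 2) ^ n / ((flatG n : ℚ) * q) ^ 2 := by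
      refine le_trans ?_ hbound
      rw [sq]
      exact Finset.single_le_sum (f := fun j => (xi j / q) * (xi j / q))
        (fun j _ => mul_self_nonneg _) (Finset.mem_univ i)
    have h2 : xi i ^ 2 ≤ (1 / (12 * (n : ℚ) ^ 3 * (n + 1))) ^ 2 := by
      have h3 : (flatG n : ℚ) = 12 * (n : ℚ) ^ 3 * (n + 1) * 3 ^ n := by
        unfold flatG; push_cast; ring
      rw [div_pow, div_le_iff₀ (by positivity)] at h1
      refine h1.trans ?_
      rw [h3]
      have h4 : (9 / 2 : ℚ) ^ n ≤ (3 ^ n) ^ 2 := by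
        rw [← pow_mul, mul_comm n 2, pow_mul]
        exact pow_le_pow_left₀ (by norm_num) (by norm_num) n
      have h5 : (9 / 2 : ℚ) ^ n / (12 * (n : ℚ) ^ 3 * (n + 1) * 3 ^ n * q) ^ 2 * (q : ℚ) ^ 2 =
          (9 / 2) ^ n / (3 ^ n) ^ 2 * (1 / (12 * (n : ℚ) ^ 3 * (n + 1))) ^ 2 := by
        field_simp
      rw [h5]
      have h6 : (9 / 2 : ℚ) ^ n / (3 ^ n) ^ 2 ≤ 1 := by
        rw [div_le_one (by positivity)]; exact h4
      nlinarith [sq_nonneg (1 / (12 * (n : ℚ) ^ 3 * (n + 1)))]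
    exact abs_le_of_sq_le_sq' h2 (by positivity) |> abs_le.2
  -- the barycentric coordinates
  refine ⟨Fin.cons (1 / (n + 1) - ∑ i, xi i) fun i => 1 / (n + 1) + xi i, ?_, ?_, ?_⟩
  · rw [Fin.sum_univ_succ]
    simp only [Fin.cons_zero, Fin.cons_succ, Finset.sum_add_distrib, Finset.sum_const,
      Finset.card_univ, Fintype.card_fin, nsmul_eq_mul]
    field_simp
    ring
  · intro j
    rw [Fin.sum_univ_succ]
    simp only [Fin.cons_zero, Fin.cons_succ]
    have h1 : (castQ (edges V) *ᵥ xi) j = q * x j - c j := by rw [hxi]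
    have h2 : (castQ (edges V) *ᵥ xi) j =
        ∑ i : Fin n, xi i * ((V i.succ j : ℚ) - V 0 j) := by
      rw [Matrix.mulVec, dotProduct]
      refine Finset.sum_congr rfl fun i _ => ?_
      simp only [castQ, Matrix.map_apply, edges, Matrix.of_apply]
      push_cast; ring
    have h3 : c j = (V 0 j : ℚ) / (n + 1) + ∑ i : Fin n, 1 / (n + 1) * (V i.succ j : ℚ) := by
      rw [hc, ← Finset.mul_sum]
      simp only
      rw [Fin.sum_univ_succ]
      ring
    have h4 : ∑ i : Fin n, xi i * ((V i.succ j : ℚ) - V 0 j) =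
        ∑ i : Fin n, xi i * (V i.succ j : ℚ) - (∑ i, xi i) * V 0 j := by
      rw [Finset.sum_mul, ← Finset.sum_sub_distrib]
      exact Finset.sum_congr rfl fun i _ => by ring
    rw [h2, h4] at h1
    have h5 : ∑ i : Fin n, (1 / (n + 1) + xi i) * (V i.succ j : ℚ) =
        ∑ i : Fin n, 1 / (n + 1) * (V i.succ j : ℚ) + ∑ i : Fin n, xi i * (V i.succ j : ℚ) := by
      rw [← Finset.sum_add_distrib]
      exact Finset.sum_congr rfl fun i _ => by ring
    rw [h5]
    rw [h3] at h1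
    have h6 : (1 / ((n : ℚ) + 1) - ∑ i, xi i) * (V 0 j : ℚ) =
        (V 0 j : ℚ) / (n + 1) - (∑ i, xi i) * V 0 j := by ring
    rw [h6]
    linarith
  · intro i
    refine Fin.cases ?_ (fun i => ?_) i
    · simp only [Fin.cons_zero]
      have h1 : (n + 1) * (1 / ((n : ℚ) + 1) - ∑ i, xi i) - 1 = -((n + 1) * ∑ i, xi i) := by
        field_simp; ring
      rw [h1, abs_neg, abs_mul, abs_of_pos (by positivity : (0 : ℚ) < n + 1)]
      have h2 : |∑ i, xi i| ≤ n * (1 / (12 * (n : ℚ) ^ 3 * (n + 1))) := by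
        refine (Finset.abs_sum_le_sum_abs _ _).trans ?_
        refine (Finset.sum_le_sum fun i _ => hxi2 i).trans ?_
        rw [Finset.sum_const, Finset.card_univ, Fintype.card_fin, nsmul_eq_mul]
      calc ((n : ℚ) + 1) * |∑ i, xi i| ≤ (n + 1) * (n * (1 / (12 * (n : ℚ) ^ 3 * (n + 1)))) :=
            mul_le_mul_of_nonneg_left h2 (by positivity)
        _ = 1 / (12 * (n : ℚ) ^ 2) := by field_simp
    · simp only [Fin.cons_succ]
      have h1 : (n + 1) * (1 / ((n : ℚ) + 1) + xi i) - 1 = (n + 1) * xi i := by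
        field_simp; ring
      rw [h1, abs_mul, abs_of_pos (by positivity : (0 : ℚ) < n + 1)]
      calc ((n : ℚ) + 1) * |xi i| ≤ (n + 1) * (1 / (12 * (n : ℚ) ^ 3 * (n + 1))) :=
            mul_le_mul_of_nonneg_left (hxi2 i) (by positivity)
        _ = 1 / (12 * (n : ℚ) ^ 3) := by field_simp
        _ ≤ 1 / (12 * (n : ℚ) ^ 2) := by
            refine one_div_le_one_div_of_le (by positivity) ?_
            have : (n : ℚ) ^ 2 ≤ n ^ 3 := pow_le_pow_right₀ hn1 (by norm_num)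
            linarith

/-- If the basis is not flat then the simplex is large. -/
theorem flat_volume (hn : 1 ≤ n) (q : ℤ) (hq : 0 < q) (U W : Matrix (Fin n) (Fin n) ℤ)
    (hUW : U * W = 1) (V : Fin (n + 1) → Fin n → ℤ) {mu : Matrix (Fin n) (Fin n) ℚ}
    {D : Fin n → ℚ} (h : IsRed (rbasis U V * (rbasis U V)ᵀ) mu D)
    (hD : ((flatG n : ℚ) * q) ^ 2 ≤ D ⟨0, hn⟩) :
    q ^ (n + 1) ≤ |(homog q V).det| := by
  have hq' : (0 : ℚ) < q := by exact_mod_cast hq
  obtain ⟨h1, _⟩ := det_edges_ne hUW h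
  have h2 : ∀ i : Fin n, (q : ℚ) ^ 2 ≤ D i := by
    intro i
    have h3 := h.le_pow hn i
    have h4 : (2 : ℚ) ^ (i : ℕ) ≤ (flatG n : ℚ) ^ 2 := by
      have h5 : (flatG n : ℚ) = 12 * (n : ℚ) ^ 3 * (n + 1) * 3 ^ n := by
        unfold flatG; push_cast; ring
      have hn1 : (1 : ℚ) ≤ n := by exact_mod_cast hn
      have h6 : (3 : ℚ) ^ n ≤ flatG n := by
        rw [h5]
        have : (1 : ℚ) ≤ 12 * (n : ℚ) ^ 3 * (n + 1) := by
          have : (1 : ℚ) ≤ (n : ℚ) ^ 3 := one_le_pow₀ hn1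
          nlinarith
        have h7 : (0 : ℚ) < 3 ^ n := by positivity
        nlinarith
      calc (2 : ℚ) ^ (i : ℕ) ≤ 2 ^ n := pow_le_pow_right₀ (by norm_num) i.2.le
        _ ≤ 3 ^ n := pow_le_pow_left₀ (by norm_num) (by norm_num) n
        _ ≤ flatG n := h6
        _ ≤ (flatG n : ℚ) ^ 2 := by
            have h7 : (1 : ℚ) ≤ flatG n := (one_le_pow₀ (by norm_num)).trans h6
            nlinarith
    have h5 : 2 ^ (i : ℕ) * (q : ℚ) ^ 2 ≤ 2 ^ (i : ℕ) * D i := by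
      calc 2 ^ (i : ℕ) * (q : ℚ) ^ 2 ≤ (flatG n : ℚ) ^ 2 * (q : ℚ) ^ 2 :=
            mul_le_mul_of_nonneg_right h4 (by positivity)
        _ = ((flatG n : ℚ) * q) ^ 2 := by ring
        _ ≤ _ := hD.trans h3
    exact le_of_mul_le_mul_left h5 (by positivity)
  have h3 : ((q : ℚ) ^ n) ^ 2 ≤ ((edges V).det : ℚ) ^ 2 := by
    rw [h1]
    calc ((q : ℚ) ^ n) ^ 2 = ∏ _i : Fin n, (q : ℚ) ^ 2 := by
          rw [Finset.prod_const, Finset.card_univ, Fintype.card_fin]; ring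
      _ ≤ ∏ i, D i := Finset.prod_le_prod (fun i _ => by positivity) fun i _ => h2 i
  have h4 : (q : ℚ) ^ n ≤ |((edges V).det : ℚ)| := by
    have := sq_le_sq.1 h3
    rwa [abs_of_pos (by positivity : (0 : ℚ) < (q : ℚ) ^ n)] at this
  have h5 : q ^ n ≤ |(edges V).det| := by exact_mod_cast h4
  rw [det_homog, abs_mul, abs_of_pos hq, pow_succ, mul_comm]
  exact mul_le_mul_of_nonneg_left h5 hq.le

end Pool.Agent.MonFPT
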