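import Mathlib

/-!
# Rounding with respect to a reduced basis

The rows of `B` are a reduced basis: `B Bᵀ = μ diag(D) μᵀ` with `μ` lower unitriangular and
size-reduced and `D` not decreasing too fast.  If `B ξ = r` with `|r i| ≤ 1/2` then `ξ` is small.
-/

set_option autoImplicit false

namespace Pool.Agent.MonFPT

open Matrix

variable {n : ℕ}

/-- `mu` is lower unitriangular with small entries below the diagonal. -/
structure SizeRed (mu : Matrix (Fin n) (Fin n) ℚ) : Prop where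
  one : ∀ i, mu i i = 1
  zero : ∀ i j, i < j → mu i j = 0
  small : ∀ i j, j < i → |mu i j| ≤ 1 / 2

/-- The quadratic form `Q` has a reduced decomposition `mu diag(D) muᵀ`. -/
structure IsRed (Q : Matrix (Fin n) (Fin n) ℚ) (mu : Matrix (Fin n) (Fin n) ℚ)
    (D : Fin n → ℚ) : Prop where
  size : SizeRed mu
  pos : ∀ i, 0 < D i
  lov : ∀ i j : Fin n, (j : ℕ) = i + 1 → D i ≤ 2 * D j
  eq : Q = mu * diagonal D * muᵀ

lemma SizeRed.det_eq {mu : Matrix (Fin n) (Fin n) ℚ} (h : SizeRed mu) : mu.det = 1 := by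
  rw [det_of_isLowerTriangular (M := mu) fun i j hij => h.zero i j hij]
  simp [h.one]

lemma IsRed.det_eq {Q mu : Matrix (Fin n) (Fin n) ℚ} {D : Fin n → ℚ} (h : IsRed Q mu D) :
    Q.det = ∏ i, D i := by
  rw [h.eq, det_mul, det_mul, det_transpose, h.size.det_eq, det_diagonal]
  ring

lemma IsRed.le_pow {Q mu : Matrix (Fin n) (Fin n) ℚ} {D : Fin n → ℚ} (h : IsRed Q mu D)
    (h0 : 0 < n) (i : Fin n) : D ⟨0, h0⟩ ≤ 2 ^ (i : ℕ) * D i := by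
  obtain ⟨i, hi⟩ := i
  induction i with
  | zero => simp
  | succ i ih =>
    refine (ih (by omega)).trans ?_
    have h1 := h.lov ⟨i, by omega⟩ ⟨i + 1, hi⟩ rfl
    change 2 ^ i * D ⟨i, _⟩ ≤ 2 ^ (i + 1) * D ⟨i + 1, hi⟩
    rw [pow_succ]
    nlinarith [pow_pos (by norm_num : (0 : ℚ) < 2) i]

/-- Solving a lower unitriangular size-reduced system. -/
lemma SizeRed.solve_le {mu : Matrix (Fin n) (Fin n) ℚ} (h : SizeRed mu) (s r : Fin n → ℚ)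
    (hs : mu *ᵥ s = r) (hr : ∀ i, |r i| ≤ 1 / 2) (i : Fin n) :
    |s i| ≤ 1 / 2 * (3 / 2) ^ (i : ℕ) := by
  obtain ⟨i, hi⟩ := i
  induction i using Nat.strong_induction_on with
  | _ i ih =>
    have h1 : r ⟨i, hi⟩ = ∑ j, mu ⟨i, hi⟩ j * s j := by
      rw [← hs]; rfl
    have h2 : ∑ j, mu ⟨i, hi⟩ j * s j =
        s ⟨i, hi⟩ + ∑ j ∈ Finset.univ.filter (· < (⟨i, hi⟩ : Fin n)), mu ⟨i, hi⟩ j * s j := by
      rw [← Finset.sum_filter_add_sum_filter_not Finset.univ (· < (⟨i, hi⟩ : Fin n)), add_comm]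
      congr 1
      rw [Finset.sum_eq_single_of_mem (⟨i, hi⟩ : Fin n)]
      · rw [h.one, one_mul]
      · simp
      · intro j hj hne
        have h3 : (⟨i, hi⟩ : Fin n) < j := by
          rw [Finset.mem_filter] at hj
          exact lt_of_le_of_ne (not_lt.1 hj.2) (Ne.symm hne)
        rw [h.zero _ _ h3, zero_mul]
    have h3 : s ⟨i, hi⟩ = r ⟨i, hi⟩ -
        ∑ j ∈ Finset.univ.filter (· < (⟨i, hi⟩ : Fin n)), mu ⟨i, hi⟩ j * s j := by
      rw [h1, h2]; ring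
    have h4 : |∑ j ∈ Finset.univ.filter (· < (⟨i, hi⟩ : Fin n)), mu ⟨i, hi⟩ j * s j| ≤
        ∑ j ∈ Finset.range i, 1 / 4 * (3 / 2 : ℚ) ^ j := by
      refine (Finset.abs_sum_le_sum_abs _ _).trans ?_
      have h5 : ∑ j ∈ Finset.univ.filter (· < (⟨i, hi⟩ : Fin n)), |mu ⟨i, hi⟩ j * s j| ≤
          ∑ j ∈ Finset.univ.filter (· < (⟨i, hi⟩ : Fin n)), 1 / 4 * (3 / 2 : ℚ) ^ (j : ℕ) := by
        refine Finset.sum_le_sum fun j hj => ?_
        rw [Finset.mem_filter] at hj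
        have h6 := ih j hj.2 j.2
        have h7 := h.small _ _ hj.2
        rw [abs_mul]
        calc |mu ⟨i, hi⟩ j| * |s j| ≤ 1 / 2 * (1 / 2 * (3 / 2) ^ (j : ℕ)) :=
              mul_le_mul h7 h6 (abs_nonneg _) (by norm_num)
          _ = 1 / 4 * (3 / 2 : ℚ) ^ (j : ℕ) := by ring
      refine h5.trans (le_of_eq ?_)
      refine Finset.sum_bij (fun j _ => (j : ℕ)) ?_ ?_ ?_ ?_
      · intro j hj
        rw [Finset.mem_filter] at hj
        exact Finset.mem_range.2 hj.2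
      · intro a _ b _ hab
        exact Fin.ext hab
      · intro b hb
        rw [Finset.mem_range] at hb
        exact ⟨⟨b, by omega⟩, by rw [Finset.mem_filter]; exact ⟨Finset.mem_univ _, hb⟩, rfl⟩
      · intro j _; rfl
    have h8 : ∑ j ∈ Finset.range i, 1 / 4 * (3 / 2 : ℚ) ^ j = 1 / 2 * (3 / 2) ^ i - 1 / 2 := by
      rw [← Finset.mul_sum, geom_sum_eq (by norm_num)]
      ring
    rw [h8] at h4
    rw [h3]
    refine (abs_sub _ _).trans ?_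
    have := hr ⟨i, hi⟩
    linarith

/-- **Rounding bound.** -/
theorem rounding_bound {B mu : Matrix (Fin n) (Fin n) ℚ} {D : Fin n → ℚ}
    (h : IsRed (B * Bᵀ) mu D) (xi r : Fin n → ℚ) (hx : B *ᵥ xi = r) (hr : ∀ i, |r i| ≤ 1 / 2)
    (δ : ℚ) (hδ : 0 < δ) (hD : ∀ i : Fin n, δ ≤ 2 ^ (i : ℕ) * D i) :
    xi ⬝ᵥ xi ≤ (9 / 2) ^ n / δ := by
  have hdet : mu.det = 1 := h.size.det_eq
  have hunit : IsUnit mu.det := by rw [hdet]; exact isUnit_one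
  have hunitT : IsUnit muᵀ.det := by rw [det_transpose]; exact hunit
  obtain ⟨s, hms⟩ : ∃ s : Fin n → ℚ, mu *ᵥ s = r :=
    ⟨mu⁻¹ *ᵥ r, by rw [mulVec_mulVec, mul_nonsing_inv _ hunit, one_mulVec]⟩
  set t : Fin n → ℚ := fun i => s i / D i with ht
  obtain ⟨z, hmz⟩ : ∃ z : Fin n → ℚ, muᵀ *ᵥ z = t :=
    ⟨(muᵀ)⁻¹ *ᵥ t, by rw [mulVec_mulVec, mul_nonsing_inv _ hunitT, one_mulVec]⟩
  have hDt : diagonal D *ᵥ t = s := by
    funext i
    rw [mulVec_diagonal, ht]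
    exact mul_div_cancel₀ _ (h.pos i).ne'
  have hBz : (B * Bᵀ) *ᵥ z = r := by
    rw [h.eq, ← mulVec_mulVec, hmz, ← mulVec_mulVec, hDt, hms]
  have hBdet : IsUnit B.det := by
    have h1 : (B * Bᵀ).det = ∏ i, D i := h.det_eq
    rw [det_mul, det_transpose] at h1
    have h2 : 0 < ∏ i, D i := Finset.prod_pos fun i _ => h.pos i
    rw [isUnit_iff_ne_zero]
    intro h0
    rw [h0, zero_mul] at h1
    linarith
  have hxz : xi = Bᵀ *ᵥ z := by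
    have h1 : B *ᵥ (Bᵀ *ᵥ z) = B *ᵥ xi := by rw [mulVec_mulVec, hBz, hx]
    have h3 : B⁻¹ * B = 1 := nonsing_inv_mul _ hBdet
    calc xi = (B⁻¹ * B) *ᵥ xi := by rw [h3, one_mulVec]
      _ = B⁻¹ *ᵥ (B *ᵥ xi) := by rw [mulVec_mulVec]
      _ = B⁻¹ *ᵥ (B *ᵥ (Bᵀ *ᵥ z)) := by rw [h1]
      _ = (B⁻¹ * B) *ᵥ (Bᵀ *ᵥ z) := by rw [mulVec_mulVec (Bᵀ *ᵥ z) B⁻¹ B]
      _ = Bᵀ *ᵥ z := by rw [h3, one_mulVec]
  have hval : xi ⬝ᵥ xi = ∑ i, s i ^ 2 / D i := by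
    have h1 : xi ⬝ᵥ xi = z ⬝ᵥ r := by
      calc xi ⬝ᵥ xi = xi ⬝ᵥ (Bᵀ *ᵥ z) := by rw [← hxz]
        _ = (xi ᵥ* Bᵀ) ⬝ᵥ z := dotProduct_mulVec _ _ _
        _ = (B *ᵥ xi) ⬝ᵥ z := by rw [vecMul_transpose]
        _ = z ⬝ᵥ r := by rw [hx, dotProduct_comm]
    rw [h1, ← hms, dotProduct_mulVec, ← mulVec_transpose, hmz]
    refine Finset.sum_congr rfl fun i _ => ?_
    rw [ht]
    ring
  rw [hval]
  have hterm : ∀ i : Fin n, s i ^ 2 / D i ≤ 1 / 4 * (9 / 2) ^ (i : ℕ) / δ := by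
    intro i
    have h1 := h.size.solve_le s r hms hr i
    have h2 : s i ^ 2 ≤ 1 / 4 * (9 / 4) ^ (i : ℕ) := by
      have h3 : |s i| ^ 2 ≤ (1 / 2 * (3 / 2) ^ (i : ℕ)) ^ 2 :=
        pow_le_pow_left₀ (abs_nonneg _) h1 2
      rw [sq_abs] at h3
      refine h3.trans (le_of_eq ?_)
      rw [mul_pow, ← pow_mul, mul_comm (i : ℕ) 2, pow_mul]
      norm_num
    rw [div_le_div_iff₀ (h.pos i) hδ]
    have h4 : (9 / 2 : ℚ) ^ (i : ℕ) = (9 / 4) ^ (i : ℕ) * 2 ^ (i : ℕ) := by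
      rw [← mul_pow]; norm_num
    calc s i ^ 2 * δ ≤ (1 / 4 * (9 / 4) ^ (i : ℕ)) * (2 ^ (i : ℕ) * D i) :=
          mul_le_mul h2 (hD i) hδ.le (by positivity)
      _ = 1 / 4 * (9 / 2) ^ (i : ℕ) * D i := by rw [h4]; ring
  refine (Finset.sum_le_sum fun i _ => hterm i).trans ?_
  rw [← Finset.sum_div]
  refine div_le_div_of_nonneg_right ?_ hδ.le
  rw [← Finset.mul_sum, Fin.sum_univ_eq_sum_range (fun i => (9 / 2 : ℚ) ^ i) n,
    geom_sum_eq (by norm_num)]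
  have h5 : (0 : ℚ) < (9 / 2) ^ n := by positivity
  rw [← mul_div_assoc, div_le_iff₀ (by norm_num)]
  linarith

end Pool.Agent.MonFPT
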