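import Mathlib

/-!
# The homogeneous matrix of a simplex and its determinant
-/

set_option autoImplicit false

namespace Pool.Agent.MonFPT

open Matrix

variable {n : ℕ}

/-- The homogeneous matrix of the simplex with the vertices `V i / q`: the rows are `(q, V i)`. -/
def homog (q : ℤ) (V : Fin (n + 1) → Fin n → ℤ) : Matrix (Fin (n + 1)) (Fin (n + 1)) ℤ :=
  Matrix.of fun i => Fin.cons q (V i)

/-- The matrix of the edges at the vertex `0`: the column `i` is `V (i+1) - V 0`. -/
def edges (V : Fin (n + 1) → Fin n → ℤ) : Matrix (Fin n) (Fin n) ℤ :=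
  Matrix.of fun r i => V i.succ r - V 0 r

lemma det_homog (q : ℤ) (V : Fin (n + 1) → Fin n → ℤ) :
    (homog q V).det = q * (edges V).det := by
  -- subtract the row `0` from all other rows
  set B : Matrix (Fin (n + 1)) (Fin (n + 1)) ℤ := Matrix.of fun i =>
    Fin.cases (Fin.cons q (V 0)) (fun i => Fin.cons 0 (V i.succ - V 0)) i with hB
  have h1 : (homog q V).det = B.det := by
    refine det_eq_of_forall_row_eq_smul_add_const (Fin.cases 0 fun _ => 1) 0 rfl ?_
    intro i j
    refine Fin.cases ?_ (fun i => ?_) i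
    · simp [hB, homog]
    · refine Fin.cases ?_ (fun j => ?_) j
      · simp [hB, homog]
      · simp [hB, homog]
  rw [h1, det_succ_column_zero, Finset.sum_eq_single_of_mem (0 : Fin (n + 1)) (Finset.mem_univ _)]
  · have h2 : B.submatrix (Fin.succAbove 0) Fin.succ = (edges V)ᵀ := by
      ext i j
      simp [hB, edges]
    rw [h2, det_transpose]
    simp [hB]
  · intro i _ hi
    obtain ⟨i, rfl⟩ := Fin.exists_succ_eq.2 hi
    simp [hB]

/-- The vertices of the new simplex (numerators). -/
def updV (R0 : ℤ) (r : Fin (n + 1) → ℤ) (k : Fin (n + 1)) (V : Fin (n + 1) → Fin n → ℤ) :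
    Fin (n + 1) → Fin n → ℤ :=
  fun i j => R0 * V k j + r i * (V i j - V k j)

lemma det_homog_updV (q R0 : ℤ) (r : Fin (n + 1) → ℤ) (k : Fin (n + 1))
    (V : Fin (n + 1) → Fin n → ℤ) :
    (homog (R0 * q) (updV R0 r k V)).det =
      R0 * (∏ i ∈ Finset.univ.erase k, r i) * (homog q V).det := by
  set H := homog q V with hH
  -- `C i = H i - H k` for `i ≠ k` and `C k = H k`
  set C : Matrix (Fin (n + 1)) (Fin (n + 1)) ℤ := Matrix.of fun i j =>
    if i = k then H k j else H i j - H k j with hC
  have h1 : H.det = C.det := by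
    refine det_eq_of_forall_row_eq_smul_add_const (fun i => if i = k then 0 else 1) k
      (if_pos rfl) ?_
    intro i j
    by_cases hi : i = k
    · subst hi; simp [hC]
    · simp [hC, hi]
  set A : Matrix (Fin (n + 1)) (Fin (n + 1)) ℤ := Matrix.of fun i j =>
    (if i = k then R0 else r i) * C i j with hA
  have h2 : A.det = R0 * (∏ i ∈ Finset.univ.erase k, r i) * C.det := by
    rw [hA, det_mul_column]
    congr 1
    rw [← Finset.mul_prod_erase Finset.univ _ (Finset.mem_univ k), if_pos rfl]
    congr 1
    refine Finset.prod_congr rfl fun i hi => ?_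
    rw [if_neg (Finset.ne_of_mem_erase hi)]
  rw [h1, ← h2]
  refine det_eq_of_forall_row_eq_smul_add_const (fun i => if i = k then 0 else 1) k
    (if_pos rfl) ?_
  intro i j
  by_cases hi : i = k
  · subst hi
    refine Fin.cases ?_ (fun j => ?_) j
    · simp [hA, hC, hH, homog]
    · simp [hA, hC, hH, homog, updV]
  · refine Fin.cases ?_ (fun j => ?_) j
    · simp [hA, hC, hH, homog, hi]
    · simp [hA, hC, hH, homog, updV, hi]
      ring

end Pool.Agent.MonFPT
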