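import Pool.Agent.MonFPT.SimplexUpdate
import Pool.Agent.MonFPT.SimplexDet
import Pool.Agent.MonFPT.Rounding

/-!
# One step of the flatness algorithm
-/

set_option autoImplicit false

namespace Pool.Agent.MonFPT

open Matrix

variable {n : ℕ}

/-- `y` is in the simplex with the vertices `V i / q`. -/
def InSimplex (q : ℤ) (V : Fin (n + 1) → Fin n → ℤ) (y : Fin n → ℚ) : Prop :=
  ∃ β : Fin (n + 1) → ℚ, (∀ i, 0 ≤ β i) ∧ ∑ i, β i = 1 ∧
    ∀ j, (q : ℚ) * y j = ∑ i, β i * V i j

/-- The value of an integral functional at a rational point. -/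
def dotQ (h : Fin n → ℤ) (y : Fin n → ℚ) : ℚ := ∑ j, (h j : ℚ) * y j

/-- The (scaled) value of the cut at a vertex. -/
def gval (q : ℤ) (V : Fin (n + 1) → Fin n → ℤ) (h x : Fin n → ℤ) (i : Fin (n + 1)) : ℤ :=
  ∑ j, h j * V i j - q * ∑ j, h j * x j

/-- `dotQ` as a linear map. -/
def dotL (h : Fin n → ℤ) : (Fin n → ℚ) →ₗ[ℚ] ℚ where
  toFun := dotQ h
  map_add' a b := by simp [dotQ, mul_add, Finset.sum_add_distrib]
  map_smul' c a := by
    simp only [dotQ, Pi.smul_apply, smul_eq_mul, RingHom.id_apply, Finset.mul_sum]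
    exact Finset.sum_congr rfl fun j _ => by ring

lemma dotL_apply (h : Fin n → ℤ) (y : Fin n → ℚ) : dotL h y = dotQ h y := rfl

lemma gval_cast (q : ℤ) (hq : 0 < q) (V : Fin (n + 1) → Fin n → ℤ) (h x : Fin n → ℤ)
    (i : Fin (n + 1)) :
    (gval q V h x i : ℚ) = q * (dotQ h (fun j => (V i j : ℚ) / q) - dotQ h fun j => (x j : ℚ)) := by
  have hq' : (q : ℚ) ≠ 0 := by exact_mod_cast hq.ne'
  unfold gval dotQ
  push_cast
  rw [mul_sub, Finset.mul_sum, Finset.mul_sum]
  congr 1
  refine Finset.sum_congr rfl fun j _ => ?_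
  field_simp

/-- If the cut is not negative at any vertex then nothing is left. -/
theorem flat_empty (q : ℤ) (hq : 0 < q) (V : Fin (n + 1) → Fin n → ℤ) (h x : Fin n → ℤ)
    (hg : ∀ i, 0 ≤ gval q V h x i) (y : Fin n → ℚ) (hy : InSimplex q V y) :
    dotQ h (fun j => (x j : ℚ)) ≤ dotQ h y := by
  obtain ⟨β, hβ0, hβ1, hβ⟩ := hy
  have hq' : (0 : ℚ) < q := by exact_mod_cast hq
  have h1 : (q : ℚ) * dotQ h y = ∑ i, β i * ∑ j, (h j : ℚ) * V i j := by
    unfold dotQ
    rw [Finset.mul_sum]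
    have h2 : ∀ j, (q : ℚ) * ((h j : ℚ) * y j) = ∑ i, β i * ((h j : ℚ) * V i j) := by
      intro j
      calc (q : ℚ) * ((h j : ℚ) * y j) = h j * (q * y j) := by ring
        _ = ∑ i, β i * ((h j : ℚ) * V i j) := by
          rw [hβ j, Finset.mul_sum]
          exact Finset.sum_congr rfl fun i _ => by ring
    rw [Finset.sum_congr rfl fun j _ => h2 j, Finset.sum_comm]
    exact Finset.sum_congr rfl fun i _ => by rw [Finset.mul_sum]
  have h3 : (q : ℚ) * dotQ h (fun j => (x j : ℚ)) = ∑ i, β i * (q * ∑ j, (h j : ℚ) * x j) := by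
    rw [← Finset.sum_mul, hβ1, one_mul]; rfl
  have h4 : (q : ℚ) * dotQ h (fun j => (x j : ℚ)) ≤ q * dotQ h y := by
    rw [h1, h3]
    refine Finset.sum_le_sum fun i _ => mul_le_mul_of_nonneg_left ?_ (hβ0 i)
    have h5 : (0 : ℚ) ≤ (gval q V h x i : ℤ) := by exact_mod_cast hg i
    unfold gval at h5
    push_cast at h5
    linarith
  exact le_of_mul_le_mul_left h4 hq'

/-- **The cut.**  The new simplex contains everything of the old one beyond the cut. -/
theorem flat_cut_contains (q : ℤ) (hq : 0 < q) (V : Fin (n + 1) → Fin n → ℤ) (h x : Fin n → ℤ)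
    (k : Fin (n + 1)) (hk : ∀ i, gval q V h x k ≤ gval q V h x i) (hneg : gval q V h x k < 0)
    (K R0 : ℤ) (hK : 2 ≤ K) (hR0 : 0 < R0) (r : Fin (n + 1) → ℤ)
    (hr : ∀ i, i ≠ k → R0 * K * (-gval q V h x k) ≤
      r i * (K * (-gval q V h x k) + gval q V h x i))
    (y : Fin n → ℚ) (hy : InSimplex q V y) (hcut : dotQ h y ≤ dotQ h fun j => (x j : ℚ)) :
    InSimplex (R0 * q) (updV R0 r k V) y := by
  obtain ⟨β, hβ0, hβ1, hβ⟩ := hy
  have hq' : (0 : ℚ) < q := by exact_mod_cast hq
  have hR' : (0 : ℚ) < R0 := by exact_mod_cast hR0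
  have hK' : (2 : ℚ) ≤ K := by exact_mod_cast hK
  set g : Fin (n + 1) → ℤ := gval q V h x with hg
  set v : Fin (n + 1) → Fin n → ℚ := fun i j => (V i j : ℚ) / q with hv
  set c0 : ℚ := dotQ h fun j => (x j : ℚ) with hc0
  have hgv : ∀ i, (g i : ℚ) = q * (dotL h (v i) - c0) := fun i => gval_cast q hq V h x i
  have hyv : ∑ i, β i • v i = y := by
    funext j
    rw [Finset.sum_apply]
    have h1 : ∑ i, (β i • v i) j = (∑ i, β i * V i j) / q := by
      rw [Finset.sum_div]
      exact Finset.sum_congr rfl fun i _ => by simp [hv]; ring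
    rw [h1, ← hβ j]
    field_simp
  have hgk : (g k : ℚ) < 0 := by exact_mod_cast hneg
  have hden : ∀ i, (0 : ℚ) < K * (-g k) + g i := by
    intro i
    have h1 : (g k : ℚ) ≤ g i := by exact_mod_cast hk i
    nlinarith
  have hcon := update_contains v (dotL h) c0 k (1 / K) (by positivity)
    (by rw [div_le_one (by linarith)]; linarith)
    (by
      have h1 := hgv k
      by_contra hcon
      push Not at hcon
      have : (0 : ℚ) ≤ q * (dotL h (v k) - c0) := mul_nonneg hq'.le (by linarith)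
      linarith)
    (by
      intro i
      have h1 := hden i
      rw [hgv k, hgv i] at h1
      have h2 : (q : ℚ) * K * ((c0 - dotL h (v k)) + 1 / K * (dotL h (v i) - c0)) =
          K * (-(q * (dotL h (v k) - c0))) + q * (dotL h (v i) - c0) := by
        field_simp; ring
      have h3 : (0 : ℚ) < q * K * ((c0 - dotL h (v k)) + 1 / K * (dotL h (v i) - c0)) := by
        rw [h2]; exact h1
      exact (pos_iff_pos_of_mul_pos h3).1 (by positivity))
    (fun i => (r i : ℚ) / R0)
    (by
      intro i hi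
      have h1 : (R0 * K * (-g k) : ℚ) ≤ r i * (K * (-g k) + g i) := by exact_mod_cast hr i hi
      have h2 := hden i
      have e1 : c0 - dotL h (v k) = -g k / q := by rw [hgv k]; field_simp; ring
      have e2 : dotL h (v i) - c0 = g i / q := by rw [hgv i]; field_simp
      rw [e1, e2]
      have e3 : (-g k / q + 1 / K * (g i / q) : ℚ) = (K * (-g k) + g i) / (K * q) := by
        field_simp
      rw [e3, div_div_eq_mul_div, div_le_div_iff₀ h2 hR']
      have e4 : (-g k / q * (K * q) : ℚ) = K * (-g k) := by field_simp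
      rw [e4]
      linarith)
    β hβ0 hβ1 (by rw [hyv]; exact hcut)
  obtain ⟨β', hβ'0, hβ'1, hβ'⟩ := hcon
  refine ⟨β', hβ'0, hβ'1, fun j => ?_⟩
  rw [hyv] at hβ'
  rw [← hβ', Finset.sum_apply]
  push_cast
  rw [Finset.mul_sum]
  refine Finset.sum_congr rfl fun i _ => ?_
  simp only [updV, hv, Pi.smul_apply, Pi.add_apply, Pi.sub_apply, smul_eq_mul]
  push_cast
  field_simp

/-- **The volume.** -/
theorem flat_cut_volume (hn : 1 ≤ n) (q : ℤ) (hq : 0 < q) (V : Fin (n + 1) → Fin n → ℤ)
    (h x : Fin n → ℤ) (k : Fin (n + 1)) (hk : ∀ i, gval q V h x k ≤ gval q V h x i)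
    (hneg : gval q V h x k < 0) (mu : Fin (n + 1) → ℚ) (hmu1 : ∑ i, mu i = 1)
    (hmux : ∀ j, ∑ i, mu i * V i j = q * x j)
    (hmu : ∀ i, |(n + 1) * mu i - 1| ≤ 1 / (12 * (n : ℚ) ^ 2))
    (r : Fin (n + 1) → ℤ)
    (hr1 : ∀ i, i ≠ k → 256 * (n : ℤ) ^ 5 * (16 * (n : ℤ) ^ 4) * (-gval q V h x k) ≤
      r i * (16 * (n : ℤ) ^ 4 * (-gval q V h x k) + gval q V h x i))
    (hr2 : ∀ i, i ≠ k → r i * (16 * (n : ℤ) ^ 4 * (-gval q V h x k) + gval q V h x i) ≤
      256 * (n : ℤ) ^ 5 * (16 * (n : ℤ) ^ 4) * (-gval q V h x k) +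
        (16 * (n : ℤ) ^ 4 * (-gval q V h x k) + gval q V h x i)) :
    (∀ i, i ≠ k → 0 < r i ∧ r i ≤ 2 * (256 * (n : ℤ) ^ 5)) ∧
    ∏ i ∈ Finset.univ.erase k, (r i : ℚ) ≤
      (256 * (n : ℚ) ^ 5) ^ n * (1 - 1 / (128 * (n : ℚ) ^ 4)) := by
  set g : Fin (n + 1) → ℤ := gval q V h x with hg
  have hn1 : (1 : ℚ) ≤ n := by exact_mod_cast hn
  have hn4 : (1 : ℚ) ≤ (n : ℚ) ^ 4 := one_le_pow₀ hn1
  have hn5 : (1 : ℚ) ≤ (n : ℚ) ^ 5 := one_le_pow₀ hn1
  have hgk : (g k : ℚ) < 0 := by exact_mod_cast hneg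
  have hgki : ∀ i, (g k : ℚ) ≤ g i := fun i => by exact_mod_cast hk i
  set K : ℚ := 16 * (n : ℚ) ^ 4 with hK
  set R0 : ℚ := 256 * (n : ℚ) ^ 5 with hR0
  have hK16 : 16 ≤ K := by rw [hK]; linarith
  have hR256 : 256 ≤ R0 := by rw [hR0]; linarith
  have hden : ∀ i, (0 : ℚ) < K * (-g k) + g i := by
    intro i
    have := hgki i
    nlinarith
  have hr1' : ∀ i, i ≠ k → R0 * K * (-g k) ≤ r i * (K * (-g k) + g i) := by
    intro i hi
    have := hr1 i hi
    rw [hR0, hK]
    exact_mod_cast this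
  have hr2' : ∀ i, i ≠ k → r i * (K * (-g k) + g i) ≤ R0 * K * (-g k) + (K * (-g k) + g i) := by
    intro i hi
    have := hr2 i hi
    rw [hR0, hK]
    exact_mod_cast this
  have hpos : ∀ i, i ≠ k → (0 : ℚ) < r i := by
    intro i hi
    have h1 : 0 < R0 * K * (-(g k : ℚ)) := by
      have : (0 : ℚ) < -g k := by linarith
      positivity
    exact (pos_iff_pos_of_mul_pos (lt_of_lt_of_le h1 (hr1' i hi))).2 (hden i)
  refine ⟨fun i hi => ⟨by exact_mod_cast hpos i hi, ?_⟩, ?_⟩
  · have h1 : (r i : ℚ) ≤ 2 * R0 := by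
      have h2 := hr2' i hi
      have h3 := hden i
      have h4 := hgki i
      by_contra hcon
      push Not at hcon
      have h5 : 2 * R0 * (K * (-g k) + g i) < r i * (K * (-g k) + g i) :=
        mul_lt_mul_of_pos_right hcon h3
      have h6 : (2 * R0 - 1) * (K * (-g k) + g i) < R0 * K * (-g k) := by linarith
      have h7 : (2 * R0 - 1) * ((K - 1) * (-g k)) ≤ (2 * R0 - 1) * (K * (-g k) + g i) :=
        mul_le_mul_of_nonneg_left (by linarith) (by linarith)
      have h8 : (2 * R0 - 1) * (K - 1) * (-g k) < R0 * K * (-g k) := by linarith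
      have h9 : (2 * R0 - 1) * (K - 1) < R0 * K := lt_of_mul_lt_mul_right h8 (by linarith)
      nlinarith
    rw [hR0] at h1
    exact_mod_cast h1
  · have hgsum : ∑ i, mu i * (g i : ℚ) = 0 := by
      have h1 : ∑ i, mu i * (g i : ℚ) =
          ∑ j, (h j : ℚ) * (∑ i, mu i * V i j) - (∑ i, mu i) * (q * ∑ j, (h j : ℚ) * x j) := by
        rw [Finset.sum_mul]
        have h2 : ∑ j, (h j : ℚ) * (∑ i, mu i * V i j) = ∑ i, mu i * ∑ j, (h j : ℚ) * V i j := by
          simp only [Finset.mul_sum]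
          rw [Finset.sum_comm]
          exact Finset.sum_congr rfl fun i _ => Finset.sum_congr rfl fun j _ => by ring
        rw [h2, ← Finset.sum_sub_distrib]
        refine Finset.sum_congr rfl fun i _ => ?_
        rw [hg]
        unfold gval
        push_cast
        ring
      rw [h1, hmu1, one_mul]
      simp only [hmux]
      rw [Finset.mul_sum, sub_eq_zero]
      exact Finset.sum_congr rfl fun j _ => by ring
    set A : ℚ := -g k with hA
    have hA0 : 0 < A := by rw [hA]; linarith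
    have hvol := update_volume (Finset.univ.erase k) n hn (by
        rw [Finset.card_erase_of_mem (Finset.mem_univ k), Finset.card_univ, Fintype.card_fin]
        simp) (fun i => (g i : ℚ) / A) (fun i => (n + 1) * mu i - 1) ((n + 1) * mu k - 1)
      (by
        intro i _
        rw [le_div_iff₀ hA0]
        have := hgki i
        linarith)
      (fun i _ => hmu i) (hmu k)
      (by
        have h1 : ∑ i ∈ Finset.univ.erase k, (1 + ((n + 1) * mu i - 1)) * ((g i : ℚ) / A) =
            (n + 1) / A * ∑ i ∈ Finset.univ.erase k, mu i * g i := by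
          rw [Finset.mul_sum]
          exact Finset.sum_congr rfl fun i _ => by ring
        have h2 : ∑ i ∈ Finset.univ.erase k, mu i * (g i : ℚ) = mu k * A := by
          have := Finset.sum_erase_add Finset.univ (fun i => mu i * (g i : ℚ)) (Finset.mem_univ k)
          rw [hgsum] at this
          rw [hA]
          linarith
        rw [h1, h2]
        field_simp
        ring)
      (fun i => (r i : ℚ) / R0)
      (fun i hi => div_nonneg (hpos i (Finset.ne_of_mem_erase hi)).le (by linarith))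
      (by
        intro i hi
        have h1 := hr2' i (Finset.ne_of_mem_erase hi)
        have h2 := hden i
        have e1 : (1 : ℚ) / (1 + (g i : ℚ) / A / (16 * (n : ℚ) ^ 4)) = K * A / (K * A + g i) := by
          rw [← hK]
          have : (K * A + g i : ℚ) ≠ 0 := h2.ne'
          have hKA : K * A ≠ 0 := by positivity
          have e2 : (1 + (g i : ℚ) / A / K) = (K * A + g i) / (K * A) := by
            field_simp
          rw [e2, one_div_div]
        change (r i : ℚ) / R0 ≤ 1 / (1 + (g i : ℚ) / A / (16 * (n : ℚ) ^ 4)) + 1 / R0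
        rw [e1]
        have h3 : (r i : ℚ) ≤ R0 * (K * A) / (K * A + g i) + 1 := by
          rw [← sub_le_iff_le_add, le_div_iff₀ h2]
          linarith
        calc (r i : ℚ) / R0 ≤ (R0 * (K * A) / (K * A + g i) + 1) / R0 :=
              div_le_div_of_nonneg_right h3 (by linarith)
          _ = K * A / (K * A + g i) + 1 / R0 := by
              have : (K * A + g i : ℚ) ≠ 0 := h2.ne'
              have : R0 ≠ 0 := by linarith
              field_simp)
    rw [Finset.prod_div_distrib, Finset.prod_const,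
      Finset.card_erase_of_mem (Finset.mem_univ k), Finset.card_univ, Fintype.card_fin,
      Nat.add_sub_cancel, div_le_iff₀ (by positivity)] at hvol
    linarith

end Pool.Agent.MonFPT
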