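import Pool.Agent.MonFPT.GElim

/-!
# The lattice reduction algorithm

The basis is `b : ℕ → W`, the dual basis `c : ℕ → W'` is changed along with it.
-/

set_option autoImplicit false
set_option linter.unusedSectionVars false
set_option linter.unusedVariables false

namespace Pool.Agent.MonFPT

section Alg

variable {W W' : Type} [AddCommGroup W] [AddCommGroup W'] (F : W → W → ℤ)

/-- The Gram matrix. -/
def gr (b : ℕ → W) (i j : ℕ) : ℤ := F (b i) (b j)

/-- The rounded coefficient. -/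
def qq (b : ℕ → W) (i l : ℕ) : ℤ := rnd (ge (gr F b) l i l) (ge (gr F b) l l l)

/-- One size reduction: `b i - q b l` and `c l + q c i`. -/
def rs (s : (ℕ → W) × (ℕ → W')) (i l : ℕ) : (ℕ → W) × (ℕ → W') :=
  (Function.update s.1 i (s.1 i - qq F s.1 i l • s.1 l),
    Function.update s.2 l (s.2 l + qq F s.1 i l • s.2 i))

/-- Reduction of `b i` with respect to `b (l - 1), .., b 0`. -/
def rd (i : ℕ) : ℕ → (ℕ → W) × (ℕ → W') → (ℕ → W) × (ℕ → W')
  | 0, s => s
  | l + 1, s => rd i l (rs F s i l)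

/-- Reduction of `b 0, .., b (m - 1)`. -/
def ra : ℕ → (ℕ → W) × (ℕ → W') → (ℕ → W) × (ℕ → W')
  | 0, s => s
  | m + 1, s => rd F m m (ra m s)

/-- The test for a swap. -/
def lv (b : ℕ → W) (k : ℕ) : Bool :=
  decide (4 * ge (gr F b) k (k + 1) (k + 1) < 3 * ge (gr F b) k k k)

/-- The first position of a swap. -/
def fv (n : ℕ) (b : ℕ → W) : Option ℕ := (List.range (n - 1)).find? (lv F b)

/-- One step: a swap, if necessary, and reduction. -/
def st (n : ℕ) (s : (ℕ → W) × (ℕ → W')) : (ℕ → W) × (ℕ → W') :=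
  match fv F n s.1 with
  | none => s
  | some k => ra F n (sw s.1 k, sw s.2 k)

end Alg

section

variable {V : Type} [AddCommGroup V] [Module ℚ V] {B : V →ₗ[ℚ] V →ₗ[ℚ] ℚ} (hB : PosDef B)
  {W W' : Type} [AddCommGroup W] [AddCommGroup W'] (F : W → W → ℤ) (ι : W →+ V)
  (hF : ∀ x y, (F x y : ℚ) = B (ι x) (ι y))

/-- The basis is reduced up to the index `m`. -/
def RedTo (B : V →ₗ[ℚ] V →ₗ[ℚ] ℚ) (b : ℕ → V) (m : ℕ) : Prop :=
  ∀ i < m, ∀ l < i, |cf B b l (b i)| ≤ 1 / 2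

/-- The vectors of the basis in `V`. -/
def im (ι : W →+ V) (b : ℕ → W) : ℕ → V := fun i => ι (b i)

include hF in
lemma gr_cast (b : ℕ → W) (i j : ℕ) : (gr F b i j : ℚ) = B (im ι b i) (im ι b j) := hF _ _

lemma im_rs (s : (ℕ → W) × (ℕ → W')) (i l : ℕ) :
    im ι (rs F s i l).1 = Function.update (im ι s.1) i
      (im ι s.1 i - (qq F s.1 i l : ℚ) • im ι s.1 l) := by
  funext m
  unfold im rs
  by_cases hm : m = i
  · subst hm
    simp only [Function.update_self, map_sub, map_zsmul]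
    rw [Int.cast_smul_eq_zsmul]
  · simp only [Function.update_of_ne hm]

/-- The distance of the coefficient from the integer `q`. -/
lemma qq_spec (hB : PosDef B) (hF : ∀ x y, (F x y : ℚ) = B (ι x) (ι y)) (b : ℕ → W) {n : ℕ}
    (hpos : ∀ j < n, 0 < bt B (im ι b) j) (i : ℕ) {l : ℕ} (hl : l < n) :
    |cf B (im ι b) l (im ι b i) - qq F b i l| ≤ 1 / 2 := by
  have hG := gr_cast (B := B) F ι hF b
  have h1 := scl_pos hpos l hl.le
  have h2 : 0 < ge (gr F b) l l l := by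
    have h3 : (0 : ℚ) < ge (gr F b) l l l := by
      rw [ge_diag hB hG]
      exact mul_pos h1 (hpos l hl)
    exact_mod_cast h3
  rw [← ge_cf hB hG h1]
  exact rnd_spec _ _ h2

/-! ### One size reduction -/

/-- The two bases differ by a triangular change. -/
def Tri (b b' : ℕ → V) : Prop := ∀ i, b' i - b i ∈ sp b i

lemma Tri.rfl' (b : ℕ → V) : Tri b b := fun i => by
  rw [sub_self]; exact Submodule.zero_mem _

lemma Tri.trans {b b' b'' : ℕ → V} (h : Tri b b') (h' : Tri b' b'') : Tri b b'' := by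
  intro i
  have h1 := h' i
  rw [sp_tri h] at h1
  have h2 := Submodule.add_mem _ h1 (h i)
  rwa [sub_add_sub_cancel] at h2

lemma tri_rs (s : (ℕ → W) × (ℕ → W')) {i l : ℕ} (hl : l < i) :
    Tri (im ι s.1) (im ι (rs F s i l).1) := by
  rw [im_rs]
  exact tri_update _ hl _

lemma rs_ne (s : (ℕ → W) × (ℕ → W')) {i l m : ℕ} (hm : m ≠ i) : (rs F s i l).1 m = s.1 m := by
  unfold rs
  simp only [Function.update_of_ne hm]

lemma im_rs_self (s : (ℕ → W) × (ℕ → W')) (i l : ℕ) : im ι (rs F s i l).1 i =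
    im ι s.1 i - (qq F s.1 i l : ℚ) • im ι s.1 l := by
  rw [im_rs, Function.update_self]

lemma cf_rs_gt (hB : PosDef B) (s : (ℕ → W) × (ℕ → W')) {i l l' : ℕ} (hl : l < i) (h : l < l') :
    cf B (im ι (rs F s i l).1) l' (im ι (rs F s i l).1 i) = cf B (im ι s.1) l' (im ι s.1 i) := by
  rw [cf_tri hB (tri_rs F ι s hl), im_rs_self, cf_linear, cf_of_lt hB _ h, mul_zero, sub_zero]

lemma bs_ne {b : ℕ → V} {k : ℕ} (h : 0 < bt B b k) : bs B b k ≠ 0 := by
  intro h1
  unfold bt at h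
  rw [h1] at h
  simp at h

lemma cf_rs_eq (hB : PosDef B) (hF : ∀ x y, (F x y : ℚ) = B (ι x) (ι y))
    (s : (ℕ → W) × (ℕ → W')) {n : ℕ} (hpos : ∀ j < n, 0 < bt B (im ι s.1) j) {i l : ℕ}
    (hl : l < i) (hn : l < n) :
    |cf B (im ι (rs F s i l).1) l (im ι (rs F s i l).1 i)| ≤ 1 / 2 := by
  rw [cf_tri hB (tri_rs F ι s hl), im_rs_self, cf_linear, cf_self hB _ (bs_ne (hpos l hn)), mul_one]
  exact qq_spec F ι hB hF s.1 hpos i hn

/-! ### Reduction of one vector -/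

lemma tri_rd (i : ℕ) : ∀ (l : ℕ) (s : (ℕ → W) × (ℕ → W')), l ≤ i →
    Tri (im ι s.1) (im ι (rd F i l s).1)
  | 0, s, _ => Tri.rfl' _
  | l + 1, s, h => (tri_rs F ι s (by omega)).trans (tri_rd i l _ (by omega))

lemma rd_ne (i : ℕ) : ∀ (l : ℕ) (s : (ℕ → W) × (ℕ → W')) (m : ℕ), m ≠ i →
    (rd F i l s).1 m = s.1 m
  | 0, s, _, _ => rfl
  | l + 1, s, m, h => by
    change (rd F i l (rs F s i l)).1 m = _
    rw [rd_ne i l _ m h, rs_ne F s h]

lemma cf_rd_ge (hB : PosDef B) (i : ℕ) : ∀ (l : ℕ) (s : (ℕ → W) × (ℕ → W')), l ≤ i →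
    ∀ l', l ≤ l' → cf B (im ι (rd F i l s).1) l' (im ι (rd F i l s).1 i) =
      cf B (im ι s.1) l' (im ι s.1 i)
  | 0, s, _, _, _ => rfl
  | l + 1, s, h, l', h' => by
    change cf B (im ι (rd F i l (rs F s i l)).1) l' (im ι (rd F i l (rs F s i l)).1 i) = _
    rw [cf_rd_ge hB i l _ (by omega) l' (by omega), cf_rs_gt F ι hB s (by omega) (by omega)]

lemma cf_rd_lt (hB : PosDef B) (hF : ∀ x y, (F x y : ℚ) = B (ι x) (ι y)) {n i : ℕ} (hi : i < n) :
    ∀ (l : ℕ) (s : (ℕ → W) × (ℕ → W')), (∀ j < n, 0 < bt B (im ι s.1) j) → l ≤ i →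
    ∀ l' < l, |cf B (im ι (rd F i l s).1) l' (im ι (rd F i l s).1 i)| ≤ 1 / 2
  | 0, s, _, _, _, h => by omega
  | l + 1, s, hpos, h, l', h' => by
    change |cf B (im ι (rd F i l (rs F s i l)).1) l' (im ι (rd F i l (rs F s i l)).1 i)| ≤ 1 / 2
    have hpos' : ∀ j < n, 0 < bt B (im ι (rs F s i l).1) j := by
      intro j hj
      rw [bt_tri hB (tri_rs F ι s (by omega))]
      exact hpos j hj
    rcases Nat.lt_or_ge l' l with h1 | h1
    · exact cf_rd_lt hB hF hi l _ hpos' (by omega) l' h1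
    · rw [cf_rd_ge F ι hB i l _ (by omega) l' h1]
      have h2 : l' = l := by omega
      subst h2
      exact cf_rs_eq F ι hB hF s hpos (by omega) (by omega)

/-! ### Reduction of all vectors -/

lemma tri_ra : ∀ (m : ℕ) (s : (ℕ → W) × (ℕ → W')), Tri (im ι s.1) (im ι (ra F m s).1)
  | 0, s => Tri.rfl' _
  | m + 1, s => (tri_ra m s).trans (tri_rd F ι m m _ le_rfl)

lemma ra_ge : ∀ (m : ℕ) (s : (ℕ → W) × (ℕ → W')) (i : ℕ), m ≤ i → (ra F m s).1 i = s.1 i
  | 0, s, _, _ => rfl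
  | m + 1, s, i, h => by
    change (rd F m m (ra F m s)).1 i = _
    rw [rd_ne F m m _ i (by omega), ra_ge m s i (by omega)]

lemma redTo_ra (hB : PosDef B) (hF : ∀ x y, (F x y : ℚ) = B (ι x) (ι y)) {n : ℕ}
    (s : (ℕ → W) × (ℕ → W')) (hpos : ∀ j < n, 0 < bt B (im ι s.1) j) :
    ∀ m ≤ n, RedTo B (im ι (ra F m s).1) m := by
  intro m
  induction m with
  | zero => intro _ i hi; omega
  | succ m ih =>
    intro hm i hi l hl
    have hpos' : ∀ j < n, 0 < bt B (im ι (ra F m s).1) j := by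
      intro j hj
      rw [bt_tri hB (tri_ra F ι m s)]
      exact hpos j hj
    change |cf B (im ι (rd F m m (ra F m s)).1) l (im ι (rd F m m (ra F m s)).1 i)| ≤ 1 / 2
    rcases Nat.lt_or_ge i m with h1 | h1
    · have h2 := ih (by omega) i h1 l hl
      have h3 : im ι (rd F m m (ra F m s)).1 i = im ι (ra F m s).1 i := by
        unfold im
        rw [rd_ne F m m _ i (by omega)]
      rw [h3, cf_tri hB (tri_rd F ι m m _ le_rfl)]
      exact h2
    · have h2 : i = m := by omega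
      subst h2
      exact cf_rd_lt F ι hB hF (by omega) i _ hpos' le_rfl l hl

/-- The length of a reduced vector. -/
lemma len_one (hB : PosDef B) {b : ℕ → V} {n : ℕ} (hpos : ∀ j < n, 0 < bt B b j)
    (M : ℚ) (hM : ∀ j < n, bt B b j ≤ M) (i : ℕ) (hi : i < n)
    (hred : ∀ l < i, |cf B b l (b i)| ≤ 1 / 2) :
    B (b i) (b i) ≤ n * M := by
  have hM0 : 0 < M := (hpos i hi).trans_le (hM i hi)
  rw [form_eq_sum hB b (i + 1) (b i), pv_eq_zero hB b (mem_sp b (Nat.lt_succ_self i)), map_zero,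
    zero_add]
  have h1 : ∀ l ∈ Finset.range (i + 1), cf B b l (b i) ^ 2 * B (bs B b l) (bs B b l) ≤ M := by
    intro l hl
    rw [Finset.mem_range] at hl
    have h2 : cf B b l (b i) ^ 2 ≤ 1 := by
      rcases Nat.lt_or_ge l i with h3 | h3
      · have h4 := hred l h3
        rw [← sq_abs]
        have := abs_nonneg (cf B b l (b i))
        nlinarith
      · have h4 : l = i := by omega
        subst h4
        rw [cf_self hB b (bs_ne (hpos l hi))]
        norm_num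
    have h3 : bt B b l ≤ M := hM l (by omega)
    have h4 : 0 ≤ bt B b l := hB.nonneg _
    change cf B b l (b i) ^ 2 * bt B b l ≤ M
    nlinarith
  refine (Finset.sum_le_sum h1).trans ?_
  rw [Finset.sum_const, Finset.card_range, nsmul_eq_mul]
  have h2 : ((i + 1 : ℕ) : ℚ) ≤ n := by exact_mod_cast hi
  exact mul_le_mul_of_nonneg_right h2 hM0.le

/-- The length after one size reduction. -/
lemma len_rs (hB : PosDef B) (hF : ∀ x y, (F x y : ℚ) = B (ι x) (ι y))
    (s : (ℕ → W) × (ℕ → W')) {n : ℕ} (hpos : ∀ j < n, 0 < bt B (im ι s.1) j) {i l : ℕ}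
    (hl : l < i) (hi : i < n) (S X : ℚ) (hS : scl B (im ι s.1) n ≤ S)
    (hX : B (im ι s.1 l) (im ι s.1 l) ≤ X) (hX1 : 1 ≤ X) :
    B (im ι (rs F s i l).1 i) (im ι (rs F s i l).1 i) ≤
      7 * S ^ 2 * X * B (im ι s.1 i) (im ι s.1 i) := by
  have hG := gr_cast (B := B) F ι hF s.1
  set b := im ι s.1 with hb
  set q : ℚ := (qq F s.1 i l : ℚ) with hq
  have h1 : |cf B b l (b i) - q| ≤ 1 / 2 := qq_spec F ι hB hF s.1 hpos i (by omega)
  have hS1 : 1 ≤ scl B b l := one_le_scl hB hG hpos (by omega)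
  have hSl : scl B b l ≤ S := (scl_mono hB hG hpos (by omega : l ≤ n)).trans hS
  have hS0 : 1 ≤ S := hS1.trans hSl
  -- the length of `b i`
  have hlen : 1 ≤ B (b i) (b i) := by
    have h2 : 0 < B (b i) (b i) := (hpos i hi).trans_le (bt_le hB b i)
    rw [← hG i i] at h2 ⊢
    have h3 : 0 < gr F s.1 i i := by exact_mod_cast h2
    exact_mod_cast h3
  have hlenl : 0 ≤ B (b l) (b l) := hB.nonneg _
  -- the coefficient
  have h2 : 1 ≤ S ^ 2 * bt B b l := by
    have h3 : 1 ≤ scl B b (l + 1) := one_le_scl hB hG hpos (by omega)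
    change 1 ≤ scl B b l ^ 2 * bt B b l at h3
    refine h3.trans ?_
    apply mul_le_mul_of_nonneg_right _ (bt_nonneg hB b l)
    exact pow_le_pow_left₀ (by linarith) hSl 2
  have h3 : cf B b l (b i) ^ 2 * bt B b l ≤ B (b i) (b i) :=
    cf_sq_le hB b (show l < i + 1 by omega) (b i) (mem_sp b (Nat.lt_succ_self i))
  have h4 : cf B b l (b i) ^ 2 ≤ S ^ 2 * B (b i) (b i) := by
    have h5 : cf B b l (b i) ^ 2 * 1 ≤ cf B b l (b i) ^ 2 * (S ^ 2 * bt B b l) :=
      mul_le_mul_of_nonneg_left h2 (sq_nonneg _)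
    have h6 : S ^ 2 * (cf B b l (b i) ^ 2 * bt B b l) ≤ S ^ 2 * B (b i) (b i) :=
      mul_le_mul_of_nonneg_left h3 (sq_nonneg _)
    nlinarith
  have h5 : q ^ 2 ≤ 2 * (S ^ 2 * B (b i) (b i)) + 1 / 2 := by
    have h6 := abs_le.1 h1
    have h7 : (cf B b l (b i) - q) ^ 2 ≤ 1 / 4 := by nlinarith
    nlinarith [sq_nonneg (2 * cf B b l (b i) - q)]
  rw [im_rs_self]
  have h6 : B (b i - q • b l) (b i - q • b l) ≤ 2 * B (b i) (b i) + 2 * (q ^ 2 * B (b l) (b l)) := by
    have h7 := hB.nonneg (b i + q • b l)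
    simp only [map_add, map_sub, LinearMap.add_apply, LinearMap.sub_apply, map_smul,
      LinearMap.smul_apply, smul_eq_mul] at h7 ⊢
    nlinarith
  refine h6.trans ?_
  have h8 : q ^ 2 * B (b l) (b l) ≤ (2 * (S ^ 2 * B (b i) (b i)) + 1 / 2) * X :=
    mul_le_mul h5 hX hlenl (by positivity)
  have h9 : 1 ≤ S ^ 2 := one_le_pow₀ hS0
  set L := B (b i) (b i) with hL
  have h10 : L ≤ S ^ 2 * X * L := by
    have : 1 ≤ S ^ 2 * X := one_le_mul_of_one_le_of_one_le h9 hX1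
    exact le_mul_of_one_le_left (by linarith) this
  have h11 : X ≤ S ^ 2 * X * L := by
    have h12 : 1 ≤ S ^ 2 * L := one_le_mul_of_one_le_of_one_le h9 hlen
    calc X ≤ X * (S ^ 2 * L) := le_mul_of_one_le_right (by linarith) h12
      _ = S ^ 2 * X * L := by ring
  nlinarith

end

end Pool.Agent.MonFPT
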