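import Pool.Agent.MonFPT.GInst

/-!
# Size bounds for the lattice reduction
-/

set_option autoImplicit false

namespace Pool.Agent.MonFPT

open Matrix

section Abstract

variable {V : Type} [AddCommGroup V] [Module ℚ V] {B : V →ₗ[ℚ] V →ₗ[ℚ] ℚ}
  {W W' : Type} [AddCommGroup W] [AddCommGroup W'] (F : W → W → ℤ) (ι : W →+ V)

lemma cauchy_schwarz (hB : PosDef B) (x y : V) : B x y ^ 2 ≤ B x x * B y y := by
  by_cases hy : y = 0
  · rw [hy]; simp
  · have h0 : 0 < B y y := lt_of_le_of_ne (hB.nonneg y) fun h => hy (hB.definite y h.symm)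
    have h1 := hB.nonneg (B y y • x - B x y • y)
    simp only [map_sub, map_smul, LinearMap.sub_apply, LinearMap.smul_apply, smul_eq_mul,
      hB.symm y x] at h1
    have h2 : 0 ≤ B y y * (B x x * B y y - B x y ^ 2) := by
      refine h1.trans (le_of_eq ?_)
      ring
    have h3 := nonneg_of_mul_nonneg_right h2 h0
    linarith

/-- The state after `j` size reductions of the vector `i`. -/
def rp (i : ℕ) : ℕ → (ℕ → W) × (ℕ → W') → (ℕ → W) × (ℕ → W')
  | 0, s => s
  | j + 1, s => rs F (rp i j s) i (i - 1 - j)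

lemma rd_rp (i : ℕ) (s : (ℕ → W) × (ℕ → W')) : ∀ j ≤ i, rd F i (i - j) (rp F i j s) = rd F i i s
  | 0, _ => rfl
  | j + 1, h => by
    rw [← rd_rp i s j (by omega)]
    have h1 : i - j = (i - (j + 1)) + 1 := by omega
    rw [h1]
    change _ = rd F i (i - (j + 1)) (rs F (rp F i j s) i (i - (j + 1)))
    have h2 : rp F i (j + 1) s = rs F (rp F i j s) i (i - 1 - j) := rfl
    rw [h2]
    congr 2
    omega

lemma rd_eq_rp (i : ℕ) (s : (ℕ → W) × (ℕ → W')) : rd F i i s = rp F i i s := by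
  rw [← rd_rp F i s i le_rfl, Nat.sub_self]
  rfl

lemma tri_rp (i : ℕ) (s : (ℕ → W) × (ℕ → W')) : ∀ j ≤ i, Tri (im ι s.1) (im ι (rp F i j s).1)
  | 0, _ => Tri.rfl' _
  | j + 1, h => (tri_rp i s j (by omega)).trans (tri_rs F ι _ (by omega))

lemma rp_ne (i : ℕ) (s : (ℕ → W) × (ℕ → W')) {m : ℕ} (hm : m ≠ i) : ∀ j, (rp F i j s).1 m = s.1 m
  | 0 => rfl
  | j + 1 => by
    change (rs F (rp F i j s) i (i - 1 - j)).1 m = _
    rw [rs_ne F _ hm, rp_ne i s hm j]

/-- The length during the reduction of one vector. -/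
lemma len_rp (hB : PosDef B) (hF : ∀ x y, (F x y : ℚ) = B (ι x) (ι y))
    (s : (ℕ → W) × (ℕ → W')) {n : ℕ} (hpos : ∀ j < n, 0 < bt B (im ι s.1) j) {i : ℕ}
    (hi : i < n) (S X : ℚ) (hS : scl B (im ι s.1) n ≤ S)
    (hX : ∀ l < i, B (im ι s.1 l) (im ι s.1 l) ≤ X) (hX1 : 1 ≤ X) :
    ∀ j ≤ i, B (im ι (rp F i j s).1 i) (im ι (rp F i j s).1 i) ≤
      (7 * S ^ 2 * X) ^ j * B (im ι s.1 i) (im ι s.1 i)
  | 0, _ => by simp [rp]
  | j + 1, h => by
    have h1 := len_rp hB hF s hpos hi S X hS hX hX1 j (by omega)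
    have ht := tri_rp F ι i s j (by omega)
    have hpos' : ∀ k < n, 0 < bt B (im ι (rp F i j s).1) k := by
      intro k hk
      rw [bt_tri hB ht]
      exact hpos k hk
    have hS' : scl B (im ι (rp F i j s).1) n ≤ S := by
      rw [scl_tri hB ht]
      exact hS
    have hl : im ι (rp F i j s).1 (i - 1 - j) = im ι s.1 (i - 1 - j) := by
      unfold im
      rw [rp_ne F i s (by omega) j]
    have h2 := len_rs F ι hB hF (rp F i j s) hpos' (show i - 1 - j < i by omega) hi S X hS'
      (by rw [hl]; exact hX _ (by omega)) hX1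
    change B (im ι (rs F (rp F i j s) i (i - 1 - j)).1 i)
      (im ι (rs F (rp F i j s) i (i - 1 - j)).1 i) ≤ _
    refine h2.trans ?_
    calc 7 * S ^ 2 * X * B (im ι (rp F i j s).1 i) (im ι (rp F i j s).1 i)
        ≤ 7 * S ^ 2 * X * ((7 * S ^ 2 * X) ^ j * B (im ι s.1 i) (im ι s.1 i)) :=
          mul_le_mul_of_nonneg_left h1 (by positivity)
      _ = _ := by ring

variable {X : Type} [AddCommGroup X] (T : W →+ W' →+ X)

lemma dl_rp (n i : ℕ) (hi : i < n) (s : (ℕ → W) × (ℕ → W')) : ∀ j ≤ i,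
    dl T n (rp F i j s) = dl T n s
  | 0, _ => rfl
  | j + 1, h => by
    change dl T n (rs F (rp F i j s) i (i - 1 - j)) = _
    rw [dl_rs F T n _ (by omega) hi, dl_rp n i hi s j (by omega)]

end Abstract

variable {n : ℕ}

/-- The entries of a vector are bounded by its length. -/
lemma entry_le {E : Matrix (Fin n) (Fin n) ℤ} (hE : E.det ≠ 0) {M : ℚ} (hM1 : 1 ≤ M)
    (hM : ∀ i, (((E * Eᵀ) i i : ℤ) : ℚ) ≤ M) (x : Fin n → ℚ) (j : Fin n) :
    x j ^ 2 ≤ n.factorial * M ^ n * BE E x x := by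
  have hB := posDef_BE hE
  set Q : Matrix (Fin n) (Fin n) ℚ := castQ E * (castQ E)ᵀ with hQ
  have hQc : Q = castQ (E * Eᵀ) := by
    rw [hQ, castQ_mul]
    rfl
  have hBQ : ∀ x y, BE E x y = x ⬝ᵥ (Q *ᵥ y) := by
    intro x y
    rw [BE_apply, hQ, ← mulVec_mulVec, dotProduct_mulVec, ← mulVec_transpose,
      ← mulVec_transpose (castQ E) y]
  have hBe : ∀ i j : Fin n, BE E (Pi.single i 1) (Pi.single j 1) = Q i j := by
    intro i j
    rw [hBQ]
    simp
  have hQM : ∀ i j, |Q i j| ≤ M := by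
    intro i j
    have h1 := cauchy_schwarz hB (Pi.single i 1 : Fin n → ℚ) (Pi.single j 1)
    rw [hBe, hBe, hBe] at h1
    have h2 : Q i i ≤ M := by rw [hQc]; exact hM i
    have h3 : Q j j ≤ M := by rw [hQc]; exact hM j
    have h4 : 0 ≤ Q j j := by rw [← hBe]; exact hB.nonneg _
    have h5 : 0 ≤ Q i i := by rw [← hBe]; exact hB.nonneg _
    have h6 : Q i j ^ 2 ≤ M ^ 2 := by nlinarith
    exact abs_le_of_sq_le_sq h6 (by linarith)
  have hdet : 1 ≤ Q.det := by
    rw [hQ, det_mul, det_transpose, castQ_det]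
    have h1 : 1 ≤ E.det * E.det := by
      rcases lt_or_gt_of_ne hE with h | h <;> nlinarith
    exact_mod_cast h1
  set w : Fin n → ℚ := Q.adjugate *ᵥ Pi.single j 1 with hw
  have hQw : Q *ᵥ w = Q.det • (Pi.single j 1 : Fin n → ℚ) := by
    rw [hw, mulVec_mulVec, mul_adjugate, smul_mulVec, one_mulVec]
  have h1 : BE E x w = Q.det * x j := by
    rw [hBQ, hQw, dotProduct_smul, dotProduct_single, mul_one, smul_eq_mul]
  have h2 : BE E w w = Q.det * Q.adjugate j j := by
    rw [hBQ, hQw, dotProduct_smul, dotProduct_single, mul_one, smul_eq_mul, hw]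
    simp
  have h3 := cauchy_schwarz hB x w
  rw [h1, h2] at h3
  have h4 : Q.adjugate j j ≤ n.factorial * M ^ n := by
    rw [adjugate_apply]
    have h5 := Matrix.det_le (A := Q.updateRow j (Pi.single j 1)) (abv := AbsoluteValue.abs)
      (x := M) (fun i l => by
        change |_| ≤ M
        rw [Matrix.updateRow_apply]
        split_ifs with h
        · rw [Pi.single_apply]
          split_ifs
          · simpa using hM1
          · simp only [abs_zero]; linarith
        · exact hQM i l)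
    rw [Fintype.card_fin, nsmul_eq_mul] at h5
    exact (le_abs_self _).trans h5
  have h5 : 0 ≤ BE E x x := hB.nonneg x
  have h6 : Q.det * x j ^ 2 ≤ BE E x x * Q.adjugate j j := by
    have h7 : Q.det * (Q.det * x j ^ 2) ≤ Q.det * (BE E x x * Q.adjugate j j) := by
      calc Q.det * (Q.det * x j ^ 2) = (Q.det * x j) ^ 2 := by ring
        _ ≤ _ := h3
        _ = _ := by ring
    exact le_of_mul_le_mul_left h7 (by linarith)
  calc x j ^ 2 ≤ Q.det * x j ^ 2 := le_mul_of_one_le_left (sq_nonneg _) hdet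
    _ ≤ BE E x x * Q.adjugate j j := h6
    _ ≤ BE E x x * (n.factorial * M ^ n) := mul_le_mul_of_nonneg_left h4 h5
    _ = _ := by ring

/-- The entries of the inverse. -/
lemma inv_entry_le {C U : Matrix (Fin n) (Fin n) ℤ} (h : C * U = 1) {X : ℤ} (hX1 : 1 ≤ X)
    (hX : ∀ i j, |U i j| ≤ X) (i j : Fin n) : |C i j| ≤ n.factorial * X ^ n := by
  have hdet : C.det * U.det = 1 := by rw [← det_mul, h, det_one]
  have h1 : C * (U.det • (1 : Matrix (Fin n) (Fin n) ℤ)) = U.adjugate := by
    rw [← mul_adjugate, ← Matrix.mul_assoc, h, one_mul]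
  have h2 : U.det * C i j = U.adjugate i j := by
    rw [← h1, Matrix.mul_smul, Matrix.mul_one, Matrix.smul_apply, smul_eq_mul]
  have h3 : |U.adjugate i j| ≤ n.factorial * X ^ n := by
    rw [adjugate_apply]
    have h5 := Matrix.det_le (A := U.updateRow j (Pi.single i 1)) (abv := AbsoluteValue.abs)
      (x := X) (fun k l => by
        change |_| ≤ X
        rw [Matrix.updateRow_apply]
        split_ifs with h
        · rw [Pi.single_apply]
          split_ifs
          · simpa using hX1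
          · simp only [abs_zero]; linarith
        · exact hX k l)
    rw [Fintype.card_fin, nsmul_eq_mul] at h5
    exact h5
  have h4 : |U.det| = 1 := by
    rcases Int.isUnit_iff.1 (IsUnit.of_mul_eq_one_right _ hdet) with h | h <;> rw [h] <;> rfl
  rw [← h2, abs_mul, h4, one_mul] at h3
  exact h3

end Pool.Agent.MonFPT
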