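import Pool.Agent.MonFPT.GSwap

/-!
# Division free elimination

`ge G k` is the Gram matrix after `k` steps of elimination without division. It computes the
coefficients and squared lengths of the Gram-Schmidt vectors.
-/

set_option autoImplicit false

namespace Pool.Agent.MonFPT

/-- Division free elimination. -/
def ge (G : ℕ → ℕ → ℤ) : ℕ → ℕ → ℕ → ℤ
  | 0, i, j => G i j
  | k + 1, i, j => ge G k k k * ge G k i j - ge G k i k * ge G k k j

variable {V : Type} [AddCommGroup V] [Module ℚ V] {B : V →ₗ[ℚ] V →ₗ[ℚ] ℚ}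

lemma ge_cast (hB : PosDef B) {b : ℕ → V} {G : ℕ → ℕ → ℤ}
    (hG : ∀ i j, (G i j : ℚ) = B (b i) (b j)) (k i j : ℕ) :
    (ge G k i j : ℚ) = scl B b k * B (pv B b k (b i)) (b j) := by
  induction k generalizing i j with
  | zero => simp [ge, scl, pv_zero, hG]
  | succ k ih =>
    have h1 := elim_one hB b k (b i) (b j)
    have h2 : B (pv B b k (b k)) (b k) = bt B b k := pv_left hB b k (b k) (b k)
    simp only [ge, Int.cast_sub, Int.cast_mul, ih, h2]
    change _ = scl B b k ^ 2 * bt B b k * B (pv B b (k + 1) (b i)) (b j)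
    calc scl B b k * bt B b k * (scl B b k * B (pv B b k (b i)) (b j)) -
          scl B b k * B (pv B b k (b i)) (b k) * (scl B b k * B (pv B b k (b k)) (b j))
        = scl B b k ^ 2 * (bt B b k * B (pv B b k (b i)) (b j) -
          B (pv B b k (b i)) (b k) * B (pv B b k (b k)) (b j)) := by ring
      _ = _ := by rw [← h1]; ring

lemma ge_diag (hB : PosDef B) {b : ℕ → V} {G : ℕ → ℕ → ℤ}
    (hG : ∀ i j, (G i j : ℚ) = B (b i) (b j)) (k : ℕ) :
    (ge G k k k : ℚ) = scl B b k * bt B b k := by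
  rw [ge_cast hB hG]
  have h2 : B (pv B b k (b k)) (b k) = bt B b k := pv_left hB b k (b k) (b k)
  rw [h2]

lemma ge_cf (hB : PosDef B) {b : ℕ → V} {G : ℕ → ℕ → ℤ}
    (hG : ∀ i j, (G i j : ℚ) = B (b i) (b j)) {k : ℕ} (hk : 0 < scl B b k) (i : ℕ) :
    (ge G k i k : ℚ) / ge G k k k = cf B b k (b i) := by
  rw [ge_cast hB hG, ge_diag hB hG, cf, pv_comm hB b k (b i) (b k)]
  exact mul_div_mul_left _ _ hk.ne'

lemma ge_lov (hB : PosDef B) {b : ℕ → V} {G : ℕ → ℕ → ℤ}
    (hG : ∀ i j, (G i j : ℚ) = B (b i) (b j)) (k : ℕ) :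
    (ge G k (k + 1) (k + 1) : ℚ) = scl B b k * bt B (sw b k) k := by
  rw [ge_cast hB hG, pv_left hB b k (b (k + 1)) (b (k + 1))]
  unfold bt
  rw [bs_sw_left hB]

/-- The scales are integers. -/
lemma scl_int (hB : PosDef B) {b : ℕ → V} {G : ℕ → ℕ → ℤ}
    (hG : ∀ i j, (G i j : ℚ) = B (b i) (b j)) (k : ℕ) : ∃ z : ℤ, scl B b k = z := by
  induction k with
  | zero => exact ⟨1, by simp [scl]⟩
  | succ k ih =>
    obtain ⟨z, hz⟩ := ih
    refine ⟨z * ge G k k k, ?_⟩
    push_cast
    rw [ge_diag hB hG, ← hz]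
    change scl B b k ^ 2 * bt B b k = _
    ring

lemma one_le_scl (hB : PosDef B) {b : ℕ → V} {G : ℕ → ℕ → ℤ}
    (hG : ∀ i j, (G i j : ℚ) = B (b i) (b j)) {n : ℕ} (hpos : ∀ j < n, 0 < bt B b j) {k : ℕ}
    (hk : k ≤ n) : 1 ≤ scl B b k := by
  obtain ⟨z, hz⟩ := scl_int hB hG k
  have h1 := scl_pos hpos k hk
  rw [hz] at h1 ⊢
  have h2 : 0 < z := by exact_mod_cast h1
  exact_mod_cast h2

lemma scl_mono (hB : PosDef B) {b : ℕ → V} {G : ℕ → ℕ → ℤ}
    (hG : ∀ i j, (G i j : ℚ) = B (b i) (b j)) {n : ℕ} (hpos : ∀ j < n, 0 < bt B b j) {k : ℕ}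
    (hk : k ≤ n) : scl B b k ≤ scl B b n := by
  induction n, hk using Nat.le_induction with
  | base => exact le_rfl
  | succ n hk ih =>
    have h1 := ih (fun j hj => hpos j (by omega))
    refine h1.trans ?_
    have h2 : scl B b (n + 1) = scl B b n * ge G n n n := by
      rw [ge_diag hB hG]
      change scl B b n ^ 2 * bt B b n = _
      ring
    have h3 := scl_pos hpos n (by omega)
    have h4 := scl_pos hpos (n + 1) le_rfl
    rw [h2] at h4 ⊢
    have h5 : (0 : ℚ) < ge G n n n := (pos_iff_pos_of_mul_pos h4).1 h3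
    have h6 : (1 : ℚ) ≤ ge G n n n := by
      have h7 : 0 < ge G n n n := by exact_mod_cast h5
      exact_mod_cast h7
    exact le_mul_of_one_le_right h3.le h6

/-- The scales are bounded. -/
lemma scl_le {b : ℕ → V} {n : ℕ} (hpos : ∀ j < n, 0 < bt B b j) (M : ℚ) (hM1 : 1 ≤ M)
    (hM : ∀ j < n, bt B b j ≤ M) : scl B b n ≤ M ^ (2 ^ n) := by
  have key : ∀ k ≤ n, scl B b k * M ≤ M ^ (2 ^ k) := by
    intro k
    induction k with
    | zero => intro _; simp [scl]
    | succ k ih =>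
      intro hk
      have h1 := ih (by omega)
      have h2 := scl_pos hpos k (by omega)
      have h3 := hM k (by omega)
      have h4 := hpos k (by omega)
      change scl B b k ^ 2 * bt B b k * M ≤ _
      calc scl B b k ^ 2 * bt B b k * M ≤ scl B b k ^ 2 * M * M := by
            apply mul_le_mul_of_nonneg_right _ (by linarith)
            exact mul_le_mul_of_nonneg_left h3 (by positivity)
        _ = (scl B b k * M) ^ 2 := by ring
        _ ≤ (M ^ (2 ^ k)) ^ 2 := pow_le_pow_left₀ (by positivity) h1 2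
        _ = M ^ (2 ^ (k + 1)) := by rw [← pow_mul, pow_succ]
  have h1 := key n le_rfl
  have h2 := scl_pos hpos n le_rfl
  nlinarith

/-- The lengths of the Gram-Schmidt vectors are bounded by those of the basis vectors. -/
lemma bt_le (hB : PosDef B) (b : ℕ → V) (k : ℕ) : bt B b k ≤ B (b k) (b k) := pv_le hB b k (b k)

/-- Rounding. -/
def rnd (a c : ℤ) : ℤ := (2 * a + c) / (2 * c)

lemma rnd_spec (a c : ℤ) (hc : 0 < c) : |(a : ℚ) / c - rnd a c| ≤ 1 / 2 := by
  unfold rnd
  have h1 := Int.emod_add_mul_ediv (2 * a + c) (2 * c)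
  have h2 := Int.emod_nonneg (2 * a + c) (show (2 * c) ≠ 0 by omega)
  have h3 := Int.emod_lt_of_pos (2 * a + c) (show 0 < 2 * c by omega)
  set q := (2 * a + c) / (2 * c)
  set r := (2 * a + c) % (2 * c)
  have hcq : (0 : ℚ) < c := by exact_mod_cast hc
  have h4 : (a : ℚ) / c - q = (r - c) / (2 * c) := by
    have h5 : (r : ℚ) + 2 * c * q = 2 * a + c := by exact_mod_cast h1
    field_simp
    linarith
  rw [h4, abs_div, abs_of_pos (show (0 : ℚ) < 2 * c by positivity), div_le_div_iff₀ (by positivity)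
    (by norm_num)]
  have h6 : |(r : ℚ) - c| ≤ c := by
    rw [abs_le]
    have h7 : (0 : ℚ) ≤ r := by exact_mod_cast h2
    have h8 : (r : ℚ) < 2 * c := by exact_mod_cast h3
    constructor <;> linarith
  linarith

end Pool.Agent.MonFPT
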