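import Mathlib

/-!
# Orthogonal projections for a positive definite form

`pv B b k` is the projection orthogonal to `b 0, .., b (k - 1)` with respect to the form `B`, and
`bs B b k = pv B b k (b k)` are the Gram-Schmidt vectors.
-/

set_option autoImplicit false

namespace Pool.Agent.MonFPT

variable {V : Type} [AddCommGroup V] [Module ℚ V]

/-- The form `B` is symmetric and positive definite. -/
structure PosDef (B : V →ₗ[ℚ] V →ₗ[ℚ] ℚ) : Prop where
  symm : ∀ x y, B x y = B y x
  nonneg : ∀ x, 0 ≤ B x x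
  definite : ∀ x, B x x = 0 → x = 0

/-- The projection orthogonal to `b 0, .., b (k - 1)`. -/
noncomputable def pv (B : V →ₗ[ℚ] V →ₗ[ℚ] ℚ) (b : ℕ → V) : ℕ → V →ₗ[ℚ] V
  | 0 => LinearMap.id
  | k + 1 => pv B b k - ((B (pv B b k (b k))).comp (pv B b k)).smulRight
      ((B (pv B b k (b k)) (pv B b k (b k)))⁻¹ • pv B b k (b k))

/-- The Gram-Schmidt vectors. -/
noncomputable def bs (B : V →ₗ[ℚ] V →ₗ[ℚ] ℚ) (b : ℕ → V) (k : ℕ) : V := pv B b k (b k)

/-- The coefficient of `bs k` in `z`. -/
noncomputable def cf (B : V →ₗ[ℚ] V →ₗ[ℚ] ℚ) (b : ℕ → V) (k : ℕ) (z : V) : ℚ :=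
  B (bs B b k) z / B (bs B b k) (bs B b k)

/-- The span of `b 0, .., b (k - 1)`. -/
def sp (b : ℕ → V) (k : ℕ) : Submodule ℚ V := Submodule.span ℚ (b '' Set.Iio k)

section

variable {B : V →ₗ[ℚ] V →ₗ[ℚ] ℚ} (hB : PosDef B) (b : ℕ → V)

lemma pv_zero (z : V) : pv B b 0 z = z := rfl

lemma pv_succ (k : ℕ) (z : V) : pv B b (k + 1) z =
    pv B b k z - (B (bs B b k) (pv B b k z) / B (bs B b k) (bs B b k)) • bs B b k := by
  simp only [pv, LinearMap.sub_apply, LinearMap.smulRight_apply, LinearMap.comp_apply, bs,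
    smul_smul, div_eq_mul_inv]

lemma sp_mono {j k : ℕ} (h : j ≤ k) : sp b j ≤ sp b k :=
  Submodule.span_mono (Set.image_mono (Set.Iio_subset_Iio h))

lemma mem_sp {i k : ℕ} (h : i < k) : b i ∈ sp b k :=
  Submodule.subset_span ⟨i, h, rfl⟩

lemma sub_pv_mem (k : ℕ) (z : V) : z - pv B b k z ∈ sp b k := by
  induction k generalizing z with
  | zero => simp [pv_zero]
  | succ k ih =>
    rw [pv_succ]
    have h1 : bs B b k ∈ sp b (k + 1) := by
      have h2 := sp_mono b (Nat.le_succ k) (ih (b k))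
      have h3 : b k ∈ sp b (k + 1) := mem_sp b (Nat.lt_succ_self k)
      have h4 := Submodule.sub_mem _ h3 h2
      rwa [sub_sub_cancel] at h4
    have h2 := sp_mono b (Nat.le_succ k) (ih z)
    rw [← sub_add]
    exact Submodule.add_mem _ h2 (Submodule.smul_mem _ _ h1)

lemma bs_mem_sp (k : ℕ) : bs B b k ∈ sp b (k + 1) := by
  have h2 := sp_mono b (Nat.le_succ k) (sub_pv_mem (B := B) b k (b k))
  have h3 : b k ∈ sp b (k + 1) := mem_sp b (Nat.lt_succ_self k)
  have h4 := Submodule.sub_mem _ h3 h2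
  rwa [sub_sub_cancel] at h4

include hB

lemma pv_orth_bs {i k : ℕ} (h : i < k) (z : V) : B (bs B b i) (pv B b k z) = 0 := by
  induction k generalizing i z with
  | zero => omega
  | succ k ih =>
    rw [pv_succ, map_sub, map_smul, smul_eq_mul]
    rcases Nat.lt_succ_iff_lt_or_eq.1 h with h1 | h1
    · rw [ih h1, zero_sub, neg_eq_zero]
      have h2 : B (bs B b i) (bs B b k) = 0 := ih h1 _
      rw [h2, mul_zero]
    · subst h1
      by_cases h2 : B (bs B b i) (bs B b i) = 0
      · rw [hB.definite _ h2]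
        simp
      · field_simp
        ring

lemma bs_orth {i k : ℕ} (h : i < k) : B (bs B b i) (bs B b k) = 0 := pv_orth_bs hB b h _

/-- The projections are orthogonal to the first vectors. -/
lemma pv_orth {k : ℕ} {w : V} (hw : w ∈ sp b k) (z : V) : B w (pv B b k z) = 0 := by
  have key : ∀ i, i < k → B (b i) (pv B b k z) = 0 := by
    intro i
    induction i using Nat.strong_induction_on with
    | _ i ih =>
      intro hi
      have h1 : b i - bs B b i ∈ sp b i := sub_pv_mem b i (b i)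
      have h2 : ∀ w ∈ sp b i, B w (pv B b k z) = 0 := by
        intro w hw
        refine Submodule.span_induction ?_ ?_ ?_ ?_ hw
        · rintro _ ⟨j, hj, rfl⟩
          exact ih j hj (lt_trans hj hi)
        · simp
        · intro x y _ _ hx hy
          rw [map_add, LinearMap.add_apply, hx, hy, add_zero]
        · intro a x _ hx
          rw [map_smul, LinearMap.smul_apply, hx, smul_zero]
      have h3 := h2 _ h1
      rw [map_sub, LinearMap.sub_apply, pv_orth_bs hB b hi, sub_zero] at h3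
      exact h3
  refine Submodule.span_induction ?_ ?_ ?_ ?_ hw
  · rintro _ ⟨j, hj, rfl⟩
    exact key j hj
  · simp
  · intro x y _ _ hx hy
    rw [map_add, LinearMap.add_apply, hx, hy, add_zero]
  · intro a x _ hx
    rw [map_smul, LinearMap.smul_apply, hx, smul_zero]

/-- The projection is determined by the span. -/
lemma pv_unique {S : Submodule ℚ V} {z w w' : V} (h1 : z - w ∈ S) (h2 : z - w' ∈ S)
    (h3 : ∀ u ∈ S, B u w = 0) (h4 : ∀ u ∈ S, B u w' = 0) : w = w' := by
  have h5 : w - w' ∈ S := by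
    have := Submodule.sub_mem _ h2 h1
    rwa [sub_sub_sub_cancel_left] at this
  have h6 : B (w - w') (w - w') = 0 := by
    rw [map_sub, h3 _ h5, h4 _ h5, sub_zero]
  exact sub_eq_zero.1 (hB.definite _ h6)

lemma pv_eq_of_sp_eq {b' : ℕ → V} {k : ℕ} (h : sp b k = sp b' k) (z : V) :
    pv B b k z = pv B b' k z := by
  refine pv_unique (S := sp b k) (z := z) hB (sub_pv_mem b k z) ?_ (fun u hu => pv_orth hB b hu z)
    (fun u hu => pv_orth hB b' (h ▸ hu) z)
  rw [h]
  exact sub_pv_mem b' k z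

lemma pv_eq_zero {k : ℕ} {z : V} (hz : z ∈ sp b k) : pv B b k z = 0 := by
  refine pv_unique (S := sp b k) (z := z) hB (sub_pv_mem b k z) (by simpa using hz)
    (fun u hu => pv_orth hB b hu z) (by simp)

lemma pv_eq_self {k : ℕ} {z : V} (hz : ∀ w ∈ sp b k, B w z = 0) : pv B b k z = z := by
  refine pv_unique (S := sp b k) (z := z) hB (sub_pv_mem b k z) (by simp)
    (fun u hu => pv_orth hB b hu z) hz

/-- The form with one projected argument. -/
lemma pv_left (k : ℕ) (x y : V) : B (pv B b k x) y = B (pv B b k x) (pv B b k y) := by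
  have h1 := pv_orth hB b (sub_pv_mem (B := B) b k y) x
  rw [hB.symm, map_sub] at h1
  linarith

lemma pv_symm (k : ℕ) (x y : V) : B (pv B b k x) y = B x (pv B b k y) := by
  rw [pv_left hB b k x y, hB.symm (pv B b k x), ← pv_left hB b k y x, hB.symm]

/-- Pythagoras for one step. -/
lemma pv_step (k : ℕ) (z : V) : B (pv B b k z) (pv B b k z) =
    B (pv B b (k + 1) z) (pv B b (k + 1) z) + cf B b k z ^ 2 * B (bs B b k) (bs B b k) := by
  have h0 : B (bs B b k) z = B (bs B b k) (pv B b k z) := pv_left hB b k (b k) z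
  have h1 : pv B b k z = pv B b (k + 1) z + cf B b k z • bs B b k := by
    rw [pv_succ, cf, h0]
    simp
  have h2 : B (bs B b k) (pv B b (k + 1) z) = 0 := pv_orth_bs hB b (Nat.lt_succ_self k) z
  have h3 : B (pv B b (k + 1) z) (bs B b k) = 0 := by rw [hB.symm, h2]
  conv_lhs => rw [h1]
  simp only [map_add, LinearMap.add_apply, map_smul, LinearMap.smul_apply, smul_eq_mul, h2, h3]
  ring

/-- The decomposition along the Gram-Schmidt vectors. -/
lemma eq_sum (k : ℕ) (z : V) :
    z = pv B b k z + ∑ i ∈ Finset.range k, cf B b i z • bs B b i := by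
  induction k with
  | zero => simp [pv_zero]
  | succ k ih =>
    have h0 : B (bs B b k) z = B (bs B b k) (pv B b k z) := pv_left hB b k (b k) z
    rw [Finset.sum_range_succ, pv_succ, ← h0]
    change z = pv B b k z - cf B b k z • bs B b k + _
    conv_lhs => rw [ih]
    abel

/-- Pythagoras. -/
lemma form_eq_sum (k : ℕ) (z : V) : B z z = B (pv B b k z) (pv B b k z) +
    ∑ i ∈ Finset.range k, cf B b i z ^ 2 * B (bs B b i) (bs B b i) := by
  induction k with
  | zero => simp [pv_zero]
  | succ k ih =>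
    rw [Finset.sum_range_succ, ih, pv_step hB b k z]
    ring

lemma pv_le (k : ℕ) (z : V) : B (pv B b k z) (pv B b k z) ≤ B z z := by
  rw [form_eq_sum hB b k z]
  have : 0 ≤ ∑ i ∈ Finset.range k, cf B b i z ^ 2 * B (bs B b i) (bs B b i) :=
    Finset.sum_nonneg fun i _ => mul_nonneg (sq_nonneg _) (hB.nonneg _)
  linarith

lemma cf_sq_le {i k : ℕ} (h : i < k) (z : V) (hz : z ∈ sp b k) :
    cf B b i z ^ 2 * B (bs B b i) (bs B b i) ≤ B z z := by
  rw [form_eq_sum hB b k z, pv_eq_zero hB b hz, map_zero, zero_add]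
  exact Finset.single_le_sum (f := fun i => cf B b i z ^ 2 * B (bs B b i) (bs B b i))
    (fun i _ => mul_nonneg (sq_nonneg _) (hB.nonneg _)) (Finset.mem_range.2 h)

lemma cf_self {k : ℕ} (h : bs B b k ≠ 0) : cf B b k (b k) = 1 := by
  have h1 : B (bs B b k) (bs B b k) ≠ 0 := fun h2 => h (hB.definite _ h2)
  have h0 : B (bs B b k) (b k) = B (bs B b k) (bs B b k) := pv_left hB b k (b k) (b k)
  rw [cf, h0, div_self h1]

omit hB in
lemma bs_ne_zero_of_not_mem {k : ℕ} (h : b k ∉ sp b k) : bs B b k ≠ 0 := by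
  intro h1
  apply h
  have h2 := sub_pv_mem (B := B) b k (b k)
  change b k - bs B b k ∈ _ at h2
  rwa [h1, sub_zero] at h2

end

end Pool.Agent.MonFPT
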