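import Pool.Agent.MonFPT.GMain
import Pool.Agent.MonFPT.FlatPoint

/-!
# Lattice reduction of the rows of an integer matrix
-/

set_option autoImplicit false

namespace Pool.Agent.MonFPT

open Matrix

variable {n : ℕ}

/-- The integer form. -/
def FE (E : Matrix (Fin n) (Fin n) ℤ) (x y : Fin n → ℤ) : ℤ := (x ᵥ* E) ⬝ᵥ (y ᵥ* E)

/-- The rational form. -/
noncomputable def BE (E : Matrix (Fin n) (Fin n) ℤ) :
    (Fin n → ℚ) →ₗ[ℚ] (Fin n → ℚ) →ₗ[ℚ] ℚ :=
  LinearMap.mk₂ ℚ (fun x y => (x ᵥ* castQ E) ⬝ᵥ (y ᵥ* castQ E))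
    (fun x x' y => by rw [add_vecMul, add_dotProduct])
    (fun c x y => by rw [smul_vecMul, smul_dotProduct])
    (fun x y y' => by rw [add_vecMul, dotProduct_add])
    (fun c x y => by rw [smul_vecMul, dotProduct_smul])

/-- The embedding. -/
def iq (n : ℕ) : (Fin n → ℤ) →+ (Fin n → ℚ) where
  toFun x := fun j => (x j : ℚ)
  map_zero' := by funext j; simp
  map_add' x y := by funext j; simp

lemma BE_apply (E : Matrix (Fin n) (Fin n) ℤ) (x y : Fin n → ℚ) :
    BE E x y = (x ᵥ* castQ E) ⬝ᵥ (y ᵥ* castQ E) := rfl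

lemma FE_cast (E : Matrix (Fin n) (Fin n) ℤ) (x y : Fin n → ℤ) :
    (FE E x y : ℚ) = BE E (iq n x) (iq n y) := by
  rw [BE_apply, FE]
  simp [dotProduct, vecMul, castQ, iq]

lemma posDef_BE {E : Matrix (Fin n) (Fin n) ℤ} (hE : E.det ≠ 0) : PosDef (BE E) := by
  refine ⟨fun x y => ?_, fun x => ?_, fun x hx => ?_⟩
  · rw [BE_apply, BE_apply, dotProduct_comm]
  · rw [BE_apply]
    exact Finset.sum_nonneg fun i _ => mul_self_nonneg _
  · rw [BE_apply, dotProduct_self_eq_zero] at hx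
    have h1 : (castQ E).det ≠ 0 := by
      rw [castQ_det]
      exact_mod_cast hE
    have h2 : IsUnit (castQ E).det := isUnit_iff_ne_zero.2 h1
    calc x = (x ᵥ* castQ E) ᵥ* (castQ E)⁻¹ := by
          rw [vecMul_vecMul, mul_nonsing_inv _ h2, vecMul_one]
      _ = 0 := by rw [hx, zero_vecMul]

/-- The standard basis. -/
def e0 (n : ℕ) (i : ℕ) : Fin n → ℤ := fun j => if (j : ℕ) = i then 1 else 0

lemma bt_e0_pos {E : Matrix (Fin n) (Fin n) ℤ} (hE : E.det ≠ 0) {j : ℕ} (hj : j < n) :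
    0 < bt (BE E) (im (iq n) (e0 n)) j := by
  have hB := posDef_BE hE
  have h1 : bs (BE E) (im (iq n) (e0 n)) j ≠ 0 := by
    apply bs_ne_zero_of_not_mem
    intro h2
    have h3 : ∀ w ∈ sp (im (iq n) (e0 n)) j, w ⟨j, hj⟩ = 0 := by
      intro w hw
      refine Submodule.span_induction ?_ ?_ ?_ ?_ hw
      · rintro _ ⟨i, hi, rfl⟩
        rw [Set.mem_Iio] at hi
        simp only [im, iq, e0, AddMonoidHom.coe_mk, ZeroHom.coe_mk]
        rw [if_neg (by omega)]
        simp
      · rfl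
      · intro x y _ _ hx hy
        rw [Pi.add_apply, hx, hy, add_zero]
      · intro a x _ hx
        rw [Pi.smul_apply, hx, smul_zero]
    have h4 := h3 _ h2
    simp [im, iq, e0] at h4
  exact lt_of_le_of_ne (hB.nonneg _) fun h => h1 (hB.definite _ h.symm)

/-- The matrix with given rows. -/
def rowM (n : ℕ) (b : ℕ → Fin n → ℤ) : Matrix (Fin n) (Fin n) ℤ := fun i j => b i j

/-- The matrix with given columns. -/
def colM (n : ℕ) (c : ℕ → Fin n → ℤ) : Matrix (Fin n) (Fin n) ℤ := fun i j => c j i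

/-- The outer product. -/
def outer (n : ℕ) : (Fin n → ℤ) →+ (Fin n → ℤ) →+ Matrix (Fin n) (Fin n) ℤ :=
  AddMonoidHom.mk' (fun x => AddMonoidHom.mk' (fun y => Matrix.of fun i j => y i * x j)
    (fun y y' => by ext i j; simp [add_mul]))
    (fun x x' => by
      apply AddMonoidHom.ext
      intro y
      ext i j
      simp [mul_add])

lemma dl_outer (s : (ℕ → Fin n → ℤ) × (ℕ → Fin n → ℤ)) :
    dl (outer n) n s = colM n s.2 * rowM n s.1 := by
  ext i j
  rw [dl, Matrix.sum_apply, Matrix.mul_apply, Finset.sum_range]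
  rfl

lemma colM_e0 : colM n (e0 n) = 1 := by
  ext i j
  unfold colM e0
  rw [Matrix.one_apply]
  simp only [Fin.ext_iff]

lemma rowM_e0 : rowM n (e0 n) = 1 := by
  ext i j
  unfold rowM e0
  rw [Matrix.one_apply]
  simp only [Fin.ext_iff, eq_comm]

/-- A reduced basis gives a reduced decomposition. -/
lemma isRed_of_inv {E : Matrix (Fin n) (Fin n) ℤ} (hE : E.det ≠ 0) {M : ℚ}
    {s : (ℕ → Fin n → ℤ) × (ℕ → Fin n → ℤ)} (h : LInv (BE E) (iq n) n M s)
    (hl : ∀ k, k + 1 < n →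
      bt (BE E) (im (iq n) s.1) k ≤ 2 * bt (BE E) (im (iq n) s.1) (k + 1)) :
    IsRed (castQ (rowM n s.1 * E) * (castQ (rowM n s.1 * E))ᵀ)
      (Matrix.of fun i j => cf (BE E) (im (iq n) s.1) j (im (iq n) s.1 i))
      (fun i => bt (BE E) (im (iq n) s.1) i) := by
  have hB := posDef_BE hE
  set b := im (iq n) s.1 with hb
  refine ⟨⟨fun i => ?_, fun i j hij => ?_, fun i j hij => ?_⟩, fun i => h.pos i i.2, ?_, ?_⟩
  · exact cf_self hB b (bs_ne (h.pos i i.2))
  · exact cf_of_lt hB b hij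
  · exact h.red i i.2 j hij
  · intro i j hij
    rw [hij]
    exact hl i (by omega)
  · ext i j
    have h1 : ∀ i : Fin n, (castQ (rowM n s.1 * E)) i = b i ᵥ* castQ E := by
      intro i
      funext l
      rw [castQ_mul, Matrix.mul_apply]
      rfl
    have h2 : (castQ (rowM n s.1 * E) * (castQ (rowM n s.1 * E))ᵀ) i j = BE E (b i) (b j) := by
      rw [Matrix.mul_apply, BE_apply, dotProduct, ← h1, ← h1]
      rfl
    rw [h2, Matrix.mul_apply]
    have h3 : ∀ i : Fin n, b i = ∑ l : Fin n, cf (BE E) b l (b i) • bs (BE E) b l := by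
      intro i
      have h4 := eq_sum (B := BE E) hB b n (b i)
      rw [pv_eq_zero hB b (mem_sp b i.2), zero_add, Finset.sum_range] at h4
      exact h4
    conv_lhs => rw [h3 i]
    rw [map_sum, LinearMap.sum_apply]
    refine Finset.sum_congr rfl fun l _ => ?_
    rw [map_smul, LinearMap.smul_apply, smul_eq_mul, Matrix.mul_diagonal, transpose_apply,
      Matrix.of_apply, Matrix.of_apply]
    have h5 : BE E (bs (BE E) b l) (b j) = cf (BE E) b l (b j) * bt (BE E) b l := by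
      unfold cf bt
      rw [div_mul_cancel₀]
      exact (h.pos l l.2).ne'
    rw [h5]
    ring

end Pool.Agent.MonFPT
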