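import Pool.Agent.MonFPT.GAlg

/-!
# Correctness and termination of the lattice reduction
-/

set_option autoImplicit false
set_option linter.unusedSectionVars false

namespace Pool.Agent.MonFPT

variable {V : Type} [AddCommGroup V] [Module ℚ V] {B : V →ₗ[ℚ] V →ₗ[ℚ] ℚ} (hB : PosDef B)
  {W W' : Type} [AddCommGroup W] [AddCommGroup W'] (F : W → W → ℤ) (ι : W →+ V)
  (hF : ∀ x y, (F x y : ℚ) = B (ι x) (ι y))

/-- The invariant of the algorithm. -/
structure LInv (B : V →ₗ[ℚ] V →ₗ[ℚ] ℚ) (ι : W →+ V) (n : ℕ) (M : ℚ)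
    (s : (ℕ → W) × (ℕ → W')) : Prop where
  pos : ∀ j < n, 0 < bt B (im ι s.1) j
  btM : ∀ j < n, bt B (im ι s.1) j ≤ M
  red : RedTo B (im ι s.1) n

lemma im_sw (b : ℕ → W) (k : ℕ) : im ι (sw b k) = sw (im ι b) k := by
  funext i
  unfold im sw
  split_ifs <;> rfl

lemma linv_ra (hB : PosDef B) (hF : ∀ x y, (F x y : ℚ) = B (ι x) (ι y)) {n : ℕ} {M : ℚ}
    (s : (ℕ → W) × (ℕ → W')) (hpos : ∀ j < n, 0 < bt B (im ι s.1) j)
    (hM : ∀ j < n, bt B (im ι s.1) j ≤ M) : LInv B ι n M (ra F n s) := by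
  refine ⟨fun j hj => ?_, fun j hj => ?_, redTo_ra F ι hB hF s hpos n le_rfl⟩
  · rw [bt_tri hB (tri_ra F ι n s)]
    exact hpos j hj
  · rw [bt_tri hB (tri_ra F ι n s)]
    exact hM j hj

lemma fv_some {n : ℕ} {b : ℕ → W} {k : ℕ} (h : fv F n b = some k) :
    k + 1 < n ∧ 4 * ge (gr F b) k (k + 1) (k + 1) < 3 * ge (gr F b) k k k := by
  unfold fv at h
  have h1 := List.mem_of_find?_eq_some h
  have h2 := List.find?_some h
  rw [List.mem_range] at h1
  unfold lv at h2
  rw [decide_eq_true_eq] at h2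
  exact ⟨by omega, h2⟩

lemma fv_none {n : ℕ} {b : ℕ → W} (h : fv F n b = none) {k : ℕ} (hk : k + 1 < n) :
    3 * ge (gr F b) k k k ≤ 4 * ge (gr F b) k (k + 1) (k + 1) := by
  unfold fv at h
  rw [List.find?_eq_none] at h
  have h1 := h k (List.mem_range.2 (by omega))
  unfold lv at h1
  rw [decide_eq_true_eq] at h1
  exact not_lt.1 h1

lemma st_none {n : ℕ} (s : (ℕ → W) × (ℕ → W')) (h : fv F n s.1 = none) : st F n s = s := by
  unfold st
  rw [h]

lemma lov_of_some (hB : PosDef B) (hF : ∀ x y, (F x y : ℚ) = B (ι x) (ι y)) {n : ℕ}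
    {b : ℕ → W} (hpos : ∀ j < n, 0 < bt B (im ι b) j) {k : ℕ} (h : fv F n b = some k) :
    k + 1 < n ∧ 4 * bt B (sw (im ι b) k) k ≤ 3 * bt B (im ι b) k := by
  obtain ⟨h1, h2⟩ := fv_some F h
  refine ⟨h1, ?_⟩
  have hG := gr_cast (B := B) F ι hF b
  have h3 : (4 : ℚ) * ge (gr F b) k (k + 1) (k + 1) < 3 * ge (gr F b) k k k := by
    exact_mod_cast h2
  rw [ge_lov hB hG, ge_diag hB hG] at h3
  have h4 := scl_pos hpos k (by omega)
  have h5 : scl B (im ι b) k * (4 * bt B (sw (im ι b) k) k) <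
      scl B (im ι b) k * (3 * bt B (im ι b) k) := by linarith
  exact (lt_of_mul_lt_mul_left h5 h4.le).le

lemma linv_st (hB : PosDef B) (hF : ∀ x y, (F x y : ℚ) = B (ι x) (ι y)) {n : ℕ} {M : ℚ}
    (s : (ℕ → W) × (ℕ → W')) (h : LInv B ι n M s) : LInv B ι n M (st F n s) := by
  unfold st
  cases hk : fv F n s.1 with
  | none => exact h
  | some k =>
    obtain ⟨h1, h2⟩ := lov_of_some F ι hB hF h.pos hk
    have h3 : bt B (sw (im ι s.1) k) k ≤ bt B (im ι s.1) k := by
      have := h.pos k (by omega)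
      linarith
    apply linv_ra F ι hB hF
    · intro j hj
      change 0 < bt B (im ι (sw s.1 k)) j
      rw [im_sw]
      exact bt_sw_pos hB _ h1 h.pos j hj
    · intro j hj
      change bt B (im ι (sw s.1 k)) j ≤ M
      rw [im_sw]
      exact bt_sw_le hB _ h1 h.pos h3 M h.btM j hj

lemma scl_tri (hB : PosDef B) {b b' : ℕ → V} (h : Tri b b') (n : ℕ) :
    scl B b' n = scl B b n :=
  scl_congr fun j _ => bt_tri hB h j

lemma scl_st (hB : PosDef B) (hF : ∀ x y, (F x y : ℚ) = B (ι x) (ι y)) {n : ℕ} {M : ℚ}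
    (s : (ℕ → W) × (ℕ → W')) (h : LInv B ι n M s) (hv : fv F n s.1 ≠ none) :
    4 * scl B (im ι (st F n s).1) n ≤ 3 * scl B (im ι s.1) n := by
  unfold st
  cases hk : fv F n s.1 with
  | none => exact absurd hk hv
  | some k =>
    obtain ⟨h1, h2⟩ := lov_of_some F ι hB hF h.pos hk
    change 4 * scl B (im ι (ra F n (sw s.1 k, sw s.2 k)).1) n ≤ _
    rw [scl_tri hB (tri_ra F ι n _)]
    change 4 * scl B (im ι (sw s.1 k)) n ≤ _
    rw [im_sw]
    exact scl_sw hB _ h1 h.pos h2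

/-- At the end the lengths do not decrease too fast. -/
lemma lov_of_none (hB : PosDef B) (hF : ∀ x y, (F x y : ℚ) = B (ι x) (ι y)) {n : ℕ} {M : ℚ}
    (s : (ℕ → W) × (ℕ → W')) (h : LInv B ι n M s) (hv : fv F n s.1 = none) {k : ℕ}
    (hk : k + 1 < n) : bt B (im ι s.1) k ≤ 2 * bt B (im ι s.1) (k + 1) := by
  have hG := gr_cast (B := B) F ι hF s.1
  have h1 : (3 : ℚ) * ge (gr F s.1) k k k ≤ 4 * ge (gr F s.1) k (k + 1) (k + 1) := by
    exact_mod_cast fv_none F hv hk
  rw [ge_lov hB hG, ge_diag hB hG] at h1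
  set b := im ι s.1 with hb
  have h4 := scl_pos h.pos k (by omega)
  have h5 : scl B b k * (3 * bt B b k) ≤ scl B b k * (4 * bt B (sw b k) k) := by linarith
  have h6 : 3 * bt B b k ≤ 4 * bt B (sw b k) k := le_of_mul_le_mul_left h5 h4
  have h7 : bt B (sw b k) k = bt B b (k + 1) + cf B b k (b (k + 1)) ^ 2 * bt B b k := by
    unfold bt
    rw [bs_sw_left hB, pv_step hB b k (b (k + 1))]
    rfl
  have h8 := h.red (k + 1) hk k (Nat.lt_succ_self k)
  have h9 : cf B b k (b (k + 1)) ^ 2 ≤ 1 / 4 := by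
    rw [← sq_abs]
    have := abs_nonneg (cf B b k (b (k + 1)))
    nlinarith
  have h10 := h.pos k (by omega)
  nlinarith

lemma linv_iter (hB : PosDef B) (hF : ∀ x y, (F x y : ℚ) = B (ι x) (ι y)) {n : ℕ} {M : ℚ}
    (s : (ℕ → W) × (ℕ → W')) (h : LInv B ι n M s) (t : ℕ) :
    LInv B ι n M ((st F n)^[t] s) := by
  induction t with
  | zero => exact h
  | succ t ih =>
    rw [Function.iterate_succ_apply']
    exact linv_st F ι hB hF _ ih

/-- **Termination.** -/
theorem terminates (hB : PosDef B) (hF : ∀ x y, (F x y : ℚ) = B (ι x) (ι y)) {n : ℕ} {M : ℚ}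
    (s : (ℕ → W) × (ℕ → W')) (h : LInv B ι n M s) (T : ℕ)
    (hT : 3 ^ T * scl B (im ι s.1) n < 4 ^ T) : fv F n ((st F n)^[T] s).1 = none := by
  have key : ∀ t, fv F n ((st F n)^[t] s).1 ≠ none →
      4 ^ t * scl B (im ι ((st F n)^[t] s).1) n ≤ 3 ^ t * scl B (im ι s.1) n := by
    intro t
    induction t with
    | zero => intro _; simp
    | succ t ih =>
      intro hv
      rw [Function.iterate_succ_apply'] at hv ⊢
      have h1 : fv F n ((st F n)^[t] s).1 ≠ none := by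
        intro h2
        apply hv
        rw [st_none F _ h2, h2]
      have h2 := ih h1
      have h3 := scl_st F ι hB hF _ (linv_iter F ι hB hF s h t) h1
      calc 4 ^ (t + 1) * scl B (im ι (st F n ((st F n)^[t] s)).1) n
          = 4 ^ t * (4 * scl B (im ι (st F n ((st F n)^[t] s)).1) n) := by ring
        _ ≤ 4 ^ t * (3 * scl B (im ι ((st F n)^[t] s).1) n) :=
            mul_le_mul_of_nonneg_left h3 (by positivity)
        _ = 3 * (4 ^ t * scl B (im ι ((st F n)^[t] s).1) n) := by ring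
        _ ≤ 3 * (3 ^ t * scl B (im ι s.1) n) := by linarith
        _ = _ := by ring
  by_contra hv
  have h1 := key T hv
  have h2 := linv_iter F ι hB hF s h T
  have h3 := one_le_scl hB (gr_cast (B := B) F ι hF ((st F n)^[T] s).1) h2.pos le_rfl
  have h4 : (4 : ℚ) ^ T * 1 ≤ 4 ^ T * scl B (im ι ((st F n)^[T] s).1) n :=
    mul_le_mul_of_nonneg_left h3 (by positivity)
  linarith

/-! ### The dual basis -/

section Dual

variable {X : Type} [AddCommGroup X] (T : W →+ W' →+ X)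

/-- The sum of the products. -/
def dl (T : W →+ W' →+ X) (n : ℕ) (s : (ℕ → W) × (ℕ → W')) : X :=
  ∑ i ∈ Finset.range n, T (s.1 i) (s.2 i)

lemma dl_rs (n : ℕ) (s : (ℕ → W) × (ℕ → W')) {i l : ℕ} (hl : l < i) (hi : i < n) :
    dl T n (rs F s i l) = dl T n s := by
  rw [← sub_eq_zero]
  unfold dl
  rw [← Finset.sum_sub_distrib, Finset.sum_eq_add_of_mem i l (Finset.mem_range.2 hi)
    (Finset.mem_range.2 (by omega)) (by omega)]
  · unfold rs
    simp only [Function.update_self]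
    rw [Function.update_of_ne (by omega), Function.update_of_ne (by omega)]
    simp only [map_sub, map_add, AddMonoidHom.sub_apply, map_zsmul, AddMonoidHom.smul_apply]
    abel
  · intro m _ hm
    unfold rs
    simp only [Function.update_of_ne hm.1, Function.update_of_ne hm.2, sub_self]

lemma dl_rd (n i : ℕ) (hi : i < n) : ∀ (l : ℕ) (s : (ℕ → W) × (ℕ → W')), l ≤ i →
    dl T n (rd F i l s) = dl T n s
  | 0, _, _ => rfl
  | l + 1, s, h => by
    change dl T n (rd F i l (rs F s i l)) = _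
    rw [dl_rd n i hi l _ (by omega), dl_rs F T n s (by omega) hi]

lemma dl_ra (n : ℕ) : ∀ (m : ℕ) (s : (ℕ → W) × (ℕ → W')), m ≤ n →
    dl T n (ra F m s) = dl T n s
  | 0, _, _ => rfl
  | m + 1, s, h => by
    change dl T n (rd F m m (ra F m s)) = _
    rw [dl_rd F T n m (by omega) m _ le_rfl, dl_ra n m s (by omega)]

lemma sum_sw (f : ℕ → X) {k n : ℕ} (hk : k + 1 < n) :
    ∑ i ∈ Finset.range n, sw f k i = ∑ i ∈ Finset.range n, f i := by
  rw [← sub_eq_zero, ← Finset.sum_sub_distrib, Finset.sum_eq_add_of_mem k (k + 1)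
    (Finset.mem_range.2 (by omega)) (Finset.mem_range.2 hk) (by omega)]
  · rw [sw_left, sw_right]
    abel
  · intro m _ hm
    unfold sw
    rw [if_neg hm.1, if_neg hm.2, sub_self]

lemma dl_sw (n : ℕ) (s : (ℕ → W) × (ℕ → W')) {k : ℕ} (hk : k + 1 < n) :
    dl T n (sw s.1 k, sw s.2 k) = dl T n s := by
  unfold dl
  rw [← sum_sw (fun i => T (s.1 i) (s.2 i)) hk]
  refine Finset.sum_congr rfl fun i _ => ?_
  unfold sw
  simp only
  split_ifs <;> rfl

lemma dl_st (n : ℕ) (s : (ℕ → W) × (ℕ → W')) : dl T n (st F n s) = dl T n s := by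
  unfold st
  cases hk : fv F n s.1 with
  | none => rfl
  | some k =>
    change dl T n (ra F n (sw s.1 k, sw s.2 k)) = _
    rw [dl_ra F T n n _ le_rfl, dl_sw T n s (fv_some F hk).1]

lemma dl_iter (n t : ℕ) (s : (ℕ → W) × (ℕ → W')) :
    dl T n ((st F n)^[t] (ra F n s)) = dl T n s := by
  induction t with
  | zero => exact dl_ra F T n n s le_rfl
  | succ t ih => rw [Function.iterate_succ_apply', dl_st, ih]

end Dual

end Pool.Agent.MonFPT
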