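import Pool.Agent.MonFPT.GForm

/-!
# Swaps and size reduction of a basis
-/

set_option autoImplicit false

namespace Pool.Agent.MonFPT

variable {V : Type} [AddCommGroup V] [Module ℚ V] {B : V →ₗ[ℚ] V →ₗ[ℚ] ℚ}

/-- The squared length of the Gram-Schmidt vectors. -/
noncomputable def bt (B : V →ₗ[ℚ] V →ₗ[ℚ] ℚ) (b : ℕ → V) (k : ℕ) : ℚ := B (bs B b k) (bs B b k)

lemma bt_nonneg (hB : PosDef B) (b : ℕ → V) (k : ℕ) : 0 ≤ bt B b k := hB.nonneg _

/-! ### Triangular changes of the basis -/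

lemma sp_le_of_tri {b b' : ℕ → V} (h : ∀ i, b' i - b i ∈ sp b i) (k : ℕ) :
    sp b' k ≤ sp b k := by
  unfold sp
  rw [Submodule.span_le]
  rintro _ ⟨i, hi, rfl⟩
  have h1 : b' i - b i ∈ sp b k := sp_mono b (le_of_lt hi) (h i)
  have h2 : b i ∈ sp b k := mem_sp b hi
  have h3 := Submodule.add_mem _ h1 h2
  rwa [sub_add_cancel] at h3

lemma sp_tri {b b' : ℕ → V} (h : ∀ i, b' i - b i ∈ sp b i) (k : ℕ) : sp b' k = sp b k := by
  have key : ∀ k, sp b k ≤ sp b' k := by
    intro k
    induction k using Nat.strong_induction_on with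
    | _ k ih =>
      unfold sp
      rw [Submodule.span_le]
      rintro _ ⟨i, hi, rfl⟩
      have h1 : b' i - b i ∈ sp b' k := sp_mono b' (le_of_lt hi) (ih i hi (h i))
      have h2 : b' i ∈ sp b' k := mem_sp b' hi
      have h3 := Submodule.sub_mem _ h2 h1
      rwa [sub_sub_cancel] at h3
  exact le_antisymm (sp_le_of_tri h k) (key k)

lemma pv_tri (hB : PosDef B) {b b' : ℕ → V} (h : ∀ i, b' i - b i ∈ sp b i) (k : ℕ) (z : V) :
    pv B b' k z = pv B b k z :=
  pv_eq_of_sp_eq hB b' (sp_tri h k) z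

lemma bs_tri (hB : PosDef B) {b b' : ℕ → V} (h : ∀ i, b' i - b i ∈ sp b i) (k : ℕ) :
    bs B b' k = bs B b k := by
  unfold bs
  rw [pv_tri hB h]
  have h1 : pv B b k (b' k - b k) = 0 := pv_eq_zero hB b (h k)
  rw [map_sub] at h1
  exact sub_eq_zero.1 h1

lemma bt_tri (hB : PosDef B) {b b' : ℕ → V} (h : ∀ i, b' i - b i ∈ sp b i) (k : ℕ) :
    bt B b' k = bt B b k := by
  unfold bt
  rw [bs_tri hB h]

lemma cf_tri (hB : PosDef B) {b b' : ℕ → V} (h : ∀ i, b' i - b i ∈ sp b i) (k : ℕ) (z : V) :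
    cf B b' k z = cf B b k z := by
  unfold cf
  rw [bs_tri hB h]

/-- One step of the size reduction. -/
lemma tri_update (b : ℕ → V) {i l : ℕ} (hl : l < i) (q : ℚ) :
    ∀ m, Function.update b i (b i - q • b l) m - b m ∈ sp b m := by
  intro m
  by_cases hm : m = i
  · subst hm
    rw [Function.update_self]
    have : b m - q • b l - b m = -(q • b l) := by abel
    rw [this]
    exact Submodule.neg_mem _ (Submodule.smul_mem _ _ (mem_sp b hl))
  · rw [Function.update_of_ne hm, sub_self]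
    exact Submodule.zero_mem _

lemma cf_linear (b : ℕ → V) (k : ℕ) (x y : V) (q : ℚ) :
    cf B b k (x - q • y) = cf B b k x - q * cf B b k y := by
  unfold cf
  rw [map_sub, map_smul, smul_eq_mul]
  ring

lemma cf_of_lt (hB : PosDef B) (b : ℕ → V) {l k : ℕ} (h : l < k) : cf B b k (b l) = 0 := by
  unfold cf
  have h1 : B (b l) (bs B b k) = 0 := pv_orth hB b (mem_sp b h) (b k)
  rw [hB.symm, h1, zero_div]

/-! ### Swaps -/

/-- The basis with `b k` and `b (k + 1)` exchanged. -/
def sw {W : Type} (b : ℕ → W) (k : ℕ) : ℕ → W :=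
  fun i => if i = k then b (k + 1) else if i = k + 1 then b k else b i

lemma sw_lt {W : Type} (b : ℕ → W) {k i : ℕ} (h : i < k) : sw b k i = b i := by
  unfold sw
  rw [if_neg (by omega), if_neg (by omega)]

lemma sw_gt {W : Type} (b : ℕ → W) {k i : ℕ} (h : k + 1 < i) : sw b k i = b i := by
  unfold sw
  rw [if_neg (by omega), if_neg (by omega)]

lemma sw_left {W : Type} (b : ℕ → W) (k : ℕ) : sw b k k = b (k + 1) := by
  unfold sw
  rw [if_pos rfl]

lemma sw_right {W : Type} (b : ℕ → W) (k : ℕ) : sw b k (k + 1) = b k := by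
  unfold sw
  rw [if_neg (by omega), if_pos rfl]

lemma sw_sw {W : Type} (b : ℕ → W) (k : ℕ) : sw (sw b k) k = b := by
  funext i
  rcases lt_trichotomy i k with h | h | h
  · rw [sw_lt _ h, sw_lt _ h]
  · subst h
    rw [sw_left, sw_right]
  · rcases Nat.lt_or_ge (k + 1) i with h1 | h1
    · rw [sw_gt _ h1, sw_gt _ h1]
    · have : i = k + 1 := by omega
      subst this
      rw [sw_right, sw_left]

lemma sp_sw_le (b : ℕ → V) {k j : ℕ} (h : j ≤ k) : sp (sw b k) j = sp b j := by
  unfold sp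
  congr 1
  apply Set.image_congr
  intro i hi
  exact sw_lt b (lt_of_lt_of_le hi h)

lemma sp_sw_ge_aux (b : ℕ → V) {k j : ℕ} (h : k + 2 ≤ j) : sp (sw b k) j ≤ sp b j := by
  change Submodule.span ℚ _ ≤ _
  rw [Submodule.span_le]
  rintro _ ⟨i, hi, rfl⟩
  rw [Set.mem_Iio] at hi
  rcases lt_trichotomy i k with h1 | h1 | h1
  · rw [sw_lt _ h1]
    exact mem_sp b hi
  · subst h1
    rw [sw_left]
    exact mem_sp b (by omega)
  · rcases Nat.lt_or_ge (k + 1) i with h2 | h2
    · rw [sw_gt _ h2]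
      exact mem_sp b hi
    · have : i = k + 1 := by omega
      subst this
      rw [sw_right]
      exact mem_sp b (by omega)

lemma sp_sw_ge (b : ℕ → V) {k j : ℕ} (h : k + 2 ≤ j) : sp (sw b k) j = sp b j := by
  apply le_antisymm (sp_sw_ge_aux b h)
  have := sp_sw_ge_aux (sw b k) h
  rwa [sw_sw] at this

lemma bs_sw_lt (hB : PosDef B) (b : ℕ → V) {k j : ℕ} (h : j < k) :
    bs B (sw b k) j = bs B b j := by
  unfold bs
  rw [pv_eq_of_sp_eq hB (sw b k) (sp_sw_le b h.le), sw_lt b h]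

lemma bs_sw_gt (hB : PosDef B) (b : ℕ → V) {k j : ℕ} (h : k + 1 < j) :
    bs B (sw b k) j = bs B b j := by
  unfold bs
  rw [pv_eq_of_sp_eq hB (sw b k) (sp_sw_ge b h), sw_gt b h]

lemma bs_sw_left (hB : PosDef B) (b : ℕ → V) (k : ℕ) :
    bs B (sw b k) k = pv B b k (b (k + 1)) := by
  unfold bs
  rw [pv_eq_of_sp_eq hB (sw b k) (sp_sw_le b le_rfl), sw_left]

/-- Elimination of one vector, without division. -/
lemma elim_one (hB : PosDef B) (b : ℕ → V) (k : ℕ) (x y : V) :
    B (pv B b (k + 1) x) y * bt B b k =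
      bt B b k * B (pv B b k x) y - B (pv B b k x) (b k) * B (pv B b k (b k)) y := by
  have h0 : B (pv B b k x) (b k) = B (bs B b k) (pv B b k x) := by
    rw [pv_left hB, hB.symm]
    rfl
  rw [h0, pv_succ, map_sub, LinearMap.sub_apply, map_smul, LinearMap.smul_apply, smul_eq_mul]
  change _ = _ - _ * B (bs B b k) y
  by_cases h2 : B (bs B b k) (bs B b k) = 0
  · have h3 := hB.definite _ h2
    unfold bt
    rw [h3]
    simp
  · unfold bt
    field_simp

lemma pv_comm (hB : PosDef B) (b : ℕ → V) (k : ℕ) (x y : V) :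
    B (pv B b k x) y = B (pv B b k y) x := by
  rw [pv_left hB b k x y, hB.symm, ← pv_left hB b k y x]

lemma bt_mul (hB : PosDef B) (b : ℕ → V) (k : ℕ) : bt B b k * bt B b (k + 1) =
    bt B b k * B (pv B b k (b (k + 1))) (pv B b k (b (k + 1))) -
      B (pv B b k (b k)) (b (k + 1)) ^ 2 := by
  have h1 := elim_one hB b k (b (k + 1)) (b (k + 1))
  rw [pv_left hB b (k + 1) (b (k + 1)) (b (k + 1)), pv_left hB b k (b (k + 1)) (b (k + 1)),
    pv_comm hB b k (b (k + 1)) (b k)] at h1
  rw [sq, ← h1, mul_comm]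
  rfl

/-- The squared lengths after a swap. -/
lemma bt_sw_mul (hB : PosDef B) (b : ℕ → V) (k : ℕ) :
    bt B (sw b k) k * bt B (sw b k) (k + 1) = bt B b k * bt B b (k + 1) := by
  have e1 := bt_mul hB b k
  have e2 := bt_mul hB (sw b k) k
  have h1 : ∀ z, pv B (sw b k) k z = pv B b k z := fun z =>
    pv_eq_of_sp_eq hB (sw b k) (sp_sw_le b le_rfl) z
  have h2 : bt B (sw b k) k = B (pv B b k (b (k + 1))) (pv B b k (b (k + 1))) := by
    unfold bt
    rw [bs_sw_left hB]
  rw [h1, h1, sw_left, sw_right, pv_comm hB b k (b (k + 1)) (b k)] at e2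
  have h4 : B (pv B b k (b k)) (pv B b k (b k)) = bt B b k := rfl
  rw [h4, h2] at e2
  rw [h2, e2, e1]
  ring

lemma bt_sw_lt (hB : PosDef B) (b : ℕ → V) {k j : ℕ} (h : j < k) :
    bt B (sw b k) j = bt B b j := by
  unfold bt
  rw [bs_sw_lt hB b h]

lemma bt_sw_gt (hB : PosDef B) (b : ℕ → V) {k j : ℕ} (h : k + 1 < j) :
    bt B (sw b k) j = bt B b j := by
  unfold bt
  rw [bs_sw_gt hB b h]

/-- `|b' k|^2 ≥ |b* (k + 1)|^2` -/
lemma bt_succ_le_sw (hB : PosDef B) (b : ℕ → V) (k : ℕ) :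
    bt B b (k + 1) ≤ bt B (sw b k) k := by
  unfold bt
  rw [bs_sw_left hB, pv_step hB b k (b (k + 1))]
  have : 0 ≤ cf B b k (b (k + 1)) ^ 2 * B (bs B b k) (bs B b k) :=
    mul_nonneg (sq_nonneg _) (hB.nonneg _)
  change B (pv B b (k + 1) (b (k + 1))) (pv B b (k + 1) (b (k + 1))) ≤ _
  linarith

/-- The maximum of the squared lengths does not increase. -/
lemma bt_sw_le (hB : PosDef B) (b : ℕ → V) {k n : ℕ} (hk : k + 1 < n) (hpos : ∀ j < n, 0 < bt B b j)
    (hlt : bt B (sw b k) k ≤ bt B b k) (M : ℚ) (hM : ∀ j < n, bt B b j ≤ M) :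
    ∀ j < n, bt B (sw b k) j ≤ M := by
  intro j hj
  rcases lt_trichotomy j k with h | h | h
  · rw [bt_sw_lt hB b h]
    exact hM j hj
  · subst h
    exact hlt.trans (hM j hj)
  · rcases Nat.lt_or_ge (k + 1) j with h1 | h1
    · rw [bt_sw_gt hB b h1]
      exact hM j hj
    · have h2 : j = k + 1 := by omega
      subst h2
      have h3 := bt_sw_mul hB b k
      have h4 := bt_succ_le_sw hB b k
      have h5 := hpos k (by omega)
      have h6 := hpos (k + 1) hj
      have h7 : 0 < bt B (sw b k) k := lt_of_lt_of_le h6 h4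
      have h8 : bt B (sw b k) (k + 1) ≤ bt B b k := by
        by_contra hcon
        push Not at hcon
        have h9 : bt B b k * bt B b (k + 1) < bt B (sw b k) (k + 1) * bt B (sw b k) k :=
          mul_lt_mul hcon h4 h6 (le_of_lt (h5.trans hcon))
        linarith
      exact h8.trans (hM k (by omega))

lemma bt_sw_pos (hB : PosDef B) (b : ℕ → V) {k n : ℕ} (hk : k + 1 < n)
    (hpos : ∀ j < n, 0 < bt B b j) : ∀ j < n, 0 < bt B (sw b k) j := by
  intro j hj
  have h5 := hpos k (by omega)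
  have h6 := hpos (k + 1) hk
  have h7 : 0 < bt B (sw b k) k := lt_of_lt_of_le h6 (bt_succ_le_sw hB b k)
  rcases lt_trichotomy j k with h | h | h
  · rw [bt_sw_lt hB b h]
    exact hpos j hj
  · subst h
    exact h7
  · rcases Nat.lt_or_ge (k + 1) j with h1 | h1
    · rw [bt_sw_gt hB b h1]
      exact hpos j hj
    · have h2 : j = k + 1 := by omega
      subst h2
      have h3 := bt_sw_mul hB b k
      have h8 : 0 < bt B b k * bt B b (k + 1) := mul_pos h5 h6
      rw [← h3] at h8
      exact (pos_iff_pos_of_mul_pos h8).1 h7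

/-! ### The scales -/

/-- The scales of the division free forms. -/
noncomputable def scl (B : V →ₗ[ℚ] V →ₗ[ℚ] ℚ) (b : ℕ → V) : ℕ → ℚ
  | 0 => 1
  | k + 1 => scl B b k ^ 2 * bt B b k

lemma scl_pos {b : ℕ → V} {n : ℕ} (hpos : ∀ j < n, 0 < bt B b j) :
    ∀ j ≤ n, 0 < scl B b j := by
  intro j
  induction j with
  | zero => intro _; exact one_pos
  | succ j ih =>
    intro hj
    have h1 := ih (by omega)
    have h2 := hpos j (by omega)
    change 0 < scl B b j ^ 2 * bt B b j
    positivity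

lemma scl_congr {b b' : ℕ → V} {n : ℕ} (h : ∀ j < n, bt B b j = bt B b' j) :
    scl B b n = scl B b' n := by
  induction n with
  | zero => rfl
  | succ n ih =>
    change scl B b n ^ 2 * bt B b n = scl B b' n ^ 2 * bt B b' n
    rw [ih (fun j hj => h j (by omega)), h n (by omega)]

/-- The potential decreases. -/
lemma scl_sw (hB : PosDef B) (b : ℕ → V) {k n : ℕ} (hk : k + 1 < n)
    (hpos : ∀ j < n, 0 < bt B b j) (hlov : 4 * bt B (sw b k) k ≤ 3 * bt B b k) :
    4 * scl B (sw b k) n ≤ 3 * scl B b n := by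
  have hp := scl_pos hpos
  have hp' := scl_pos (bt_sw_pos hB b hk hpos)
  have key : ∀ j, k + 2 ≤ j → j ≤ n → 4 * scl B (sw b k) j ≤ 3 * scl B b j := by
    intro j hj
    induction j, hj using Nat.le_induction with
    | base =>
      intro _
      have h1 : scl B (sw b k) k = scl B b k :=
        scl_congr fun j hj => bt_sw_lt hB b hj
      change 4 * ((scl B (sw b k) k ^ 2 * bt B (sw b k) k) ^ 2 * bt B (sw b k) (k + 1)) ≤
        3 * ((scl B b k ^ 2 * bt B b k) ^ 2 * bt B b (k + 1))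
      rw [h1]
      have h2 := bt_sw_mul hB b k
      have h3 : (scl B b k ^ 2 * bt B (sw b k) k) ^ 2 * bt B (sw b k) (k + 1) =
          scl B b k ^ 4 * (bt B b k * bt B b (k + 1)) * bt B (sw b k) k := by
        rw [← h2]
        ring
      have h4 : (scl B b k ^ 2 * bt B b k) ^ 2 * bt B b (k + 1) =
          scl B b k ^ 4 * (bt B b k * bt B b (k + 1)) * bt B b k := by
        ring
      rw [h3, h4]
      have h5 : 0 ≤ scl B b k ^ 4 * (bt B b k * bt B b (k + 1)) := by
        have := hpos k (by omega)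
        have := hpos (k + 1) (by omega)
        positivity
      nlinarith
    | succ j hj ih =>
      intro hjn
      have h1 := ih (by omega)
      change 4 * (scl B (sw b k) j ^ 2 * bt B (sw b k) j) ≤ 3 * (scl B b j ^ 2 * bt B b j)
      rw [bt_sw_gt hB b (show k + 1 < j by omega)]
      have h2 := hp j (by omega)
      have h3 := hp' j (by omega)
      have h4 := hpos j (by omega)
      have h5 : 4 * scl B (sw b k) j ^ 2 ≤ 3 * scl B b j ^ 2 := by nlinarith
      nlinarith
  exact key n (by omega) le_rfl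

end Pool.Agent.MonFPT
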