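import Mathlib

/-!
# Thick pieces are harmless

Geometry of integer cones: if a lattice polytope contains points in all residue classes
`τ s mod τ k`, then every integer point of the cone over it which is far enough inside is a sum of
generators.
-/

set_option autoImplicit false

namespace Pool.Agent.MonFPT

/-- The rational vector of an integer vector. -/
def toQ {e : ℕ} (x : Fin e → ℤ) : Fin e → ℚ := fun i => (x i : ℚ)

@[simp] lemma toQ_apply {e : ℕ} (x : Fin e → ℤ) (i : Fin e) : toQ x i = (x i : ℚ) := rfl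

/-- The homogenised generators `(x, 1)`, `x ∈ S`, as rational vectors. -/
def homQ {e : ℕ} (S : Set (Fin e → ℤ)) : Set ((Fin e → ℚ) × ℚ) := (fun x => (toQ x, 1)) '' S

/-- The homogenised generators `(x, 1)`, `x ∈ S`, as integer vectors. -/
def homZ {e : ℕ} (S : Set (Fin e → ℤ)) : Set ((Fin e → ℤ) × ℤ) := (fun x => (x, 1)) '' S

/-- The rational cone over `S × {1}`. -/
def hcone {e : ℕ} (S : Set (Fin e → ℤ)) : PointedCone ℚ ((Fin e → ℚ) × ℚ) :=
  PointedCone.hull ℚ (homQ S)

/-- The monoid generated by `S × {1}`. -/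
def hmon {e : ℕ} (S : Set (Fin e → ℤ)) : AddSubmonoid ((Fin e → ℤ) × ℤ) :=
  AddSubmonoid.closure (homZ S)

/-- `S` is the set of integer points of its convex hull. -/
def IsConv {e : ℕ} (S : Set (Fin e → ℤ)) : Prop :=
  ∀ x : Fin e → ℤ, toQ x ∈ convexHull ℚ (toQ '' S) → x ∈ S

lemma mem_hcone_iff {e : ℕ} (S : Set (Fin e → ℤ)) (v : Fin e → ℚ) (r : ℚ) :
    (v, r) ∈ hcone S ↔ (v = 0 ∧ r = 0) ∨ (0 < r ∧ r⁻¹ • v ∈ convexHull ℚ (toQ '' S)) := by
  constructor
  · intro h
    have key : ∀ z : (Fin e → ℚ) × ℚ, z ∈ hcone S →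
        (z.1 = 0 ∧ z.2 = 0) ∨ (0 < z.2 ∧ z.2⁻¹ • z.1 ∈ convexHull ℚ (toQ '' S)) := by
      intro z hz
      refine Submodule.span_induction ?_ ?_ ?_ ?_ hz
      · rintro _ ⟨x, hx, rfl⟩
        right
        refine ⟨one_pos, ?_⟩
        simpa using subset_convexHull ℚ (toQ '' S) (Set.mem_image_of_mem toQ hx)
      · left; exact ⟨rfl, rfl⟩
      · rintro ⟨a, s⟩ ⟨b, t⟩ _ _ ha hb
        rcases ha with ⟨ha1, ha2⟩ | ⟨ha1, ha2⟩
        · simp only at ha1 ha2
          subst ha1 ha2
          simpa using hb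
        · rcases hb with ⟨hb1, hb2⟩ | ⟨hb1, hb2⟩
          · simp only at hb1 hb2
            subst hb1 hb2
            right
            simpa using And.intro ha1 ha2
          · right
            simp only at ha1 ha2 hb1 hb2 ⊢
            have hst : 0 < s + t := add_pos ha1 hb1
            refine ⟨hst, ?_⟩
            have := (convex_convexHull ℚ (toQ '' S)) ha2 hb2 (a := s / (s + t)) (b := t / (s + t))
              (by positivity) (by positivity) (by field_simp)
            convert this using 1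
            ext i
            simp only [Pi.smul_apply, Pi.add_apply, smul_eq_mul, Prod.fst_add, Prod.snd_add]
            field_simp
      · rintro ⟨c, hc⟩ ⟨a, s⟩ _ ha
        rcases hc.eq_or_lt with hc0 | hc0
        · left
          constructor
          · ext i; simp [← hc0]
          · simp [← hc0]
        · rcases ha with ⟨ha1, ha2⟩ | ⟨ha1, ha2⟩
          · simp only at ha1 ha2
            subst ha1 ha2
            left; constructor <;> simp
          · right
            simp only at ha1 ha2 ⊢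
            constructor
            · simpa using mul_pos hc0 ha1
            · convert ha2 using 1
              ext i
              simp
              field_simp
    exact key _ h
  · rintro (⟨rfl, rfl⟩ | ⟨hr, h⟩)
    · exact Submodule.zero_mem _
    · have h1 : convexHull ℚ (toQ '' S) ⊆ {u | (u, (1 : ℚ)) ∈ hcone S} := by
        refine convexHull_min ?_ ?_
        · rintro _ ⟨x, hx, rfl⟩
          exact Submodule.subset_span ⟨x, hx, rfl⟩
        · intro a ha b hb s t hs ht hst
          have := Submodule.add_mem _ (PointedCone.smul_mem (hcone S) hs ha)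
            (PointedCone.smul_mem (hcone S) ht hb)
          simp only [Set.mem_ofPred_eq]
          convert this using 1
          ext
          · simp
          · simp [hst]
      have h2 := PointedCone.smul_mem (hcone S) hr.le (h1 h)
      convert h2 using 1
      ext
      · simp; field_simp
      · simp

lemma gen_mem {e : ℕ} {S : Set (Fin e → ℤ)} {x : Fin e → ℤ} (hx : x ∈ S) :
    ((x, (1 : ℤ)) : (Fin e → ℤ) × ℤ) ∈ hmon S :=
  AddSubmonoid.subset_closure ⟨x, hx, rfl⟩

/-- A nonnegative combination of points of `S` with positive total weight, divided by the weight,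
lies in the convex hull. -/
lemma combo_mem {e : ℕ} (S : Set (Fin e → ℤ)) {J : Type} [Fintype J] (x : J → Fin e → ℤ)
    (hx : ∀ j, x j ∈ S) (w : J → ℚ) (hw : ∀ j, 0 ≤ w j) (hpos : 0 < ∑ j, w j) :
    (∑ j, w j)⁻¹ • ∑ j, w j • toQ (x j) ∈ convexHull ℚ (toQ '' S) := by
  have := Finset.univ.centerMass_mem_convexHull (R := ℚ) (w := w) (z := fun j => toQ (x j))
    (s := toQ '' S) (fun j _ => hw j) hpos (fun j _ => ⟨x j, hx j, rfl⟩)
  simpa [Finset.centerMass] using this

/-- The barycentre of the points `p s`. -/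
def bary {e : ℕ} {I : Type} [Fintype I] (p : I → Fin e → ℤ) : Fin e → ℚ :=
  (Fintype.card I : ℚ)⁻¹ • ∑ s, toQ (p s)

/-- **Lemma A.** The modulus `k` is divisible by `1, …, e + 1`; the points `p i` represent all
residue classes `τ s` modulo `τ k`. -/
theorem lemmaA {e : ℕ} {k : ℕ} (hk0 : 0 < k) (hkdvd : ∀ m, 0 < m → m ≤ e + 1 → m ∣ k)
    (S : Set (Fin e → ℤ)) (hS : IsConv S) (τ : ℕ) (hτ : 0 < τ) (θ : ℚ)
    (hθ : 0 < θ) (hθ1 : θ ≤ 1 / 2) {I : Type} [Fintype I] (p : I → Fin e → ℤ)
    (hp : ∀ s, p s ∈ S)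
    (hmod : ∀ s : Fin e → Fin k, ∃ i : I, ∀ c, ∃ m : ℤ, p i c = τ * s c + τ * k * m)
    (hbig : (e + 1 : ℚ) * (e + 1) * (Fintype.card I : ℚ) ≤ τ * k * θ)
    (y : Fin e → ℤ) (n : ℤ) (hy : (toQ y - θ • bary p, (n : ℚ) - θ) ∈ hcone S) :
    (y, n) ∈ hmon S := by
  classical
  have : NeZero (k) := ⟨hk0.ne'⟩
  have hkQ : (0 : ℚ) < k := by exact_mod_cast hk0
  have hτQ : (0 : ℚ) < τ := by exact_mod_cast hτ
  obtain ⟨i0, hi0⟩ := hmod fun _ => 0
  set M : ℚ := (Fintype.card I : ℚ) with hM
  have hMpos : 0 < M := by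
    have h0 : 0 < Fintype.card I := Fintype.card_pos_iff.2 ⟨i0⟩
    rw [hM]
    exact_mod_cast h0
  rw [mem_hcone_iff] at hy
  rcases hy with ⟨-, hy2⟩ | ⟨hr, hy⟩
  · exfalso
    have h1 : (n : ℚ) = θ := by linarith
    have h2 : (0 : ℤ) < n := by exact_mod_cast h1 ▸ hθ
    have h3 : (n : ℚ) ≤ 1 / 2 := h1 ▸ hθ1
    have h4 : (1 : ℚ) ≤ n := by exact_mod_cast h2
    linarith
  obtain ⟨ι, hι, z, w, hz, hind, hw, hw1, hwz⟩ := eq_pos_convex_span_of_mem_convexHull hy
  have hcardι : Fintype.card ι ≤ e + 1 := by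
    have := hind.card_le_finrank_succ
    refine this.trans ?_
    have h2 : Module.finrank ℚ (vectorSpan ℚ (Set.range z)) ≤ Module.finrank ℚ (Fin e → ℚ) :=
      Submodule.finrank_le _
    simp at h2
    omega
  have hz' : ∀ i, ∃ x ∈ S, toQ x = z i := fun i => by
    obtain ⟨x, hx, h⟩ := hz ⟨i, rfl⟩
    exact ⟨x, hx, h⟩
  choose x hxS hxz using hz'
  set r : ℚ := n - θ with hrdef
  set lam : ι → ℚ := fun i => r * w i with hlam
  have hlam0 : ∀ i, 0 < lam i := fun i => mul_pos hr (hw i)
  have hlamsum : ∑ i, lam i = r := by rw [hlam, ← Finset.mul_sum, hw1, mul_one]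
  have hlamvec : ∑ i, lam i • toQ (x i) = toQ y - θ • bary p := by
    have : ∑ i, lam i • toQ (x i) = r • ∑ i, w i • z i := by
      rw [Finset.smul_sum]
      refine Finset.sum_congr rfl fun i _ => ?_
      rw [hxz, hlam, smul_smul]
    rw [this, hwz, smul_smul, mul_inv_cancel₀ hr.ne', one_smul]
  -- subtract integer parts
  set y' : Fin e → ℤ := y - ∑ i, ⌊lam i⌋ • x i with hy'
  set n' : ℤ := n - ∑ i, ⌊lam i⌋ with hn'
  set fr : ι → ℚ := fun i => Int.fract (lam i) with hfr
  have hfr0 : ∀ i, 0 ≤ fr i := fun i => Int.fract_nonneg _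
  have hfr1 : ∀ i, fr i < 1 := fun i => Int.fract_lt_one _
  have hn'Q : (n' : ℚ) = θ + ∑ i, fr i := by
    have : ∑ i, fr i = ∑ i, lam i - ∑ i, (⌊lam i⌋ : ℚ) := by
      rw [← Finset.sum_sub_distrib]
      exact Finset.sum_congr rfl fun i _ => rfl
    rw [this, hlamsum, hn']
    push_cast
    rw [hrdef]
    ring
  have hy'Q : toQ y' = θ • bary p + ∑ i, fr i • toQ (x i) := by
    have : ∑ i, fr i • toQ (x i) = ∑ i, lam i • toQ (x i) - ∑ i, (⌊lam i⌋ : ℚ) • toQ (x i) := by
      rw [← Finset.sum_sub_distrib]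
      exact Finset.sum_congr rfl fun i _ => by rw [← sub_smul]; rfl
    rw [this, hlamvec]
    ext j
    simp only [hy', toQ_apply, Pi.sub_apply, Finset.sum_apply, Pi.smul_apply, smul_eq_mul,
      Int.cast_sub, Int.cast_sum, Int.cast_mul, Pi.add_apply]
    ring
  have hfloor : ∀ i, 0 ≤ ⌊lam i⌋ := fun i => Int.floor_nonneg.mpr (hlam0 i).le
  suffices h : (y', n') ∈ hmon S by
    have h2 : (∑ i, ⌊lam i⌋ • x i, ∑ i, ⌊lam i⌋) ∈ hmon S := by
      have : (∑ i, ⌊lam i⌋ • x i, ∑ i, ⌊lam i⌋) =
          ∑ i, (⌊lam i⌋.toNat) • ((x i, (1 : ℤ)) : (Fin e → ℤ) × ℤ) := by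
        ext j
        · simp only [Finset.sum_apply, Prod.fst_sum, Prod.smul_fst, Pi.smul_apply]
          refine Finset.sum_congr rfl fun i _ => ?_
          rw [← natCast_zsmul, Int.toNat_of_nonneg (hfloor i)]
        · simp only [Prod.snd_sum, Prod.smul_snd]
          refine Finset.sum_congr rfl fun i _ => ?_
          rw [← natCast_zsmul, Int.toNat_of_nonneg (hfloor i)]
          simp
      rw [this]
      exact sum_mem fun i _ => nsmul_mem (gen_mem (hxS i)) _
    have h3 := add_mem h h2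
    have : (y, n) = (y', n') + (∑ i, ⌊lam i⌋ • x i, ∑ i, ⌊lam i⌋) := by
      rw [hy', hn']; simp
    rw [this]; exact h3
  have hn'pos : 0 < n' := by
    have : (0 : ℚ) < n' := by rw [hn'Q]; have := Finset.sum_nonneg fun i (_ : i ∈ Finset.univ) => hfr0 i; linarith
    exact_mod_cast this
  have hn'le : n' ≤ e + 1 := by
    have h1 : ∑ i, fr i ≤ Fintype.card ι := by
      have := Finset.sum_le_sum fun i (_ : i ∈ (Finset.univ : Finset ι)) => (hfr1 i).le
      simpa using this
    have h2 : (Fintype.card ι : ℚ) ≤ e + 1 := by exact_mod_cast hcardι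
    have h3 : (n' : ℚ) < e + 1 + 1 := by rw [hn'Q]; linarith
    have h4 : n' < e + 1 + 1 := by exact_mod_cast h3
    omega
  have hn'Qpos : (0 : ℚ) < n' := by exact_mod_cast hn'pos
  have hn'Qle : (n' : ℚ) ≤ e + 1 := by exact_mod_cast hn'le
  -- combination over all points
  let J := I ⊕ ι
  let X : J → Fin e → ℤ := Sum.elim p x
  have hX : ∀ j, X j ∈ S := by rintro (s | i); exacts [hp s, hxS i]
  let W : J → ℚ := Sum.elim (fun _ => θ / M) fr
  have hWsum : ∑ j, W j = n' := by
    rw [Fintype.sum_sum_type, hn'Q]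
    simp only [W, Sum.elim_inl, Sum.elim_inr, Finset.sum_const, Finset.card_univ, nsmul_eq_mul]
    rw [← hM]
    field_simp
  have hWvec : ∑ j, W j • toQ (X j) = toQ y' := by
    rw [Fintype.sum_sum_type, hy'Q]
    simp only [W, X, Sum.elim_inl, Sum.elim_inr]
    congr 1
    rw [← Finset.smul_sum, bary, smul_smul, div_eq_mul_inv]
  have hW0 : ∀ j, 0 ≤ W j := by
    rintro (s | i)
    · simp only [W, Sum.elim_inl]; positivity
    · exact hfr0 i
  -- general perturbation
  have hpert : ∀ (s t : I) (c : ℚ), 0 ≤ c → c ≤ θ / M →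
      ((n' : ℚ))⁻¹ • (toQ y' + c • (toQ (p s) - toQ (p t))) ∈ convexHull ℚ (toQ '' S) := by
    intro s t c hc0 hc
    let W' : J → ℚ := fun j => W j + c * (if j = Sum.inl s then 1 else 0)
      - c * (if j = Sum.inl t then 1 else 0)
    have hW'0 : ∀ j, 0 ≤ W' j := by
      intro j
      simp only [W']
      by_cases h1 : j = Sum.inl t
      · subst h1
        have : W (Sum.inl t) = θ / M := rfl
        rw [this]
        simp only [if_true]
        split_ifs <;> nlinarith
      · simp only [h1, if_false, mul_zero, sub_zero]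
        have := hW0 j
        split_ifs <;> nlinarith
    have hW'sum : ∑ j, W' j = n' := by
      have h0 : ∀ t : I,
          ∑ j : J, (if j = Sum.inl t then (1 : ℚ) else 0) = 1 := by
        intro t
        rw [Finset.sum_eq_single (Sum.inl t)]
        · simp
        · intro b _ hb
          simp [hb]
        · simp
      simp only [W', Finset.sum_sub_distrib, Finset.sum_add_distrib, ← Finset.mul_sum, hWsum, h0]
      ring
    have hW'vec : ∑ j, W' j • toQ (X j) = toQ y' + c • (toQ (p s) - toQ (p t)) := by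
      have h1 : ∀ t : I,
          ∑ j : J, (c * (if j = Sum.inl t then (1 : ℚ) else 0)) • toQ (X j) = c • toQ (p t) := by
        intro t
        rw [Finset.sum_eq_single (Sum.inl t)]
        · simp [X]
        · intro b _ hb
          simp [hb]
        · simp
      simp only [W', sub_smul, add_smul, Finset.sum_sub_distrib, Finset.sum_add_distrib, hWvec, h1,
        smul_sub]
      abel
    have := combo_mem S X hX W' hW'0 (by rw [hW'sum]; exact hn'Qpos)
    rwa [hW'sum, hW'vec] at this
  by_cases hn1 : n' = 1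
  · have h1 := hpert i0 i0 0 le_rfl (by positivity)
    rw [hn1] at h1 ⊢
    have : y' ∈ S := hS _ (by simpa using h1)
    exact gen_mem this
  have hn2 : 2 ≤ n' := by omega
  -- n' divides k
  have hdvd : n' ∣ (k : ℤ) := by
    have : n'.toNat ∣ k := hkdvd _ (by omega) (by omega)
    have h2 := Int.natCast_dvd_natCast.mpr this
    rwa [Int.toNat_of_nonneg hn'pos.le] at h2
  obtain ⟨m, hm⟩ := hdvd
  have hmQ : (k : ℚ) = n' * m := by exact_mod_cast hm
  have hkZ : (0 : ℤ) < k := by exact_mod_cast hk0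
  -- choice of s
  let s : Fin e → Fin k := fun i =>
    ⟨((-(m * y' i)) % (k : ℤ)).toNat, by
      have h1 := Int.emod_lt_of_pos (-(m * y' i)) hkZ
      have h2 := Int.emod_nonneg (-(m * y' i)) hkZ.ne'
      omega⟩
  have hs : ∀ i, ((s i : ℕ) : ℤ) = (-(m * y' i)) % (k : ℤ) := fun i => by
    simp only [s]
    exact Int.toNat_of_nonneg (Int.emod_nonneg _ hkZ.ne')
  obtain ⟨is, his⟩ := hmod s
  choose ms hms using his
  choose m0 hm0 using hi0
  -- the integral point z
  have hex : ∀ i, ∃ a : ℤ, (a : ℚ) = ((n' : ℚ))⁻¹ * y' i + ((p is i : ℚ) - p i0 i) / (τ * k) := by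
    intro i
    refine ⟨-((-(m * y' i)) / (k : ℤ)) + ms i - m0 i, ?_⟩
    have h1 : (-(m * y' i)) / (k : ℤ) * k + (-(m * y' i)) % (k : ℤ) = -(m * y' i) :=
      Int.ediv_mul_add_emod _ _
    rw [← hs] at h1
    have h1Q : ((((-(m * y' i)) / (k : ℤ) : ℤ)) : ℚ) * k + ((s i : ℕ) : ℚ) = -(m * y' i) := by
      exact_mod_cast h1
    have h2 : (p is i : ℚ) = τ * ((s i : ℕ) : ℚ) + τ * k * ms i := by
      have := hms i
      rw [this]; push_cast; ring
    have h3 : (p i0 i : ℚ) = τ * k * m0 i := by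
      have := hm0 i
      rw [this]; push_cast; simp
    rw [h2, h3]
    have hmne : (m : ℚ) ≠ 0 := by
      rintro h0
      rw [h0, mul_zero] at hmQ
      exact hkQ.ne' hmQ
    have h4 : ((n' : ℚ))⁻¹ = m / k := by
      rw [hmQ]; field_simp
    rw [h4]
    push_cast
    have h5 : ((s i : ℕ) : ℚ) = -(m * y' i) - ((((-(m * y' i)) / (k : ℤ) : ℤ)) : ℚ) * k := by
      linarith
    rw [h5]
    field_simp
    ring
  choose zz hzz using hex
  have hzzQ : toQ zz = ((n' : ℚ))⁻¹ • (toQ y' + ((n' : ℚ) / (τ * k)) • (toQ (p is) - toQ (p i0))) := by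
    ext i
    simp only [toQ_apply, Pi.smul_apply, Pi.add_apply, Pi.sub_apply, smul_eq_mul]
    rw [hzz]
    field_simp
  have he0 : (0 : ℚ) ≤ e := by positivity
  have hbd1 : (n' : ℚ) / (τ * k) ≤ θ / M := by
    rw [div_le_div_iff₀ (by positivity) hMpos]
    have h1 : (n' : ℚ) * M ≤ (e + 1) * (e + 1) * M := by
      have : (n' : ℚ) ≤ (e + 1) * (e + 1) := by nlinarith
      exact mul_le_mul_of_nonneg_right this hMpos.le
    nlinarith
  have hbd2 : (n' : ℚ) * (n' - 1) / (τ * k) ≤ θ / M := by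
    rw [div_le_div_iff₀ (by positivity) hMpos]
    have h1 : (n' : ℚ) * (n' - 1) * M ≤ (e + 1) * (e + 1) * M := by
      have : (n' : ℚ) * (n' - 1) ≤ (e + 1) * (e + 1) := by nlinarith
      exact mul_le_mul_of_nonneg_right this hMpos.le
    nlinarith
  have hzS : zz ∈ S := by
    refine hS _ ?_
    rw [hzzQ]
    exact hpert is _ _ (by positivity) hbd1
  have hn'2Q : (2 : ℚ) ≤ n' := by exact_mod_cast hn2
  have hz2S : y' - (n' - 1) • zz ∈ S := by
    refine hS _ ?_
    have h1 := hpert i0 is ((n' : ℚ) * (n' - 1) / (τ * k))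
      (div_nonneg (mul_nonneg hn'Qpos.le (by linarith)) (by positivity)) hbd2
    convert h1 using 1
    ext i
    simp only [toQ_apply, Pi.smul_apply, Pi.add_apply, Pi.sub_apply, smul_eq_mul]
    push_cast
    rw [hzz]
    field_simp
    ring
  have hfin : ((y', n') : (Fin e → ℤ) × ℤ) =
      (n' - 1).toNat • ((zz, (1 : ℤ)) : (Fin e → ℤ) × ℤ) + (y' - (n' - 1) • zz, 1) := by
    have h0 : ((n' - 1).toNat : ℤ) = n' - 1 := Int.toNat_of_nonneg (by omega)
    ext i
    · simp only [Prod.fst_add, Prod.smul_fst, Pi.add_apply, Pi.smul_apply, Pi.sub_apply]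
      rw [← natCast_zsmul, h0]
      simp
    · simp only [Prod.snd_add, Prod.smul_snd]
      rw [← natCast_zsmul, h0]
      simp
  rw [hfin]
  exact add_mem (nsmul_mem (gen_mem hzS) _) (gen_mem hz2S)

end Pool.Agent.MonFPT
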