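import Pool.Agent.MonFPT.MainStep

/-!
# Thick pieces are harmless: general modulus and general families of points

The family `p : I → ℤ^e` contains points in all the residue classes `τ s` modulo `τ K`, where `K` is
a multiple of `(e + 1)!`.
-/

set_option autoImplicit false

namespace Pool.Agent.MonFPT

/-- The barycentre of the points `p s`. -/
def cenI {e : ℕ} {I : Type} [Fintype I] (p : I → Fin e → ℤ) : Fin e → ℚ :=
  ((Fintype.card I : ℚ))⁻¹ • ∑ s, toQ (p s)

theorem lemmaI {e : ℕ} (S : Set (Fin e → ℤ)) (hS : IsConv S) (K : ℕ) (hK0 : 0 < K)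
    (hK : (e + 1).factorial ∣ K) (τ : ℕ) (hτ : 0 < τ) (θ : ℚ)
    (hθ : 0 < θ) (hθ1 : θ ≤ 1 / 2) {I : Type} [Fintype I] (p : I → Fin e → ℤ)
    (hp : ∀ s, p s ∈ S)
    (hmod : ∀ s : Fin e → Fin K, ∃ t : I, ∀ i, ∃ m : ℤ, p t i = τ * s i + τ * K * m)
    (hbig : (e + 1 : ℚ) * (e + 1) * (Fintype.card I : ℚ) ≤ τ * K * θ)
    (y : Fin e → ℤ) (n : ℤ) (hy : (toQ y - θ • cenI p, (n : ℚ) - θ) ∈ hcone S) :
    (y, n) ∈ hmon S := by
  classical
  have : NeZero K := ⟨hK0.ne'⟩
  have hkQ : (0 : ℚ) < K := by exact_mod_cast hK0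
  have hτQ : (0 : ℚ) < τ := by exact_mod_cast hτ
  obtain ⟨t0, ht0⟩ := hmod fun _ => 0
  have : Nonempty I := ⟨t0⟩
  set M : ℚ := (Fintype.card I : ℚ) with hM
  have hMpos : 0 < M := by
    have := Fintype.card_pos (α := I)
    rw [hM]
    exact_mod_cast this
  have hcard : (Fintype.card I : ℚ) = M := rfl
  rw [mem_hcone_iff] at hy
  rcases hy with ⟨-, hy2⟩ | ⟨hr, hy⟩
  · exfalso
    have h1 : (n : ℚ) = θ := by linarith
    have h2 : (0 : ℤ) < n := by exact_mod_cast h1 ▸ hθ
    have h3 : (n : ℚ) ≤ 1 / 2 := h1 ▸ hθ1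
    have h4 : (1 : ℚ) ≤ n := by exact_mod_cast h2
    linarith
  obtain ⟨ι, hι, z, w, hz, hind, hw, hw1, hwz⟩ := eq_pos_convex_span_of_mem_convexHull hy
  have hcardι : Fintype.card ι ≤ e + 1 := by
    have := hind.card_le_finrank_succ
    refine this.trans ?_
    have h2 : Module.finrank ℚ (vectorSpan ℚ (Set.range z)) ≤ Module.finrank ℚ (Fin e → ℚ) :=
      Submodule.finrank_le _
    simp at h2
    omega
  have hz' : ∀ i, ∃ x ∈ S, toQ x = z i := fun i => by
    obtain ⟨x, hx, h⟩ := hz ⟨i, rfl⟩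
    exact ⟨x, hx, h⟩
  choose x hxS hxz using hz'
  set r : ℚ := n - θ with hrdef
  set lam : ι → ℚ := fun i => r * w i with hlam
  have hlam0 : ∀ i, 0 < lam i := fun i => mul_pos hr (hw i)
  have hlamsum : ∑ i, lam i = r := by rw [hlam, ← Finset.mul_sum, hw1, mul_one]
  have hlamvec : ∑ i, lam i • toQ (x i) = toQ y - θ • cenI p := by
    have : ∑ i, lam i • toQ (x i) = r • ∑ i, w i • z i := by
      rw [Finset.smul_sum]
      refine Finset.sum_congr rfl fun i _ => ?_
      rw [hxz, hlam, smul_smul]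
    rw [this, hwz, smul_smul, mul_inv_cancel₀ hr.ne', one_smul]
  -- subtract integer parts
  set y' : Fin e → ℤ := y - ∑ i, ⌊lam i⌋ • x i with hy'
  set n' : ℤ := n - ∑ i, ⌊lam i⌋ with hn'
  set fr : ι → ℚ := fun i => Int.fract (lam i) with hfr
  have hfr0 : ∀ i, 0 ≤ fr i := fun i => Int.fract_nonneg _
  have hfr1 : ∀ i, fr i < 1 := fun i => Int.fract_lt_one _
  have hn'Q : (n' : ℚ) = θ + ∑ i, fr i := by
    have : ∑ i, fr i = ∑ i, lam i - ∑ i, (⌊lam i⌋ : ℚ) := by
      rw [← Finset.sum_sub_distrib]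
      exact Finset.sum_congr rfl fun i _ => rfl
    rw [this, hlamsum, hn']
    push_cast
    rw [hrdef]
    ring
  have hy'Q : toQ y' = θ • cenI p + ∑ i, fr i • toQ (x i) := by
    have : ∑ i, fr i • toQ (x i) = ∑ i, lam i • toQ (x i) - ∑ i, (⌊lam i⌋ : ℚ) • toQ (x i) := by
      rw [← Finset.sum_sub_distrib]
      exact Finset.sum_congr rfl fun i _ => by rw [← sub_smul]; rfl
    rw [this, hlamvec]
    ext j
    simp only [hy', toQ_apply, Pi.sub_apply, Finset.sum_apply, Pi.smul_apply, smul_eq_mul,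
      Int.cast_sub, Int.cast_sum, Int.cast_mul, Pi.add_apply]
    ring
  have hfloor : ∀ i, 0 ≤ ⌊lam i⌋ := fun i => Int.floor_nonneg.mpr (hlam0 i).le
  suffices h : (y', n') ∈ hmon S by
    have h2 : (∑ i, ⌊lam i⌋ • x i, ∑ i, ⌊lam i⌋) ∈ hmon S := by
      have : (∑ i, ⌊lam i⌋ • x i, ∑ i, ⌊lam i⌋) =
          ∑ i, (⌊lam i⌋.toNat) • ((x i, (1 : ℤ)) : (Fin e → ℤ) × ℤ) := by
        ext j
        · simp only [Finset.sum_apply, Prod.fst_sum, Prod.smul_fst, Pi.smul_apply]
          refine Finset.sum_congr rfl fun i _ => ?_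
          rw [← natCast_zsmul, Int.toNat_of_nonneg (hfloor i)]
        · simp only [Prod.snd_sum, Prod.smul_snd]
          refine Finset.sum_congr rfl fun i _ => ?_
          rw [← natCast_zsmul, Int.toNat_of_nonneg (hfloor i)]
          simp
      rw [this]
      exact sum_mem fun i _ => nsmul_mem (gen_mem (hxS i)) _
    have h3 := add_mem h h2
    have : (y, n) = (y', n') + (∑ i, ⌊lam i⌋ • x i, ∑ i, ⌊lam i⌋) := by
      rw [hy', hn']; simp
    rw [this]; exact h3
  have hn'pos : 0 < n' := by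
    have : (0 : ℚ) < n' := by rw [hn'Q]; have := Finset.sum_nonneg fun i (_ : i ∈ Finset.univ) => hfr0 i; linarith
    exact_mod_cast this
  have hn'le : n' ≤ e + 1 := by
    have h1 : ∑ i, fr i ≤ Fintype.card ι := by
      have := Finset.sum_le_sum fun i (_ : i ∈ (Finset.univ : Finset ι)) => (hfr1 i).le
      simpa using this
    have h2 : (Fintype.card ι : ℚ) ≤ e + 1 := by exact_mod_cast hcardι
    have h3 : (n' : ℚ) < e + 1 + 1 := by rw [hn'Q]; linarith
    have h4 : n' < e + 1 + 1 := by exact_mod_cast h3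
    omega
  have hn'Qpos : (0 : ℚ) < n' := by exact_mod_cast hn'pos
  have hn'Qle : (n' : ℚ) ≤ e + 1 := by exact_mod_cast hn'le
  -- combination over all points
  let J := I ⊕ ι
  let X : J → Fin e → ℤ := Sum.elim p x
  have hX : ∀ j, X j ∈ S := by rintro (s | i); exacts [hp s, hxS i]
  let W : J → ℚ := Sum.elim (fun _ => θ / M) fr
  have hWsum : ∑ j, W j = n' := by
    rw [Fintype.sum_sum_type, hn'Q]
    simp only [W, Sum.elim_inl, Sum.elim_inr, Finset.sum_const, Finset.card_univ, nsmul_eq_mul]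
    rw [hcard]
    field_simp
  have hWvec : ∑ j, W j • toQ (X j) = toQ y' := by
    rw [Fintype.sum_sum_type, hy'Q]
    simp only [W, X, Sum.elim_inl, Sum.elim_inr]
    congr 1
    rw [← Finset.smul_sum, cenI, smul_smul, div_eq_mul_inv]
  have hW0 : ∀ j, 0 ≤ W j := by
    rintro (s | i)
    · simp only [W, Sum.elim_inl]; positivity
    · exact hfr0 i
  -- general perturbation
  have hpert : ∀ (s t : I) (c : ℚ), 0 ≤ c → c ≤ θ / M →
      ((n' : ℚ))⁻¹ • (toQ y' + c • (toQ (p s) - toQ (p t))) ∈ convexHull ℚ (toQ '' S) := by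
    intro s t c hc0 hc
    let W' : J → ℚ := fun j => W j + c * (if j = Sum.inl s then 1 else 0)
      - c * (if j = Sum.inl t then 1 else 0)
    have hW'0 : ∀ j, 0 ≤ W' j := by
      intro j
      simp only [W']
      by_cases h1 : j = Sum.inl t
      · subst h1
        have : W (Sum.inl t) = θ / M := rfl
        rw [this]
        simp only [if_true]
        split_ifs <;> nlinarith
      · simp only [h1, if_false, mul_zero, sub_zero]
        have := hW0 j
        split_ifs <;> nlinarith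
    have hW'sum : ∑ j, W' j = n' := by
      have h0 : ∀ t : I,
          ∑ j : J, (if j = Sum.inl t then (1 : ℚ) else 0) = 1 := by
        intro t
        rw [Finset.sum_eq_single (Sum.inl t)]
        · simp
        · intro b _ hb
          simp [hb]
        · simp
      simp only [W', Finset.sum_sub_distrib, Finset.sum_add_distrib, ← Finset.mul_sum, hWsum, h0]
      ring
    have hW'vec : ∑ j, W' j • toQ (X j) = toQ y' + c • (toQ (p s) - toQ (p t)) := by
      have h1 : ∀ t : I,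
          ∑ j : J, (c * (if j = Sum.inl t then (1 : ℚ) else 0)) • toQ (X j) = c • toQ (p t) := by
        intro t
        rw [Finset.sum_eq_single (Sum.inl t)]
        · simp [X]
        · intro b _ hb
          simp [hb]
        · simp
      simp only [W', sub_smul, add_smul, Finset.sum_sub_distrib, Finset.sum_add_distrib, hWvec, h1,
        smul_sub]
      abel
    have := combo_mem S X hX W' hW'0 (by rw [hW'sum]; exact hn'Qpos)
    rwa [hW'sum, hW'vec] at this
  by_cases hn1 : n' = 1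
  · have h1 := hpert t0 t0 0 le_rfl (by positivity)
    rw [hn1] at h1 ⊢
    have : y' ∈ S := hS _ (by simpa using h1)
    exact gen_mem this
  have hn2 : 2 ≤ n' := by omega
  -- n' divides k
  have hdvd : n' ∣ (K : ℤ) := by
    have : n'.toNat ∣ K := (Nat.dvd_factorial (by omega) (by omega)).trans hK
    have h2 := Int.natCast_dvd_natCast.mpr this
    rwa [Int.toNat_of_nonneg hn'pos.le] at h2
  obtain ⟨m, hm⟩ := hdvd
  have hmQ : (K : ℚ) = n' * m := by exact_mod_cast hm
  have hkZ : (0 : ℤ) < K := by exact_mod_cast hK0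
  -- choice of s
  let s : Fin e → Fin (K) := fun i =>
    ⟨((-(m * y' i)) % (K : ℤ)).toNat, by
      have h1 := Int.emod_lt_of_pos (-(m * y' i)) hkZ
      have h2 := Int.emod_nonneg (-(m * y' i)) hkZ.ne'
      omega⟩
  have hs : ∀ i, ((s i : ℕ) : ℤ) = (-(m * y' i)) % (K : ℤ) := fun i => by
    simp only [s]
    exact Int.toNat_of_nonneg (Int.emod_nonneg _ hkZ.ne')
  obtain ⟨t, ht⟩ := hmod s
  choose ms hms using ht
  choose m0 hm0 using ht0
  -- the integral point z
  have hex : ∀ i, ∃ a : ℤ, (a : ℚ) = ((n' : ℚ))⁻¹ * y' i + ((p t i : ℚ) - p t0 i) / (τ * K) := by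
    intro i
    refine ⟨-((-(m * y' i)) / (K : ℤ)) + ms i - m0 i, ?_⟩
    have h1 : (-(m * y' i)) / (K : ℤ) * K + (-(m * y' i)) % (K : ℤ) = -(m * y' i) :=
      Int.ediv_mul_add_emod _ _
    rw [← hs] at h1
    have h1Q : ((((-(m * y' i)) / (K : ℤ) : ℤ)) : ℚ) * K + ((s i : ℕ) : ℚ) = -(m * y' i) := by
      exact_mod_cast h1
    have h2 : (p t i : ℚ) = τ * ((s i : ℕ) : ℚ) + τ * K * ms i := by
      have := hms i
      rw [this]; push_cast; ring
    have h3 : (p t0 i : ℚ) = τ * K * m0 i := by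
      have := hm0 i
      rw [this]; push_cast; simp
    rw [h2, h3]
    have hmne : (m : ℚ) ≠ 0 := by
      rintro h0
      rw [h0, mul_zero] at hmQ
      exact hkQ.ne' hmQ
    have h4 : ((n' : ℚ))⁻¹ = m / K := by
      rw [hmQ]; field_simp
    rw [h4]
    push_cast
    have h5 : ((s i : ℕ) : ℚ) = -(m * y' i) - ((((-(m * y' i)) / (K : ℤ) : ℤ)) : ℚ) * K := by
      linarith
    rw [h5]
    field_simp
    ring
  choose zz hzz using hex
  have hzzQ : toQ zz = ((n' : ℚ))⁻¹ • (toQ y' + ((n' : ℚ) / (τ * K)) • (toQ (p t) - toQ (p t0))) := by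
    ext i
    simp only [toQ_apply, Pi.smul_apply, Pi.add_apply, Pi.sub_apply, smul_eq_mul]
    rw [hzz]
    field_simp
  have he0 : (0 : ℚ) ≤ e := by positivity
  have hbd1 : (n' : ℚ) / (τ * K) ≤ θ / M := by
    rw [div_le_div_iff₀ (by positivity) hMpos]
    have h1 : (n' : ℚ) * M ≤ (e + 1) * (e + 1) * M := by
      have : (n' : ℚ) ≤ (e + 1) * (e + 1) := by nlinarith
      exact mul_le_mul_of_nonneg_right this hMpos.le
    nlinarith
  have hbd2 : (n' : ℚ) * (n' - 1) / (τ * K) ≤ θ / M := by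
    rw [div_le_div_iff₀ (by positivity) hMpos]
    have h1 : (n' : ℚ) * (n' - 1) * M ≤ (e + 1) * (e + 1) * M := by
      have : (n' : ℚ) * (n' - 1) ≤ (e + 1) * (e + 1) := by nlinarith
      exact mul_le_mul_of_nonneg_right this hMpos.le
    nlinarith
  have hzS : zz ∈ S := by
    refine hS _ ?_
    rw [hzzQ]
    exact hpert t _ _ (by positivity) hbd1
  have hn'2Q : (2 : ℚ) ≤ n' := by exact_mod_cast hn2
  have hz2S : y' - (n' - 1) • zz ∈ S := by
    refine hS _ ?_
    have h1 := hpert t0 t ((n' : ℚ) * (n' - 1) / (τ * K))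
      (div_nonneg (mul_nonneg hn'Qpos.le (by linarith)) (by positivity)) hbd2
    convert h1 using 1
    ext i
    simp only [toQ_apply, Pi.smul_apply, Pi.add_apply, Pi.sub_apply, smul_eq_mul]
    push_cast
    rw [hzz]
    field_simp
    ring
  have hfin : ((y', n') : (Fin e → ℤ) × ℤ) =
      (n' - 1).toNat • ((zz, (1 : ℤ)) : (Fin e → ℤ) × ℤ) + (y' - (n' - 1) • zz, 1) := by
    have h0 : ((n' - 1).toNat : ℤ) = n' - 1 := Int.toNat_of_nonneg (by omega)
    ext i
    · simp only [Prod.fst_add, Prod.smul_fst, Pi.add_apply, Pi.smul_apply, Pi.sub_apply]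
      rw [← natCast_zsmul, h0]
      simp
    · simp only [Prod.snd_add, Prod.smul_snd]
      rw [← natCast_zsmul, h0]
      simp
  rw [hfin]
  exact add_mem (nsmul_mem (gen_mem hzS) _) (gen_mem hz2S)

end Pool.Agent.MonFPT
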