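import Pool.Agent.MonFPT.Usable
import Pool.Agent.MonFPT.LemmaA
import Pool.Agent.MonFPT.Few
import Pool.Agent.MonFPT.Chart

/-!
# The main algorithm: mathematics of the two steps

Pieces `j` with coordinates `x : Fin (e j) → ℤ`; `φ j` maps the piece into `ℤ^d` (where the set `S`
lives), `ψ j` maps it to its column in `ℤ^D`; `t` is the target.
-/

set_option autoImplicit false

namespace Pool.Agent.MonFPT

open Matrix

/-- the homogeneous linear extension `(z, r) ↦ r base + cols z`, over `ℚ` -/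
def Chart.lin {n m : ℕ} (c : Chart n m) : (Fin m → ℚ) × ℚ →ₗ[ℚ] (Fin n → ℚ) where
  toFun z := z.2 • toQ c.base + castQ c.cols *ᵥ z.1
  map_add' a b := by
    simp only [Prod.fst_add, Prod.snd_add, add_smul, mulVec_add]; abel
  map_smul' r a := by
    simp only [Prod.smul_fst, Prod.smul_snd, smul_eq_mul, mul_smul, mulVec_smul, smul_add,
      RingHom.id_apply]

lemma castQ_mulVec_toQ {n m : ℕ} (A : Matrix (Fin n) (Fin m) ℤ) (z : Fin m → ℤ) :
    castQ A *ᵥ toQ z = toQ (A *ᵥ z) := by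
  funext i
  simp only [mulVec, dotProduct, castQ, Matrix.map_apply, toQ_apply]
  push_cast; rfl

lemma toQ_add {n : ℕ} (a b : Fin n → ℤ) : toQ (a + b) = toQ a + toQ b := by
  funext i; simp

lemma toQ_injective {n : ℕ} : Function.Injective (toQ (e := n)) := by
  intro a b h
  funext i
  have := congrFun h i
  simp only [toQ_apply] at this
  exact_mod_cast this

lemma Chart.lin_one {n m : ℕ} (c : Chart n m) (z : Fin m → ℤ) :
    c.lin (toQ z, 1) = toQ (c.pt z) := by
  change (1 : ℚ) • toQ c.base + castQ c.cols *ᵥ toQ z = _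
  rw [one_smul, castQ_mulVec_toQ, Chart.pt, toQ_add]

section

variable {d D : ℕ} (S : Set (Fin d → ℤ)) {J : Type} [Fintype J] [DecidableEq J] (e : J → ℕ)
  (φ : ∀ j, Chart d (e j)) (ψ : ∀ j, Chart D (e j)) (t : Fin D → ℤ)

/-- The points of the piece `j` (in its own coordinates). -/
def pset (j : J) : Set (Fin (e j) → ℤ) := {x | (φ j).pt x ∈ S}

/-- The generators of the piece `j`. -/
def pgen (j : J) : Set ((Fin (e j) → ℚ) × ℚ) := homQ (pset S e φ j)

omit [Fintype J] [DecidableEq J] in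
lemma hull_pgen (j : J) : PointedCone.hull ℚ (pgen S e φ j) = hcone (pset S e φ j) := rfl

/-- The total column map. -/
def Ltot : (∀ j, (Fin (e j) → ℚ) × ℚ) →ₗ[ℚ] (Fin D → ℚ) :=
  ∑ j, (ψ j).lin ∘ₗ LinearMap.proj j

omit [DecidableEq J] in
lemma Ltot_apply (y : ∀ j, (Fin (e j) → ℚ) × ℚ) : Ltot e ψ y = ∑ j, (ψ j).lin (y j) := by
  simp [Ltot]

lemma Ltot_single (j : J) (x : (Fin (e j) → ℚ) × ℚ) :
    Ltot e ψ (Pi.single j x) = (ψ j).lin x := by
  rw [Ltot_apply, Finset.sum_eq_single j]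
  · rw [Pi.single_eq_same]
  · intro i _ hi
    rw [Pi.single_eq_of_ne hi, map_zero]
  · intro h; exact absurd (Finset.mem_univ j) h

/-- The set of all columns. -/
def colset : Set (Fin D → ℤ) := {w | ∃ j, ∃ x ∈ pset S e φ j, w = (ψ j).pt x}

lemma colCone_eq : colCone (pgen S e φ) (Ltot e ψ) =
    PointedCone.hull ℚ (toQ '' colset S e φ ψ) := by
  unfold colCone
  congr 1
  ext w
  constructor
  · rintro ⟨j, _, ⟨x, hx, rfl⟩, rfl⟩
    refine ⟨(ψ j).pt x, ⟨j, x, hx, rfl⟩, ?_⟩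
    rw [Ltot_single]
    exact ((ψ j).lin_one x).symm
  · rintro ⟨_, ⟨j, x, hx, rfl⟩, rfl⟩
    refine ⟨j, _, ⟨x, hx, rfl⟩, ?_⟩
    rw [Ltot_single]
    exact ((ψ j).lin_one x).symm

/-- `x` is usable: the rest of the target is in the cone of the columns. -/
def IsUsable (j : J) (x : Fin (e j) → ℤ) : Prop :=
  toQ (t - (ψ j).pt x) ∈ PointedCone.hull ℚ (toQ '' colset S e φ ψ)

lemma toQ_sub {n : ℕ} (a b : Fin n → ℤ) : toQ (a - b) = toQ a - toQ b := by
  funext i; simp

lemma isUsable_iff (j : J) (x : Fin (e j) → ℤ) :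
    IsUsable S e φ ψ t j x ↔ Usable (pgen S e φ) (Ltot e ψ) (toQ t) j (toQ x, 1) := by
  unfold IsUsable Usable
  rw [colCone_eq, Ltot_single, Chart.lin_one, toQ_sub]

/-- The value of a multiset of points: `(sum, number)`. -/
def mval {m : ℕ} (s : Multiset (Fin m → ℤ)) : (Fin m → ℤ) × ℤ := (s.sum, Multiset.card s)

/-- the cast to rational vectors -/
def cast2 {m : ℕ} (y : (Fin m → ℤ) × ℤ) : (Fin m → ℚ) × ℚ := (toQ y.1, (y.2 : ℚ))

lemma cast2_mval_mem {m : ℕ} (P : Set (Fin m → ℤ)) (s : Multiset (Fin m → ℤ))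
    (hs : ∀ x ∈ s, x ∈ P) : cast2 (mval s) ∈ hcone P := by
  induction s using Multiset.induction_on with
  | empty =>
    have : cast2 (mval (0 : Multiset (Fin m → ℤ))) = 0 := by
      simp only [cast2, mval, Multiset.sum_zero, Multiset.card_zero]
      ext i <;> simp
    rw [this]; exact Submodule.zero_mem _
  | cons a s ih =>
    have h1 : cast2 (mval (a ::ₘ s)) = (toQ a, 1) + cast2 (mval s) := by
      simp only [cast2, mval, Multiset.sum_cons, Multiset.card_cons]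
      ext i
      · simp
      · simp; ring
    rw [h1]
    refine Submodule.add_mem _ ?_ (ih fun x hx => hs x (Multiset.mem_cons_of_mem hx))
    exact Submodule.subset_span ⟨a, hs a (Multiset.mem_cons_self a s), rfl⟩

/-- A solution: multisets of points of the pieces with the right total. -/
structure IsSol (s : ∀ j, Multiset (Fin (e j) → ℤ)) : Prop where
  mem : ∀ j, ∀ x ∈ s j, x ∈ pset S e φ j
  total : Ltot e ψ (fun j => cast2 (mval (s j))) = toQ t

variable {S e φ ψ t}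

omit [DecidableEq J] in
lemma IsSol.rel {s : ∀ j, Multiset (Fin (e j) → ℤ)} (h : IsSol S e φ ψ t s) :
    (fun j => cast2 (mval (s j))) ∈ Rel (fun j => hcone (pset S e φ j)) (Ltot e ψ) (toQ t) :=
  ⟨fun j => cast2_mval_mem _ _ (h.mem j), h.total⟩

/-- Every point used by a solution is usable. -/
lemma IsSol.usable {s : ∀ j, Multiset (Fin (e j) → ℤ)} (h : IsSol S e φ ψ t s) (j : J)
    {x : Fin (e j) → ℤ} (hx : x ∈ s j) : IsUsable S e φ ψ t j x := by
  rw [isUsable_iff, usable_iff]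
  · refine ⟨_, h.rel, ?_⟩
    obtain ⟨s', hs'⟩ := Multiset.exists_cons_of_mem hx
    have h1 : cast2 (mval (s j)) - (toQ x, 1) = cast2 (mval s') := by
      rw [hs']
      simp only [cast2, mval, Multiset.sum_cons, Multiset.card_cons]
      ext i <;> simp
    have h2 := cast2_mval_mem (pset S e φ j) s' fun y hy => h.mem j y (by
      rw [hs']; exact Multiset.mem_cons_of_mem hy)
    rw [← h1] at h2
    exact h2
  · exact Submodule.subset_span ⟨x, h.mem j x hx, rfl⟩

omit [Fintype J] [DecidableEq J] in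
/-- The cut for usable points. -/
lemma usable_cut' (w : Fin D → ℤ) (hw : ∀ c ∈ colset S e φ ψ, 0 ≤ w ⬝ᵥ c) (j : J)
    (x : Fin (e j) → ℤ) (hx : w ⬝ᵥ (t - (ψ j).pt x) < 0) (x' : Fin (e j) → ℤ)
    (hx' : IsUsable S e φ ψ t j x') : w ⬝ᵥ (ψ j).pt x' < w ⬝ᵥ (ψ j).pt x := by
  have h1 : ∀ z ∈ PointedCone.hull ℚ (toQ '' colset S e φ ψ), 0 ≤ toQ w ⬝ᵥ z := by
    intro z hz
    refine Submodule.span_induction ?_ ?_ ?_ ?_ hz
    · rintro _ ⟨c, hc, rfl⟩
      have h2 : toQ w ⬝ᵥ toQ c = ((w ⬝ᵥ c : ℤ) : ℚ) := by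
        simp only [dotProduct, toQ_apply]; push_cast; rfl
      rw [h2]; exact_mod_cast hw c hc
    · simp
    · intro a b _ _ ha hb; rw [dotProduct_add]; exact add_nonneg ha hb
    · rintro ⟨r, hr⟩ a _ ha
      have : toQ w ⬝ᵥ ((⟨r, hr⟩ : {c : ℚ // 0 ≤ c}) • a) = r * (toQ w ⬝ᵥ a) := by
        rw [← smul_eq_mul, ← dotProduct_smul]; rfl
      rw [this]; exact mul_nonneg hr ha
  have h2 := h1 _ hx'
  have h3 : toQ w ⬝ᵥ toQ (t - (ψ j).pt x') = ((w ⬝ᵥ (t - (ψ j).pt x') : ℤ) : ℚ) := by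
    simp only [dotProduct, toQ_apply]; push_cast; rfl
  rw [h3] at h2
  have h4 : 0 ≤ w ⬝ᵥ (t - (ψ j).pt x') := by exact_mod_cast h2
  rw [dotProduct_sub] at hx h4
  linarith

/-- The pieces are convex. -/
lemma isConv_pset (hS : IsConv S) (j : J) : IsConv (pset S e φ j) := by
  intro x hx
  refine hS _ ?_
  -- the affine map `z ↦ base + cols z` over `ℚ`
  have hconv : Convex ℚ {z : Fin (e j) → ℚ | (φ j).lin (z, 1) ∈ convexHull ℚ (toQ '' S)} := by
    intro a ha b hb r s hr hs hrs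
    have h1 : (φ j).lin (r • a + s • b, 1) = r • (φ j).lin (a, 1) + s • (φ j).lin (b, 1) := by
      rw [← map_smul, ← map_smul, ← map_add]
      congr 1
      ext i <;> simp [hrs]
    change (φ j).lin (r • a + s • b, 1) ∈ convexHull ℚ (toQ '' S)
    rw [h1]
    exact (convex_convexHull ℚ _) ha hb hr hs hrs
  have h2 : convexHull ℚ (toQ '' pset S e φ j) ⊆
      {z : Fin (e j) → ℚ | (φ j).lin (z, 1) ∈ convexHull ℚ (toQ '' S)} := by
    refine convexHull_min ?_ hconv
    rintro _ ⟨z, hz, rfl⟩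
    change (φ j).lin (toQ z, 1) ∈ convexHull ℚ (toQ '' S)
    rw [Chart.lin_one]
    exact subset_convexHull ℚ _ ⟨_, hz, rfl⟩
  have h3 := h2 hx
  change (φ j).lin (toQ x, 1) ∈ convexHull ℚ (toQ '' S) at h3
  rwa [Chart.lin_one] at h3

/-- The integral homogeneous extension. -/
def Chart.linZ {n m : ℕ} (c : Chart n m) : (Fin m → ℤ) × ℤ →+ (Fin n → ℤ) where
  toFun z := z.2 • c.base + c.cols *ᵥ z.1
  map_zero' := by simp
  map_add' a b := by
    simp only [Prod.fst_add, Prod.snd_add, add_smul, mulVec_add]; abel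

lemma Chart.linZ_one {n m : ℕ} (c : Chart n m) (z : Fin m → ℤ) : c.linZ (z, 1) = c.pt z := by
  change (1 : ℤ) • c.base + c.cols *ᵥ z = _
  rw [one_smul]; rfl

lemma Chart.lin_cast2 {n m : ℕ} (c : Chart n m) (y : (Fin m → ℤ) × ℤ) :
    c.lin (cast2 y) = toQ (c.linZ y) := by
  change (y.2 : ℚ) • toQ c.base + castQ c.cols *ᵥ toQ y.1 = toQ (y.2 • c.base + c.cols *ᵥ y.1)
  rw [toQ_add, castQ_mulVec_toQ]
  congr 1
  funext i
  simp

/-- **Soundness.** -/
lemma mem_closure_of_hmon (y : ∀ j, (Fin (e j) → ℤ) × ℤ) (hy : ∀ j, y j ∈ hmon (pset S e φ j)) :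
    ∑ j, (φ j).linZ (y j) ∈ AddSubmonoid.closure S := by
  refine AddSubmonoid.sum_mem _ fun j _ => ?_
  have h1 : hmon (pset S e φ j) ≤ (AddSubmonoid.closure S).comap (φ j).linZ := by
    refine (AddSubmonoid.closure_le).2 ?_
    rintro _ ⟨x, hx, rfl⟩
    change (φ j).linZ (x, 1) ∈ AddSubmonoid.closure S
    rw [Chart.linZ_one]
    exact AddSubmonoid.subset_closure hx
  exact h1 (hy j)

end

section step2

variable {d D : ℕ} {S : Set (Fin d → ℤ)} {J : Type} [Fintype J] [DecidableEq J] {e : J → ℕ}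
  {φ : ∀ j, Chart d (e j)} {ψ : ∀ j, Chart D (e j)} {t : Fin D → ℤ}
  {I : J → Type} [∀ j, Fintype (I j)]

/-- The points found in Step 1: usable points in all residue classes. The points `p j i`, `i : I j`,
represent all the residue classes `τ s` modulo `τ k`. -/
structure Found (S : Set (Fin d → ℤ)) (e : J → ℕ) (φ : ∀ j, Chart d (e j))
    (ψ : ∀ j, Chart D (e j)) (t : Fin D → ℤ) (τ k : ℕ)
    (p : ∀ j, I j → Fin (e j) → ℤ) : Prop where
  mem : ∀ j i, p j i ∈ pset S e φ j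
  usable : ∀ j i, IsUsable S e φ ψ t j (p j i)
  mod : ∀ j, ∀ s : Fin (e j) → Fin k, ∃ i : I j, ∀ c, ∃ m : ℤ, p j i c = τ * s c + τ * k * m

/-- The centre of a piece. -/
def center (e : J → ℕ) (p : ∀ j, I j → Fin (e j) → ℤ) (j : J) :
    (Fin (e j) → ℚ) × ℚ := (bary (p j), 1)

omit [Fintype J] [DecidableEq J] in
lemma center_eq (p : ∀ j, I j → Fin (e j) → ℤ) (j : J) [Nonempty (I j)] :
    center e p j =
      ∑ s, (Fintype.card (I j) : ℚ)⁻¹ • ((toQ (p j s), 1) : (Fin (e j) → ℚ) × ℚ) := by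
  have hk : (Fintype.card (I j) : ℚ) ≠ 0 := by
    have : 0 < Fintype.card (I j) := Fintype.card_pos
    positivity
  ext i
  · rw [Prod.fst_sum, Finset.sum_apply]
    simp only [center, bary, Prod.smul_fst, Pi.smul_apply, Finset.sum_apply, Finset.mul_sum,
      smul_eq_mul]
  · rw [Prod.snd_sum]
    simp only [center, Prod.smul_snd, smul_eq_mul, mul_one, Finset.sum_const, Finset.card_univ,
      nsmul_eq_mul]
    exact (mul_inv_cancel₀ hk).symm

/-- The deep points of Step 2. -/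
def DeepS (S : Set (Fin d → ℤ)) (e : J → ℕ) (φ : ∀ j, Chart d (e j))
    (ψ : ∀ j, Chart D (e j)) (t : Fin D → ℤ)
    (p : ∀ j, I j → Fin (e j) → ℤ) (θ : ℚ) :
    Set (∀ j, (Fin (e j) → ℚ) × ℚ) :=
  Deep (fun j => hcone (pset S e φ j)) (Ltot e ψ) (toQ t) θ (center e p)

variable {τ k : ℕ} {p : ∀ j, I j → Fin (e j) → ℤ}

omit [DecidableEq J] in
lemma Found.nonempty (h : Found S e φ ψ t τ k p) (hk : 0 < k) (j : J) : Nonempty (I j) := by
  obtain ⟨i, _⟩ := h.mod j fun _ => ⟨0, hk⟩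
  exact ⟨i⟩

omit [DecidableEq J] in
lemma Found.center_mem (h : Found S e φ ψ t τ k p) (hk : 0 < k) (j : J) :
    center e p j ∈ hcone (pset S e φ j) := by
  have := h.nonempty hk j
  rw [center_eq]
  refine Submodule.sum_mem _ fun s _ => PointedCone.smul_mem _ (by positivity) ?_
  exact Submodule.subset_span ⟨_, h.mem j s, rfl⟩

/-- There is a very deep point. -/
lemma Found.exists_deep [Nonempty J] (h : Found S e φ ψ t τ k p) (hk : 0 < k) (κ : ℕ)
    (hκ : Fintype.card J ≤ κ) :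
    ∃ z, z ∈ DeepS S e φ ψ t p (2 * (1 / (2 * κ))) := by
  have hI := h.nonempty hk
  have hκ0 : (0 : ℚ) < κ := by
    have : 0 < Fintype.card J := Fintype.card_pos
    exact_mod_cast lt_of_lt_of_le this hκ
  have hz : ∀ j s, ∃ z ∈ Rel (fun j => hcone (pset S e φ j)) (Ltot e ψ) (toQ t),
      z j - (toQ (p j s), 1) ∈ hcone (pset S e φ j) := by
    intro j s
    have h1 := h.usable j s
    rw [isUsable_iff, usable_iff] at h1
    · exact h1
    · exact Submodule.subset_span ⟨_, h.mem j s, rfl⟩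
  choose z hz1 hz2 using hz
  obtain ⟨y, hy1, hy2⟩ := exists_center (fun j => hcone (pset S e φ j)) (Ltot e ψ) (toQ t) κ hκ
    (fun j (_ : I j) => (Fintype.card (I j) : ℚ)⁻¹)
    (fun j _ => by positivity)
    (fun j => by
      have hk : (Fintype.card (I j) : ℚ) ≠ 0 := by
        have : 0 < Fintype.card (I j) := Fintype.card_pos
        positivity
      simp only [Finset.sum_const, Finset.card_univ, nsmul_eq_mul]
      exact mul_inv_cancel₀ hk)
    (fun j s => ((toQ (p j s), 1) : (Fin (e j) → ℚ) × ℚ))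
    (fun j s => Submodule.subset_span ⟨_, h.mem j s, rfl⟩) z hz1 hz2
  refine ⟨y, fun j => ?_, hy1.2⟩
  have h3 := hy2 j
  rw [← center_eq] at h3
  have h4 : (2 * (1 / (2 * κ)) : ℚ) = (κ : ℚ)⁻¹ := by field_simp
  rw [h4]
  exact h3

/-- The numerical condition on `τ` (with `M` points). -/
def TauOK (e κ τ k M : ℕ) : Prop := 2 * κ * ((e + 1) * (e + 1) * M) ≤ τ * k

/-- **YES.** An integral deep point is a solution. -/
theorem Found.yes (hS : IsConv S) (h : Found S e φ ψ t τ k p) (hk : 0 < k)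
    (hkdvd : ∀ j m, 0 < m → m ≤ e j + 1 → m ∣ k) (hτ0 : 0 < τ) (κ : ℕ) (hκ : 1 ≤ κ)
    (hτ : ∀ j, TauOK (e j) κ τ k (Fintype.card (I j))) (y : ∀ j, (Fin (e j) → ℤ) × ℤ)
    (hy : (fun j => cast2 (y j)) ∈ DeepS S e φ ψ t p (1 / (2 * κ))) (j : J) :
    y j ∈ hmon (pset S e φ j) := by
  have hκ0 : (1 : ℚ) ≤ κ := by exact_mod_cast hκ
  refine lemmaA hk (hkdvd j) (pset S e φ j) (isConv_pset hS j) τ hτ0 (1 / (2 * κ))
    (by positivity) ?_ (p j) (h.mem j) (h.mod j) ?_ (y j).1 (y j).2 ?_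
  · rw [div_le_div_iff₀ (by positivity) (by norm_num)]
    linarith
  · have h1 := hτ j
    unfold TauOK at h1
    have h2 : (2 * κ * ((e j + 1) * (e j + 1) * (Fintype.card (I j) : ℚ))) ≤ τ * k := by
      exact_mod_cast h1
    rw [mul_one_div, le_div_iff₀ (by positivity)]
    linarith
  · have h1 := hy.1 j
    have h2 : cast2 (y j) - (1 / (2 * κ) : ℚ) • center e p j =
        (toQ (y j).1 - (1 / (2 * κ) : ℚ) • bary (p j), ((y j).2 : ℚ) - 1 / (2 * κ)) := by
      ext i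
      · simp [cast2, center]
      · simp [cast2, center]
    rw [h2] at h1
    exact h1

/-- **Flat.** If the deep points are flat then all points of the relaxation are. -/
theorem Found.flat [Nonempty J] (h : Found S e φ ψ t τ k p) (hk : 0 < k) (κ : ℕ)
    (hκ : Fintype.card J ≤ κ)
    (U : (∀ j, (Fin (e j) → ℚ) × ℚ) →ₗ[ℚ] ℚ) (v G : ℚ)
    (hflat : ∀ y ∈ DeepS S e φ ψ t p (1 / (2 * κ)), |U y - v| ≤ G)
    (s : ∀ j, Multiset (Fin (e j) → ℤ)) (hs : IsSol S e φ ψ t s) :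
    |U (fun j => cast2 (mval (s j))) - v| ≤ 3 * G := by
  obtain ⟨z, hz⟩ := h.exists_deep hk κ hκ
  exact flat_of_Deep_flat _ _ _ _ (by positivity) _ (h.center_mem hk) hz U v G hflat _ hs.rel

/-- The deep part is not empty (so the search cannot report that it is empty). -/
theorem Found.deep_nonempty [Nonempty J] (h : Found S e φ ψ t τ k p) (hk : 0 < k) (κ : ℕ)
    (hκ : Fintype.card J ≤ κ) (s : ∀ j, Multiset (Fin (e j) → ℤ)) (hs : IsSol S e φ ψ t s) :
    ∃ z, z ∈ DeepS S e φ ψ t p (1 / (2 * κ)) := by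
  obtain ⟨z, hz⟩ := h.exists_deep hk κ hκ
  exact ⟨_, mid_mem_Deep _ _ _ _ _ hs.rel hz⟩

end step2

end Pool.Agent.MonFPT
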