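import Mathlib

/-!
# The simplex update of the flatness algorithm

A simplex `v_0, ..., v_n` contains a convex set `K`; a cut `h y ≤ h x` for `y ∈ K` is given, where
the barycentric coordinates of `x` are close to `1/(n+1)`.  The new simplex has the vertices
`v_k` and `v_k + ρ_i (v_i - v_k)`, contains `K` and has a volume smaller by a constant factor.
-/

set_option autoImplicit false

namespace Pool.Agent.MonFPT

/-- A product of factors close to one is close to one plus the sum of the differences. -/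
lemma abs_prod_sub_le {ι : Type} (s : Finset ι) (x : ι → ℚ) :
    ∑ i ∈ s, |x i| ≤ 1 →
      |∏ i ∈ s, (1 + x i) - 1 - ∑ i ∈ s, x i| ≤ (∑ i ∈ s, |x i|) ^ 2 := by
  classical
  induction s using Finset.induction_on with
  | empty => intro _; simp
  | insert a s ha ih =>
    intro h
    rw [Finset.sum_insert ha] at h
    have h1 : ∑ i ∈ s, |x i| ≤ 1 := by linarith [abs_nonneg (x a)]
    have h2 := ih h1
    rw [Finset.prod_insert ha, Finset.sum_insert ha, Finset.sum_insert ha]
    set P := ∏ i ∈ s, (1 + x i) with hP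
    set S := ∑ i ∈ s, x i with hS
    set X := ∑ i ∈ s, |x i| with hX
    have h3 : |S| ≤ X := Finset.abs_sum_le_sum_abs _ _
    have h4 : 0 ≤ X := Finset.sum_nonneg fun i _ => abs_nonneg _
    have h5 : |P - 1| ≤ 2 * X := by
      have h6 : P - 1 = (P - 1 - S) + S := by ring
      rw [h6]
      refine (abs_add_le _ _).trans ?_
      nlinarith
    have h7 : (1 + x a) * P - 1 - (x a + S) = (P - 1 - S) + x a * (P - 1) := by ring
    rw [h7]
    refine (abs_add_le _ _).trans ?_
    rw [abs_mul]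
    have h8 : |x a| * |P - 1| ≤ |x a| * (2 * X) := mul_le_mul_of_nonneg_left h5 (abs_nonneg _)
    nlinarith [sq_nonneg (|x a|), abs_nonneg (x a)]

section contain

variable {ι V : Type} [Fintype ι] [DecidableEq ι] [AddCommGroup V] [Module ℚ V]

/-- **The new simplex contains the cut.**  The vertices of the new simplex are
`v k + ρ i • (v i - v k)`; the value of `ρ k` is irrelevant. -/
theorem update_contains (v : ι → V) (h : V →ₗ[ℚ] ℚ) (c0 : ℚ) (k : ι) (tau : ℚ) (ht : 0 ≤ tau)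
    (ht1 : tau ≤ 1) (hk : h (v k) < c0) (hpos : ∀ i, 0 < (c0 - h (v k)) + tau * (h (v i) - c0))
    (rho : ι → ℚ) (hrho : ∀ i, i ≠ k →
      (c0 - h (v k)) / ((c0 - h (v k)) + tau * (h (v i) - c0)) ≤ rho i)
    (beta : ι → ℚ) (hb : ∀ i, 0 ≤ beta i) (hb1 : ∑ i, beta i = 1)
    (hcut : h (∑ i, beta i • v i) ≤ c0) :
    ∃ beta' : ι → ℚ, (∀ i, 0 ≤ beta' i) ∧ ∑ i, beta' i = 1 ∧
      ∑ i, beta' i • (v k + rho i • (v i - v k)) = ∑ i, beta i • v i := by
  set a := c0 - h (v k) with ha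
  have ha0 : 0 < a := by rw [ha]; linarith
  have hrp : ∀ i, i ≠ k → 0 < rho i := fun i hi =>
    lt_of_lt_of_le (div_pos ha0 (hpos i)) (hrho i hi)
  -- the coefficients for `i ≠ k`
  set c : ι → ℚ := fun i => if i = k then 0 else beta i / rho i with hc
  have hc0 : ∀ i, 0 ≤ c i := by
    intro i
    by_cases hi : i = k
    · simp [hc, hi]
    · simp only [hc, if_neg hi]
      exact div_nonneg (hb i) (hrp i hi).le
  have hcle : ∀ i, a * c i ≤ if i = k then 0 else beta i * (a + tau * (h (v i) - c0)) := by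
    intro i
    by_cases hi : i = k
    · simp [hc, hi]
    · simp only [hc, if_neg hi]
      have h1 := hrho i hi
      rw [div_le_iff₀ (hpos i)] at h1
      rw [← mul_div_assoc, div_le_iff₀ (hrp i hi)]
      nlinarith [hb i]
  have hsum : ∑ i, c i ≤ 1 := by
    have h1 : a * ∑ i, c i ≤ a := by
      rw [Finset.mul_sum]
      refine (Finset.sum_le_sum fun i _ => hcle i).trans ?_
      have h2 : ∑ i, (if i = k then (0 : ℚ) else beta i * (a + tau * (h (v i) - c0))) =
          ∑ i, beta i * (a + tau * (h (v i) - c0)) -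
            beta k * (a + tau * (h (v k) - c0)) := by
        rw [eq_sub_iff_add_eq]
        rw [← Finset.sum_erase_add _ _ (Finset.mem_univ k)]
        rw [← Finset.sum_erase_add _ (fun i => beta i * (a + tau * (h (v i) - c0)))
          (Finset.mem_univ k)]
        rw [if_pos rfl, add_zero]
        congr 1
        refine Finset.sum_congr rfl fun i hi => ?_
        rw [if_neg (Finset.ne_of_mem_erase hi)]
      rw [h2]
      have h3 : ∑ i, beta i * (a + tau * (h (v i) - c0)) =
          a + tau * (h (∑ i, beta i • v i) - c0) := by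
        rw [map_sum]
        have h4 : ∀ i, beta i * (a + tau * (h (v i) - c0)) =
            beta i * (a - tau * c0) + tau * (h (beta i • v i)) := by
          intro i
          rw [map_smul, smul_eq_mul]; ring
        rw [Finset.sum_congr rfl fun i _ => h4 i, Finset.sum_add_distrib, ← Finset.sum_mul,
          hb1, ← Finset.mul_sum]
        ring
      rw [h3]
      have h5 : beta k * (a + tau * (h (v k) - c0)) = beta k * a * (1 - tau) := by
        rw [ha]; ring
      rw [h5]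
      have h6 : tau * (h (∑ i, beta i • v i) - c0) ≤ 0 :=
        mul_nonpos_of_nonneg_of_nonpos ht (by linarith)
      have h7 : 0 ≤ beta k * a * (1 - tau) :=
        mul_nonneg (mul_nonneg (hb k) ha0.le) (by linarith)
      linarith
    by_contra hcon
    push Not at hcon
    nlinarith
  refine ⟨fun i => if i = k then 1 - ∑ i, c i else c i, ?_, ?_, ?_⟩
  · intro i
    by_cases hi : i = k
    · simp only [if_pos hi]; linarith
    · simp only [if_neg hi]; exact hc0 i
  · rw [← Finset.sum_erase_add _ _ (Finset.mem_univ k), if_pos rfl]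
    have h1 : ∑ i ∈ Finset.univ.erase k, (if i = k then 1 - ∑ i, c i else c i) =
        ∑ i ∈ Finset.univ.erase k, c i :=
      Finset.sum_congr rfl fun i hi => if_neg (Finset.ne_of_mem_erase hi)
    rw [h1]
    have h2 := Finset.sum_erase_add Finset.univ c (Finset.mem_univ k)
    have h3 : c k = 0 := by simp [hc]
    rw [h3, add_zero] at h2
    rw [h2]; ring
  · -- both sides are `v k + ∑ (…) • (v i - v k)`
    have h1 : ∑ i, beta i • v i = v k + ∑ i, beta i • (v i - v k) := by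
      simp only [smul_sub, Finset.sum_sub_distrib, ← Finset.sum_smul, hb1, one_smul]
      abel
    rw [h1]
    simp only [smul_add, Finset.sum_add_distrib, ← Finset.sum_smul]
    have h2 : ∑ i, (if i = k then 1 - ∑ i, c i else c i) = 1 := by
      rw [← Finset.sum_erase_add _ _ (Finset.mem_univ k), if_pos rfl]
      have h1 : ∑ i ∈ Finset.univ.erase k, (if i = k then 1 - ∑ i, c i else c i) =
          ∑ i ∈ Finset.univ.erase k, c i :=
        Finset.sum_congr rfl fun i hi => if_neg (Finset.ne_of_mem_erase hi)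
      rw [h1]
      have h2 := Finset.sum_erase_add Finset.univ c (Finset.mem_univ k)
      have h3 : c k = 0 := by simp [hc]
      rw [h3, add_zero] at h2
      rw [h2]; ring
    rw [h2, one_smul]
    congr 1
    refine Finset.sum_congr rfl fun i _ => ?_
    by_cases hi : i = k
    · subst hi; simp
    · simp only [if_neg hi, hc]
      rw [smul_smul, div_mul_cancel₀ _ (hrp i hi).ne']

end contain

section volume

variable {ι : Type} [DecidableEq ι]

/-- **The volume decreases.**  `s i = g i / a` are the normalised values of the cut at the vertices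
`i ≠ k`. -/
theorem update_volume (I : Finset ι) (n : ℕ) (hn : 1 ≤ n) (hI : I.card = n) (s e : ι → ℚ)
    (ek : ℚ) (hs : ∀ i ∈ I, -1 ≤ s i)
    (he : ∀ i ∈ I, |e i| ≤ 1 / (12 * (n : ℚ) ^ 2)) (hek : |ek| ≤ 1 / (12 * (n : ℚ) ^ 2))
    (hsum : ∑ i ∈ I, (1 + e i) * s i = 1 + ek) (rho : ι → ℚ)
    (hrho0 : ∀ i ∈ I, 0 ≤ rho i)
    (hrho : ∀ i ∈ I, rho i ≤ 1 / (1 + s i / (16 * (n : ℚ) ^ 4)) + 1 / (256 * (n : ℚ) ^ 5)) :
    ∏ i ∈ I, rho i ≤ 1 - 1 / (128 * (n : ℚ) ^ 4) := by
  have hn1 : (1 : ℚ) ≤ n := by exact_mod_cast hn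
  have hn0 : (0 : ℚ) < n := by linarith
  have hn2 : (1 : ℚ) ≤ (n : ℚ) ^ 2 := one_le_pow₀ hn1
  have hn4 : (1 : ℚ) ≤ (n : ℚ) ^ 4 := one_le_pow₀ hn1
  have hn3 : (1 : ℚ) ≤ (n : ℚ) ^ 3 := one_le_pow₀ hn1
  set ε : ℚ := 1 / (12 * (n : ℚ) ^ 2) with hε
  set τ : ℚ := 1 / (16 * (n : ℚ) ^ 4) with hτ
  have hε0 : 0 < ε := by rw [hε]; positivity
  have hε1 : ε ≤ 1 / 12 := by
    rw [hε]
    exact one_div_le_one_div_of_le (by norm_num) (by linarith)
  have hετ : ε * n ^ 2 = 1 / 12 := by
    rw [hε]; field_simp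
  have hτ0 : 0 < τ := by rw [hτ]; positivity
  have hτ1 : τ ≤ 1 / 16 := by
    rw [hτ]
    exact one_div_le_one_div_of_le (by norm_num) (by linarith)
  have hτn : τ * n ^ 4 = 1 / 16 := by
    rw [hτ]; field_simp
  -- upper bound for `s i`
  have hsup : ∀ i ∈ I, s i ≤ 2 * n := by
    intro i hi
    have h1 : (1 + e i) * s i = (1 + ek) - ∑ j ∈ I.erase i, (1 + e j) * s j := by
      rw [← hsum, ← Finset.sum_erase_add I _ hi]; ring
    have h2 : -∑ j ∈ I.erase i, (1 + e j) * s j ≤ (n - 1) * (1 + ε) := by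
      rw [← Finset.sum_neg_distrib]
      have h3 : ∑ j ∈ I.erase i, -((1 + e j) * s j) ≤ ∑ j ∈ I.erase i, (1 + ε) := by
        refine Finset.sum_le_sum fun j hj => ?_
        have h4 := abs_le.1 (he j (Finset.mem_of_mem_erase hj))
        have h5 := hs j (Finset.mem_of_mem_erase hj)
        nlinarith
      refine h3.trans ?_
      rw [Finset.sum_const, Finset.card_erase_of_mem hi, hI, nsmul_eq_mul, Nat.cast_sub hn]
      simp
    have h6 := abs_le.1 hek
    have h7 := abs_le.1 (he i hi)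
    have h8 : (1 + e i) * s i ≤ n * (1 + ε) := by rw [h1]; nlinarith
    by_contra hcon
    push Not at hcon
    have h9 : (1 + e i) * (2 * n) < (1 + e i) * s i := by
      apply mul_lt_mul_of_pos_left hcon
      linarith
    nlinarith
  have habs : ∀ i ∈ I, |s i| ≤ 2 * n := by
    intro i hi
    rw [abs_le]
    exact ⟨by linarith [hs i hi], hsup i hi⟩
  -- lower bound for the sum
  have hsumlow : 3 / 4 ≤ ∑ i ∈ I, s i := by
    have h1 : ∑ i ∈ I, s i = (1 + ek) - ∑ i ∈ I, e i * s i := by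
      rw [← hsum, ← Finset.sum_sub_distrib]
      refine Finset.sum_congr rfl fun i _ => ?_
      ring
    have h2 : ∑ i ∈ I, e i * s i ≤ n * (ε * (2 * n)) := by
      have h3 : ∑ i ∈ I, e i * s i ≤ ∑ i ∈ I, ε * (2 * n) := by
        refine Finset.sum_le_sum fun i hi => ?_
        refine (le_abs_self _).trans ?_
        rw [abs_mul]
        exact mul_le_mul (he i hi) (habs i hi) (abs_nonneg _) hε0.le
      refine h3.trans ?_
      rw [Finset.sum_const, hI, nsmul_eq_mul]
    have h6 := abs_le.1 hek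
    rw [h1]
    nlinarith
  -- the product of `1 + τ s i`
  have hprod : 1 + τ / 2 ≤ ∏ i ∈ I, (1 + τ * s i) := by
    have h1 : ∑ i ∈ I, |τ * s i| ≤ τ * (2 * n ^ 2) := by
      have h2 : ∑ i ∈ I, |τ * s i| ≤ ∑ i ∈ I, τ * (2 * n) := by
        refine Finset.sum_le_sum fun i hi => ?_
        rw [abs_mul, abs_of_pos hτ0]
        exact mul_le_mul_of_nonneg_left (habs i hi) hτ0.le
      refine h2.trans ?_
      rw [Finset.sum_const, hI, nsmul_eq_mul]
      nlinarith
    have h3 : τ * (2 * n ^ 2) ≤ 1 := by nlinarith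
    have h4 := abs_prod_sub_le I (fun i => τ * s i) (h1.trans h3)
    have h5 := (abs_le.1 h4).1
    have h6 : (∑ i ∈ I, |τ * s i|) ^ 2 ≤ (τ * (2 * n ^ 2)) ^ 2 :=
      pow_le_pow_left₀ (Finset.sum_nonneg fun i _ => abs_nonneg _) h1 2
    have h7 : (τ * (2 * n ^ 2)) ^ 2 = τ / 4 := by
      have : (τ * (2 * n ^ 2)) ^ 2 = 4 * τ * (τ * n ^ 4) := by ring
      rw [this, hτn]; ring
    have h8 : ∑ i ∈ I, τ * s i = τ * ∑ i ∈ I, s i := by rw [Finset.mul_sum]
    have h9 : τ * (3 / 4) ≤ τ * ∑ i ∈ I, s i := mul_le_mul_of_nonneg_left hsumlow hτ0.le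
    simp only [h8] at h5
    linarith
  -- rounding
  have hpos : ∀ i ∈ I, 15 / 16 ≤ 1 + τ * s i := by
    intro i hi
    nlinarith [hs i hi]
  have hle2 : ∀ i ∈ I, 1 + τ * s i ≤ 2 := by
    intro i hi
    have h1 := hsup i hi
    have h2 : τ * s i ≤ τ * (2 * n) := mul_le_mul_of_nonneg_left h1 hτ0.le
    have h3 : τ * (2 * n) ≤ 1 := by
      have h4 : (n : ℚ) ≤ n ^ 4 := by
        calc (n : ℚ) = n ^ 1 := (pow_one _).symm
          _ ≤ n ^ 4 := pow_le_pow_right₀ hn1 (by norm_num)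
      nlinarith
    linarith
  set δ : ℚ := 1 / (256 * (n : ℚ) ^ 5) with hδ
  have hδ0 : 0 < δ := by rw [hδ]; positivity
  have hδτ : 16 * n * δ = τ := by
    rw [hδ, hτ]; field_simp; ring
  have hr : ∀ i ∈ I, rho i * (1 + τ * s i) ≤ 1 + 2 * δ := by
    intro i hi
    have h1 := hrho i hi
    have h2 : s i / (16 * (n : ℚ) ^ 4) = τ * s i := by
      rw [hτ]; ring
    rw [h2] at h1
    have h3 : (0 : ℚ) < 1 + τ * s i := by linarith [hpos i hi]
    have h4 : rho i * (1 + τ * s i) ≤ (1 / (1 + τ * s i) + δ) * (1 + τ * s i) :=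
      mul_le_mul_of_nonneg_right h1 h3.le
    have h5 : (1 / (1 + τ * s i) + δ) * (1 + τ * s i) = 1 + δ * (1 + τ * s i) := by
      field_simp
    rw [h5] at h4
    nlinarith [hle2 i hi]
  have hP1 : (∏ i ∈ I, rho i) * ∏ i ∈ I, (1 + τ * s i) ≤ (1 + 2 * δ) ^ n := by
    rw [← Finset.prod_mul_distrib]
    calc ∏ i ∈ I, rho i * (1 + τ * s i) ≤ ∏ _i ∈ I, (1 + 2 * δ) := by
          refine Finset.prod_le_prod (fun i hi => ?_) (fun i hi => hr i hi)
          exact mul_nonneg (hrho0 i hi) (by linarith [hpos i hi])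
      _ = (1 + 2 * δ) ^ n := by rw [Finset.prod_const, hI]
  -- `(1 + 2 δ) ^ n ≤ 1 + τ / 4`
  have hpow : (1 + 2 * δ) ^ n ≤ 1 + τ / 4 := by
    have h1 : (1 + 2 * δ) * (1 - 2 * δ) ≤ 1 := by nlinarith
    have h2 : (1 + 2 * δ) ^ n * (1 - 2 * δ) ^ n ≤ 1 := by
      rw [← mul_pow]
      have hδ1 : δ ≤ 1 / 256 := by
        rw [hδ]
        exact one_div_le_one_div_of_le (by norm_num) (by
          have : (1 : ℚ) ≤ (n : ℚ) ^ 5 := one_le_pow₀ hn1
          linarith)
      exact pow_le_one₀ (mul_nonneg (by linarith) (by linarith)) h1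
    have h3 : 1 - n * (2 * δ) ≤ (1 - 2 * δ) ^ n := by
      have hδ1 : δ ≤ 1 / 256 := by
        rw [hδ]
        exact one_div_le_one_div_of_le (by norm_num) (by
          have : (1 : ℚ) ≤ (n : ℚ) ^ 5 := one_le_pow₀ hn1
          linarith)
      have := one_add_mul_le_pow (a := -(2 * δ)) (by linarith) n
      calc 1 - n * (2 * δ) = 1 + n * (-(2 * δ)) := by ring
        _ ≤ (1 + -(2 * δ)) ^ n := this
        _ = (1 - 2 * δ) ^ n := by ring
    have h4 : n * (2 * δ) = τ / 8 := by rw [← hδτ]; ring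
    rw [h4] at h3
    by_contra hcon
    push Not at hcon
    have h5 : (1 + τ / 4) * (1 - τ / 8) < (1 + 2 * δ) ^ n * (1 - 2 * δ) ^ n := by
      have h6 : 0 < 1 - τ / 8 := by linarith
      calc (1 + τ / 4) * (1 - τ / 8) < (1 + 2 * δ) ^ n * (1 - τ / 8) :=
            mul_lt_mul_of_pos_right hcon h6
        _ ≤ (1 + 2 * δ) ^ n * (1 - 2 * δ) ^ n :=
            mul_le_mul_of_nonneg_left h3 (by positivity)
    nlinarith
  have hRnn : 0 ≤ ∏ i ∈ I, rho i := Finset.prod_nonneg hrho0
  have h10 : (∏ i ∈ I, rho i) * (1 + τ / 2) ≤ 1 + τ / 4 :=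
    (mul_le_mul_of_nonneg_left hprod hRnn).trans (hP1.trans hpow)
  have h11 : (1 : ℚ) / (128 * (n : ℚ) ^ 4) = τ / 8 := by
    rw [hτ]; field_simp; norm_num
  rw [h11]
  by_contra hcon
  push Not at hcon
  have h12 : (1 - τ / 8) * (1 + τ / 2) < (∏ i ∈ I, rho i) * (1 + τ / 2) :=
    mul_lt_mul_of_pos_right hcon (by linarith)
  nlinarith

end volume

/-- `(1 - 1/m)^m ≤ 1/2`. -/
lemma one_sub_inv_pow_le (m : ℕ) (hm : 1 ≤ m) : (1 - 1 / (m : ℚ)) ^ m ≤ 1 / 2 := by
  have hm1 : (1 : ℚ) ≤ m := by exact_mod_cast hm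
  have h0 : 0 ≤ 1 - 1 / (m : ℚ) := by
    have : 1 / (m : ℚ) ≤ 1 := by rw [div_le_one (by linarith)]; exact hm1
    linarith
  have h1 : (1 - 1 / (m : ℚ)) * (1 + 1 / (m : ℚ)) ≤ 1 := by
    have : 0 ≤ (1 / (m : ℚ)) ^ 2 := by positivity
    nlinarith
  have h2 : (1 - 1 / (m : ℚ)) ^ m * (1 + 1 / (m : ℚ)) ^ m ≤ 1 := by
    rw [← mul_pow]
    exact pow_le_one₀ (mul_nonneg h0 (by positivity)) h1
  have h3 : 2 ≤ (1 + 1 / (m : ℚ)) ^ m := by
    have := one_add_mul_le_pow (a := 1 / (m : ℚ)) (by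
      have : (0 : ℚ) ≤ 1 / m := by positivity
      linarith) m
    have h4 : (m : ℚ) * (1 / m) = 1 := by field_simp
    rw [h4] at this
    linarith
  have h5 : 0 ≤ (1 - 1 / (m : ℚ)) ^ m := pow_nonneg h0 m
  nlinarith

end Pool.Agent.MonFPT
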