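import Pool.Agent.MonFPT.Cones

/-!
# Usable generators

A generator `x` of the piece `j` is usable if `t - L x` lies in the cone generated by all columns;
equivalently some point of the relaxation uses `x` with weight one.
-/

set_option autoImplicit false

namespace Pool.Agent.MonFPT

section

variable {J W : Type} [Fintype J] [DecidableEq J] {V : J → Type} [∀ j, AddCommGroup (V j)]
  [∀ j, Module ℚ (V j)] [AddCommGroup W] [Module ℚ W]

/-- The cone generated by all the columns `L (single j g)`, `g ∈ g j`. -/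
def colCone (g : ∀ j, Set (V j)) (L : (∀ j, V j) →ₗ[ℚ] W) : PointedCone ℚ W :=
  PointedCone.hull ℚ {w | ∃ j, ∃ x ∈ g j, w = L (Pi.single j x)}

lemma mem_colCone_iff (g : ∀ j, Set (V j)) (L : (∀ j, V j) →ₗ[ℚ] W) (w : W) :
    w ∈ colCone g L ↔ ∃ y : ∀ j, V j, (∀ j, y j ∈ PointedCone.hull ℚ (g j)) ∧ L y = w := by
  constructor
  · intro h
    refine Submodule.span_induction ?_ ?_ ?_ ?_ h
    · rintro _ ⟨j, x, hx, rfl⟩
      refine ⟨Pi.single j x, fun i => ?_, rfl⟩
      by_cases hij : i = j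
      · subst hij
        rw [Pi.single_eq_same]
        exact Submodule.subset_span hx
      · rw [Pi.single_eq_of_ne hij]
        exact Submodule.zero_mem _
    · exact ⟨0, fun _ => Submodule.zero_mem _, map_zero L⟩
    · rintro _ _ _ _ ⟨y1, h1, rfl⟩ ⟨y2, h2, rfl⟩
      exact ⟨y1 + y2, fun j => Submodule.add_mem _ (h1 j) (h2 j), map_add L _ _⟩
    · rintro ⟨r, hr⟩ _ _ ⟨y, hy, rfl⟩
      exact ⟨r • y, fun j => PointedCone.smul_mem _ hr (hy j), map_smul L _ _⟩
  · rintro ⟨y, hy, rfl⟩
    have h1 : y = ∑ j, Pi.single j (y j) := (Finset.univ_sum_single y).symm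
    rw [h1, map_sum]
    refine Submodule.sum_mem _ fun j _ => ?_
    refine Submodule.span_induction (p := fun z _ => L (Pi.single j z) ∈ colCone g L)
      ?_ ?_ ?_ ?_ (hy j)
    · intro x hx
      exact Submodule.subset_span ⟨j, x, hx, rfl⟩
    · rw [Pi.single_zero, map_zero]
      exact Submodule.zero_mem _
    · intro a b _ _ ha hb
      rw [Pi.single_add, map_add]
      exact Submodule.add_mem _ ha hb
    · rintro ⟨r, hr⟩ a _ ha
      have h2 : (Pi.single j ((⟨r, hr⟩ : {c : ℚ // 0 ≤ c}) • a) : ∀ j, V j) =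
          r • (Pi.single j a : ∀ j, V j) := by
        rw [← Pi.single_smul]; rfl
      rw [h2, map_smul]
      exact PointedCone.smul_mem _ hr ha

/-- Usable generators. -/
def Usable (g : ∀ j, Set (V j)) (L : (∀ j, V j) →ₗ[ℚ] W) (t : W) (j : J) (x : V j) : Prop :=
  t - L (Pi.single j x) ∈ colCone g L

lemma usable_iff (g : ∀ j, Set (V j)) (L : (∀ j, V j) →ₗ[ℚ] W) (t : W) (j : J) (x : V j)
    (hx : x ∈ PointedCone.hull ℚ (g j)) :
    Usable g L t j x ↔ ∃ z ∈ Rel (fun j => PointedCone.hull ℚ (g j)) L t,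
      z j - x ∈ PointedCone.hull ℚ (g j) := by
  unfold Usable
  rw [mem_colCone_iff]
  constructor
  · rintro ⟨y, hy, hyL⟩
    refine ⟨y + Pi.single j x, ⟨fun i => ?_, ?_⟩, ?_⟩
    · by_cases hij : i = j
      · subst hij
        rw [Pi.add_apply, Pi.single_eq_same]
        exact Submodule.add_mem _ (hy i) hx
      · rw [Pi.add_apply, Pi.single_eq_of_ne hij, add_zero]
        exact hy i
    · rw [map_add, hyL]; abel
    · rw [Pi.add_apply, Pi.single_eq_same]
      simpa using hy j
  · rintro ⟨z, ⟨hz1, hz2⟩, hz3⟩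
    refine ⟨z - Pi.single j x, fun i => ?_, ?_⟩
    · by_cases hij : i = j
      · subst hij
        rw [Pi.sub_apply, Pi.single_eq_same]
        exact hz3
      · rw [Pi.sub_apply, Pi.single_eq_of_ne hij, sub_zero]
        exact hz1 i
    · rw [map_sub, hz2]

/-- A functional which is nonnegative on the columns and separates `t - L x` cuts off `x` from all
usable generators. -/
lemma usable_cut (g : ∀ j, Set (V j)) (L : (∀ j, V j) →ₗ[ℚ] W) (t : W) (w : W →ₗ[ℚ] ℚ)
    (hw : ∀ j, ∀ x ∈ g j, 0 ≤ w (L (Pi.single j x))) (j : J) (x : V j)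
    (hx : w (t - L (Pi.single j x)) < 0) (x' : V j) (hx' : Usable g L t j x') :
    w (L (Pi.single j x')) < w (L (Pi.single j x)) := by
  have h1 : ∀ z ∈ colCone g L, 0 ≤ w z := by
    intro z hz
    refine Submodule.span_induction ?_ ?_ ?_ ?_ hz
    · rintro _ ⟨i, y, hy, rfl⟩; exact hw i y hy
    · simp
    · intro a b _ _ ha hb; rw [map_add]; exact add_nonneg ha hb
    · rintro ⟨r, hr⟩ a _ ha
      have : w ((⟨r, hr⟩ : {c : ℚ // 0 ≤ c}) • a) = r * w a := by
        rw [← smul_eq_mul, ← map_smul]; rfl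
      rw [this]; exact mul_nonneg hr ha
  have h2 := h1 _ hx'
  rw [map_sub] at hx h2
  linarith

end

end Pool.Agent.MonFPT
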